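import Pool.Agent.SAR.Stmts

/-!
MP_c21969_lc, project SAR, module AV: the value of the lift.
-/

set_option autoImplicit false

namespace Pool.SAR

open Matrix Finset
open scoped ComplexOrder

theorem t_AV : Stmt_GF → Stmt_AV := by
  intro hGF ι _ _ F _ _ _ D c φ hc hD hφ hfin hcard
  have hpos : ∀ i, 0 < ‖φ i‖ := fun i => lt_of_lt_of_le hc (hφ i)
  have hv : ∀ i, ‖‖φ i‖⁻¹ • φ i‖ = 1 := by
    intro i
    rw [norm_smul, norm_inv, norm_norm]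
    exact inv_mul_cancel₀ (hpos i).ne'
  have hS := hGF ι F D (fun i => ‖φ i‖⁻¹ • φ i) hv hfin
  have hD0 : (1 : ℝ) ≤ D := by exact_mod_cast hD
  have hN : (Fintype.card ι : ℝ) = 8 * D := by rw [hcard]; push_cast; ring
  have hN0 : (0 : ℝ) < Fintype.card ι := by rw [hN]; linarith
  set S : ℝ := ∑ i, ∑ j, (inner ℝ (‖φ i‖⁻¹ • φ i) (‖φ j‖⁻¹ • φ j)) ^ 2 with hSd
  have hS1 : 64 * (D : ℝ) ≤ S := by
    rw [hN] at hS
    have h1 : (D : ℝ) * (64 * D) ≤ D * S := by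
      calc (D : ℝ) * (64 * D) = (8 * D) ^ 2 := by ring
        _ ≤ _ := hS
    exact le_of_mul_le_mul_left h1 (by linarith)
  have hterm : ∀ i j, (Fintype.card ι : ℝ)⁻¹ * (1 / 2 * c ^ 2 * (if i = j then 1 else 0) +
      1 / 2 * c ^ 2 * (inner ℝ (‖φ i‖⁻¹ • φ i) (‖φ j‖⁻¹ • φ j)) ^ 2) ≤
      inner ℝ (φ i) (φ j) * ((Fintype.card ι : ℝ)⁻¹ *
        (1 / 2 * (if i = j then 1 else 0) + 1 / 2 * inner ℝ (‖φ i‖⁻¹ • φ i) (‖φ j‖⁻¹ • φ j))) := by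
    intro i j
    have h1 : inner ℝ (φ i) (φ j) =
        ‖φ i‖ * ‖φ j‖ * inner ℝ (‖φ i‖⁻¹ • φ i) (‖φ j‖⁻¹ • φ j) := by
      rw [real_inner_smul_left, real_inner_smul_right]
      have h2 := (hpos i).ne'
      have h3 := (hpos j).ne'
      field_simp
    set t : ℝ := inner ℝ (‖φ i‖⁻¹ • φ i) (‖φ j‖⁻¹ • φ j) with ht
    rw [h1]
    have h4 : c ^ 2 ≤ ‖φ i‖ * ‖φ j‖ := by
      rw [sq]
      exact mul_le_mul (hφ i) (hφ j) hc.le (hpos i).le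
    have h5 : (0 : ℝ) ≤ (Fintype.card ι : ℝ)⁻¹ := by positivity
    have h6 : ‖φ i‖ * ‖φ j‖ * t * ((Fintype.card ι : ℝ)⁻¹ *
        (1 / 2 * (if i = j then 1 else 0) + 1 / 2 * t)) = (Fintype.card ι : ℝ)⁻¹ *
        (1 / 2 * (‖φ i‖ * ‖φ j‖) * (t * (if i = j then 1 else 0)) +
          1 / 2 * (‖φ i‖ * ‖φ j‖) * t ^ 2) := by ring
    rw [h6]
    refine mul_le_mul_of_nonneg_left (add_le_add ?_ ?_) h5
    · by_cases hij : i = j
      · subst hij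
        have h7 : t = 1 := by
          rw [ht, real_inner_self_eq_norm_sq, hv i]
          norm_num
        rw [if_pos rfl, h7]
        linarith
      · rw [if_neg hij]
        simp
    · have h8 : 0 ≤ t ^ 2 := sq_nonneg _
      nlinarith
  have hsum := Finset.sum_le_sum fun i (_ : i ∈ (univ : Finset ι)) =>
    Finset.sum_le_sum fun j (_ : j ∈ (univ : Finset ι)) => hterm i j
  refine lt_of_lt_of_le ?_ hsum
  have h9 : ∑ i : ι, ∑ j : ι, (Fintype.card ι : ℝ)⁻¹ *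
      (1 / 2 * c ^ 2 * (if i = j then 1 else 0) +
      1 / 2 * c ^ 2 * (inner ℝ (‖φ i‖⁻¹ • φ i) (‖φ j‖⁻¹ • φ j)) ^ 2) =
      (Fintype.card ι : ℝ)⁻¹ * (1 / 2 * c ^ 2 * Fintype.card ι + 1 / 2 * c ^ 2 * S) := by
    simp only [← Finset.mul_sum, Finset.sum_add_distrib, hSd]
    congr 2
    simp
  rw [h9, hN]
  have h10 : (0 : ℝ) < 8 * D := by linarith
  have h11 : (8 * (D : ℝ))⁻¹ * (1 / 2 * c ^ 2 * (8 * D) + 1 / 2 * c ^ 2 * S) ≥
      (8 * (D : ℝ))⁻¹ * (1 / 2 * c ^ 2 * (8 * D) + 1 / 2 * c ^ 2 * (64 * D)) := by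
    apply mul_le_mul_of_nonneg_left _ (by positivity)
    have : 0 ≤ 1 / 2 * c ^ 2 := by positivity
    nlinarith
  have h12 : (8 * (D : ℝ))⁻¹ * (1 / 2 * c ^ 2 * (8 * D) + 1 / 2 * c ^ 2 * (64 * D)) =
      9 / 2 * c ^ 2 := by
    field_simp
    ring
  have h13 : 0 < c ^ 2 := by positivity
  linarith

end Pool.SAR
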