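import Pool.Agent.SAR.Stmts

set_option autoImplicit false

namespace Pool.SAR

open Matrix Finset
open scoped ComplexOrder

namespace CAX

/-- Off-diagonal entries of a positive semidefinite matrix. -/
lemma offdiag {𝕜 : Type} [RCLike 𝕜] {d : ℕ} (M : Matrix (Fin d) (Fin d) 𝕜) (hM : M.PosSemidef)
    (i j : Fin d) :
    ‖M i j‖ ≤ (RCLike.re (M i i) + RCLike.re (M j j)) / 2 := by
  have hd : ∀ k, 0 ≤ RCLike.re (M k k) := by
    intro k
    have h := hM.diag_nonneg (i := k)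
    exact (RCLike.nonneg_iff.1 h).1
  by_cases h0 : M i j = 0
  · rw [h0, norm_zero]
    have h1 := hd i
    have h2 := hd j
    linarith
  have hn : (0 : ℝ) < ‖M i j‖ := norm_pos_iff.2 h0
  obtain ⟨c, hc⟩ : ∃ c : 𝕜, c = -(star (M i j) * (((‖M i j‖)⁻¹ : ℝ) : 𝕜)) := ⟨_, rfl⟩
  have hcn : ‖c‖ = 1 := by
    rw [hc, norm_neg, norm_mul, norm_star, RCLike.norm_ofReal, abs_of_pos (inv_pos.2 hn)]
    exact mul_inv_cancel₀ hn.ne'
  have hcm : M i j * c = -((‖M i j‖ : ℝ) : 𝕜) := by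
    rw [hc]
    have h1 : M i j * star (M i j) = ((‖M i j‖ ^ 2 : ℝ) : 𝕜) := by
      have := RCLike.mul_conj (M i j)
      rw [RCLike.star_def, this]
      push_cast
      rfl
    rw [mul_neg, ← mul_assoc, h1, ← RCLike.ofReal_mul]
    congr 2
    field_simp
  have hherm : M j i = star (M i j) := by
    have := hM.isHermitian.apply j i
    exact this.symm
  have hq := hM.dotProduct_mulVec_nonneg (Pi.single i 1 + Pi.single j c)
  have hq' : star (Pi.single i 1 + Pi.single j c) ⬝ᵥ (M *ᵥ (Pi.single i 1 + Pi.single j c)) =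
      M i i + M j j * (star c * c) + (M i j * c + star (M i j * c)) := by
    rw [Matrix.mulVec_add, dotProduct_add, star_add, add_dotProduct, add_dotProduct]
    simp only [← Pi.single_star, single_dotProduct, Matrix.mulVec_single, star_one]
    simp [hherm, star_mul]
    ring
  rw [hq'] at hq
  have hcc : star c * c = 1 := by
    have := RCLike.conj_mul c
    rw [RCLike.star_def, this, hcn]
    simp
  rw [hcc, mul_one, hcm] at hq
  have h3 := (RCLike.nonneg_iff.1 hq).1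
  simp at h3
  linarith

/-- The part of a level-two lift that is used. -/
lemma off_sum {𝕜 : Type} [RCLike 𝕜] {d : ℕ} (m : ℕ)
    (Y : Finset (Fin d) → Finset (Fin d) → Matrix (Fin d) (Fin d) 𝕜) (hY : Lift m 2 Y) :
    ∑ i, ∑ j ∈ univ.erase i, ‖Y ∅ ∅ j i‖ ≤ (m : ℝ) - 1 := by
  have hX1 : ∀ i j, Y ∅ ∅ i j = Y {i} ∅ i j := by
    intro i j
    have h1 := hY.split ∅ ∅ (by simp) (by simp) i (by simp)
    have h2 := hY.zero ∅ (insert i ∅) (by simp) (by simp) i (by simp) j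
    rw [h1, Matrix.add_apply, h2, add_zero]
    rfl
  have hX2 : ∀ i j, i ≠ j → Y ∅ ∅ i j = Y (insert j {i}) ∅ i j := by
    intro i j hij
    have hdj : Disjoint ({i} : Finset (Fin d)) (insert j ∅) := by
      simp [hij]
    have hcard : (({i} : Finset (Fin d)) ∪ insert j ∅).card ≤ 2 := by
      refine le_trans (Finset.card_union_le _ _) ?_
      simp
    have h1 := hY.split {i} ∅ (by simp) (by simp) j (by simpa using Ne.symm hij)
    have h2 := hY.zero {i} (insert j ∅) hdj hcard j (by simp) i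
    have h3 := (hY.psd {i} (insert j ∅) hdj hcard).isHermitian.apply i j
    rw [h2, star_zero] at h3
    rw [hX1, h1, Matrix.add_apply, ← h3, add_zero]
  obtain ⟨a, ha⟩ : ∃ a : Fin d → Fin d → ℝ,
    ∀ i j, a i j = RCLike.re (Y (insert j {i}) ∅ i i) := ⟨_, fun _ _ => rfl⟩
  have hb : ∀ i j, i ≠ j → ‖Y ∅ ∅ j i‖ ≤ (a i j + a j i) / 2 := by
    intro i j hij
    have hpsd := hY.psd (insert i {j}) ∅ (by simp) (by
      rw [Finset.union_empty]
      exact Finset.card_le_two)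
    have h1 := offdiag _ hpsd j i
    rw [hX2 j i hij.symm, ha, ha]
    have h2 : (insert j {i} : Finset (Fin d)) = insert i {j} := Finset.pair_comm j i
    rw [h2]
    linarith
  have hs : ∀ i, ∑ j ∈ univ.erase i, a i j ≤ ((m : ℝ) - 1) * RCLike.re (Y ∅ ∅ i i) := by
    intro i
    have h1 := hY.sparse {i} ∅ (by simp) (by simp)
    have h2 := h1.diag_nonneg (i := i)
    have h3 := (RCLike.nonneg_iff.1 h2).1
    rw [hX1 i i]
    have h4 : (({i} : Finset (Fin d)) ∪ ∅)ᶜ = univ.erase i := by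
      ext k
      simp
    rw [h4] at h3
    simp only [Matrix.sub_apply, Matrix.smul_apply, Matrix.sum_apply, Finset.card_singleton,
      Nat.cast_one, map_sub, map_sum, RCLike.smul_re] at h3
    simp only [ha]
    linarith
  have htr : ∑ i, RCLike.re (Y ∅ ∅ i i) = 1 := by
    have h1 := congrArg RCLike.re hY.trace
    simpa [Matrix.trace] using h1
  have hsym : ∑ i, ∑ j ∈ univ.erase i, a j i = ∑ i, ∑ j ∈ univ.erase i, a i j := by
    rw [Finset.sum_comm' (t' := univ) (s' := fun j => univ.erase j)]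
    intro x y
    simp [ne_comm]
  calc ∑ i, ∑ j ∈ univ.erase i, ‖Y ∅ ∅ j i‖
      ≤ ∑ i, ∑ j ∈ univ.erase i, (a i j + a j i) / 2 := by
        refine Finset.sum_le_sum fun i _ => Finset.sum_le_sum fun j hj => ?_
        exact hb i j (Finset.ne_of_mem_erase hj).symm
    _ = (∑ i, ∑ j ∈ univ.erase i, a i j + ∑ i, ∑ j ∈ univ.erase i, a j i) / 2 := by
        rw [← Finset.sum_add_distrib, Finset.sum_div]
        refine Finset.sum_congr rfl fun i _ => ?_
        rw [← Finset.sum_add_distrib, Finset.sum_div]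
    _ = ∑ i, ∑ j ∈ univ.erase i, a i j := by
        rw [hsym]
        ring
    _ ≤ ∑ i, ((m : ℝ) - 1) * RCLike.re (Y ∅ ∅ i i) := Finset.sum_le_sum fun i _ => hs i
    _ = (m : ℝ) - 1 := by
        rw [← Finset.mul_sum, htr, mul_one]

/-- The value of the quadratic form against a matrix of small coherence. -/
lemma val_bound {𝕜 : Type} [RCLike 𝕜] {n d : ℕ} (m : ℕ) (μ : ℝ) (hμ : 0 ≤ μ)
    (Φ : Matrix (Fin n) (Fin d) 𝕜) (h1 : ∀ i, (Φᴴ * Φ) i i = 1)
    (h2 : ∀ i j, i ≠ j → ‖(Φᴴ * Φ) i j‖ ≤ μ)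
    (X : Matrix (Fin d) (Fin d) 𝕜) (htr : X.trace = 1)
    (hoff : ∑ i, ∑ j ∈ univ.erase i, ‖X j i‖ ≤ (m : ℝ) - 1) :
    |val Φ X - 1| ≤ μ * ((m : ℝ) - 1) := by
  have htr' : ∑ i, RCLike.re (X i i) = 1 := by
    have h3 := congrArg RCLike.re htr
    simpa [Matrix.trace] using h3
  have hval : val Φ X - 1 = ∑ i, ∑ j ∈ univ.erase i, RCLike.re ((Φᴴ * Φ) i j * X j i) := by
    rw [← htr']
    unfold val
    rw [Matrix.trace, map_sum, ← Finset.sum_sub_distrib]
    refine Finset.sum_congr rfl fun i _ => ?_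
    rw [Matrix.diag_apply, Matrix.mul_apply, map_sum, ← Finset.add_sum_erase _ _ (mem_univ i),
      h1 i, one_mul]
    ring
  rw [hval]
  calc |∑ i, ∑ j ∈ univ.erase i, RCLike.re ((Φᴴ * Φ) i j * X j i)|
      ≤ ∑ i, |∑ j ∈ univ.erase i, RCLike.re ((Φᴴ * Φ) i j * X j i)| :=
        Finset.abs_sum_le_sum_abs _ _
    _ ≤ ∑ i, ∑ j ∈ univ.erase i, |RCLike.re ((Φᴴ * Φ) i j * X j i)| :=
        Finset.sum_le_sum fun i _ => Finset.abs_sum_le_sum_abs _ _
    _ ≤ ∑ i, ∑ j ∈ univ.erase i, μ * ‖X j i‖ := by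
        refine Finset.sum_le_sum fun i _ => Finset.sum_le_sum fun j hj => ?_
        refine le_trans (RCLike.abs_re_le_norm _) ?_
        rw [norm_mul]
        exact mul_le_mul_of_nonneg_right (h2 i j (Finset.ne_of_mem_erase hj).symm) (norm_nonneg _)
    _ = μ * ∑ i, ∑ j ∈ univ.erase i, ‖X j i‖ := by
        simp only [Finset.mul_sum]
    _ ≤ μ * ((m : ℝ) - 1) := mul_le_mul_of_nonneg_left hoff hμ

end CAX

theorem t_CA : Stmt_CA := by
  intro 𝕜 _ n d m μ _ hμ hm Φ h1 h2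
  have hsq : Real.sqrt (2 / 5) ^ 2 = 2 / 5 := Real.sq_sqrt (by norm_num)
  refine ⟨Real.sqrt (2 / 5), Real.sqrt_pos.2 (by norm_num), fun Y hY => ?_⟩
  have h3 := CAX.val_bound m μ hμ Φ h1 h2 (Y ∅ ∅) hY.trace (CAX.off_sum m Y hY)
  rw [abs_le] at h3
  rw [hsq]
  constructor
  · linarith [h3.1, mul_comm μ ((m : ℝ) - 1)]
  · linarith [h3.2, mul_comm μ ((m : ℝ) - 1)]

end Pool.SAR
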