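import Pool.Agent.SAR.Stmts

/-!
GA: duality for families of vectors with the restricted isometry property.
-/

set_option autoImplicit false

namespace Pool.SAR

open Matrix Finset
open scoped ComplexOrder

theorem t_GA : Stmt_GA := by
  intro ι _ _ F _ _ m c φ hm hc h
  have h1 : ∀ j, c ≤ ‖φ j‖ := by
    intro j
    have h2 := (h {j} (by rw [card_singleton]; exact hm) (fun _ => 1)).1
    rw [sum_singleton, sum_singleton, one_smul, one_pow, mul_one] at h2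
    exact (sq_le_sq₀ hc.le (norm_nonneg _)).1 h2
  refine ⟨h1, fun J hJ y => ?_⟩
  set x : ι → ℝ := fun j => inner ℝ y (‖φ j‖⁻¹ • φ j) with hx
  set S : ℝ := ∑ j ∈ J, x j ^ 2 with hS
  set z : F := ∑ j ∈ J, (x j * ‖φ j‖⁻¹) • φ j with hz
  have hS0 : 0 ≤ S := sum_nonneg fun j _ => sq_nonneg _
  have hyz : inner ℝ y z = S := by
    rw [hz, inner_sum, hS]
    refine sum_congr rfl fun j _ => ?_
    rw [mul_smul, real_inner_smul_right, sq]
  have hzS : ‖z‖ ^ 2 ≤ 4 * S := by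
    refine (h J hJ fun j => x j * ‖φ j‖⁻¹).2.trans ?_
    have h3 : ∀ j ∈ J, (x j * ‖φ j‖⁻¹) ^ 2 ≤ x j ^ 2 * (c⁻¹) ^ 2 := by
      intro j _
      rw [mul_pow]
      refine mul_le_mul_of_nonneg_left ?_ (sq_nonneg _)
      have h4 : ‖φ j‖⁻¹ ≤ c⁻¹ := inv_anti₀ hc (h1 j)
      exact pow_le_pow_left₀ (by positivity) h4 2
    have h5 := sum_le_sum h3
    rw [← sum_mul] at h5
    calc 4 * c ^ 2 * ∑ j ∈ J, (x j * ‖φ j‖⁻¹) ^ 2
        ≤ 4 * c ^ 2 * ((∑ j ∈ J, x j ^ 2) * (c⁻¹) ^ 2) := by gcongr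
      _ = 4 * S := by
        rw [← hS]
        field_simp
  have hcs : S ≤ ‖y‖ * ‖z‖ := by
    rw [← hyz]
    exact real_inner_le_norm y z
  have h6 : S ^ 2 ≤ ‖y‖ ^ 2 * (4 * S) := by
    calc S ^ 2 ≤ (‖y‖ * ‖z‖) ^ 2 := pow_le_pow_left₀ hS0 hcs 2
      _ = ‖y‖ ^ 2 * ‖z‖ ^ 2 := by ring
      _ ≤ ‖y‖ ^ 2 * (4 * S) := mul_le_mul_of_nonneg_left hzS (sq_nonneg _)
  rcases hS0.eq_or_lt with h7 | h7
  · show S ≤ _
    rw [← h7]
    positivity
  · show S ≤ _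
    nlinarith [sq_nonneg ‖y‖]

end Pool.SAR
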