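import Pool.Agent.SAR.Stmts

/-!
MP_c21969_lc, project SAR, module GB: block sums.
-/

set_option autoImplicit false

namespace Pool.SAR

theorem t_GB : Stmt_GB := by
  intro ι _ m K f hm hK _ hJ T
  have hm' : (0 : ℝ) < m := by exact_mod_cast hm
  obtain ⟨N, hN⟩ : ∃ N, N = T.card := ⟨_, rfl⟩
  induction N using Nat.strong_induction_on generalizing T with
  | _ N ih =>
    rcases Nat.lt_or_ge m T.card with h | h
    · obtain ⟨J, hJT, hJc⟩ := Finset.exists_subset_card_eq h.le
      have hc : (T \ J).card = T.card - m := by rw [Finset.card_sdiff_of_subset hJT, hJc]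
      have h1 := ih (T \ J).card (by omega) (T \ J) rfl
      have h2 := hJ J hJc.le
      rw [← Finset.sum_sdiff hJT]
      have h3 : (((T \ J).card : ℕ) : ℝ) = (T.card : ℝ) - m := by
        rw [hc, Nat.cast_sub h.le]
      have h4 : K * ((((T \ J).card : ℕ) : ℝ) / m + 1) = K * ((T.card : ℝ) / m + 1) - K := by
        rw [h3]
        field_simp
        ring
      linarith
    · have h1 := hJ T h
      have h2 : 0 ≤ (T.card : ℝ) / m := by positivity
      nlinarith [mul_nonneg hK h2]

end Pool.SAR
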