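import Pool.Agent.SAR.Stmts

/-!
MP_c21969_lc, project SAR, module GD: dimension.
-/

set_option autoImplicit false

namespace Pool.SAR

open Matrix Finset

theorem t_GD : Stmt_GD := by
  intro ι _ _ F _ _ _ m c φ hc h hm
  obtain ⟨J, -, hJ⟩ := Finset.exists_subset_card_eq (s := (univ : Finset ι)) (n := m)
    (by rw [Finset.card_univ]; exact hm)
  have hli : LinearIndepOn ℝ φ (J : Set ι) := by
    rw [linearIndepOn_finset_iff]
    intro x hx j hj
    have h1 := h J hJ.le x
    rw [hx, norm_zero] at h1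
    have h2 : 0 ≤ ∑ j ∈ J, x j ^ 2 := Finset.sum_nonneg fun j _ => sq_nonneg (x j)
    have h3 : 0 < c ^ 2 := by positivity
    have h4 : ∑ j ∈ J, x j ^ 2 = 0 := by nlinarith
    have h5 := (Finset.sum_eq_zero_iff_of_nonneg fun j _ => sq_nonneg (x j)).1 h4 j hj
    exact pow_eq_zero_iff (two_ne_zero) |>.1 h5
  have h6 := LinearIndependent.fintype_card_le_finrank hli
  rw [← hJ]
  simpa using h6

end Pool.SAR
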