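import Pool.Agent.SAR.Stmts

set_option autoImplicit false

/-!
# Module GF: the frame potential
-/

namespace Pool.SAR

open Finset

namespace GFX

theorem swap {ι κ : Type} [Fintype ι] [Fintype κ] (x : ι → κ → ℝ) :
    ∑ i, ∑ j, (∑ a, x i a * x j a) ^ 2 = ∑ a, ∑ b, (∑ i, x i a * x i b) ^ 2 := by
  have h1 : ∀ i j, (∑ a, x i a * x j a) ^ 2 = ∑ a, ∑ b, x i a * x i b * (x j a * x j b) := by
    intro i j
    rw [pow_two, Finset.sum_mul_sum]
    refine Finset.sum_congr rfl fun a _ => Finset.sum_congr rfl fun b _ => ?_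
    ring
  have h2 : ∀ a b, (∑ i, x i a * x i b) ^ 2 = ∑ i, ∑ j, x i a * x i b * (x j a * x j b) := by
    intro a b
    rw [pow_two, Finset.sum_mul_sum]
  simp only [h1, h2]
  calc ∑ i, ∑ j, ∑ a, ∑ b, x i a * x i b * (x j a * x j b)
      = ∑ i, ∑ a, ∑ j, ∑ b, x i a * x i b * (x j a * x j b) :=
        Finset.sum_congr rfl fun i _ => Finset.sum_comm
    _ = ∑ a, ∑ i, ∑ j, ∑ b, x i a * x i b * (x j a * x j b) := Finset.sum_comm
    _ = ∑ a, ∑ i, ∑ b, ∑ j, x i a * x i b * (x j a * x j b) :=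
        Finset.sum_congr rfl fun a _ => Finset.sum_congr rfl fun i _ => Finset.sum_comm
    _ = ∑ a, ∑ b, ∑ i, ∑ j, x i a * x i b * (x j a * x j b) :=
        Finset.sum_congr rfl fun a _ => Finset.sum_comm

end GFX

theorem t_GF : Stmt_GF := by
  intro ι _ F _ _ _ D v hv hD
  set b := stdOrthonormalBasis ℝ F with hb
  set x : ι → Fin (Module.finrank ℝ F) → ℝ := fun i a => inner ℝ (b a) (v i) with hx
  have h1 : ∀ i j, inner ℝ (v i) (v j) = ∑ a, x i a * x j a := by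
    intro i j
    rw [← b.sum_inner_mul_inner (v i) (v j)]
    refine Finset.sum_congr rfl fun a _ => ?_
    rw [real_inner_comm]
  have h2 : ∑ a, ∑ i, x i a * x i a = (Fintype.card ι : ℝ) := by
    rw [Finset.sum_comm]
    have h3 : ∀ i, ∑ a, x i a * x i a = 1 := by
      intro i
      rw [← h1, real_inner_self_eq_norm_sq, hv, one_pow]
    simp only [h3]
    simp
  have h4 : (∑ a, ∑ i, x i a * x i a) ^ 2 ≤
      (Module.finrank ℝ F : ℝ) * ∑ a, (∑ i, x i a * x i a) ^ 2 := by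
    have := sq_sum_le_card_mul_sum_sq (s := (Finset.univ : Finset (Fin (Module.finrank ℝ F))))
      (f := fun a => ∑ i, x i a * x i a)
    rwa [Finset.card_univ, Fintype.card_fin] at this
  have h5 : ∑ a, (∑ i, x i a * x i a) ^ 2 ≤ ∑ a, ∑ b, (∑ i, x i a * x i b) ^ 2 := by
    refine Finset.sum_le_sum fun a _ => ?_
    exact Finset.single_le_sum (f := fun b => (∑ i, x i a * x i b) ^ 2)
      (fun b _ => sq_nonneg _) (Finset.mem_univ a)
  have h6 : ∑ i, ∑ j, (inner ℝ (v i) (v j)) ^ 2 = ∑ a, ∑ b, (∑ i, x i a * x i b) ^ 2 := by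
    rw [← GFX.swap x]
    simp only [h1]
  rw [h6, ← h2]
  have h7 : 0 ≤ ∑ a, ∑ b, (∑ i, x i a * x i b) ^ 2 :=
    Finset.sum_nonneg fun a _ => Finset.sum_nonneg fun b _ => sq_nonneg _
  have h8 : (Module.finrank ℝ F : ℝ) ≤ D := by exact_mod_cast hD
  calc (∑ a, ∑ i, x i a * x i a) ^ 2
      ≤ (Module.finrank ℝ F : ℝ) * ∑ a, (∑ i, x i a * x i a) ^ 2 := h4
    _ ≤ (Module.finrank ℝ F : ℝ) * ∑ a, ∑ b, (∑ i, x i a * x i b) ^ 2 :=
        mul_le_mul_of_nonneg_left h5 (Nat.cast_nonneg _)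
    _ ≤ D * ∑ a, ∑ b, (∑ i, x i a * x i b) ^ 2 := mul_le_mul_of_nonneg_right h8 h7

end Pool.SAR
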