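import Pool.Agent.SAR.Stmts

/-!
# Module GP: pruning
-/

set_option autoImplicit false

namespace Pool.SAR

open Finset

theorem t_GP : Stmt_GP := by
  intro ι _ _ F _ _ m v hm hv hJ
  classical
  have hm0 : (0 : ℝ) < m := by
    have : 0 < m := by omega
    exact_mod_cast this
  have hm9 : (9 : ℝ) ≤ m := by exact_mod_cast hm
  let Bad : ι → Finset ι := fun i => univ.filter fun k => 8 / (m : ℝ) < (inner ℝ (v i) (v k)) ^ 2
  have hBad : ∀ i, (Bad i).card ≤ m := by
    intro i
    by_contra h
    push Not at h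
    obtain ⟨J, hJ1, hJ2⟩ := exists_subset_card_eq h.le
    have h1 := hJ J hJ2.le (v i)
    rw [hv i] at h1
    have h2 : ∑ j ∈ J, (8 / (m : ℝ)) ≤ ∑ j ∈ J, (inner ℝ (v i) (v j)) ^ 2 := by
      refine sum_le_sum fun j hj => ?_
      have h3 := hJ1 hj
      exact (mem_filter.1 h3).2.le
    rw [sum_const, hJ2, nsmul_eq_mul, mul_div_cancel₀ _ hm0.ne'] at h2
    linarith
  have hself : ∀ i, i ∈ Bad i := by
    intro i
    refine mem_filter.2 ⟨mem_univ _, ?_⟩
    rw [real_inner_self_eq_norm_sq, hv i, div_lt_iff₀ hm0]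
    linarith
  intro N
  induction N with
  | zero =>
    intro _
    exact ⟨∅, rfl, fun i hi => absurd hi (notMem_empty i)⟩
  | succ N ih =>
    intro hN
    have hexp : (N + 1) * m = N * m + m := by ring
    obtain ⟨T, hT, hTv⟩ := ih (by omega)
    have h1 : (T.biUnion Bad).card ≤ N * m := by
      have h2 := card_biUnion_le_card_mul T Bad m fun i _ => hBad i
      rwa [hT] at h2
    have h2 : (T.biUnion Bad).card < (univ : Finset ι).card := by
      rw [card_univ]
      omega
    obtain ⟨k, -, hk⟩ := exists_mem_notMem_of_card_lt_card h2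
    have hk' : ∀ i ∈ T, (inner ℝ (v i) (v k)) ^ 2 ≤ 8 / (m : ℝ) := by
      intro i hi
      by_contra h
      push Not at h
      exact hk (mem_biUnion.2 ⟨i, hi, mem_filter.2 ⟨mem_univ _, h⟩⟩)
    have hkT : k ∉ T := fun h => hk (mem_biUnion.2 ⟨k, h, hself k⟩)
    refine ⟨insert k T, by rw [card_insert_of_notMem hkT, hT], ?_⟩
    intro i hi j hj hij
    rcases mem_insert.1 hi with hi' | hi'
    · rcases mem_insert.1 hj with hj' | hj'
      · exact absurd (hi'.trans hj'.symm) hij
      · rw [hi', real_inner_comm]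
        exact hk' j hj'
    · rcases mem_insert.1 hj with hj' | hj'
      · rw [hj']
        exact hk' i hi'
      · exact hTv i hi' j hj' hij

end Pool.SAR
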