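import Pool.Agent.SAR.Stmts

/-!
MP_c21969_lc, project SAR: module GU (the feature vectors).
-/

set_option autoImplicit false

namespace Pool.SAR

open Matrix Finset
open scoped ComplexOrder

namespace GUX

variable {ι : Type} [Fintype ι] [DecidableEq ι] {F : Type} [NormedAddCommGroup F]
  [InnerProductSpace ℝ F]

/-- The feature vector. -/
noncomputable def fv (v : ι → F) (i : ι) : WithLp 2 (EuclideanSpace ℝ ι × F) :=
  (Real.sqrt 2)⁻¹ • WithLp.toLp 2 (EuclideanSpace.single i (1 : ℝ), v i)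

theorem sq_s : ((Real.sqrt 2)⁻¹) * ((Real.sqrt 2)⁻¹) = (1 : ℝ) / 2 := by
  rw [← mul_inv, Real.mul_self_sqrt (by norm_num)]
  norm_num

theorem inner_fv (v : ι → F) (y : WithLp 2 (EuclideanSpace ℝ ι × F)) (k : ι) :
    inner ℝ y (fv v k) = (Real.sqrt 2)⁻¹ * (y.fst k + inner ℝ y.snd (v k)) := by
  unfold fv
  rw [inner_smul_right, WithLp.prod_inner_apply]
  congr 2
  simp [EuclideanSpace.inner_single_right]

end GUX

theorem t_GU : Stmt_GU := by
  intro ι _ _ F _ _ _ v Λ hv hΛ hB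
  refine ⟨WithLp 2 (EuclideanSpace ℝ ι × F), inferInstance, inferInstance, inferInstance,
    GUX.fv v, ?_, ?_⟩
  · intro i j
    rw [GUX.inner_fv]
    unfold GUX.fv
    have h1 : ((Real.sqrt 2)⁻¹ • WithLp.toLp 2 (EuclideanSpace.single i (1 : ℝ), v i) :
        WithLp 2 (EuclideanSpace ℝ ι × F)).fst j = (Real.sqrt 2)⁻¹ * (if i = j then 1 else 0) := by
      by_cases h : i = j
      · subst h; simp
      · have h' : j ≠ i := fun e => h e.symm
        simp [h, h']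
    have h2 : ((Real.sqrt 2)⁻¹ • WithLp.toLp 2 (EuclideanSpace.single i (1 : ℝ), v i) :
        WithLp 2 (EuclideanSpace ℝ ι × F)).snd = (Real.sqrt 2)⁻¹ • v i := by
      simp
    rw [h1, h2, inner_smul_left]
    have h3 := GUX.sq_s
    simp only [conj_trivial]
    linear_combination ((if i = j then (1 : ℝ) else 0) + inner ℝ (v i) (v j)) * h3
  · intro y
    have h1 : ∀ k, (inner ℝ y (GUX.fv v k)) ^ 2 ≤ (y.fst k) ^ 2 + (inner ℝ y.snd (v k)) ^ 2 := by
      intro k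
      rw [GUX.inner_fv, mul_pow]
      have h3 : ((Real.sqrt 2)⁻¹) ^ 2 = (1 : ℝ) / 2 := by rw [pow_two]; exact GUX.sq_s
      rw [h3]
      nlinarith [sq_nonneg (y.fst k - inner ℝ y.snd (v k))]
    calc ∑ k, (inner ℝ y (GUX.fv v k)) ^ 2
        ≤ ∑ k, ((y.fst k) ^ 2 + (inner ℝ y.snd (v k)) ^ 2) := Finset.sum_le_sum fun k _ => h1 k
      _ = (∑ k, (y.fst k) ^ 2) + ∑ k, (inner ℝ y.snd (v k)) ^ 2 := Finset.sum_add_distrib
      _ ≤ ‖y.fst‖ ^ 2 + Λ * ‖y.snd‖ ^ 2 := by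
          apply add_le_add _ (hB y.snd)
          rw [EuclideanSpace.norm_sq_eq]
          simp
      _ ≤ Λ * ‖y.fst‖ ^ 2 + Λ * ‖y.snd‖ ^ 2 := by
          have := sq_nonneg ‖y.fst‖
          nlinarith
      _ = Λ * ‖y‖ ^ 2 := by
          rw [WithLp.prod_norm_sq_eq_of_L2]
          ring

end Pool.SAR
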