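import Pool.Agent.SAR.Stmts

/-!
MP_c21969_lc, project SAR, module HV: the value of the extension.
-/

set_option autoImplicit false

namespace Pool.SAR

open Matrix Finset
open scoped ComplexOrder

namespace HVX

variable {𝕜 : Type} [RCLike 𝕜] {ι ρ : Type} [Fintype ρ]

/-- the columns, real and imaginary parts -/
noncomputable def ph (Φ : Matrix ρ ι 𝕜) (i : ι) : EuclideanSpace ℝ (ρ ⊕ ρ) :=
  WithLp.toLp 2 (Sum.elim (fun a => RCLike.re (Φ a i)) (fun a => RCLike.im (Φ a i)))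

omit [Fintype ρ] in
theorem ph_inl (Φ : Matrix ρ ι 𝕜) (i : ι) (a : ρ) :
    (ph Φ i).ofLp (Sum.inl a) = RCLike.re (Φ a i) := rfl

omit [Fintype ρ] in
theorem ph_inr (Φ : Matrix ρ ι 𝕜) (i : ι) (a : ρ) :
    (ph Φ i).ofLp (Sum.inr a) = RCLike.im (Φ a i) := rfl

theorem inner_ph [Fintype ι] (Φ : Matrix ρ ι 𝕜) (i j : ι) :
    inner ℝ (ph Φ i) (ph Φ j) = RCLike.re ((Φᴴ * Φ) i j) := by
  rw [PiLp.inner_apply, Fintype.sum_sum_type, Matrix.mul_apply, map_sum, ← Finset.sum_add_distrib]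
  refine Finset.sum_congr rfl fun a _ => ?_
  rw [ph_inl, ph_inl, ph_inr, ph_inr, conjTranspose_apply, RCLike.star_def, RCLike.mul_re,
    RCLike.conj_re, RCLike.conj_im]
  simp only [RCLike.inner_apply, conj_trivial]
  ring

theorem norm_ph [Fintype ι] (Φ : Matrix ρ ι 𝕜) (x : ι → ℝ) :
    ∑ a, ‖(Φ *ᵥ (fun i => (x i : 𝕜))) a‖ ^ 2 = ‖∑ i, x i • ph Φ i‖ ^ 2 := by
  rw [EuclideanSpace.real_norm_sq_eq, Fintype.sum_sum_type, ← Finset.sum_add_distrib]
  refine Finset.sum_congr rfl fun a _ => ?_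
  have h1 : (∑ i, x i • ph Φ i).ofLp (Sum.inl a) =
      RCLike.re ((Φ *ᵥ (fun i => (x i : 𝕜))) a) := by
    rw [WithLp.ofLp_sum, Finset.sum_apply, Matrix.mulVec, dotProduct, map_sum]
    refine Finset.sum_congr rfl fun i _ => ?_
    rw [WithLp.ofLp_smul, Pi.smul_apply, ph_inl, smul_eq_mul, RCLike.re_mul_ofReal, mul_comm]
  have h2 : (∑ i, x i • ph Φ i).ofLp (Sum.inr a) =
      RCLike.im ((Φ *ᵥ (fun i => (x i : 𝕜))) a) := by
    rw [WithLp.ofLp_sum, Finset.sum_apply, Matrix.mulVec, dotProduct, map_sum]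
    refine Finset.sum_congr rfl fun i _ => ?_
    rw [WithLp.ofLp_smul, Pi.smul_apply, ph_inr, smul_eq_mul, RCLike.im_mul_ofReal, mul_comm]
  rw [h1, h2, RCLike.norm_sq_eq_def]
  ring

end HVX

open HVX in
theorem t_HV : Stmt_HV := by
  classical
  intro 𝕜 _ ι ρ _ _ _ Φ
  refine ⟨ph Φ, norm_ph Φ, ?_⟩
  intro κ _ _ e Y _
  have h0 : (univ.filter fun k : κ => e k ∈ (∅ : Finset ι)) = ∅ := by
    simp
  have hX : ext 𝕜 e Y ∅ ∅ = Matrix.of fun i j => ∑ k : κ, ∑ l : κ,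
      if e k = i ∧ e l = j then ((Y ∅ ∅ k l : ℝ) : 𝕜) else 0 := by
    rw [ext, if_pos (Finset.empty_subset _)]
    ext i j
    simp only [Matrix.of_apply]
    refine Finset.sum_congr rfl fun k _ => Finset.sum_congr rfl fun l _ => ?_
    by_cases h : e k = i ∧ e l = j
    · rw [if_pos h, if_pos h]
      congr 3
    · rw [if_neg h, if_neg h]
  have htr : (Φᴴ * Φ * ext 𝕜 e Y ∅ ∅).trace =
      ∑ k, ∑ l, (Φᴴ * Φ) (e l) (e k) * ((Y ∅ ∅ k l : ℝ) : 𝕜) := by
    rw [hX, Matrix.trace]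
    simp only [Matrix.diag_apply, Matrix.mul_apply (M := Φᴴ * Φ), Matrix.of_apply, Finset.mul_sum]
    have e1 : ∀ (i j : ι) (k l : κ),
        (Φᴴ * Φ) i j * (if e k = j ∧ e l = i then ((Y ∅ ∅ k l : ℝ) : 𝕜) else 0) =
        if e k = j then (if e l = i then (Φᴴ * Φ) (e l) (e k) * ((Y ∅ ∅ k l : ℝ) : 𝕜) else 0)
          else 0 := by
      intro i j k l
      by_cases h1 : e k = j
      · by_cases h2 : e l = i
        · rw [if_pos ⟨h1, h2⟩, if_pos h1, if_pos h2, h1, h2]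
        · rw [if_neg (fun h => h2 h.2), if_pos h1, if_neg h2, mul_zero]
      · rw [if_neg (fun h => h1 h.1), if_neg h1, mul_zero]
    simp only [e1]
    rw [Finset.sum_congr rfl fun i _ => Finset.sum_comm, Finset.sum_comm]
    refine Finset.sum_congr rfl fun k _ => ?_
    rw [Finset.sum_congr rfl fun i _ => Finset.sum_comm, Finset.sum_comm]
    refine Finset.sum_congr rfl fun l _ => ?_
    simp
  rw [val, htr, map_sum]
  refine Finset.sum_congr rfl fun k _ => ?_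
  rw [map_sum]
  refine Finset.sum_congr rfl fun l _ => ?_
  rw [RCLike.re_mul_ofReal, ← inner_ph, real_inner_comm]

end Pool.SAR
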