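import Pool.Agent.SAR.Stmts

/-!
Coefficient functions exist.
-/

set_option autoImplicit false

namespace Pool.SAR

open Matrix Finset

theorem t_KE : Stmt_PR → Stmt_KE := by
  intro hPR ι _ _ E _ _ _ u A C y
  have h : ∀ B : Finset ι, ∃ c : ι → ℝ, (∀ j ∉ B ∪ C, c j = 0) ∧
      R u (B ∪ C) y = y - ∑ j ∈ B ∪ C, c j • u j := by
    intro B
    exact (hPR ι E u (B ∪ C)).2.2.2.2.2.1 y
  choose c hc1 hc2 using h
  refine ⟨fun j B => c B j, ?_, ?_⟩
  · intro B hB
    rw [hc2 B]
    congr 1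
    apply Finset.sum_subset
    · exact Finset.union_subset_union_left hB
    · intro j _ hj
      rw [hc1 B j hj, zero_smul]
  · intro B _ j hj
    exact hc1 B j hj

end Pool.SAR
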