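import Pool.Agent.SAR.Stmts

/-!
SAR, KN: norm bounds for the coefficient functions.
-/

set_option autoImplicit false

namespace Pool.SAR

open Matrix Finset

namespace KNX

/-- The linear relation satisfied by the coefficient functions. -/
theorem rel (hPR : Stmt_PR) {ι : Type} [Fintype ι] [DecidableEq ι] {E : Type}
    [NormedAddCommGroup E] [InnerProductSpace ℝ E] [FiniteDimensional ℝ E] {u : ι → E}
    (hu : ∀ i, ‖u i‖ = 1) {A C : Finset ι} {y : E} {c : ι → Finset ι → ℝ} (hc : Coef u A C y c)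
    {B : Finset ι} (hB : B ⊆ A) {j : ι} (hj : j ∈ B ∪ C) :
    c j B = inner ℝ y (u j) + ∑ l ∈ (A ∪ C).erase j, -inner ℝ (u l) (u j) * c l B := by
  obtain ⟨-, -, -, h4, -⟩ := hPR ι E u (B ∪ C)
  have h := h4 y j hj
  rw [hc.eq B hB, inner_sub_left, sum_inner] at h
  have hjA : j ∈ A ∪ C := Finset.union_subset_union_left hB hj
  rw [← Finset.add_sum_erase _ _ hjA] at h
  simp only [real_inner_smul_left] at h
  rw [real_inner_self_eq_norm_sq, hu j] at h
  have h5 : ∑ l ∈ (A ∪ C).erase j, -inner ℝ (u l) (u j) * c l B =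
      - ∑ l ∈ (A ∪ C).erase j, c l B * inner ℝ (u l) (u j) := by
    rw [← Finset.sum_neg_distrib]
    exact Finset.sum_congr rfl fun l _ => by ring
  rw [h5]
  linarith

/-- The norm of the tail. -/
theorem tail (hNC : Stmt_NC) {ι : Type} [Fintype ι] [DecidableEq ι] {E : Type}
    [NormedAddCommGroup E] [InnerProductSpace ℝ E] {u : ι → E} {q δ : ℝ}
    (hq0 : 0 < q) (hq1 : q ≤ 1) (hcoh : ∀ i j, i ≠ j → |inner ℝ (u i) (u j)| ≤ δ)
    (hδ : 0 ≤ δ) (A C : Finset ι) (c : ι → Finset ι → ℝ) (j : ι) :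
    nrm q A (fun B => ∑ l ∈ (A ∪ C).erase j, -inner ℝ (u l) (u j) * c l B) ≤
      δ * ∑ l ∈ A ∪ C, nrm q A (c l) := by
  obtain ⟨-, -, hmul, hsum, hpos, -, -⟩ := hNC ι q hq0 hq1 A
  refine (hsum ι ((A ∪ C).erase j) (fun l B => -inner ℝ (u l) (u j) * c l B)).trans ?_
  have h1 : ∀ l ∈ (A ∪ C).erase j,
      nrm q A (fun B => -inner ℝ (u l) (u j) * c l B) ≤ δ * nrm q A (c l) := by
    intro l hl
    rw [hmul (-inner ℝ (u l) (u j)) (c l), abs_neg]
    exact mul_le_mul_of_nonneg_right (hcoh l j (Finset.ne_of_mem_erase hl)) (hpos _)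
  refine (Finset.sum_le_sum h1).trans ?_
  rw [← Finset.mul_sum]
  refine mul_le_mul_of_nonneg_left ?_ hδ
  exact Finset.sum_le_sum_of_subset_of_nonneg (Finset.erase_subset _ _) fun i _ _ => hpos _

end KNX

theorem t_KN : Stmt_NB → Stmt_NC → Stmt_NM → Stmt_PR → Stmt_KN := by
  intro hNB hNC hNM hPR ι _ _ E _ _ _ u ℓ q δ hS A C hAC hcard y c hc
  have hq0 := hS.q0
  have hq1 : q ≤ 1 := hS.q1.trans (by norm_num)
  have hδ := hS.d0
  obtain ⟨hcong, hadd, hmul, hsum, hpos, hconst, hind⟩ := hNC ι q hq0 hq1 A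
  have hsub := hNM ι q hq0 hq1 A
  have hqi : (1 : ℝ) ≤ q⁻¹ := (one_le_inv₀ hq0).2 hq1
  have hqi0 : (0 : ℝ) ≤ q⁻¹ := le_trans zero_le_one hqi
  set S : ℝ := ∑ j ∈ A ∪ C, nrm q A (c j) with hSdef
  have hS0 : 0 ≤ S := Finset.sum_nonneg fun i _ => hpos _
  have htail : ∀ j, nrm q A (fun B => ∑ l ∈ (A ∪ C).erase j, -inner ℝ (u l) (u j) * c l B) ≤
      δ * S := fun j => KNX.tail hNC hq0 hq1 hS.coh hδ A C c j
  have hl1 : (1 : ℝ) ≤ (ℓ : ℝ) := by exact_mod_cast hS.lpos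
  have hl0 : (0 : ℝ) < (ℓ : ℝ) := lt_of_lt_of_le zero_lt_one hl1
  have hsm := hS.small
  have hqd : q⁻¹ * δ ≤ (8 * (ℓ : ℝ))⁻¹ := by
    rw [inv_mul_le_iff₀ hq0, ← div_eq_mul_inv, le_div_iff₀ (by positivity)]
    linarith
  -- each norm
  have hj1 : ∀ j ∈ A ∪ C, nrm q A (c j) ≤ q⁻¹ * (|inner ℝ y (u j)| + δ * S) := by
    intro j hj
    have hin : nrm q A (fun B => inner ℝ y (u j) +
        ∑ l ∈ (A ∪ C).erase j, -inner ℝ (u l) (u j) * c l B) ≤ |inner ℝ y (u j)| + δ * S := by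
      refine (hadd (fun _ => inner ℝ y (u j))
        (fun B => ∑ l ∈ (A ∪ C).erase j, -inner ℝ (u l) (u j) * c l B)).trans ?_
      rw [hconst]
      exact add_le_add le_rfl (htail j)
    have hin0 : 0 ≤ |inner ℝ y (u j)| + δ * S :=
      add_nonneg (abs_nonneg _) (mul_nonneg hδ hS0)
    by_cases hjA : j ∈ A
    · have hjC : j ∉ C := Finset.disjoint_left.1 hAC hjA
      have h1 : nrm q A (c j) = nrm q A (fun B => ind j B * (inner ℝ y (u j) +
          ∑ l ∈ (A ∪ C).erase j, -inner ℝ (u l) (u j) * c l B)) := by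
        refine hcong _ _ fun B hB => ?_
        by_cases hjB : j ∈ B
        · rw [ind, if_pos hjB, one_mul]
          exact KNX.rel hPR hS.unit hc hB (Finset.mem_union_left _ hjB)
        · rw [ind, if_neg hjB, zero_mul]
          exact hc.zero B hB j (by simp [hjB, hjC])
      rw [h1]
      refine (hsub _ _).trans ?_
      rw [hind j hjA]
      exact mul_le_mul_of_nonneg_left hin hqi0
    · have hjC : j ∈ C := by
        rcases Finset.mem_union.1 hj with h | h
        · exact absurd h hjA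
        · exact h
      have h1 : nrm q A (c j) = nrm q A (fun B => inner ℝ y (u j) +
          ∑ l ∈ (A ∪ C).erase j, -inner ℝ (u l) (u j) * c l B) := by
        refine hcong _ _ fun B hB => ?_
        exact KNX.rel hPR hS.unit hc hB (Finset.mem_union_right _ hjC)
      rw [h1]
      refine hin.trans ?_
      nlinarith
  constructor
  · have h2 : S ≤ ∑ j ∈ A ∪ C, q⁻¹ * (|inner ℝ y (u j)| + δ * S) :=
      Finset.sum_le_sum hj1
    rw [← Finset.mul_sum, Finset.sum_add_distrib, Finset.sum_const, nsmul_eq_mul] at h2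
    have h3 : ((A ∪ C).card : ℝ) ≤ (ℓ : ℝ) := by exact_mod_cast hcard
    have h4 : ((A ∪ C).card : ℝ) * (δ * S) ≤ (ℓ : ℝ) * (δ * S) :=
      mul_le_mul_of_nonneg_right h3 (mul_nonneg hδ hS0)
    have h5 : q⁻¹ * ((ℓ : ℝ) * (δ * S)) ≤ 1 / 8 * S := by
      have h6 : q⁻¹ * δ * (ℓ : ℝ) ≤ 1 / 8 := by
        have := mul_le_mul_of_nonneg_right hqd hl0.le
        have h7 : (8 * (ℓ : ℝ))⁻¹ * (ℓ : ℝ) = 1 / 8 := by
          field_simp
        linarith
      have := mul_le_mul_of_nonneg_right h6 hS0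
      calc q⁻¹ * ((ℓ : ℝ) * (δ * S)) = q⁻¹ * δ * (ℓ : ℝ) * S := by ring
        _ ≤ _ := this
    have h8 : 0 ≤ ∑ j ∈ A ∪ C, |inner ℝ y (u j)| := Finset.sum_nonneg fun _ _ => abs_nonneg _
    have h9 : 0 ≤ q⁻¹ * ∑ j ∈ A ∪ C, |inner ℝ y (u j)| := mul_nonneg hqi0 h8
    have h10 := mul_le_mul_of_nonneg_left h4 hqi0
    rw [mul_add] at h2
    nlinarith
  · intro j hjA
    have hjC : j ∉ C := Finset.disjoint_left.1 hAC hjA
    have h1 : nrm q A (fun B => c j B - inner ℝ y (u j) * ind j B) =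
        nrm q A (fun B => ind j B *
          ∑ l ∈ (A ∪ C).erase j, -inner ℝ (u l) (u j) * c l B) := by
      refine hcong _ _ fun B hB => ?_
      by_cases hjB : j ∈ B
      · have h2 := KNX.rel hPR hS.unit hc hB (Finset.mem_union_left C hjB)
        simp only [ind, if_pos hjB, one_mul, mul_one]
        linarith
      · have h2 := hc.zero B hB j (by simp [hjB, hjC])
        simp only [ind, if_neg hjB, zero_mul, mul_zero, sub_zero]
        exact h2
    rw [h1]
    refine (hsub _ _).trans ?_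
    rw [hind j hjA]
    calc q⁻¹ * nrm q A (fun B => ∑ l ∈ (A ∪ C).erase j, -inner ℝ (u l) (u j) * c l B)
        ≤ q⁻¹ * (δ * S) := mul_le_mul_of_nonneg_left (htail j) hqi0
      _ = q⁻¹ * δ * S := by ring
      _ ≤ (8 * (ℓ : ℝ))⁻¹ * S := mul_le_mul_of_nonneg_right hqd hS0

end Pool.SAR
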