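import Pool.Agent.SAR.StmtsL

/-!
MP_c21969_lc, project SAR, module LAC: arithmetic of the parameters.
-/

set_option autoImplicit false

namespace Pool.SAR

open Matrix Finset
open scoped ComplexOrder

theorem t_LAC : Stmt_LAC := by
  intro m ℓ D hD hℓ hmD hpow
  have hm : 1 ≤ m := by
    rcases Nat.eq_zero_or_pos m with h | h
    · subst h
      rw [Nat.zero_pow (by omega)] at hpow
      have h1 : 0 < (1024 * ℓ * D) ^ (4 * ℓ) := by positivity
      omega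
    · exact h
  have hM0 : (0 : ℝ) < m := by exact_mod_cast hm
  have hL1 : (1 : ℝ) ≤ ℓ := by exact_mod_cast hℓ
  have hd0 : (1 : ℝ) ≤ D := by exact_mod_cast hD
  have hMd : (m : ℝ) ≤ D := by exact_mod_cast hmD
  have hpow' : (1024 * (ℓ : ℝ) * D) ^ (4 * ℓ) ≤ (m : ℝ) ^ (4 * ℓ + 1) := by exact_mod_cast hpow
  obtain ⟨X, hX⟩ : ∃ X : ℝ, X = 1024 * (ℓ : ℝ) * D / m := ⟨_, rfl⟩
  have hXm : X * m = 1024 * (ℓ : ℝ) * D := by
    rw [hX]
    field_simp
  have hX1 : 1024 * (ℓ : ℝ) ≤ X := by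
    rw [hX, le_div_iff₀ hM0]
    nlinarith
  have hX2 : 1024 ≤ X := by linarith
  have hX4l : X ^ (4 * ℓ) ≤ m := by
    rw [hX, div_pow, div_le_iff₀ (by positivity)]
    refine hpow'.trans (le_of_eq ?_)
    rw [pow_succ]
    ring
  have hX4 : X ^ 4 ≤ m := (pow_le_pow_right₀ (by linarith) (by omega)).trans hX4l
  obtain ⟨s, hs⟩ : ∃ s : ℝ, s = Real.sqrt m := ⟨_, rfl⟩
  have hs0 : 0 < s := by
    rw [hs]
    exact Real.sqrt_pos.2 hM0
  have hs2 : s ^ 2 = m := by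
    rw [hs]
    exact Real.sq_sqrt hM0.le
  have hXs : X ^ (2 * ℓ) ≤ s := by
    rw [hs]
    refine Real.le_sqrt_of_sq_le ?_
    rw [← pow_mul]
    have : 2 * ℓ * 2 = 4 * ℓ := by ring
    rw [this]
    exact hX4l
  have hX2s : X ^ 2 ≤ s := by
    rw [hs]
    refine Real.le_sqrt_of_sq_le ?_
    rw [← pow_mul]
    exact hX4
  obtain ⟨r, hr⟩ : ∃ r : ℝ, r = Real.sqrt 2 := ⟨_, rfl⟩
  have hr0 : 0 < r := by
    rw [hr]
    positivity
  have hr2 : r ^ 2 = 2 := by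
    rw [hr]
    exact Real.sq_sqrt (by norm_num)
  have hr1 : 1 ≤ r := by nlinarith
  have hsq : Real.sqrt (2 / m) = r / s := by
    rw [Real.sqrt_div (by norm_num), hr, hs]
  have hg : 512 * Real.sqrt 2 * (ℓ : ℝ) * D / m = X * r / 2 := by
    rw [← hr, hX]
    ring
  have hg2 : (X * r / 2) ^ 2 = X ^ 2 / 2 := by
    rw [div_pow, mul_pow, hr2]
    ring
  have hgl : (2 : ℝ) ^ ℓ * (X * r / 2) ^ (2 * ℓ) = X ^ (2 * ℓ) := by
    rw [pow_mul, hg2, pow_mul, ← mul_pow]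
    congr 1
    ring
  have hX44 : (1024 : ℝ) ^ 4 ≤ X ^ 4 := pow_le_pow_left₀ (by norm_num) hX2 4
  have hmbig : (1024 : ℝ) ^ 4 ≤ m := hX44.trans hX4
  have hq : (m : ℝ) / (128 * D) ≤ 1 / 128 := by
    rw [div_le_iff₀ (by positivity)]
    linarith
  have htq : 16 * (ℓ : ℝ) * (r / s) ≤ (m : ℝ) / (128 * D) := by
    have h1 : (16 * (ℓ : ℝ) * (r / s)) ^ 2 ≤ ((m : ℝ) / (128 * D)) ^ 2 := by
      have h2 : (16 * (ℓ : ℝ) * (r / s)) ^ 2 = 512 * (ℓ : ℝ) ^ 2 / m := by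
        rw [mul_pow, div_pow, hr2, hs2]
        ring
      rw [h2, div_pow, div_le_div_iff₀ hM0 (by positivity)]
      have h3 : 512 * (ℓ : ℝ) ^ 2 * (128 * D) ^ 2 = 8 * (X * m) ^ 2 := by
        rw [hXm]
        ring
      rw [h3]
      have h4 : 8 * X ^ 2 ≤ m := by nlinarith
      have h5 : 8 * (X * m) ^ 2 = (8 * X ^ 2) * (m : ℝ) ^ 2 := by ring
      rw [h5]
      nlinarith [sq_nonneg (m : ℝ)]
    exact le_of_sq_le_sq h1 (by positivity)
  have hDm : (D : ℝ) / m = X / (1024 * ℓ) := by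
    rw [hX]
    field_simp
  refine ⟨?_, ⟨?_, hℓ, ?_, ?_, ?_, ?_, ?_, ?_, ?_, ?_, ?_⟩, ?_, ?_, ?_⟩
  · have : (9 : ℝ) ≤ m := le_trans (by norm_num) hmbig
    exact_mod_cast this
  · omega
  · positivity
  · linarith
  · positivity
  · rw [hsq]
    exact htq
  · rw [hg]
    nlinarith
  · positivity
  · rw [hsq, hg, hg2, mul_pow, mul_pow, div_pow, hr2, hs2, hX]
    push_cast
    refine le_of_eq ?_
    field_simp
    ring
  · rw [hsq, hg]
    have h1 : 3 * 2 ^ ℓ * (X * r / 2) ^ (2 * ℓ) * (36 * (D : ℝ) / m) =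
        3 * ((2 : ℝ) ^ ℓ * (X * r / 2) ^ (2 * ℓ)) * (36 * (D : ℝ) / m) := by ring
    rw [h1, hgl]
    have h2 : 3 * X ^ (2 * ℓ) * (36 * (D : ℝ) / m) ≤ 3 * s * (36 * (D : ℝ) / m) := by
      gcongr
    refine h2.trans ?_
    have h3 : 3 * s * (36 * (D : ℝ) / m) = 108 * D / s := by
      rw [← hs2]
      field_simp
      ring
    have h4 : 4 * (16 * (ℓ : ℝ) * (r / s)) * ((8 * D : ℕ) : ℝ) = 512 * r * ℓ * D / s := by
      push_cast
      ring
    rw [h3, h4]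
    gcongr
    have h5 : 108 ≤ 512 * r * (ℓ : ℝ) := by nlinarith
    nlinarith
  · rw [hg]
    have h1 : 27 * (36 * (D : ℝ) / m) * 2 ^ ℓ * (X * r / 2) ^ (2 * ℓ) =
        27 * (36 * ((D : ℝ) / m)) * ((2 : ℝ) ^ ℓ * (X * r / 2) ^ (2 * ℓ)) := by ring
    rw [h1, hgl, hDm]
    have h2 : 27 * (36 * (X / (1024 * (ℓ : ℝ)))) * X ^ (2 * ℓ) ≤ X * s := by
      have h3 : 27 * (36 * (X / (1024 * (ℓ : ℝ)))) ≤ X := by
        have h4 : X / (1024 * (ℓ : ℝ)) ≤ X / 1024 := by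
          apply div_le_div_of_nonneg_left (by linarith) (by norm_num)
          linarith
        linarith
      have h5 : (0 : ℝ) ≤ X := by linarith
      gcongr
    have h6 : X * s ≤ m / 1000 := by
      have h7 : 1024 * X ≤ s := by nlinarith
      rw [← hs2]
      nlinarith
    have h8 : 2 * ((m : ℝ) / (128 * D)) * ((8 * D : ℕ) : ℝ) = m / 8 := by
      push_cast
      field_simp
      ring
    have h9 : 2 * (ℓ : ℝ) ≤ m / 1000 := by
      have h10 : (1 : ℝ) ≤ s := by nlinarith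
      have h11 : X ≤ X * s := le_mul_of_one_le_right (by linarith) h10
      linarith
    rw [h8]
    linarith
  · rw [hsq]
    linarith
  · rw [le_div_iff₀ hM0]
    linarith
  · have h1 : (1 : ℝ) ≤ D / m := by
      rw [le_div_iff₀ hM0]
      linarith
    have h2 : 4 * (((8 * D : ℕ) : ℝ) / (m : ℝ) + 1) = 32 * ((D : ℝ) / m) + 4 := by
      push_cast
      ring
    have h3 : 36 * (D : ℝ) / m = 36 * ((D : ℝ) / m) := by ring
    rw [h2, h3]
    linarith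

end Pool.SAR
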