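import Pool.Agent.SAR.StmtsL

/-!
The barrier for vectors, Lasserre tests.
-/

set_option autoImplicit false

namespace Pool.SAR

open Matrix Finset
open scoped ComplexOrder

theorem t_LAR : Stmt_GD → Stmt_LAC → Stmt_GA → Stmt_GP → Stmt_GB → Stmt_GU → Stmt_LLL →
    Stmt_AV → Stmt_LAR := by
  intro hGD hAC hGA hGP hGB hGU hLR hAV
  intro ι _ _ F _ _ _ m ℓ D c φ hc hD hℓ hfin hcard hpar hrip
  have hmι : m ≤ Fintype.card ι := by
    refine le_trans ?_ hcard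
    exact Nat.le_mul_of_pos_left m (by omega)
  have hmD : m ≤ D := (hGD ι F m c φ hc (fun J hJ x => (hrip J hJ x).1) hmι).trans hfin
  obtain ⟨a1, aP, a3, a4, a5⟩ := hAC m ℓ D hD hℓ hmD hpar
  have hm1 : 1 ≤ m := by omega
  obtain ⟨g1, g2⟩ := hGA ι F m c φ hm1 hc hrip
  have hφ : ∀ j, 0 < ‖φ j‖ := fun j => hc.trans_le (g1 j)
  have hv1 : ∀ j, ‖‖φ j‖⁻¹ • φ j‖ = 1 := by
    intro j
    rw [norm_smul, norm_inv, norm_norm, inv_mul_cancel₀ (hφ j).ne']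
  obtain ⟨T, hT1, hT2⟩ := hGP ι F m (fun j => ‖φ j‖⁻¹ • φ j) a1 hv1 g2 (8 * D) hcard
  have hcT : Fintype.card {x // x ∈ T} = 8 * D := by rw [Fintype.card_coe, hT1]
  have hne : Nonempty {x // x ∈ T} := by
    rw [← Fintype.card_pos_iff, hcT]
    omega
  have hbound : ∀ y : F, ∑ k : {x // x ∈ T}, (inner ℝ y (‖φ k‖⁻¹ • φ k)) ^ 2 ≤
      36 * (D : ℝ) / m * ‖y‖ ^ 2 := by
    intro y
    have h1 := hGB ι m (4 * ‖y‖ ^ 2) (fun j => (inner ℝ y (‖φ j‖⁻¹ • φ j)) ^ 2) hm1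
      (by positivity) (fun i => sq_nonneg _) (fun J hJ => g2 J hJ y) T
    rw [hT1] at h1
    have h2 : ∑ k : {x // x ∈ T}, (inner ℝ y (‖φ k‖⁻¹ • φ k)) ^ 2 =
        ∑ j ∈ T, (inner ℝ y (‖φ j‖⁻¹ • φ j)) ^ 2 :=
      Finset.sum_coe_sort T (fun j => (inner ℝ y (‖φ j‖⁻¹ • φ j)) ^ 2)
    rw [h2]
    refine h1.trans ?_
    have h3 := mul_le_mul_of_nonneg_right a5 (sq_nonneg ‖y‖)
    calc 4 * ‖y‖ ^ 2 * ((8 * D : ℕ) / (m : ℝ) + 1)
        = 4 * ((8 * D : ℕ) / (m : ℝ) + 1) * ‖y‖ ^ 2 := by ring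
      _ ≤ _ := h3
  obtain ⟨E, i1, i2, i3, u, hu1, hu2⟩ := hGU {x // x ∈ T} F (fun k => ‖φ k‖⁻¹ • φ k)
    (36 * (D : ℝ) / m) (fun k => hv1 k) a4 hbound
  have hunit : ∀ i, ‖u i‖ = 1 := by
    intro i
    have h1 := hu1 i i
    rw [if_pos rfl, real_inner_self_eq_norm_sq, real_inner_self_eq_norm_sq, hv1] at h1
    have h2 : ‖u i‖ ^ 2 = 1 := by rw [h1]; norm_num
    exact (pow_eq_one_iff_of_nonneg (norm_nonneg _) two_ne_zero).1 h2
  have hin : ∀ i j, i ≠ j → inner ℝ (u i) (u j) =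
      1 / 2 * inner ℝ (‖φ i‖⁻¹ • φ i) (‖φ j‖⁻¹ • φ j) := by
    intro i j hij
    rw [hu1, if_neg hij, mul_zero, zero_add]
  have hsys : Sys (2 * ℓ) (16 * ℓ * Real.sqrt (2 / m)) (Real.sqrt (2 / m)) u := by
    refine ⟨aP.t0, a3, by omega, hunit, Real.sqrt_nonneg _, ?_, ?_⟩
    · intro i j hij
      apply Real.abs_le_sqrt
      rw [hin i j hij, mul_pow]
      have h1 := hT2 i i.2 j j.2 (fun h => hij (Subtype.ext h))
      have h2 : (2 : ℝ) / m = (1 / 2) ^ 2 * (8 / m) := by ring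
      rw [h2]
      exact mul_le_mul_of_nonneg_left h1 (by norm_num)
    · push_cast
      apply le_of_eq
      ring
  rw [← hcT] at aP
  obtain ⟨hL, hY⟩ := hLR {x // x ∈ T} E u ℓ m _ _ _ _ _ aP hsys hu2
  refine ⟨{x // x ∈ T}, inferInstance, inferInstance, Function.Embedding.subtype _,
    fun D' => YR ((m : ℝ) / (128 * D)) u D' ∅, hL, ?_, ?_⟩
  · show (YR ((m : ℝ) / (128 * D)) u ∅ ∅).IsSymm
    ext i j
    rw [transpose_apply, hY, hY, real_inner_comm]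
  · have h1 := hAV {x // x ∈ T} F D c (fun k => φ k) hc hD (fun k => g1 k) hfin hcT
    refine h1.trans_le (le_of_eq ?_)
    refine sum_congr rfl fun i _ => sum_congr rfl fun j _ => ?_
    beta_reduce
    rw [hY, hu1]
    rfl

end Pool.SAR
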