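import Pool.Agent.SAR.Stmts

set_option autoImplicit false

/-!
# Module LI: the signed sum over the subsets of `insert k A`
-/

namespace Pool.SAR

open Finset

theorem t_LI : Stmt_LI := by
  intro ι _ q A k hk h
  have e0 : Lf q (insert k A) h = Lf q A h - (1 - q) * Lf q A (fun B => h (insert k B)) := by
    have e2 : ∑ B ∈ A.powerset, (-(1 - q)) ^ (insert k B).card * h (insert k B) =
        -((1 - q) * Lf q A (fun B => h (insert k B))) := by
      unfold Lf
      rw [Finset.mul_sum, ← Finset.sum_neg_distrib]
      refine Finset.sum_congr rfl fun B hB => ?_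
      have hkB : k ∉ B := fun h' => hk (Finset.mem_powerset.1 hB h')
      rw [Finset.card_insert_of_notMem hkB, pow_succ]
      ring
    have e3 : Lf q (insert k A) h = ∑ B ∈ A.powerset, (-(1 - q)) ^ B.card * h B +
        ∑ B ∈ A.powerset, (-(1 - q)) ^ (insert k B).card * h (insert k B) :=
      Finset.sum_powerset_insert hk _
    rw [e3, e2]
    unfold Lf
    ring
  refine ⟨?_, e0⟩
  rw [e0]
  have e1 : Lf q A (fun B => h B - h (insert k B)) =
      Lf q A h - Lf q A (fun B => h (insert k B)) := by
    unfold Lf
    rw [← Finset.sum_sub_distrib]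
    refine Finset.sum_congr rfl fun B _ => ?_
    ring
  rw [e1]
  ring

end Pool.SAR
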