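import Pool.Agent.SAR.StmtsL

/-!
MP_c21969_lc, project SAR, module LKA.
-/

set_option autoImplicit false

namespace Pool.SAR

open Matrix Finset
open scoped ComplexOrder

namespace LKAX

variable {ι : Type} [Fintype ι] [DecidableEq ι]

theorem split (k : ι) (φ : Finset ι → ℝ) :
    ∑ B : Finset ι, φ B = ∑ B ∈ (univ.erase k).powerset, (φ B + φ (insert k B)) := by
  have h : (univ : Finset (Finset ι)) = (insert k (univ.erase k)).powerset := by
    rw [Finset.insert_erase (mem_univ k), Finset.powerset_univ]
  rw [h, Finset.sum_powerset_insert (Finset.notMem_erase k univ), Finset.sum_add_distrib]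

theorem mem {k : ι} {B : Finset ι} (h : B ∈ (univ.erase k : Finset ι).powerset) : k ∉ B := by
  intro hk
  exact Finset.notMem_erase k univ (Finset.mem_powerset.1 h hk)

end LKAX

theorem t_LKA : Stmt_LKA := by
  intro ι _ _ E _ _ _ q u y k
  unfold FF
  have h0 : ∀ B : Finset ι, k ∉ B → mulS k y B = y B := by
    intro B hB
    simp [mulS, hB]
  have h1 : ∀ B : Finset ι, k ∉ B → mulS k y (insert k B) = -y B := by
    intro B hB
    simp [mulS, hB]
  rw [LKAX.split k, LKAX.split k]
  refine Finset.sum_congr rfl fun B hB => ?_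
  have hB' := LKAX.mem hB
  rw [LKAX.split k, LKAX.split k, LKAX.split k, LKAX.split k, ← Finset.sum_add_distrib,
    ← Finset.sum_add_distrib]
  refine Finset.sum_congr rfl fun C hC => ?_
  have hC' := LKAX.mem hC
  rw [h0 B hB', h1 B hB', h0 C hC', h1 C hC']
  have e1 : B ∪ insert k C = insert k (B ∪ C) := by rw [Finset.union_insert]
  have e2 : insert k B ∪ C = insert k (B ∪ C) := by rw [Finset.insert_union]
  have e3 : insert k B ∪ insert k C = insert k (B ∪ C) := by
    rw [Finset.union_insert, Finset.insert_union, Finset.insert_idem]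
  rw [e1, e2, e3, Finset.insert_idem]
  simp only [map_neg, inner_neg_left, inner_neg_right]
  ring

end Pool.SAR
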