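import Pool.Agent.SAR.StmtsL

/-!
MP_c21969_lc, project SAR, part 3: the transformed vectors of a product with `s_k` (LKB).
-/

set_option autoImplicit false

namespace Pool.SAR

open Matrix Finset
open scoped ComplexOrder

namespace LKBX

variable {ι : Type} [Fintype ι] [DecidableEq ι]

theorem split {M : Type*} [AddCommMonoid M] (k : ι) (U : Finset ι) (hk : k ∉ U)
    (F : Finset ι → M) :
    ∑ B ∈ univ.filter (fun B => U ⊆ B), F B =
      ∑ B ∈ univ.filter (fun B => U ⊆ B ∧ k ∉ B), (F B + F (insert k B)) := by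
  rw [Finset.sum_add_distrib,
    ← Finset.sum_filter_add_sum_filter_not (univ.filter (fun B => U ⊆ B)) (fun B => k ∉ B) F,
    Finset.filter_filter, Finset.filter_filter]
  congr 1
  symm
  refine Finset.sum_nbij' (fun B => insert k B) (fun B => B.erase k) ?_ ?_ ?_ ?_ ?_
  · intro B hB
    rw [Finset.mem_filter] at hB ⊢
    exact ⟨Finset.mem_univ _, hB.2.1.trans (Finset.subset_insert _ _),
      fun h => h (Finset.mem_insert_self _ _)⟩
  · intro B hB
    rw [Finset.mem_filter] at hB ⊢
    exact ⟨Finset.mem_univ _, Finset.subset_erase.2 ⟨hB.2.1, hk⟩, Finset.notMem_erase _ _⟩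
  · intro B hB
    rw [Finset.mem_filter] at hB
    exact Finset.erase_insert hB.2.2
  · intro B hB
    rw [Finset.mem_filter, not_not] at hB
    exact Finset.insert_erase hB.2.2
  · intro B _
    rfl

theorem split_insert {M : Type*} [AddCommMonoid M] (k : ι) (U : Finset ι) (hk : k ∉ U)
    (F : Finset ι → M) :
    ∑ B ∈ univ.filter (fun B => insert k U ⊆ B), F B =
      ∑ B ∈ univ.filter (fun B => U ⊆ B ∧ k ∉ B), F (insert k B) := by
  symm
  refine Finset.sum_nbij' (fun B => insert k B) (fun B => B.erase k) ?_ ?_ ?_ ?_ ?_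
  · intro B hB
    rw [Finset.mem_filter] at hB ⊢
    exact ⟨Finset.mem_univ _, Finset.insert_subset_insert _ hB.2.1⟩
  · intro B hB
    rw [Finset.mem_filter] at hB ⊢
    exact ⟨Finset.mem_univ _, Finset.subset_erase.2
      ⟨(Finset.subset_insert _ _).trans hB.2, hk⟩, Finset.notMem_erase _ _⟩
  · intro B hB
    rw [Finset.mem_filter] at hB
    exact Finset.erase_insert hB.2.2
  · intro B hB
    rw [Finset.mem_filter] at hB
    exact Finset.insert_erase (hB.2 (Finset.mem_insert_self _ _))
  · intro B _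
    rfl

theorem norm_id {E : Type} [NormedAddCommGroup E] [InnerProductSpace ℝ E] (q : ℝ)
    (hq : q < 1) (S H : E) :
    ‖q • S + (1 - q) • H‖ ^ 2 + q / (1 - q) * ‖-(1 - q) • (S - H)‖ ^ 2 =
      q * ‖S‖ ^ 2 + (1 - q) * ‖H‖ ^ 2 := by
  have h1 : (1 - q) ≠ 0 := by
    intro h
    linarith
  rw [norm_add_sq_real, norm_smul, norm_smul, norm_smul, real_inner_smul_left,
    real_inner_smul_right, mul_pow, mul_pow, mul_pow, norm_sub_sq_real S H, Real.norm_eq_abs,
    Real.norm_eq_abs, Real.norm_eq_abs, sq_abs, sq_abs, sq_abs]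
  field_simp
  ring

end LKBX

open LKBX in
/-- LKB. -/
theorem t_LKB : Stmt_PR → Stmt_LKP → Stmt_LKB := by
  intro hPR hP ι _ _ E _ _ _ q hq0 hq1 u y k
  set h : Finset ι → E := hat q u y with hh
  set h' : Finset ι → E := hat q u (mulS k y) with hh'
  have e1 : ∀ B : Finset ι, k ∉ B → h' B = h B := by
    intro B hB
    rw [hh', hh, hat, hat, mulS, if_neg hB]
  have e2 : ∀ B : Finset ι, k ∉ B →
      h' (insert k B) = -(1 - q) • (h B - inner ℝ (h B) (u k) • gv u k B) := by
    intro B hB
    have h3 : ∀ i ∈ B, inner ℝ (h B) (u i) = 0 := by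
      intro i hi
      rw [hh, hat, real_inner_smul_left, (hPR ι E u B).2.2.2.1 (y B) i hi, mul_zero]
    rw [← hP ι E u B k (h B) h3]
    have h4 : R u (insert k B) (h B) = (1 - q) ^ B.card • R u (insert k B) (y B) := by
      rw [hh, hat, map_smul,
        (hPR ι E u B).2.2.2.2.2.2.1 (insert k B) (Finset.subset_insert _ _) (y B)]
    rw [h4, hh', hat, mulS, if_pos (Finset.mem_insert_self _ _), Finset.erase_insert hB,
      Finset.card_insert_of_notMem hB, map_neg, smul_neg, smul_smul, neg_mul, neg_smul, pow_succ,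
      mul_comm]
  have e3 : ∀ U : Finset ι, k ∉ U → up h U - up h (insert k U) =
      ∑ B ∈ univ.filter (fun B => U ⊆ B ∧ k ∉ B), h B := by
    intro U hU
    rw [up, up, split k U hU, split_insert k U hU, Finset.sum_add_distrib, add_sub_cancel_right]
  have e4 : ∀ U : Finset ι, k ∉ U → up h' U =
      q • (up h U - up h (insert k U)) + (1 - q) • HH q u y k U := by
    intro U hU
    rw [e3 U hU, up, split k U hU, HH, Finset.smul_sum, Finset.smul_sum, ← Finset.sum_add_distrib]
    refine Finset.sum_congr rfl fun B hB => ?_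
    have hB2 : k ∉ B := (Finset.mem_filter.1 hB).2.2
    rw [e1 B hB2, e2 B hB2]
    module
  have e5 : ∀ U : Finset ι, k ∉ U → up h' (insert k U) =
      -(1 - q) • ((up h U - up h (insert k U)) - HH q u y k U) := by
    intro U hU
    rw [e3 U hU, up, split_insert k U hU, HH, ← Finset.sum_sub_distrib, Finset.smul_sum]
    refine Finset.sum_congr rfl fun B hB => ?_
    have hB2 : k ∉ B := (Finset.mem_filter.1 hB).2.2
    rw [e2 B hB2]
  have e6 : QQ (q / (1 - q)) (up h') = ∑ V ∈ univ.filter (fun V : Finset ι => ∅ ⊆ V),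
      (q / (1 - q)) ^ V.card * ‖up h' V‖ ^ 2 := by
    rw [QQ]
    refine Finset.sum_congr ?_ fun _ _ => rfl
    ext V
    simp
  rw [e6, split k ∅ (Finset.notMem_empty k)]
  refine Finset.sum_congr ?_ fun U hU => ?_
  · ext V
    simp
  · have hU2 : k ∉ U := (Finset.mem_filter.1 hU).2
    rw [Finset.card_insert_of_notMem hU2, ← norm_id q hq1, e4 U hU2, e5 U hU2, pow_succ]
    ring

end Pool.SAR
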