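import Pool.Agent.SAR.StmtsL

/-!
MP_c21969_lc, project SAR, part 3: module LKC.
-/

set_option autoImplicit false

namespace Pool.SAR

open Matrix Finset
open scoped ComplexOrder

theorem t_LKC : Stmt_LYI → Stmt_LYO → Stmt_LKC := by
  intro hI hO ι _ _ E _ _ _ q u y k U
  have h1 : ∀ B ∈ univ.filter (fun B : Finset ι => U ⊆ B ∧ k ∉ B),
      inner ℝ (hat q u y B) (u k) • gv u k B =
        ∑ V ∈ univ.filter (fun V : Finset ι => B ⊆ V ∧ k ∉ V),
          inner ℝ (up (hat q u y) V) (u k) • ((-1 : ℝ) ^ (V \ B).card • gv u k B) := by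
    intro B _
    have e1 : inner ℝ (hat q u y B) (u k) • gv u k B =
        ∑ V ∈ univ.filter (fun V : Finset ι => B ⊆ V),
          inner ℝ (up (hat q u y) V) (u k) • ((-1 : ℝ) ^ (V \ B).card • gv u k B) := by
      conv_lhs => rw [hI ι E (hat q u y) B]
      rw [sum_inner, Finset.sum_smul]
      refine Finset.sum_congr rfl fun V _ => ?_
      rw [real_inner_smul_left, mul_comm, mul_smul]
    rw [e1]
    symm
    refine Finset.sum_subset ?_ ?_
    · intro V hV
      rw [Finset.mem_filter] at hV ⊢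
      exact ⟨hV.1, hV.2.1⟩
    · intro V hV hV'
      rw [Finset.mem_filter] at hV hV'
      have hk : k ∈ V := by
        by_contra hk
        exact hV' ⟨hV.1, hV.2, hk⟩
      rw [(hO ι E q u y).1 V k hk, zero_smul]
  unfold HH th
  rw [Finset.sum_congr rfl h1]
  have h2 : ∀ (B V : Finset ι), (B ∈ univ.filter (fun B : Finset ι => U ⊆ B ∧ k ∉ B) ∧
      V ∈ univ.filter (fun V : Finset ι => B ⊆ V ∧ k ∉ V)) ↔
      (B ∈ univ.filter (fun B : Finset ι => U ⊆ B ∧ B ⊆ V) ∧
        V ∈ univ.filter (fun V : Finset ι => U ⊆ V ∧ k ∉ V)) := by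
    intro B V
    simp only [Finset.mem_filter, Finset.mem_univ, true_and]
    constructor
    · rintro ⟨⟨a1, a2⟩, a3, a4⟩
      exact ⟨⟨a1, a3⟩, a1.trans a3, a4⟩
    · rintro ⟨⟨a1, a2⟩, a3, a4⟩
      exact ⟨⟨a1, fun h => a4 (a2 h)⟩, a2, a4⟩
  rw [Finset.sum_comm' h2]
  refine Finset.sum_congr rfl fun V _ => ?_
  rw [Finset.smul_sum]

end Pool.SAR
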