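import Pool.Agent.SAR.Defs

/-!
MP_c21969_lc, project SAR: statements of the modules, with proofs in the comments.
-/

set_option autoImplicit false

namespace Pool.SAR

open Matrix Finset
open scoped ComplexOrder

/-! ### Block N: the algebra norm -/

/-- NB.  Basic properties of `mob`, `nrm`, `Lf`.
(1) inversion: `∑_{W ⊆ B} ∑_{V ⊆ W} (-1)^(|W|+|V|) h V`, exchange the sums; for fixed `V ⊆ B` the sum
over `V ⊆ W ⊆ B` of `(-1)^(|W|+|V|)` is `0` unless `V = B`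
(Mathlib `Finset.sum_powerset_neg_one_pow_card` after `W = V ∪ W'`), or by induction on `B`.
(2) uniqueness: if `h B = ∑_{W ⊆ B} a W` for all `B ⊆ A` then `mob h W = a W` for `W ⊆ A` (strong
induction on `W` from (1), or directly).
(3) `|h B| ≤ ∑_{W ⊆ B} |mob h W| ≤ nrm q A h` since `1 ≤ (q^|W|)⁻¹` and `B ⊆ A`.
(4) `Lf q A h = ∑_{W ⊆ A} mob h W * ∑_{W ⊆ B ⊆ A} (-(1-q))^|B|` and the inner sum is
`(-(1-q))^|W| * q^(|A|-|W|)` (binomial theorem), of absolute value at most `q^|A| * (q^|W|)⁻¹`.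
(5), (6) the same computation for `h = 1` and `h = ind j`. -/
def Stmt_NB : Prop :=
  ∀ (ι : Type) [DecidableEq ι] (q : ℝ), 0 < q → q ≤ 1 → ∀ A : Finset ι,
    (∀ (h : Finset ι → ℝ) (B : Finset ι), h B = ∑ W ∈ B.powerset, mob h W) ∧
    (∀ h a : Finset ι → ℝ, (∀ B ⊆ A, h B = ∑ W ∈ B.powerset, a W) → ∀ W ⊆ A, mob h W = a W) ∧
    (∀ h : Finset ι → ℝ, ∀ B ⊆ A, |h B| ≤ nrm q A h) ∧
    (∀ h : Finset ι → ℝ, |Lf q A h| ≤ q ^ A.card * nrm q A h) ∧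
    Lf q A (fun _ => 1) = q ^ A.card ∧
    (∀ j ∈ A, q * Lf q A (ind j) = -(1 - q) * q ^ A.card)

/-- NC.  Congruence, linearity and values of the norm; everything is immediate from the definitions
and uniqueness in NB (for `ind j`, `j ∈ A`: `mob (ind j) W = 1` if `W = {j}` and `0` otherwise). -/
def Stmt_NC : Prop :=
  ∀ (ι : Type) [DecidableEq ι] (q : ℝ), 0 < q → q ≤ 1 → ∀ A : Finset ι,
    (∀ h g : Finset ι → ℝ, (∀ B ⊆ A, h B = g B) → nrm q A h = nrm q A g) ∧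
    (∀ h g : Finset ι → ℝ, nrm q A (fun B => h B + g B) ≤ nrm q A h + nrm q A g) ∧
    (∀ (t : ℝ) (h : Finset ι → ℝ), nrm q A (fun B => t * h B) = |t| * nrm q A h) ∧
    (∀ (κ : Type) (s : Finset κ) (h : κ → Finset ι → ℝ),
      nrm q A (fun B => ∑ k ∈ s, h k B) ≤ ∑ k ∈ s, nrm q A (h k)) ∧
    (∀ h : Finset ι → ℝ, 0 ≤ nrm q A h) ∧
    (∀ t : ℝ, nrm q A (fun _ => t) = |t|) ∧
    (∀ j ∈ A, nrm q A (ind j) = q⁻¹)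

/-- NM.  The norm is submultiplicative.  `h B * g B = ∑_{W, V ⊆ B} mob h W * mob g V
= ∑_{U ⊆ B} a U` with `a U = ∑_{W ∪ V = U} mob h W * mob g V`, so `mob (h g) = a` on subsets of `A`
by uniqueness, and `(q^|W ∪ V|)⁻¹ ≤ (q^|W|)⁻¹ * (q^|V|)⁻¹`. -/
def Stmt_NM : Prop :=
  ∀ (ι : Type) [DecidableEq ι] (q : ℝ), 0 < q → q ≤ 1 → ∀ (A : Finset ι) (h g : Finset ι → ℝ),
    nrm q A (fun B => h B * g B) ≤ nrm q A h * nrm q A g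

/-- NI.  Inverses: if `s * r = 1` on the subsets of `A` and `nrm (1 - s) ≤ 1/2` then `nrm r ≤ 2`,
because `r = 1 + (1 - s) * r` gives `nrm r ≤ 1 + nrm r / 2`. -/
def Stmt_NI : Prop :=
  ∀ (ι : Type) [DecidableEq ι] (q : ℝ), 0 < q → q ≤ 1 → ∀ (A : Finset ι) (s r : Finset ι → ℝ),
    (∀ B ⊆ A, s B * r B = 1) → nrm q A (fun B => 1 - s B) ≤ 1 / 2 → nrm q A r ≤ 2

/-! ### Block P: projections -/

/-- PR.  Properties of the projection `R u D` onto the orthogonal complement of the span of the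
`u i`, `i ∈ D` (Mathlib `Submodule.starProjection` and `Submodule.inner_starProjection_left_eq_right`,
`Submodule.starProjection_comp_starProjection_of_le`; for the coefficients: `y - R u D y` is in the
span, `Submodule.mem_span_finset`-type lemmas or `Finsupp.mem_span_image_iff_linearCombination`).
The last item: put `K = span (u '' D)`, `w = R u D (u k)`, `t = ⟪R u D y, u k⟫ / ‖w‖²` (`w ≠ 0`);
then `R u (insert k D) y = R u D y - t • w` because the right side is orthogonal to `u j` for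
`j ∈ insert k D` and differs from `y` by an element of the span of `u '' (insert k D)`; then expand
`‖R u D y - t • w‖²` with `⟪R u D y, w⟫ = ⟪R u D y, u k⟫`.  If `w = 0` both sides are `0`, as
`⟪R u D y, u k⟫ = ⟪R u D y, w⟫`. -/
def Stmt_PR : Prop :=
  ∀ (ι : Type) [Fintype ι] [DecidableEq ι] (E : Type) [NormedAddCommGroup E]
    [InnerProductSpace ℝ E] [FiniteDimensional ℝ E] (u : ι → E) (D : Finset ι),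
    (∀ x y : E, inner ℝ (R u D x) y = inner ℝ x (R u D y)) ∧
    (∀ x y : E, inner ℝ (R u D x) (R u D y) = inner ℝ x (R u D y)) ∧
    (∀ i ∈ D, R u D (u i) = 0) ∧
    (∀ y : E, ∀ i ∈ D, inner ℝ (R u D y) (u i) = 0) ∧
    (∀ y : E, (∀ i ∈ D, inner ℝ y (u i) = 0) → R u D y = y) ∧
    (∀ y : E, ∃ c : ι → ℝ, (∀ j ∉ D, c j = 0) ∧ R u D y = y - ∑ j ∈ D, c j • u j) ∧
    (∀ D' : Finset ι, D ⊆ D' → ∀ y : E, R u D' (R u D y) = R u D' y) ∧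
    (∀ (y : E) (k : ι), (‖R u D y‖ ^ 2 - ‖R u (insert k D) y‖ ^ 2) * ‖R u D (u k)‖ ^ 2 =
      (inner ℝ (R u D y) (u k)) ^ 2)

/-- KE.  Coefficient functions exist: apply the sixth item of PR to each `D = B ∪ C`, `B ⊆ A`, and
choose (`c j B` is the coefficient for `j ∈ B ∪ C` and `0` otherwise; the sum over `B ∪ C` extends
to `A ∪ C`). -/
def Stmt_KE : Prop :=
  ∀ (ι : Type) [Fintype ι] [DecidableEq ι] (E : Type) [NormedAddCommGroup E]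
    [InnerProductSpace ℝ E] [FiniteDimensional ℝ E] (u : ι → E) (A C : Finset ι) (y : E),
    ∃ c : ι → Finset ι → ℝ, Coef u A C y c

/-- KN.  Norm bounds for the coefficient functions.  For `B ⊆ A` and `j ∈ B ∪ C`, taking the inner
product of `Coef.eq` with `u j` (PR: `⟪R u (B ∪ C) y, u j⟫ = 0`) gives
`c j B = ⟪y, u j⟫ - ∑_{l ∈ A ∪ C, l ≠ j} ⟪u j, u l⟫ * c l B`; for `j ∈ A ∪ C` not in `B ∪ C`,
`c j B = 0`.  So on subsets of `A`: `c j = e * (⟪y, u j⟫ - ∑_{l ≠ j} ⟪u j, u l⟫ * c l)` with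
`e = ind j` if `j ∈ A` and `e = 1` if `j ∈ C`; `nrm e ≤ q⁻¹`.  Put `S = ∑_{j ∈ A ∪ C} nrm (c j)`.
Hence `nrm (c j) ≤ q⁻¹ (|⟪y, u j⟫| + δ S)`; summing, `S ≤ q⁻¹ ∑ |⟪y, u j⟫| + ℓ q⁻¹ δ S` and
`ℓ q⁻¹ δ ≤ 1/8`, so `S ≤ 2 q⁻¹ ∑ |⟪y, u j⟫|`.  For `j ∈ A`:
`c j - ⟪y, u j⟫ * ind j = - ind j * ∑_{l ≠ j} ⟪u j, u l⟫ * c l` has norm `≤ q⁻¹ δ S ≤ S / (8 ℓ)`. -/
def Stmt_KN : Prop :=
  ∀ (ι : Type) [Fintype ι] [DecidableEq ι] (E : Type) [NormedAddCommGroup E]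
    [InnerProductSpace ℝ E] [FiniteDimensional ℝ E] (u : ι → E) (ℓ : ℕ) (q δ : ℝ),
    Sys ℓ q δ u → ∀ A C : Finset ι, Disjoint A C → (A ∪ C).card ≤ ℓ →
    ∀ (y : E) (c : ι → Finset ι → ℝ), Coef u A C y c →
      ∑ j ∈ A ∪ C, nrm q A (c j) ≤ 2 * q⁻¹ * ∑ j ∈ A ∪ C, |inner ℝ y (u j)| ∧
      ∀ j ∈ A, nrm q A (fun B => c j B - inner ℝ y (u j) * ind j B) ≤
        (8 * (ℓ : ℝ))⁻¹ * ∑ j ∈ A ∪ C, nrm q A (c j)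

/-- KP.  Positivity.  Let `y` be orthogonal to `u j`, `j ∈ C`, `η j = ⟪y, u j⟫`.  With coefficient
functions `c` (KE): `‖R y‖² = ⟪R y, y⟫ = ‖y‖² - ∑_{j ∈ A} c j B * η j` (`η j = 0` for `j ∈ C`), so
`Lf = q^a ‖y‖² - ∑_{j ∈ A} η j * Lf (c j)`, and
`η j * Lf (c j) = η j² * Lf (ind j) + η j * Lf (c j - η j ind j)`, where
`Lf (ind j) = -(1-q) q^a q⁻¹` and `|Lf (c j - η j ind j)| ≤ q^a * nrm (...) ≤ q^a S / (8 ℓ)`,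
`S ≤ 2 q⁻¹ ∑_A |η|`.  Since `(∑_A |η|)² ≤ ℓ ∑_A η²` (Cauchy-Schwarz, `|A| ≤ ℓ`), the error is at
most `q^a q⁻¹ (1/4) ∑_A η²`, and `(1-q) - 1/4 ≥ 1/4`. -/
def Stmt_KP : Prop :=
  ∀ (ι : Type) [Fintype ι] [DecidableEq ι] (E : Type) [NormedAddCommGroup E]
    [InnerProductSpace ℝ E] [FiniteDimensional ℝ E] (u : ι → E) (ℓ : ℕ) (q δ : ℝ),
    Sys ℓ q δ u → ∀ A C : Finset ι, Disjoint A C → (A ∪ C).card ≤ ℓ →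
    ∀ y : E, (∀ j ∈ C, inner ℝ y (u j) = 0) →
      q ^ A.card * (‖y‖ ^ 2 + 1 / 4 * q⁻¹ * ∑ j ∈ A, (inner ℝ y (u j)) ^ 2) ≤
        Lf q A (fun B => ‖R u (B ∪ C) y‖ ^ 2)

/-- KF.  One step of sparsity.  `y` orthogonal to the `u j`, `j ∈ C`, with coefficient functions `c`,
`k ∉ A ∪ C`, `φ B = ‖R (B ∪ C) y‖² - ‖R (insert k (B ∪ C)) y‖²`.  By the last item of PR
`φ B * s B = g B ^ 2` with `s B = ‖R (B ∪ C) (u k)‖²`, `g B = ⟪R (B ∪ C) y, u k⟫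
= ⟪y, u k⟫ - ∑_{j ∈ A ∪ C} c j B * ⟪u j, u k⟫`.  Let `c'` be coefficient functions for `u k` (KE);
`s B = ⟪R (u k), u k⟫ = 1 - ∑_j c' j B * ⟪u j, u k⟫` and by KN
`nrm (1 - s) ≤ δ * ∑ nrm (c' j) ≤ δ * 2 * q⁻¹ * ℓ * δ ≤ δ / 4 ≤ 1/2`, so `s ≠ 0` on subsets of `A`
(NB: `|1 - s B| ≤ nrm (1 - s)`) and `nrm (1/s) ≤ 2` (NI).  Hence by NM
`nrm φ ≤ 2 (nrm g)² ≤ 2 (|⟪y, u k⟫| + ∑_{j ∈ A ∪ C} nrm (c j) * |⟪u j, u k⟫|)²`. -/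
def Stmt_KF : Prop :=
  ∀ (ι : Type) [Fintype ι] [DecidableEq ι] (E : Type) [NormedAddCommGroup E]
    [InnerProductSpace ℝ E] [FiniteDimensional ℝ E] (u : ι → E) (ℓ : ℕ) (q δ : ℝ),
    Sys ℓ q δ u → ∀ A C : Finset ι, Disjoint A C → (A ∪ C).card ≤ ℓ →
    ∀ (y : E) (c : ι → Finset ι → ℝ), Coef u A C y c → ∀ k ∉ A ∪ C,
      nrm q A (fun B => ‖R u (B ∪ C) y‖ ^ 2 - ‖R u (insert k (B ∪ C)) y‖ ^ 2) ≤
        2 * (|inner ℝ y (u k)| + ∑ j ∈ A ∪ C, nrm q A (c j) * |inner ℝ (u j) (u k)|) ^ 2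

/-- KS.  The sum over `k`.  With `N j = nrm (c j)`, `S = ∑_{A ∪ C} N j ≤ 2 q⁻¹ ∑_A |η j|` (KN,
`η j = 0` on `C`), `|Lf φ_k| ≤ q^a nrm φ_k` (NB) `≤ q^a * 2 * (|η k| + ∑_j N j |Δ j k|)²
≤ q^a (4 (η k)² + 4 S ∑_j N j (Δ j k)²)` (Cauchy-Schwarz), and summing over `k ∉ A ∪ C`:
`≤ q^a (4 Λ ‖y‖² + 4 σ S²)`, `S² ≤ 4 q⁻² (∑_A |η|)² ≤ 4 q⁻² ℓ ∑_A η²`. -/
def Stmt_KS : Prop :=
  ∀ (ι : Type) [Fintype ι] [DecidableEq ι] (E : Type) [NormedAddCommGroup E]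
    [InnerProductSpace ℝ E] [FiniteDimensional ℝ E] (u : ι → E) (ℓ : ℕ) (q δ Λ σ : ℝ),
    Sys ℓ q δ u → (∀ y : E, ∑ k, (inner ℝ y (u k)) ^ 2 ≤ Λ * ‖y‖ ^ 2) →
    (∀ j, ∑ k ∈ univ.erase j, (inner ℝ (u j) (u k)) ^ 2 ≤ σ) →
    ∀ A C : Finset ι, Disjoint A C → (A ∪ C).card ≤ ℓ →
    ∀ y : E, (∀ j ∈ C, inner ℝ y (u j) = 0) →
      ∑ k ∈ (A ∪ C)ᶜ, |Lf q A (fun B => ‖R u (B ∪ C) y‖ ^ 2 - ‖R u (insert k (B ∪ C)) y‖ ^ 2)| ≤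
        q ^ A.card * (4 * Λ * ‖y‖ ^ 2 +
          16 * (ℓ : ℝ) * σ * (q⁻¹) ^ 2 * ∑ j ∈ A, (inner ℝ y (u j)) ^ 2)

/-- LI.  `Lf` over `insert k A`: `∑_{B ⊆ A} ((-(1-q))^|B| h B + (-(1-q))^(|B|+1) h (insert k B))`
(Mathlib `Finset.sum_powerset_insert`). -/
def Stmt_LI : Prop :=
  ∀ (ι : Type) [DecidableEq ι] (q : ℝ) (A : Finset ι) (k : ι), k ∉ A → ∀ h : Finset ι → ℝ,
    Lf q (insert k A) h = q * Lf q A h + (1 - q) * Lf q A (fun B => h B - h (insert k B)) ∧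
    Lf q (insert k A) h = Lf q A h - (1 - q) * Lf q A (fun B => h (insert k B))

/-- KQ.  Sparsity for `y` orthogonal to the `u j`, `j ∈ C`.  Put `F = Lf q A (‖R (B ∪ C) y‖²)`,
`F ≥ q^a (‖y‖² + (1/4) q⁻¹ ∑_A η²)` (KP).  By LI (`insert k B ∪ C = insert k (B ∪ C)`)
`Lf q (insert k A) (...) = q F + (1-q) Lf φ_k`, so by KS the sum over `k ∉ A ∪ C` is at most
`card ι * q * F + q^a (4 Λ ‖y‖² + 16 ℓ σ q⁻² ∑_A η²) ≤ (m/4) F + (m/2) F` and `|A| ≤ ℓ ≤ m/4`. -/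
def Stmt_KQ : Prop :=
  ∀ (ι : Type) [Fintype ι] [DecidableEq ι] (E : Type) [NormedAddCommGroup E]
    [InnerProductSpace ℝ E] [FiniteDimensional ℝ E] (u : ι → E) (ℓ m : ℕ) (q δ Λ σ : ℝ),
    Sys ℓ q δ u → (∀ y : E, ∑ k, (inner ℝ y (u k)) ^ 2 ≤ Λ * ‖y‖ ^ 2) →
    (∀ j, ∑ k ∈ univ.erase j, (inner ℝ (u j) (u k)) ^ 2 ≤ σ) →
    4 * ((Fintype.card ι : ℝ) * q) = m → 8 * Λ ≤ m → 128 * (ℓ : ℝ) * σ ≤ m * q → 4 * ℓ ≤ m →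
    ∀ A C : Finset ι, Disjoint A C → (A ∪ C).card ≤ ℓ →
    ∀ y : E, (∀ j ∈ C, inner ℝ y (u j) = 0) →
      ∑ k ∈ (A ∪ C)ᶜ, Lf q (insert k A) (fun B => ‖R u (B ∪ C) y‖ ^ 2) ≤
        ((m : ℝ) - (A.card : ℝ)) * Lf q A (fun B => ‖R u (B ∪ C) y‖ ^ 2)

/-- LR.  The matrices `YR q u A C` form a lift.  Quadratic forms: for `x : ι → ℝ` and
`z = ∑ i, x i • u i`, `∑ i j, x i * x j * (YR q u A C) i j
= (card ι)⁻¹ (1-q)^|C| Lf q A (fun B => ‖R (B ∪ C) z‖²)` (PR: `⟪z, R z⟫ = ‖R z‖²`), and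
`R (B ∪ C) z = R (B ∪ C) y` for `y = R C z`, which is orthogonal to the `u j`, `j ∈ C` (PR).
psd: KP.  sparse: KQ.  split: the second formula of LI and `(1-q)^(|C|+1)`,
`B ∪ insert k C = insert k B ∪ C`.  zero: `⟪u i, R (B ∪ C) (u j)⟫ = 0` for `i ∈ C` (PR).
trace: `⟪u i, R ∅ (u i)⟫ = ‖u i‖² = 1` (`R u ∅ = id`: fifth item of PR).  Symmetry from PR. -/
def Stmt_LR : Prop :=
  ∀ (ι : Type) [Fintype ι] [DecidableEq ι] [Nonempty ι] (E : Type) [NormedAddCommGroup E]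
    [InnerProductSpace ℝ E] [FiniteDimensional ℝ E] (u : ι → E) (ℓ m : ℕ) (q δ Λ σ : ℝ),
    Sys ℓ q δ u → (∀ y : E, ∑ k, (inner ℝ y (u k)) ^ 2 ≤ Λ * ‖y‖ ^ 2) →
    (∀ j, ∑ k ∈ univ.erase j, (inner ℝ (u j) (u k)) ^ 2 ≤ σ) →
    4 * ((Fintype.card ι : ℝ) * q) = m → 8 * Λ ≤ m → 128 * (ℓ : ℝ) * σ ≤ m * q → 4 * ℓ ≤ m →
      Lift m ℓ (YR q u) ∧ ∀ i j, YR q u ∅ ∅ i j = (Fintype.card ι : ℝ)⁻¹ * inner ℝ (u i) (u j)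

/-! ### Block G: consequences of the RIP for vectors -/

/-- GA.  Duality.  `φ` has the RIP with constant `c`; `v j = ‖φ j‖⁻¹ • φ j`.  `c ≤ ‖φ j‖` (take
`x = e_j`).  With `x j = ⟪y, v j⟫` for `j ∈ J`, `z = ∑_J x j • v j = ∑_J (x j / ‖φ j‖) • φ j` has
`‖z‖² ≤ 4 c² ∑ (x j / ‖φ j‖)² ≤ 4 ∑ x j²`, and `∑ x j² = ⟪y, z⟫ ≤ ‖y‖ ‖z‖`. -/
def Stmt_GA : Prop :=
  ∀ (ι : Type) [Fintype ι] [DecidableEq ι] (F : Type) [NormedAddCommGroup F]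
    [InnerProductSpace ℝ F] (m : ℕ) (c : ℝ) (φ : ι → F), 1 ≤ m → 0 < c →
    (∀ J : Finset ι, J.card ≤ m → ∀ x : ι → ℝ,
      c ^ 2 * ∑ j ∈ J, x j ^ 2 ≤ ‖∑ j ∈ J, x j • φ j‖ ^ 2 ∧
        ‖∑ j ∈ J, x j • φ j‖ ^ 2 ≤ 4 * c ^ 2 * ∑ j ∈ J, x j ^ 2) →
    (∀ j, c ≤ ‖φ j‖) ∧ ∀ J : Finset ι, J.card ≤ m → ∀ y : F,
      ∑ j ∈ J, (inner ℝ y (‖φ j‖⁻¹ • φ j)) ^ 2 ≤ 4 * ‖y‖ ^ 2

/-- GD.  Dimension: `m` vectors with a positive lower RIP constant are linearly independent, so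
`m ≤ finrank`. -/
def Stmt_GD : Prop :=
  ∀ (ι : Type) [Fintype ι] [DecidableEq ι] (F : Type) [NormedAddCommGroup F]
    [InnerProductSpace ℝ F] [FiniteDimensional ℝ F] (m : ℕ) (c : ℝ) (φ : ι → F), 0 < c →
    (∀ J : Finset ι, J.card ≤ m → ∀ x : ι → ℝ,
      c ^ 2 * ∑ j ∈ J, x j ^ 2 ≤ ‖∑ j ∈ J, x j • φ j‖ ^ 2) →
    m ≤ Fintype.card ι → m ≤ Module.finrank ℝ F

/-- GP.  Pruning.  For each `i` the set `Bad i = {k : ⟪v i, v k⟫² > 8 / m}` has fewer than `m`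
elements (otherwise a subset `J` of size `m` has `∑_J ⟪v i, v k⟫² > 8 > 4`) and contains `i` if
`m ≥ 9`.  Induction on `N`: from `T` with `N` elements, the union of the `Bad i`, `i ∈ T`, has
fewer than `(N + 1) m ≤ card ι` elements, so there is a `k` outside; add it. -/
def Stmt_GP : Prop :=
  ∀ (ι : Type) [Fintype ι] [DecidableEq ι] (F : Type) [NormedAddCommGroup F]
    [InnerProductSpace ℝ F] (m : ℕ) (v : ι → F), 9 ≤ m → (∀ i, ‖v i‖ = 1) →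
    (∀ J : Finset ι, J.card ≤ m → ∀ y : F, ∑ j ∈ J, (inner ℝ y (v j)) ^ 2 ≤ 4 * ‖y‖ ^ 2) →
    ∀ N : ℕ, N * m ≤ Fintype.card ι →
      ∃ T : Finset ι, T.card = N ∧ ∀ i ∈ T, ∀ j ∈ T, i ≠ j → (inner ℝ (v i) (v j)) ^ 2 ≤ 8 / m

/-- GB.  Block sums: by induction on `p`, if `|T| ≤ p m` then `∑_T f ≤ p K` (split off a subset of
size `min m |T|`); take `p = |T| / m + 1` (natural division), `p ≤ |T| / m + 1` (real division). -/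
def Stmt_GB : Prop :=
  ∀ (ι : Type) [DecidableEq ι] (m : ℕ) (K : ℝ) (f : ι → ℝ), 1 ≤ m → 0 ≤ K → (∀ i, 0 ≤ f i) →
    (∀ J : Finset ι, J.card ≤ m → ∑ j ∈ J, f j ≤ K) →
    ∀ T : Finset ι, ∑ j ∈ T, f j ≤ K * ((T.card : ℝ) / m + 1)

/-- GF.  Frame potential: unit vectors `v i` in a space of dimension `≤ D`.  In an orthonormal basis
(`stdOrthonormalBasis`), `∑ i j, ⟪v i, v j⟫² = ∑ a b, (∑ i, v i a * v i b)²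
≥ ∑ a, (∑ i, (v i a)²)² ≥ (∑ a, ∑ i, (v i a)²)² / dim = (card ι)² / dim` (Cauchy-Schwarz). -/
def Stmt_GF : Prop :=
  ∀ (ι : Type) [Fintype ι] (F : Type) [NormedAddCommGroup F]
    [InnerProductSpace ℝ F] [FiniteDimensional ℝ F] (D : ℕ) (v : ι → F), (∀ i, ‖v i‖ = 1) →
    Module.finrank ℝ F ≤ D →
      (Fintype.card ι : ℝ) ^ 2 ≤ D * ∑ i, ∑ j, (inner ℝ (v i) (v j)) ^ 2

/-- GU.  The feature vectors.  `E = WithLp 2 (EuclideanSpace ℝ ι × F)`,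
`u i = (√2)⁻¹ • (e_i, v i)`: `⟪u i, u j⟫ = (δ_ij + ⟪v i, v j⟫) / 2`, and for `y = (y1, y2)`
`⟪y, u k⟫² = (y1 k + ⟪y2, v k⟫)² / 2 ≤ (y1 k)² + ⟪y2, v k⟫²`, so
`∑_k ⟪y, u k⟫² ≤ ‖y1‖² + Λ ‖y2‖² ≤ Λ ‖y‖²`. -/
def Stmt_GU : Prop :=
  ∀ (ι : Type) [Fintype ι] [DecidableEq ι] (F : Type) [NormedAddCommGroup F]
    [InnerProductSpace ℝ F] [FiniteDimensional ℝ F] (v : ι → F) (Λ : ℝ), (∀ i, ‖v i‖ = 1) →
    1 ≤ Λ → (∀ y : F, ∑ k, (inner ℝ y (v k)) ^ 2 ≤ Λ * ‖y‖ ^ 2) →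
    ∃ (E : Type) (_ : NormedAddCommGroup E) (_ : InnerProductSpace ℝ E)
      (_ : FiniteDimensional ℝ E) (u : ι → E),
      (∀ i j, inner ℝ (u i) (u j) = 1 / 2 * (if i = j then 1 else 0) + 1 / 2 * inner ℝ (v i) (v j)) ∧
      ∀ y : E, ∑ k, (inner ℝ y (u k)) ^ 2 ≤ Λ * ‖y‖ ^ 2

/-! ### Block H: matrices -/

/-- HS.  The lift of a single vector.  If all coordinates are nonzero on `A` and zero on `C` then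
the sum over `k ∉ A ∪ C` of `vlift x (insert k A) C` is `(number of nonzero coordinates outside A)`
times `x x*`, which is at most `(m - |A|) x x*` (`Matrix.posSemidef_vecMulVec_self_star`). -/
def Stmt_HS : Prop :=
  ∀ (𝕜 : Type) [RCLike 𝕜] (ι : Type) [Fintype ι] [DecidableEq ι] (m ℓ : ℕ) (x : ι → 𝕜),
    (∑ i, ‖x i‖ ^ 2 = 1) → (∃ S : Finset ι, S.card ≤ m ∧ ∀ i ∉ S, x i = 0) →
      Lift m ℓ (vlift x)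

/-- HR.  Soundness.  `val Φ (x x*) = ∑ a, ‖(Φ x) a‖²`, HS, and scaling of `x`; stated with at most
`m` coordinates. -/
def Stmt_HR : Prop :=
  ∀ (𝕜 : Type) [RCLike 𝕜] (ι ρ : Type) [Fintype ι] [DecidableEq ι] [Fintype ρ] (m ℓ : ℕ)
    (Φ : Matrix ρ ι 𝕜) (c : ℝ), 0 < c → (∀ Y : Finset ι → Finset ι → Matrix ι ι 𝕜, Lift m ℓ Y →
      c ^ 2 ≤ val Φ (Y ∅ ∅) ∧ val Φ (Y ∅ ∅) ≤ 4 * c ^ 2) →
    ∀ S : Finset ι, S.card ≤ m → ∀ x : ι → 𝕜, (∀ i ∉ S, x i = 0) →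
      c ^ 2 * ∑ i, ‖x i‖ ^ 2 ≤ ∑ a, ‖(Φ *ᵥ x) a‖ ^ 2 ∧
        ∑ a, ‖(Φ *ᵥ x) a‖ ^ 2 ≤ 4 * c ^ 2 * ∑ i, ‖x i‖ ^ 2

/-- HE.  Extension by zero is a lift.  Write `A' = {k | e k ∈ A}`, `C' = {k | e k ∈ C}`.  If `A` is
not contained in the range of `e` neither is `insert k A`, and everything is `0`.  Otherwise
`A'.card = A.card`, `(A' ∪ C').card ≤ (A ∪ C).card`.  psd: for `x : ι → 𝕜` the quadratic form is the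
one of `Y A' C'` (cast to `𝕜`) at `x ∘ e`, and a real positive semidefinite matrix is positive
semidefinite over `𝕜` (real and imaginary parts of `x`).  split: if `k = e k'` use the split of `Y`;
if `k` is not in the range, `ext (insert k A) C = 0` and `ext A (insert k C) = ext A C`.
sparse: only `k = e k'` contribute and the matrix is the extension of the real one.
The entries: `ext 𝕜 e Y ∅ ∅ (e k) (e l) = Y ∅ ∅ k l` and `0` off the range. -/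
def Stmt_HE : Prop :=
  ∀ (𝕜 : Type) [RCLike 𝕜] (ι κ : Type) [Fintype ι] [DecidableEq ι] [Fintype κ] [DecidableEq κ]
    (e : κ ↪ ι) (m ℓ : ℕ) (Y : Finset κ → Finset κ → Matrix κ κ ℝ), Lift m ℓ Y →
      Lift m ℓ (ext 𝕜 e Y)

/-- HV.  The value of the extension.  `Φ` has columns `φ i`, seen in the real inner product space
`EuclideanSpace ℝ (ρ ⊕ ρ)` (real and imaginary parts): `⟪φ i, φ j⟫ = re ((Φ* Φ) i j)`. -/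
def Stmt_HV : Prop :=
  ∀ (𝕜 : Type) [RCLike 𝕜] (ι ρ : Type) [Fintype ι] [DecidableEq ι] [Fintype ρ]
    (Φ : Matrix ρ ι 𝕜), ∃ φ : ι → EuclideanSpace ℝ (ρ ⊕ ρ),
      (∀ x : ι → ℝ, ∑ a, ‖(Φ *ᵥ (fun i => (x i : 𝕜))) a‖ ^ 2 = ‖∑ i, x i • φ i‖ ^ 2) ∧
      ∀ (κ : Type) [Fintype κ] [DecidableEq κ] (e : κ ↪ ι)
        (Y : Finset κ → Finset κ → Matrix κ κ ℝ), (Y ∅ ∅).IsSymm →
        val Φ (ext 𝕜 e Y ∅ ∅) = ∑ k, ∑ l, inner ℝ (φ (e k)) (φ (e l)) * Y ∅ ∅ k l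

/-! ### Assembly -/

/-- AV.  The value.  `c ≤ ‖φ i‖`, `v i = ‖φ i‖⁻¹ • φ i`, `N = card ι`, `8 D = N`:
`∑ ⟪φ i, φ j⟫ X i j` with `X i j = N⁻¹ (δ_ij / 2 + ⟪v i, v j⟫ / 2)` equals
`N⁻¹ (½ ∑ ‖φ i‖² + ½ ∑ ‖φ i‖ ‖φ j‖ ⟪v i, v j⟫²) ≥ c² N⁻¹ (N / 2 + N² / (2 D)) = 4.5 c²` (GF). -/
def Stmt_AV : Prop :=
  ∀ (ι : Type) [Fintype ι] [DecidableEq ι] (F : Type) [NormedAddCommGroup F]
    [InnerProductSpace ℝ F] [FiniteDimensional ℝ F] (D : ℕ) (c : ℝ) (φ : ι → F), 0 < c →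
    1 ≤ D → (∀ i, c ≤ ‖φ i‖) → Module.finrank ℝ F ≤ D → Fintype.card ι = 8 * D →
      4 * c ^ 2 < ∑ i, ∑ j, inner ℝ (φ i) (φ j) * ((Fintype.card ι : ℝ)⁻¹ *
        (1 / 2 * (if i = j then 1 else 0) + 1 / 2 * inner ℝ (‖φ i‖⁻¹ • φ i) (‖φ j‖⁻¹ • φ j)))

/-- AC.  Arithmetic of the parameters. `q = m / (32 D)`, `δ² = 2 / m`, `Λ = 36 D / m`,
`σ = 9 D / m`, `m ≤ D`, `131072 ℓ² D² ≤ m³`. -/
def Stmt_AC : Prop :=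
  ∀ m ℓ D : ℕ, 1 ≤ D → 1 ≤ ℓ → m ≤ D → 131072 * ℓ ^ 2 * D ^ 2 ≤ m ^ 3 →
    9 ≤ m ∧ 4 * ℓ ≤ m ∧ 0 < (m : ℝ) / (32 * D) ∧ (m : ℝ) / (32 * D) ≤ 1 / 2 ∧
    8 * (ℓ : ℝ) * Real.sqrt (2 / m) ≤ (m : ℝ) / (32 * D) ∧
    8 * (36 * (D : ℝ) / m) ≤ m ∧ 128 * (ℓ : ℝ) * (9 * (D : ℝ) / m) ≤ m * ((m : ℝ) / (32 * D)) ∧
    1 ≤ 36 * (D : ℝ) / m ∧ 4 * ((8 * D : ℕ) / (m : ℝ) + 1) ≤ 36 * (D : ℝ) / m

/-- AR.  The barrier for vectors.  GD (`m ≤ D`), AC, GA, GP with `N = 8 D`, `κ = T` as a subtype,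
GB (block sums, `f k = ⟪y, v k⟫²`, `K = 4 ‖y‖²`), GU, `Sys` with `δ = √(2/m)`, `q = m / (32 D)`,
`σ = 9 D / m` (`∑_{k ≠ j} ⟪u j, u k⟫² = ¼ ∑_{k ≠ j} ⟪v j, v k⟫² ≤ ¼ · 36 D / m`), LR. -/
def Stmt_AR : Prop :=
  ∀ (ι : Type) [Fintype ι] [DecidableEq ι] (F : Type) [NormedAddCommGroup F]
    [InnerProductSpace ℝ F] [FiniteDimensional ℝ F] (m ℓ D : ℕ) (c : ℝ) (φ : ι → F), 0 < c →
    1 ≤ D → 1 ≤ ℓ → Module.finrank ℝ F ≤ D → 8 * D * m ≤ Fintype.card ι →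
    131072 * ℓ ^ 2 * D ^ 2 ≤ m ^ 3 →
    (∀ J : Finset ι, J.card ≤ m → ∀ x : ι → ℝ,
      c ^ 2 * ∑ j ∈ J, x j ^ 2 ≤ ‖∑ j ∈ J, x j • φ j‖ ^ 2 ∧
        ‖∑ j ∈ J, x j • φ j‖ ^ 2 ≤ 4 * c ^ 2 * ∑ j ∈ J, x j ^ 2) →
    ∃ (κ : Type) (_ : Fintype κ) (_ : DecidableEq κ) (e : κ ↪ ι)
      (Y : Finset κ → Finset κ → Matrix κ κ ℝ), Lift m ℓ Y ∧ (Y ∅ ∅).IsSymm ∧
      4 * c ^ 2 < ∑ k, ∑ l, inner ℝ (φ (e k)) (φ (e l)) * Y ∅ ∅ k l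

/-- MB.  The barrier: HR, HV, AR with `D = 2 * card ρ`, HE. -/
def Stmt_MB : Prop :=
  ∀ (𝕜 : Type) [RCLike 𝕜] (n d m ℓ : ℕ), 1 ≤ n → 1 ≤ ℓ → 16 * n * m ≤ d →
    524288 * ℓ ^ 2 * n ^ 2 ≤ m ^ 3 → ∀ Φ : Matrix (Fin n) (Fin d) 𝕜, ¬ Cert m ℓ Φ

/-- CA.  Level `2` accepts small coherence.  Let `Y` be a level-`2` lift, `X = Y ∅ ∅`.  For `i ≠ j`,
`X i j = (Y {i} ∅) i j = (Y {i, j} ∅) i j` (split and zero), and for positive semidefinite `M`,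
`‖M i j‖ ≤ (re (M i i) + re (M j j)) / 2`.  `X i i = (Y {i} ∅) i i`.  The `(i, i)` entry of sparse at
`A = {i}`, `C = ∅`: `∑_{j ≠ i} re (Y {i, j} ∅ i i) ≤ (m - 1) re (X i i)`.  So
`∑_{i ≠ j} ‖X i j‖ ≤ m - 1` and `val Φ X = ∑_i re (X i i) + re ∑_{i ≠ j} (Φ* Φ) i j * X j i` is in
`[1 - μ (m - 1), 1 + μ (m - 1)]`, which is in `[2/5, 8/5]`.  Take `c = √(2/5)`. -/
def Stmt_CA : Prop :=
  ∀ (𝕜 : Type) [RCLike 𝕜] (n d m : ℕ) (μ : ℝ), 1 ≤ m → 0 ≤ μ → 5 * (((m : ℝ) - 1) * μ) ≤ 3 →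
    ∀ Φ : Matrix (Fin n) (Fin d) 𝕜, (∀ i, (Φᴴ * Φ) i i = 1) →
      (∀ i j, i ≠ j → ‖(Φᴴ * Φ) i j‖ ≤ μ) → Cert m 2 Φ

end Pool.SAR
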