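import Pool.Agent.SAR.Defs

/-!
MP_c21969_lc, project SAR, part 2: the top level of the hierarchy is exact.
-/

set_option autoImplicit false

namespace Pool.SAR

open Matrix Finset
open scoped ComplexOrder

/-- XS.  Full splitting.  `Y A C = ∑_{B ⊆ K} Y (A ∪ B) (C ∪ (K \ B))` for `K` disjoint from `A ∪ C`,
by induction on `K` (Mathlib `Finset.sum_powerset_insert`), then `A = C = ∅`, `K = univ`. -/
def Stmt_XS : Prop :=
  ∀ (𝕜 : Type) [RCLike 𝕜] (ι : Type) [Fintype ι] [DecidableEq ι] (m : ℕ)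
    (Y : Finset ι → Finset ι → Matrix ι ι 𝕜), Lift m (Fintype.card ι) Y →
      Y ∅ ∅ = ∑ A : Finset ι, Y A Aᶜ

/-- XZ.  If `m < A.card` then `Y A Aᶜ = 0`: take `k ∈ A`, `A' = A.erase k`, `m ≤ A'.card`; `sparse`
at `(A', Aᶜ)` (the only element outside `A' ∪ Aᶜ` is `k`) says that
`(m - |A'|) • Y A' Aᶜ - Y A Aᶜ` is positive semidefinite, so `- Y A Aᶜ` is positive semidefinite, and
so is `Y A Aᶜ`; hence all diagonal entries are `0`, and the matrix is `0`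
(`Matrix.PosSemidef` with trace `0`: `Matrix.PosSemidef.trace_eq_zero_iff`). -/
def Stmt_XZ : Prop :=
  ∀ (𝕜 : Type) [RCLike 𝕜] (ι : Type) [Fintype ι] [DecidableEq ι] (m : ℕ)
    (Y : Finset ι → Finset ι → Matrix ι ι 𝕜), Lift m (Fintype.card ι) Y →
      ∀ A : Finset ι, m < A.card → Y A Aᶜ = 0

/-- XV.  Let `M` be positive semidefinite with rows `i ∉ A` equal to `0`.  `M = Bᴴ * B`
(`Matrix.posSemidef_iff_eq_conjTranspose_mul_self`); `M i i = ∑ k, ‖B k i‖²` so `B k i = 0` for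
`i ∉ A`.  `val Φ M = re tr (Φᴴ Φ Bᴴ B) = ∑_k ‖Φ b_k‖²` where `b_k i = star (B k i)` is supported on
`A`, and `re tr M = ∑_k ‖b_k‖²`. -/
def Stmt_XV : Prop :=
  ∀ (𝕜 : Type) [RCLike 𝕜] (ι ρ : Type) [Fintype ι] [DecidableEq ι] [Fintype ρ]
    (Φ : Matrix ρ ι 𝕜) (A : Finset ι) (a b : ℝ),
    (∀ x : ι → 𝕜, (∀ i ∉ A, x i = 0) →
      a * ∑ i, ‖x i‖ ^ 2 ≤ ∑ r, ‖(Φ *ᵥ x) r‖ ^ 2 ∧
        ∑ r, ‖(Φ *ᵥ x) r‖ ^ 2 ≤ b * ∑ i, ‖x i‖ ^ 2) →
    ∀ M : Matrix ι ι 𝕜, M.PosSemidef → (∀ i ∉ A, ∀ j, M i j = 0) →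
      a * RCLike.re M.trace ≤ val Φ M ∧ val Φ M ≤ b * RCLike.re M.trace

/-- XE.  The top level is exact: XS, XZ, XV for every `A` with at most `m` elements (contained in a
set with exactly `m` elements, as `m ≤ card ι`); `val Φ` and `re tr` are additive; the traces sum to
`re tr (Y ∅ ∅) = 1`. -/
def Stmt_XE : Prop :=
  ∀ (𝕜 : Type) [RCLike 𝕜] (ι ρ : Type) [Fintype ι] [DecidableEq ι] [Fintype ρ] (m : ℕ)
    (Φ : Matrix ρ ι 𝕜), m ≤ Fintype.card ι → RIP m Φ → Cert m (Fintype.card ι) Φ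

end Pool.SAR
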