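import Pool.Agent.SAR.DefsL
import Pool.Agent.SAR.Stmts
import Pool.Agent.SAR.Stmts2

/-!
MP_c21969_lc, project SAR, part 3 (Lasserre tests): statements of the modules, with complete proofs
in the comments.  `N = Fintype.card ι`, `ρ = q / (1 - q)`, so `(1 + ρ) (1 - q) = 1` and
`ρ (1 - q) = q`.
-/

set_option autoImplicit false

namespace Pool.SAR

open Matrix Finset
open scoped ComplexOrder

/-! ### Block O: the functional `Om` -/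

/-- LOA.  Values of `Om` on the functions `1[W ⊆ D]` and on constants.
Insertion formulas.  If `i ∉ V` and `i ∉ V'` then (split `B ⊆ insert i V` into `B` and `insert i B`,
`B ⊆ V`, Mathlib `Finset.sum_powerset_insert`; the sign of `(B, B')` changes, as `i ∈ insert i V \ B`)
`Om (insert i V) V' f = Om V V' (f ∘ insert i) - Om V V' f`, and if moreover `V'' = insert i V'`,
`Om (insert i V) (insert i V') f = Om V V' f + (ρ - 1) * Om V V' (f ∘ insert i)`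
(the four cases `(B, B')`, `(iB, B')`, `(B, iB')`, `(iB, iB')` contribute `f(D)`, `-f(iD)`, `-f(iD)`,
`(1 + ρ) f(iD)` with `D = B ∪ B'`).
For `f = 1[W ⊆ ·]`: if `i ∈ W` then `f D = 0` for `D ⊆ V ∪ V'` (as `i ∉ D`) and `f (insert i D)
= 1[W.erase i ⊆ D]`; if `i ∉ W` then `f (insert i D) = f D`.  Now induction on `V` (for all `V'`, `W`).
`V = ∅`: `∑_{B' ⊆ V'} (-1)^|V' \ B'| 1[W ⊆ B'] = 1[W = V']` for `W ⊆ V'`.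
Case `i ∉ V'`: the value is that of `(V, V', W.erase i)` if `i ∈ W`, and `0` if `i ∉ W`.
Case `i ∈ V'` (write `V' = insert i V''`, `V'' = V'.erase i`): `(ρ - 1)` times that of
`(V, V'', W.erase i)` if `i ∈ W`, and `ρ` times that of `(V, V'', W)` if `i ∉ W`.
Constants: linearity and `W = ∅`, as `(V \ V') ∪ (V' \ V) = ∅` iff `V = V'`. -/
def Stmt_LOA : Prop :=
  ∀ (ι : Type) [DecidableEq ι] (ρ : ℝ) (V V' : Finset ι),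
    (∀ W ⊆ V ∪ V', Om ρ V V' (fun D => if W ⊆ D then 1 else 0) =
      if (V \ V') ∪ (V' \ V) ⊆ W then
        (ρ - 1) ^ (W ∩ (V ∩ V')).card * ρ ^ ((V ∩ V') \ W).card else 0) ∧
    (∀ c : ℝ, Om ρ V V' (fun _ => c) = if V = V' then ρ ^ V.card * c else 0)

/-- LOB.  Bound by the algebra norm.  For `D ⊆ V ∪ V'` (NB, first item)
`f D = ∑_{W ⊆ D} mob f W = ∑_{W ⊆ V ∪ V'} mob f W * 1[W ⊆ D]`, and `Om` depends only on the values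
of `f` on the subsets of `V ∪ V'` and is linear, so `Om f = ∑_{W ⊆ V ∪ V'} mob f W * Om (1[W ⊆ ·])`.
By LOA the last factor is `0` unless `W ⊇ (V \ V') ∪ (V' \ V)`, and then, with `I = V ∩ V'`, its
absolute value is at most `ρ^|I \ W|` (`|ρ - 1| ≤ 1`), while `|W| = |V \ V'| + |V' \ V| + |W ∩ I|`, so
`ρ^|I \ W| = ρ^|I \ W| τ^|W| (τ^|W|)⁻¹ ≤ ρ^|I \ W| ρ^|W ∩ I| τ^(|V \ V'| + |V' \ V|) (τ^|W|)⁻¹
= ρ^|I| τ^(|V \ V'| + |V' \ V|) (τ^|W|)⁻¹`. -/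
def Stmt_LOB : Prop :=
  ∀ (ι : Type) [DecidableEq ι] (ρ τ : ℝ), 0 < τ → τ ≤ ρ → ρ ≤ 1 →
    ∀ (V V' : Finset ι) (f : Finset ι → ℝ),
      |Om ρ V V' f| ≤ ρ ^ (V ∩ V').card * τ ^ ((V \ V').card + (V' \ V).card) * nrm τ (V ∪ V') f

/-! ### Block Y: the transformed vectors -/

/-- LYI.  Moebius inversion.  `∑_{V ⊇ B} (-1)^|V \ B| ∑_{C ⊇ V} h C
= ∑_{C ⊇ B} (∑_{B ⊆ V ⊆ C} (-1)^|V \ B|) h C` and the inner sum is `1` if `C = B` and `0` otherwise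
(put `V = B ∪ T` with `T ⊆ C \ B`, Mathlib `Finset.sum_powerset_neg_one_pow_card`). -/
def Stmt_LYI : Prop :=
  ∀ (ι : Type) [Fintype ι] [DecidableEq ι] (E : Type) [NormedAddCommGroup E]
    [InnerProductSpace ℝ E] (h : Finset ι → E) (B : Finset ι),
    h B = ∑ V ∈ univ.filter (fun V => B ⊆ V), (-1 : ℝ) ^ (V \ B).card • up h V

/-- LYO.  `up (hat q u y) U` is orthogonal to `u i`, `i ∈ U`, as `hat q u y B` is orthogonal to `u i`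
for `i ∈ B ⊇ U` (PR, fourth item); it vanishes for large `U` if `y` vanishes on large sets. -/
def Stmt_LYO : Prop :=
  ∀ (ι : Type) [Fintype ι] [DecidableEq ι] (E : Type) [NormedAddCommGroup E]
    [InnerProductSpace ℝ E] [FiniteDimensional ℝ E] (q : ℝ) (u : ι → E) (y : Finset ι → E),
    (∀ (U : Finset ι), ∀ i ∈ U, inner ℝ (up (hat q u y) U) (u i) = 0) ∧
    (∀ ℓ : ℕ, (∀ B, ℓ < B.card → y B = 0) → ∀ U, ℓ < U.card → up (hat q u y) U = 0)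

/-- LYF.  The form `FF` in terms of the vectors `Y V = up (hat q u y) V`.  Write `h = hat q u y`.
Step 1.  `FF = ∑_{B, B'} (1 + ρ)^|B ∩ B'| ⟪h B, R_{B ∪ B'} (h B')⟫`: by PR (item 7 and
self-adjointness) `⟪R_B y_B, R_{B ∪ B'} (R_{B'} y_{B'})⟫ = ⟪y_B, R_{B ∪ B'} y_{B'}⟫`, and
`(1 - q)^(|B| + |B'|) (1 + ρ)^|B ∩ B'| = (1 - q)^|B ∪ B'|`, as `(1 + ρ) (1 - q) = 1` and
`|B ∪ B'| + |B ∩ B'| = |B| + |B'|`.
Step 2.  Insert LYI for `h B` and for `h B'`, and exchange the sums: the coefficient of the pair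
`(V, V')` is the sum over `B ⊆ V`, `B' ⊆ V'` in the definition of `Om`. -/
def Stmt_LYF : Prop :=
  ∀ (ι : Type) [Fintype ι] [DecidableEq ι] (E : Type) [NormedAddCommGroup E]
    [InnerProductSpace ℝ E] [FiniteDimensional ℝ E] (q : ℝ), 0 < q → q < 1 →
    ∀ (u : ι → E) (y : Finset ι → E),
    FF q u y = ∑ V : Finset ι, ∑ V' : Finset ι, Om (q / (1 - q)) V V'
      (fun D => inner ℝ (up (hat q u y) V) (R u D (up (hat q u y) V')))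

/-! ### Block P: pairs -/

/-- LPA.  Nested pairs.  All arguments `D = B ∪ B'` in `Om` are subsets of `V ∪ V'`.  If `V' ⊆ V`
then `R_D a = a` for `D ⊆ V` (PR, item 5), so `⟪a, R_D b⟫ = ⟪R_D a, b⟫ = ⟪a, b⟫`; if `V ⊆ V'` then
`R_D b = b`.  So `Om` is the value at the constant `⟪a, b⟫`: LOA. -/
def Stmt_LPA : Prop :=
  ∀ (ι : Type) [Fintype ι] [DecidableEq ι] (E : Type) [NormedAddCommGroup E]
    [InnerProductSpace ℝ E] [FiniteDimensional ℝ E] (u : ι → E) (ρ : ℝ) (V V' : Finset ι)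
    (a b : E), (∀ i ∈ V, inner ℝ a (u i) = 0) → (∀ i ∈ V', inner ℝ b (u i) = 0) →
    (V ⊆ V' ∨ V' ⊆ V) →
      Om ρ V V' (fun D => inner ℝ a (R u D b)) = if V = V' then ρ ^ V.card * inner ℝ a b else 0

/-- LPB.  Incomparable pairs.  Let `c` be coefficient functions of `y = b` for `A = V ∪ V'`, `C = ∅`
(KE).  For `D ⊆ A`: `⟪a, R_D b⟫ = ⟪a, b⟫ - ∑_{j ∈ A} c j D * ⟪a, u j⟫` and `⟪a, u j⟫ = 0` for
`j ∈ V`, so only `j ∈ V' \ V` contribute.  `Om` is linear and vanishes on constants (LOA, `V ≠ V'`),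
so `|Om| ≤ ∑_{j ∈ V' \ V} |⟪a, u j⟫| * |Om (c j)|`, and by LOB
`|Om (c j)| ≤ ρ^|V ∩ V'| τ^(...) nrm τ A (c j)`.  For `j ∈ V'`, `⟪b, u j⟫ = 0`, so by KN (with `2 ℓ`
in place of `ℓ`, second item, then first item)
`nrm τ A (c j) ≤ (16 ℓ)⁻¹ ∑_{k ∈ A} nrm τ A (c k) ≤ (16 ℓ)⁻¹ 2 τ⁻¹ ∑_{k ∈ A} |⟪b, u k⟫|
= (8 ℓ τ)⁻¹ ∑_{k ∈ V \ V'} |⟪b, u k⟫|`. -/
def Stmt_LPB : Prop :=
  ∀ (ι : Type) [Fintype ι] [DecidableEq ι] (E : Type) [NormedAddCommGroup E]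
    [InnerProductSpace ℝ E] [FiniteDimensional ℝ E] (u : ι → E) (ℓ : ℕ) (ρ τ δ : ℝ),
    1 ≤ ℓ → Sys (2 * ℓ) τ δ u → τ ≤ ρ → ρ ≤ 1 → ∀ (V V' : Finset ι) (a b : E),
    (∀ i ∈ V, inner ℝ a (u i) = 0) → (∀ i ∈ V', inner ℝ b (u i) = 0) →
    ¬ V ⊆ V' → ¬ V' ⊆ V → (V ∪ V').card ≤ 2 * ℓ →
      |Om ρ V V' (fun D => inner ℝ a (R u D b))| ≤
        ρ ^ (V ∩ V').card * τ ^ ((V \ V').card + (V' \ V).card) * (8 * (ℓ : ℝ) * τ)⁻¹ *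
          ∑ j ∈ V' \ V, ∑ k ∈ V \ V', |inner ℝ a (u j)| * |inner ℝ b (u k)|

/-! ### Block S: sums of numbers -/

/-- LSA.  Counting, `x = 1 / N`.  The sets `V' ⊇ V` are `V ∪ T`, `T ⊆ Vᶜ`, so the first sum is
`∑_{T ⊆ Vᶜ} x^|T| = (1 + x)^|Vᶜ| ≤ (1 + x)^N ≤ exp 1 ≤ 3`.  For `b ∉ V` the map
`V' ↦ (V' ∩ V, V' \ V)` is a bijection from the sets containing `b` to the pairs `(W, T)`, `W ⊆ V`,
`b ∈ T ⊆ Vᶜ`, so the second sum is `2^|V| ∑_{b ∈ T ⊆ Vᶜ} x^|T| = 2^|V| x (1 + x)^(|Vᶜ| - 1)`. -/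
def Stmt_LSA : Prop :=
  ∀ (ι : Type) [Fintype ι] [DecidableEq ι] [Nonempty ι] (V : Finset ι),
    (∑ V' ∈ univ.filter (fun V' => V ⊆ V'), ((Fintype.card ι : ℝ)⁻¹) ^ (V' \ V).card ≤ 3) ∧
    ∀ b ∉ V, ∑ V' ∈ univ.filter (fun V' : Finset ι => b ∈ V'),
      ((Fintype.card ι : ℝ)⁻¹) ^ (V' \ V).card ≤ 3 * 2 ^ V.card * (Fintype.card ι : ℝ)⁻¹

/-- LSB.  The off-diagonal sum.  `x = 1 / N`, `r = |V \ V'|`, `s = |V' \ V|`.  If `ℓ < |V|` then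
`∑_b (a V b)² ≤ 0`, so `a V b = 0`; hence only `V`, `V'` with at most `ℓ` elements matter, `r, s ≤ ℓ`.
Termwise: `τ^(r+s) a(V,b) a(V',c) ≤ ½ g^(r+s) (ρ^r x^s a(V,b)² + ρ^s x^r a(V',c)²)`, because the
square of the left side is at most `(ρ g² x)^(r+s) a(V,b)² a(V',c)²`, the product of the two terms
without the factor `½` (and `X² ≤ P Q`, `P, Q, X ≥ 0` imply `X ≤ (P + Q) / 2`).  Use
`g^(r+s) ≤ g^(2ℓ)`, `ρ^|V ∩ V'| ρ^r = ρ^|V|`, `ρ^|V ∩ V'| ρ^s = ρ^|V'|`, and sum over `b ∈ V' \ V`,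
`c ∈ V \ V'` (at most `ℓ` values of the index which does not appear): the two halves have the same
sum over all `(V, V')` (exchange `V` and `V'`), so
`8 ℓ τ * LHS ≤ g^(2ℓ) ℓ ∑_V ρ^|V| ∑_{V'} x^|V' \ V| ∑_{b ∈ V' \ V} a(V,b)²
= g^(2ℓ) ℓ ∑_V ρ^|V| ∑_{b ∉ V} a(V,b)² ∑_{V' ∋ b} x^|V' \ V|
≤ g^(2ℓ) ℓ ∑_V ρ^|V| 3 2^ℓ x Λ w V` (LSA and `|V| ≤ ℓ`), and
`3 2^ℓ g^(2ℓ) Λ x ≤ 4 τ`. -/
def Stmt_LSB : Prop :=
  ∀ (ι : Type) [Fintype ι] [DecidableEq ι] [Nonempty ι] (ℓ : ℕ) (ρ τ g Λ : ℝ)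
    (a : Finset ι → ι → ℝ) (w : Finset ι → ℝ), 1 ≤ ℓ → 0 < ρ → 0 < τ → 1 ≤ g → 0 ≤ Λ →
    τ ^ 2 * (Fintype.card ι : ℝ) ≤ ρ * g ^ 2 →
    3 * 2 ^ ℓ * g ^ (2 * ℓ) * Λ ≤ 4 * τ * (Fintype.card ι : ℝ) →
    (∀ V b, 0 ≤ a V b) → (∀ V, 0 ≤ w V) → (∀ V, ∑ b, a V b ^ 2 ≤ Λ * w V) →
    (∀ V, ℓ < V.card → w V = 0) →
      ∑ V : Finset ι, ∑ V' : Finset ι,
        ρ ^ (V ∩ V').card * τ ^ ((V \ V').card + (V' \ V).card) * (8 * (ℓ : ℝ) * τ)⁻¹ *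
          (∑ b ∈ V' \ V, ∑ c ∈ V \ V', a V b * a V' c) ≤
        1 / 2 * ∑ V : Finset ι, ρ ^ V.card * w V

/-- LSC.  Two-sided bound.  `Y = up (hat q u y)`, `ρ = q / (1 - q)`, `q ≤ ρ ≤ 1`.  By LYF, LYO, LPA,
`FF = QQ + ∑' Om`, the sum over the pairs `(V, V')` with neither contained in the other (a pair with
`ℓ < |V|` or `ℓ < |V'|` contributes `0`, because `Y V = 0` or `Y V' = 0`).  By LPB
(`|V ∪ V'| ≤ 2 ℓ`) and LSB with `a V b = |⟪Y V, u b⟫|`, `w V = ‖Y V‖²` the sum of the absolute values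
is at most `½ QQ` (the terms of the sum in LSB are nonnegative). -/
def Stmt_LSC : Prop :=
  ∀ (ι : Type) [Fintype ι] [DecidableEq ι] [Nonempty ι] (E : Type) [NormedAddCommGroup E]
    [InnerProductSpace ℝ E] [FiniteDimensional ℝ E] (u : ι → E) (ℓ m : ℕ) (q τ δ g Λ : ℝ),
    Par (Fintype.card ι) ℓ m q τ g Λ → Sys (2 * ℓ) τ δ u →
    (∀ y : E, ∑ k, (inner ℝ y (u k)) ^ 2 ≤ Λ * ‖y‖ ^ 2) →
    ∀ y : Finset ι → E, (∀ B, ℓ < B.card → y B = 0) →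
      1 / 2 * QQ (q / (1 - q)) (up (hat q u y)) ≤ FF q u y ∧
        FF q u y ≤ 3 / 2 * QQ (q / (1 - q)) (up (hat q u y))

/-! ### Block K: multiplication by `s_k` -/

/-- LKA.  Let `f_{z,z'}(D) = (1 - q)^|D| ⟪z, R_D z'⟫`, bilinear in `z, z'`.  Splitting the sums over
`B`, `B'` according to `k ∈ B`, `k ∈ B'` (`B = insert k B0`), both sides are equal to
`∑_{B, B' ∌ k} (f_{y_B, y_{B'}}(B ∪ B') - f_{y_B, y_{B'}}(insert k (B ∪ B')))`: on the left the four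
terms are `f(D)`, `-f(kD)`, `-f(kD)`, `f(kD)`; on the right the terms with `k ∈ B ∪ B'` vanish. -/
def Stmt_LKA : Prop :=
  ∀ (ι : Type) [Fintype ι] [DecidableEq ι] (E : Type) [NormedAddCommGroup E]
    [InnerProductSpace ℝ E] [FiniteDimensional ℝ E] (q : ℝ) (u : ι → E) (y : Finset ι → E) (k : ι),
    FF q u (mulS k y) = ∑ B : Finset ι, ∑ B' : Finset ι,
      ((1 - q) ^ (B ∪ B').card * inner ℝ (y B) (R u (B ∪ B') (y B')) -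
        (1 - q) ^ (insert k (B ∪ B')).card * inner ℝ (y B) (R u (insert k (B ∪ B')) (y B')))

/-- LKP.  One step of the projection.  `w = R_B u_k`, `gv u k B = w / ‖w‖²`.
If `w = 0` then `⟪z, u_k⟫ = ⟪R_B z, u_k⟫ = ⟪z, w⟫ = 0` (`R_B z = z` by PR, item 5), so `z` is
orthogonal to `u i`, `i ∈ insert k B`, and `R_{kB} z = z` (PR, item 5); `gv = 0`.
If `w ≠ 0`, `v = z - ⟪z, u_k⟫ • gv` is orthogonal to `u i` for `i ∈ B` (PR, item 4) and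
`⟪v, u_k⟫ = ⟪z, u_k⟫ - ⟪z, u_k⟫ ‖w‖⁻² ⟪w, u_k⟫ = 0`, as `⟪w, u_k⟫ = ‖w‖²` (PR, items 1, 2).  So
`R_{kB} v = v`, and `R_{kB} gv` is a multiple of `R_{kB} (R_B u_k) = R_{kB} u_k = 0` (PR, items 7,
3). -/
def Stmt_LKP : Prop :=
  ∀ (ι : Type) [Fintype ι] [DecidableEq ι] (E : Type) [NormedAddCommGroup E]
    [InnerProductSpace ℝ E] [FiniteDimensional ℝ E] (u : ι → E) (B : Finset ι) (k : ι) (z : E),
    (∀ i ∈ B, inner ℝ z (u i) = 0) →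
      R u (insert k B) z = z - inner ℝ z (u k) • gv u k B

/-- LKB.  `h = hat q u y`, `Y = up h`, `h' = hat q u (mulS k y)`, `Y' = up h'`.
For `k ∉ B`: `h' B = h B` and `h' (insert k B) = (1 - q)^(|B| + 1) R_{kB} (- y_B)
= - (1 - q) R_{kB} (h B)` (`R_{kB} R_B = R_{kB}`) `= - (1 - q) (h B - ⟪h B, u_k⟫ gv u k B)` (LKP;
`h B` is orthogonal to `u i`, `i ∈ B`, by PR).  Let `k ∉ U` and `S = ∑_{U ⊆ B, k ∉ B} h B
= Y U - Y (insert k U)`, `H = HH q u y k U`.  Then `Y' U = ∑_{U ⊆ B, k ∉ B} (h' B + h' (insert k B))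
= q S + (1 - q) H` and `Y' (insert k U) = - (1 - q) (S - H)`.  Finally
`‖q S + (1 - q) H‖² + ρ (1 - q)² ‖S - H‖² = q ‖S‖² + (1 - q) ‖H‖²` (`ρ (1 - q)² = q (1 - q)`),
and `QQ ρ Y' = ∑_{k ∉ U} ρ^|U| (‖Y' U‖² + ρ ‖Y' (insert k U)‖²)`. -/
def Stmt_LKB : Prop :=
  ∀ (ι : Type) [Fintype ι] [DecidableEq ι] (E : Type) [NormedAddCommGroup E]
    [InnerProductSpace ℝ E] [FiniteDimensional ℝ E] (q : ℝ), 0 < q → q < 1 →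
    ∀ (u : ι → E) (y : Finset ι → E) (k : ι),
    QQ (q / (1 - q)) (up (hat q u (mulS k y))) =
      ∑ U ∈ univ.filter (fun U : Finset ι => k ∉ U), (q / (1 - q)) ^ U.card *
        (q * ‖up (hat q u y) U - up (hat q u y) (insert k U)‖ ^ 2 +
          (1 - q) * ‖HH q u y k U‖ ^ 2)

/-- LKC.  Insert LYI in `HH`: `H = ∑_{U ⊆ B, k ∉ B} ∑_{V ⊇ B} (-1)^|V \ B| ⟪Y V, u_k⟫ g_B`; the terms
with `k ∈ V` vanish (LYO); exchange the sums. -/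
def Stmt_LKC : Prop :=
  ∀ (ι : Type) [Fintype ι] [DecidableEq ι] (E : Type) [NormedAddCommGroup E]
    [InnerProductSpace ℝ E] [FiniteDimensional ℝ E] (q : ℝ) (u : ι → E) (y : Finset ι → E) (k : ι)
    (U : Finset ι),
    HH q u y k U = ∑ V ∈ univ.filter (fun V => U ⊆ V ∧ k ∉ V),
      inner ℝ (up (hat q u y) V) (u k) • th u k U V

/-- LKD.  Bound for `θ`.  `A = V \ U`, `C = U`, `|A ∪ C| ≤ 2 ℓ`.  It is enough to show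
`|⟪z, θ⟫| ≤ 3 τ^|A| ‖z‖` for all `z` (then take `z = θ`).  With `φ B' = ⟪z, gv u k (B' ∪ C)⟫`
(`B = B' ∪ U`, `B' ⊆ A`, `|V \ B| = |A| - |B'|`) `⟪z, θ⟫ = mob φ A`, and
`|mob φ A| (τ^|A|)⁻¹ ≤ nrm τ A φ`.  Now `φ B' = (s B')⁻¹ g B'` with `s B' = ‖R_{B' ∪ C} u_k‖²` and
`g B' = ⟪z, R_{B' ∪ C} u_k⟫`.  Let `c` be coefficient functions of `u_k` for `A`, `C` (KE).  Then
`g B' = ⟪z, u_k⟫ - ∑_{j ∈ A ∪ C} c j B' * ⟪z, u j⟫`,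
`s B' = ⟪R u_k, u_k⟫ = 1 - ∑_{j ∈ A ∪ C} c j B' * ⟪u j, u_k⟫`, and by KN (`2 ℓ` in place of `ℓ`)
`∑_j nrm (c j) ≤ 2 τ⁻¹ ∑_{j ∈ A ∪ C} |⟪u_k, u j⟫| ≤ 2 τ⁻¹ (2 ℓ) δ ≤ 1 / 4` (`k ∉ A ∪ C`,
`16 ℓ δ ≤ τ`).  So `nrm g ≤ ‖z‖ + ‖z‖ / 4`, `nrm (1 - s) ≤ δ / 4 ≤ 1 / 2` (`δ ≤ τ ≤ 1/2`), hence
`|1 - s B'| ≤ 1 / 2` (NB) and `s B' ≠ 0`, and `nrm (1 / s) ≤ 2` (NI).  By NM
`nrm φ ≤ 2 * (5 / 4) ‖z‖ ≤ 3 ‖z‖`. -/
def Stmt_LKD : Prop :=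
  ∀ (ι : Type) [Fintype ι] [DecidableEq ι] (E : Type) [NormedAddCommGroup E]
    [InnerProductSpace ℝ E] [FiniteDimensional ℝ E] (u : ι → E) (ℓ : ℕ) (τ δ : ℝ),
    Sys (2 * ℓ) τ δ u → ∀ (U V : Finset ι) (k : ι), U ⊆ V → k ∉ V → V.card ≤ 2 * ℓ →
      ‖th u k U V‖ ≤ 3 * τ ^ (V \ U).card

/-- LKS.  The first sum.  `‖Y U - Y (insert k U)‖² ≤ 2 ‖Y U‖² + 2 ‖Y (insert k U)‖²`.
`∑_k ∑_{U ∌ k} ρ^|U| q 2 ‖Y U‖² ≤ 2 q N QQ`.  With `U' = insert k U`: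
`∑_k ∑_{U ∌ k} ρ^|U| q 2 ‖Y (insert k U)‖² = ∑_{U'} ∑_{k ∈ U'} 2 q ρ^(|U'| - 1) ‖Y U'‖²
= ∑_{U'} 2 (1 - q) |U'| ρ^|U'| ‖Y U'‖²` (as `q = ρ (1 - q)`) `≤ 2 ℓ QQ`. -/
def Stmt_LKS : Prop :=
  ∀ (ι : Type) [Fintype ι] [DecidableEq ι] (E : Type) [NormedAddCommGroup E]
    [InnerProductSpace ℝ E] (q : ℝ) (ℓ : ℕ), 0 < q → q < 1 → ∀ Y : Finset ι → E,
    (∀ U, ℓ < U.card → Y U = 0) →
      ∑ k, ∑ U ∈ univ.filter (fun U : Finset ι => k ∉ U),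
        (q / (1 - q)) ^ U.card * (q * ‖Y U - Y (insert k U)‖ ^ 2) ≤
        (2 * q * (Fintype.card ι : ℝ) + 2 * (ℓ : ℝ)) * QQ (q / (1 - q)) Y

/-- LKH.  The second sum, `x = 1 / N`.  For `k ∉ U`, by Cauchy-Schwarz (Mathlib
`Finset.sum_sq_le_sum_mul_sum_of_sq_eq_mul`; `τ^(2j) = x^j (N τ²)^j`)
`t(k,U)² ≤ 9 (∑_{V ⊇ U, k ∉ V} τ^|V \ U| a(V,k))²
≤ 9 (∑_{V ⊇ U} x^|V \ U|) (∑_{V ⊇ U} (N τ²)^|V \ U| a(V,k)²)
≤ 27 ∑_{V ⊇ U} (ρ g²)^|V \ U| a(V,k)²` (LSA, first item).  Multiply by `ρ^|U|` and sum over `k` and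
`U`; exchange: `≤ 27 ∑_V ρ^|V| ∑_{U ⊆ V} g^(2 |V \ U|) ∑_k a(V,k)² ≤ 27 ∑_V ρ^|V| 2^ℓ g^(2ℓ) Λ w V`
(for `|V| ≤ ℓ`; for `ℓ < |V|` all `a(V,k)` vanish). -/
def Stmt_LKH : Prop :=
  ∀ (ι : Type) [Fintype ι] [DecidableEq ι] [Nonempty ι] (ℓ : ℕ) (ρ τ g Λ : ℝ)
    (a : Finset ι → ι → ℝ) (w : Finset ι → ℝ) (t : ι → Finset ι → ℝ), 0 < ρ → 0 < τ → 1 ≤ g →
    0 ≤ Λ → τ ^ 2 * (Fintype.card ι : ℝ) ≤ ρ * g ^ 2 →
    (∀ V b, 0 ≤ a V b) → (∀ V, 0 ≤ w V) → (∀ V, ∑ b, a V b ^ 2 ≤ Λ * w V) →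
    (∀ V, ℓ < V.card → w V = 0) → (∀ k U, 0 ≤ t k U) →
    (∀ k U, k ∉ U → t k U ≤ 3 * ∑ V ∈ univ.filter (fun V => U ⊆ V ∧ k ∉ V),
      τ ^ (V \ U).card * a V k) →
      ∑ k, ∑ U ∈ univ.filter (fun U : Finset ι => k ∉ U), ρ ^ U.card * t k U ^ 2 ≤
        27 * Λ * 2 ^ ℓ * g ^ (2 * ℓ) * ∑ V : Finset ι, ρ ^ V.card * w V

/-- LKT.  Sparsity.  `Y = up (hat q u y)`, `ρ = q / (1 - q)`.  `mulS k y` vanishes on sets with more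
than `ℓ` elements, so by LSC `∑_k FF (mulS k y) ≤ 3/2 ∑_k QQ ρ (up (hat q u (mulS k y)))`; by LKB,
LKS and LKH (`a V k = |⟪Y V, u k⟫|`, `w V = ‖Y V‖²`, `t k U = ‖HH q u y k U‖`, bounded with LKC and
LKD, where the terms with `2 ℓ < |V|` vanish because `Y V = 0`; `1 - q ≤ 1`, `q ≤ ρ`) the last sum is at most
`(2 q N + 2 ℓ + 27 Λ 2^ℓ g^(2ℓ)) QQ ρ Y ≤ (m / 3) QQ ρ Y`.  So
`∑_k FF (mulS k y) ≤ (m / 2) QQ ρ Y ≤ m FF y` (LSC for `y`). -/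
def Stmt_LKT : Prop :=
  ∀ (ι : Type) [Fintype ι] [DecidableEq ι] [Nonempty ι] (E : Type) [NormedAddCommGroup E]
    [InnerProductSpace ℝ E] [FiniteDimensional ℝ E] (u : ι → E) (ℓ m : ℕ) (q τ δ g Λ : ℝ),
    Par (Fintype.card ι) ℓ m q τ g Λ → Sys (2 * ℓ) τ δ u →
    (∀ y : E, ∑ k, (inner ℝ y (u k)) ^ 2 ≤ Λ * ‖y‖ ^ 2) →
    ∀ y : Finset ι → E, (∀ B, ℓ ≤ B.card → y B = 0) →
      ∑ k, FF q u (mulS k y) ≤ (m : ℝ) * FF q u y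

/-! ### Block L: the pseudo-moments -/

/-- LUU.  Unions.  Induction on `A` (for all `f`).  `A = ∅`: both sides are `∑_{B' ⊆ A'}`.
Step, `i ∉ A`: by `Finset.sum_powerset_insert` the right side for `insert i A` is
`∑_{B ⊆ A} ∑_{B' ⊆ A'} (-1)^(|B| + |B'|) (f (B ∪ B') - f (insert i (B ∪ B')))`, by the induction
hypothesis `∑_{D ⊆ A ∪ A'} (-1)^|D| (f D - f (insert i D))`.  If `i ∉ A'` this is
`∑_{D ⊆ insert i (A ∪ A')} (-1)^|D| f D`.  If `i ∈ A'` then `insert i A ∪ A' = A ∪ A'` and the sum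
`∑_{D ⊆ A ∪ A'} (-1)^|D| f (insert i D)` vanishes (the terms of `D` and `insert i D`, `i ∉ D`,
cancel).
Second part: if `k ∉ A` this is `Finset.sum_powerset_insert`; if `k ∈ A` then `insert k A = A` and
`∑_{D ⊆ A} (-1)^|D| f (insert k D) = 0` (same cancellation). -/
def Stmt_LUU : Prop :=
  ∀ (ι : Type) [DecidableEq ι] (L : Type) [CommRing L] (f : Finset ι → L) (A A' : Finset ι),
    (∑ D ∈ (A ∪ A').powerset, (-1) ^ D.card * f D =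
      ∑ B ∈ A.powerset, ∑ B' ∈ A'.powerset, (-1) ^ (B.card + B'.card) * f (B ∪ B')) ∧
    ∀ k : ι, ∑ D ∈ (insert k A).powerset, (-1) ^ D.card * f D =
      ∑ D ∈ A.powerset, (-1) ^ D.card * (f D - f (insert k D))

/-- LLA.  Basis change.  Let `f_{ij}(D) = (1 - q)^|D| ⟪u i, R_D (u j)⟫`.  By definition
`YR q u D ∅ i j = N⁻¹ ∑_{D' ⊆ D} (-1)^|D'| f_{ij}(D')`.  (1) For `D = A ∪ A'` use LUU and sum with
the coefficients `c (A, i) * c (A', j)`: the result is `N⁻¹ ∑_{B, B'} (1 - q)^|B ∪ B'|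
⟪cy u c B, R_{B ∪ B'} (cy u c B')⟫`.  (2) For `insert k (A ∪ A')` use the second part of LUU and
then the first with `f - f ∘ insert k`, and LKA.  (3) The sum in `cy` is empty. -/
def Stmt_LLA : Prop :=
  ∀ (ι : Type) [Fintype ι] [DecidableEq ι] (E : Type) [NormedAddCommGroup E]
    [InnerProductSpace ℝ E] [FiniteDimensional ℝ E] (q : ℝ) (u : ι → E) (r : ℕ)
    (c : {A : Finset ι // A.card ≤ r} × ι → ℝ),
    (∑ p, ∑ t, c p * c t * YR q u (p.1.1 ∪ t.1.1) ∅ p.2 t.2 =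
      (Fintype.card ι : ℝ)⁻¹ * FF q u (cy u c)) ∧
    (∀ k, ∑ p, ∑ t, c p * c t * YR q u (insert k (p.1.1 ∪ t.1.1)) ∅ p.2 t.2 =
      (Fintype.card ι : ℝ)⁻¹ * FF q u (mulS k (cy u c))) ∧
    ∀ B : Finset ι, r < B.card → cy u c B = 0

/-- LLL.  The matrices `YR q u D ∅` are Lasserre pseudo-moments.  They are symmetric (PR).  psd: the
quadratic form is `N⁻¹ FF (cy u c) ≥ 0` (LLA, LSC; `QQ ≥ 0`).  loc: it is
`N⁻¹ (m FF (cy u c) - ∑_k FF (mulS k (cy u c))) ≥ 0` (LLA, LKT: `cy u c B = 0` for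
`r < |B|`, in particular for `ℓ ≤ |B|`).  supp: for `i ∉ D`, by LI
`Lf q (insert i D) h = Lf q D h - (1 - q) Lf q D (h ∘ insert i)` and the last term vanishes for
`h B = ⟪u i, R_{B ∪ ∅} (u j)⟫`, as `⟪u i, R_{iB} u j⟫ = ⟪R_{iB} u i, u j⟫ = 0` (PR).  trace and the
values at `D = ∅`: `R u ∅ = id` (PR, item 5), `‖u i‖ = 1`. -/
def Stmt_LLL : Prop :=
  ∀ (ι : Type) [Fintype ι] [DecidableEq ι] [Nonempty ι] (E : Type) [NormedAddCommGroup E]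
    [InnerProductSpace ℝ E] [FiniteDimensional ℝ E] (u : ι → E) (ℓ m : ℕ) (q τ δ g Λ : ℝ),
    Par (Fintype.card ι) ℓ m q τ g Λ → Sys (2 * ℓ) τ δ u →
    (∀ y : E, ∑ k, (inner ℝ y (u k)) ^ 2 ≤ Λ * ‖y‖ ^ 2) →
      Las m ℓ (fun D => YR q u D ∅) ∧
        ∀ i j, YR q u ∅ ∅ i j = (Fintype.card ι : ℝ)⁻¹ * inner ℝ (u i) (u j)

/-! ### Block M: matrices -/

/-- LMA.  Extension by zero.  `Z' D = ext 𝕜 e (fun A _ => Z A) D ∅`.  Let `T` be the matrix over `𝕜`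
with rows the pairs `(A', k)` (`A' : Finset κ`, `|A'| ≤ r`, `k : κ`), columns the pairs `(A, i)`, and
entries `1` if `A = A'.map e`, `i = e k` and `0` otherwise.  Then `mom r Z' = Tᴴ * (mom r Z) * T`
(with `mom r Z` cast to `𝕜`; a real positive semidefinite matrix is positive semidefinite over `𝕜`),
and the same for `m • Z' D - ∑ k, Z' (insert k D)`, as `Z' (insert k D) = 0` for `k` outside the
range of `e` or `D` not contained in the range.  Mathlib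
`Matrix.PosSemidef.conjTranspose_mul_mul_same`.  supp: if `D` is not contained in the range both
sides are `0`; if `i` is not in the range both are `0`; otherwise use `supp` of `Z`.  trace:
as for HE (file `Pool/Agent/SAR/HE.lean` contains useful lemmas on `ext`; its statement and lemmas
may be imported). -/
def Stmt_LMA : Prop :=
  ∀ (𝕜 : Type) [RCLike 𝕜] (ι κ : Type) [Fintype ι] [DecidableEq ι] [Fintype κ] [DecidableEq κ]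
    (e : κ ↪ ι) (m ℓ : ℕ) (Z : Finset κ → Matrix κ κ ℝ), Las m ℓ Z →
      Las m ℓ (fun D => ext 𝕜 e (fun A _ => Z A) D ∅)

/-- LMV.  The pseudo-moments of a vector, `Z D = vlift x D ∅` (`= x x*` if all `x i`, `i ∈ D`, are
nonzero, and `0` otherwise).  psd: `mom r Z = vecMulVec w (star w)` with `w (A, i) = x i` if all
`x j`, `j ∈ A`, are nonzero and `0` otherwise.  loc: `∑_k Z (insert k D) = p • Z D`, `p ≤ m` the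
number of nonzero coordinates of `x`.  supp: clear if `x i ≠ 0`, and both sides are `0` if
`x i = 0`.  trace: `∑ ‖x i‖² = 1`. -/
def Stmt_LMV : Prop :=
  ∀ (𝕜 : Type) [RCLike 𝕜] (ι : Type) [Fintype ι] [DecidableEq ι] (m ℓ : ℕ) (x : ι → 𝕜),
    (∑ i, ‖x i‖ ^ 2 = 1) → (∃ S : Finset ι, S.card ≤ m ∧ ∀ i ∉ S, x i = 0) →
      Las m ℓ (fun D => vlift x D ∅)

/-- LMR.  Soundness, as HR (`Pool/Agent/SAR/HR.lean`) with LMV instead of HS. -/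
def Stmt_LMR : Prop :=
  ∀ (𝕜 : Type) [RCLike 𝕜] (ι ρ : Type) [Fintype ι] [DecidableEq ι] [Fintype ρ] (m ℓ : ℕ)
    (Φ : Matrix ρ ι 𝕜) (c : ℝ), 0 < c → (∀ Z : Finset ι → Matrix ι ι 𝕜, Las m ℓ Z →
      c ^ 2 ≤ val Φ (Z ∅) ∧ val Φ (Z ∅) ≤ 4 * c ^ 2) →
    ∀ S : Finset ι, S.card ≤ m → ∀ x : ι → 𝕜, (∀ i ∉ S, x i = 0) →
      c ^ 2 * ∑ i, ‖x i‖ ^ 2 ≤ ∑ a, ‖(Φ *ᵥ x) a‖ ^ 2 ∧
        ∑ a, ‖(Φ *ᵥ x) a‖ ^ 2 ≤ 4 * c ^ 2 * ∑ i, ‖x i‖ ^ 2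

/-- LML.  Pseudo-moments give a lift, `Y = toLift Z`.  Let `A`, `C` be disjoint, `r = |A ∪ C|`, and
let `T` be the matrix with rows `(A', i')` (`|A'| ≤ r`), columns `i`, and entries `(-1)^|A' \ A|` if
`i' = i` and `A ⊆ A' ⊆ A ∪ C`, `0` otherwise.  For every `W : Finset ι → Matrix ι ι 𝕜`, entrywise
`Tᴴ * mom r W * T = ∑_{B, B' ⊆ C} (-1)^(|B| + |B'|) W (A ∪ (B ∪ B'))
= ∑_{D ⊆ C} (-1)^|D| W (A ∪ D)` by LUU (both sets equal to `C`).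
psd: `W = Z`, and `mom r Z` is a submatrix of `mom ℓ Z` (`Matrix.PosSemidef.submatrix`).
sparse: `W D = m • Z D - ∑_k Z (insert k D)`; in `∑_{D ⊆ C} (-1)^|D| ∑_k Z (insert k (A ∪ D))` the
terms `k ∈ A` give `|A| • Y A C`, the terms `k ∈ C` give `0` (the terms of `D` and `insert k D`
cancel), and the terms `k ∉ A ∪ C` give `Y (insert k A) C`.
split: `Finset.sum_powerset_insert`.  zero: for `i ∈ C` and `B ⊆ C.erase i`, the terms of `B` and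
`insert i B` cancel by `supp`.  trace and the last item: the powerset of `∅`. -/
def Stmt_LML : Prop :=
  ∀ (𝕜 : Type) [RCLike 𝕜] (ι : Type) [Fintype ι] [DecidableEq ι] (m ℓ : ℕ)
    (Z : Finset ι → Matrix ι ι 𝕜), Las m ℓ Z → Lift m ℓ (toLift Z) ∧ toLift Z ∅ ∅ = Z ∅

/-! ### Assembly -/

/-- LAC.  Arithmetic.  `q = m / (128 D)`, `τ = 16 ℓ √(2/m)`, `g = 512 √2 ℓ D / m` (so
`2 g² = (1024 ℓ D / m)²`), `Λ = 36 D / m`, `N = 8 D`.  Put `X = 1024 ℓ D / m ≥ 1024 ℓ ≥ 1024`.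
The hypothesis is `X^(4ℓ) ≤ m`; in particular `X^4 ≤ m` (as `X ≥ 1`, `4 ≤ 4 ℓ`), so `m ≥ 1024^4 ℓ^4`,
and `2^ℓ g^(2ℓ) = X^(2ℓ) ≤ √m`.
`τ ≤ q`: `τ² = 512 ℓ² / m` and `q² = m² / (128 D)²`; `512 * 128² ℓ² D² = 8 (X m)² ≤ m³` because
`8 X² ≤ m` (`64 X^4 ≤ 64 m ≤ m²`).  `bal`: both sides are `4096 ℓ² D / m`.
`off`: `3 * √m * 36 D / m ≤ 4 * 16 ℓ √(2/m) * 8 D`, i.e. `108 ≤ 512 √2 ℓ`.
`loc`: `2 q N = m / 8`, `2 ℓ ≤ m / 1000`, `27 Λ 2^ℓ g^(2ℓ) ≤ 972 (D / m) √m ≤ X √m` and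
`X √m ≤ m / 1000`, because `X^4 ≤ m` gives `X² m ≤ m √m ≤ m² / 10^6` (`√m ≥ 1024²`). -/
def Stmt_LAC : Prop :=
  ∀ m ℓ D : ℕ, 1 ≤ D → 1 ≤ ℓ → m ≤ D → (1024 * ℓ * D) ^ (4 * ℓ) ≤ m ^ (4 * ℓ + 1) →
    9 ≤ m ∧
    Par (8 * D) ℓ m ((m : ℝ) / (128 * D)) (16 * ℓ * Real.sqrt (2 / m))
      (512 * Real.sqrt 2 * ℓ * D / m) (36 * D / m) ∧
    16 * ℓ * Real.sqrt (2 / m) ≤ 1 / 2 ∧ 1 ≤ 36 * (D : ℝ) / m ∧
    4 * ((8 * D : ℕ) / (m : ℝ) + 1) ≤ 36 * (D : ℝ) / m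

/-- LAR.  The barrier for vectors, as AR (`Pool/Agent/SAR/AR.lean`): GD (`m ≤ D`), LAC, GA, GP with
`N = 8 D`, `κ = T` as a subtype, GB, GU, `Sys (2 ℓ) τ δ u` with `δ = √(2/m)`, `τ = 16 ℓ δ`, LLL, and
AV for the value; `Z D = YR q u D ∅`. -/
def Stmt_LAR : Prop :=
  ∀ (ι : Type) [Fintype ι] [DecidableEq ι] (F : Type) [NormedAddCommGroup F]
    [InnerProductSpace ℝ F] [FiniteDimensional ℝ F] (m ℓ D : ℕ) (c : ℝ) (φ : ι → F), 0 < c →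
    1 ≤ D → 1 ≤ ℓ → Module.finrank ℝ F ≤ D → 8 * D * m ≤ Fintype.card ι →
    (1024 * ℓ * D) ^ (4 * ℓ) ≤ m ^ (4 * ℓ + 1) →
    (∀ J : Finset ι, J.card ≤ m → ∀ x : ι → ℝ,
      c ^ 2 * ∑ j ∈ J, x j ^ 2 ≤ ‖∑ j ∈ J, x j • φ j‖ ^ 2 ∧
        ‖∑ j ∈ J, x j • φ j‖ ^ 2 ≤ 4 * c ^ 2 * ∑ j ∈ J, x j ^ 2) →
    ∃ (κ : Type) (_ : Fintype κ) (_ : DecidableEq κ) (e : κ ↪ ι)
      (Z : Finset κ → Matrix κ κ ℝ), Las m ℓ Z ∧ (Z ∅).IsSymm ∧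
      4 * c ^ 2 < ∑ k, ∑ l, inner ℝ (φ (e k)) (φ (e l)) * Z ∅ k l

/-- LMB.  The barrier: as MB (`Pool/Agent/SAR/MB.lean`), with LMR, HV (with `Y A C = Z A`), LAR for
`D = 2 n` and LMA. -/
def Stmt_LMB : Prop :=
  ∀ (𝕜 : Type) [RCLike 𝕜] (n d m ℓ : ℕ), 1 ≤ n → 1 ≤ ℓ → 16 * n * m ≤ d →
    (2048 * ℓ * n) ^ (4 * ℓ) ≤ m ^ (4 * ℓ + 1) → ∀ Φ : Matrix (Fin n) (Fin d) 𝕜,
      ¬ LasCert m ℓ Φ

end Pool.SAR
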