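import Mathlib
import Pool.Agent.SAR.StmtsL

/-!
MP_c21969_lc, project SAR, part 3 (Lasserre tests): the statement LKH.
-/

set_option autoImplicit false

namespace Pool.SAR

open Matrix Finset

namespace LKHX

variable {ι : Type} [Fintype ι] [DecidableEq ι]

/-- One term: Cauchy-Schwarz. -/
theorem term (hLSA : Stmt_LSA) [Nonempty ι] (τ : ℝ) (hτ : 0 < τ)
    (b : Finset ι → ℝ) (k : ι) (U : Finset ι) (s : ℝ) (hs : 0 ≤ s)
    (hle : s ≤ 3 * ∑ V ∈ univ.filter (fun V => U ⊆ V ∧ k ∉ V), τ ^ (V \ U).card * b V) :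
    s ^ 2 ≤ 27 * ∑ V ∈ univ.filter (fun V => U ⊆ V),
      (τ ^ 2 * (Fintype.card ι : ℝ)) ^ (V \ U).card * b V ^ 2 := by
  have hN : (0 : ℝ) < (Fintype.card ι : ℝ) := by
    exact_mod_cast Fintype.card_pos
  have hx : (0 : ℝ) ≤ (Fintype.card ι : ℝ)⁻¹ := by positivity
  have hsub : (univ.filter (fun V : Finset ι => U ⊆ V ∧ k ∉ V)) ⊆
      univ.filter (fun V : Finset ι => U ⊆ V) := by
    intro V hV
    simp only [mem_filter, mem_univ, true_and] at hV ⊢
    exact hV.1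
  have hCS := Finset.sum_sq_le_sum_mul_sum_of_sq_eq_mul
    (univ.filter (fun V : Finset ι => U ⊆ V ∧ k ∉ V))
    (r := fun V => τ ^ (V \ U).card * b V)
    (f := fun V => ((Fintype.card ι : ℝ)⁻¹) ^ (V \ U).card)
    (g := fun V => (τ ^ 2 * (Fintype.card ι : ℝ)) ^ (V \ U).card * b V ^ 2)
    (fun V _ => by positivity) (fun V _ => by positivity)
    (fun V _ => by
      have h1 : τ ^ 2 = (Fintype.card ι : ℝ)⁻¹ * (τ ^ 2 * (Fintype.card ι : ℝ)) := by
        field_simp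
      calc (τ ^ (V \ U).card * b V) ^ 2 = (τ ^ 2) ^ (V \ U).card * b V ^ 2 := by ring
        _ = ((Fintype.card ι : ℝ)⁻¹ * (τ ^ 2 * (Fintype.card ι : ℝ))) ^ (V \ U).card * b V ^ 2 := by
            rw [← h1]
        _ = _ := by
            rw [mul_pow]
            ring)
  have h1 : ∑ V ∈ univ.filter (fun V : Finset ι => U ⊆ V ∧ k ∉ V),
      ((Fintype.card ι : ℝ)⁻¹) ^ (V \ U).card ≤ 3 :=
    (Finset.sum_le_sum_of_subset_of_nonneg hsub (fun V _ _ => by positivity)).trans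
      ((hLSA ι U).1)
  have h2 : ∑ V ∈ univ.filter (fun V : Finset ι => U ⊆ V ∧ k ∉ V),
      (τ ^ 2 * (Fintype.card ι : ℝ)) ^ (V \ U).card * b V ^ 2 ≤
      ∑ V ∈ univ.filter (fun V : Finset ι => U ⊆ V),
      (τ ^ 2 * (Fintype.card ι : ℝ)) ^ (V \ U).card * b V ^ 2 :=
    Finset.sum_le_sum_of_subset_of_nonneg hsub (fun V _ _ => by positivity)
  have h3 : 0 ≤ ∑ V ∈ univ.filter (fun V : Finset ι => U ⊆ V ∧ k ∉ V),
      (τ ^ 2 * (Fintype.card ι : ℝ)) ^ (V \ U).card * b V ^ 2 :=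
    Finset.sum_nonneg (fun V _ => by positivity)
  have h4 : s ^ 2 ≤ (3 * ∑ V ∈ univ.filter (fun V => U ⊆ V ∧ k ∉ V),
      τ ^ (V \ U).card * b V) ^ 2 := pow_le_pow_left₀ hs hle 2
  have h5 := mul_le_mul h1 h2 h3 (by norm_num : (0 : ℝ) ≤ 3)
  nlinarith [hCS, h4, h5]

end LKHX

/-- LKH. -/
theorem t_LKH : Stmt_LSA → Stmt_LKH := by
  intro hLSA ι _ _ _ ℓ ρ τ g Λ a w t hρ hτ hg hΛ hbal ha hw haw hw0 ht htle
  have hN : (0 : ℝ) < (Fintype.card ι : ℝ) := by
    exact_mod_cast Fintype.card_pos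
  have hg0 : (0 : ℝ) ≤ g := le_trans zero_le_one hg
  have hzero : ∀ V : Finset ι, ℓ < V.card → ∀ b, a V b = 0 := by
    intro V hV b
    have h1 := haw V
    rw [hw0 V hV, mul_zero] at h1
    have h2 : a V b ^ 2 ≤ ∑ c, a V c ^ 2 :=
      Finset.single_le_sum (f := fun c => a V c ^ 2) (fun c _ => sq_nonneg _) (mem_univ b)
    have h3 : a V b ^ 2 = 0 := le_antisymm (h2.trans h1) (sq_nonneg _)
    exact pow_eq_zero_iff (two_ne_zero) |>.1 h3
  have hstep : ∀ (k : ι) (U : Finset ι), k ∉ U → ρ ^ U.card * t k U ^ 2 ≤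
      ∑ V ∈ univ.filter (fun V : Finset ι => U ⊆ V),
        27 * g ^ (2 * ℓ) * (ρ ^ V.card * a V k ^ 2) := by
    intro k U hk
    have h1 := LKHX.term hLSA τ hτ (fun V => a V k) k U (t k U) (ht k U) (htle k U hk)
    have h2 : ρ ^ U.card * t k U ^ 2 ≤ ρ ^ U.card *
        (27 * ∑ V ∈ univ.filter (fun V : Finset ι => U ⊆ V),
          (τ ^ 2 * (Fintype.card ι : ℝ)) ^ (V \ U).card * a V k ^ 2) :=
      mul_le_mul_of_nonneg_left h1 (by positivity)
    refine h2.trans ?_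
    rw [Finset.mul_sum, Finset.mul_sum]
    refine Finset.sum_le_sum ?_
    intro V hV
    have hUV : U ⊆ V := (mem_filter.1 hV).2
    rcases le_or_gt V.card ℓ with hVl | hVl
    · have hc : U.card + (V \ U).card = V.card := by
        rw [Finset.card_sdiff_of_subset hUV]
        have := Finset.card_le_card hUV
        omega
      have hd : (V \ U).card ≤ ℓ := by omega
      have h3 : (τ ^ 2 * (Fintype.card ι : ℝ)) ^ (V \ U).card ≤ (ρ * g ^ 2) ^ (V \ U).card :=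
        pow_le_pow_left₀ (by positivity) hbal _
      have h4 : (g ^ 2) ^ (V \ U).card ≤ g ^ (2 * ℓ) := by
        rw [← pow_mul]
        exact pow_le_pow_right₀ hg (by omega)
      have h5 : ρ ^ U.card * (ρ ^ (V \ U).card) = ρ ^ V.card := by
        rw [← pow_add, hc]
      have h6 : (τ ^ 2 * (Fintype.card ι : ℝ)) ^ (V \ U).card ≤
          ρ ^ (V \ U).card * g ^ (2 * ℓ) := by
        refine h3.trans ?_
        rw [mul_pow]
        exact mul_le_mul_of_nonneg_left h4 (by positivity)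
      calc ρ ^ U.card * (27 * ((τ ^ 2 * (Fintype.card ι : ℝ)) ^ (V \ U).card * a V k ^ 2))
          ≤ ρ ^ U.card * (27 * ((ρ ^ (V \ U).card * g ^ (2 * ℓ)) * a V k ^ 2)) := by
            gcongr
        _ = 27 * g ^ (2 * ℓ) * ((ρ ^ U.card * ρ ^ (V \ U).card) * a V k ^ 2) := by ring
        _ = 27 * g ^ (2 * ℓ) * (ρ ^ V.card * a V k ^ 2) := by rw [h5]
    · rw [hzero V hVl k]
      simp
  have hsum1 : ∑ k, ∑ U ∈ univ.filter (fun U : Finset ι => k ∉ U), ρ ^ U.card * t k U ^ 2 ≤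
      ∑ k, ∑ U : Finset ι, ∑ V ∈ univ.filter (fun V : Finset ι => U ⊆ V),
        27 * g ^ (2 * ℓ) * (ρ ^ V.card * a V k ^ 2) := by
    refine Finset.sum_le_sum ?_
    intro k _
    refine le_trans (Finset.sum_le_sum (fun U hU => hstep k U (mem_filter.1 hU).2)) ?_
    refine Finset.sum_le_sum_of_subset_of_nonneg (Finset.filter_subset _ _) ?_
    intro U _ _
    exact Finset.sum_nonneg (fun V _ => by positivity)
  refine hsum1.trans ?_
  have hsum2 : ∑ k, ∑ U : Finset ι, ∑ V ∈ univ.filter (fun V : Finset ι => U ⊆ V),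
        27 * g ^ (2 * ℓ) * (ρ ^ V.card * a V k ^ 2) =
      ∑ V : Finset ι, ∑ U ∈ V.powerset, ∑ k, 27 * g ^ (2 * ℓ) * (ρ ^ V.card * a V k ^ 2) := by
    calc ∑ k, ∑ U : Finset ι, ∑ V ∈ univ.filter (fun V : Finset ι => U ⊆ V),
        27 * g ^ (2 * ℓ) * (ρ ^ V.card * a V k ^ 2)
        = ∑ k, ∑ V : Finset ι, ∑ U ∈ V.powerset,
            27 * g ^ (2 * ℓ) * (ρ ^ V.card * a V k ^ 2) := by
          refine Finset.sum_congr rfl fun k _ => ?_
          refine Finset.sum_comm' ?_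
          intro U V
          simp
      _ = ∑ V : Finset ι, ∑ k, ∑ U ∈ V.powerset,
            27 * g ^ (2 * ℓ) * (ρ ^ V.card * a V k ^ 2) := Finset.sum_comm
      _ = _ := by
          refine Finset.sum_congr rfl fun V _ => ?_
          exact Finset.sum_comm
  rw [hsum2, Finset.mul_sum]
  refine Finset.sum_le_sum ?_
  intro V _
  rcases le_or_gt V.card ℓ with hVl | hVl
  · have h1 : ∑ k, 27 * g ^ (2 * ℓ) * (ρ ^ V.card * a V k ^ 2) ≤
        27 * g ^ (2 * ℓ) * (ρ ^ V.card * (Λ * w V)) := by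
      rw [← Finset.mul_sum, ← Finset.mul_sum]
      exact mul_le_mul_of_nonneg_left (mul_le_mul_of_nonneg_left (haw V) (by positivity))
        (by positivity)
    have h2 : (2 : ℝ) ^ V.card ≤ 2 ^ ℓ := pow_le_pow_right₀ (by norm_num) hVl
    have h3 : 0 ≤ 27 * g ^ (2 * ℓ) * (ρ ^ V.card * (Λ * w V)) := by
      have := hw V
      positivity
    rw [Finset.sum_const, Finset.card_powerset, nsmul_eq_mul]
    push_cast
    calc (2 : ℝ) ^ V.card * ∑ k, 27 * g ^ (2 * ℓ) * (ρ ^ V.card * a V k ^ 2)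
        ≤ 2 ^ V.card * (27 * g ^ (2 * ℓ) * (ρ ^ V.card * (Λ * w V))) :=
          mul_le_mul_of_nonneg_left h1 (by positivity)
      _ ≤ 2 ^ ℓ * (27 * g ^ (2 * ℓ) * (ρ ^ V.card * (Λ * w V))) :=
          mul_le_mul_of_nonneg_right h2 h3
      _ = 27 * Λ * 2 ^ ℓ * g ^ (2 * ℓ) * (ρ ^ V.card * w V) := by ring
  · have h1 : ∀ k, a V k = 0 := hzero V hVl
    rw [hw0 V hVl]
    simp [h1]

end Pool.SAR
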