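import Pool.Agent.SAR.StmtsL

/-!
MP_c21969_lc, project SAR, part 3, module LKP: one step of the projection.
-/

set_option autoImplicit false

namespace Pool.SAR

theorem t_LKP : Stmt_PR → Stmt_LKP := by
  intro hPR ι _ _ E _ _ _ u B k z hz
  obtain ⟨p1, p2, p3, p4, p5, p6, p7, p8⟩ := hPR ι E u B
  obtain ⟨q1, q2, q3, q4, q5, q6, q7, q8⟩ := hPR ι E u (insert k B)
  have hRz : R u B z = z := p5 z hz
  -- the inner product of `w` and `u k`
  have hw : inner ℝ (R u B (u k)) (u k) = ‖R u B (u k)‖ ^ 2 := by
    rw [← real_inner_self_eq_norm_sq, p2, ← p1]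
  by_cases h0 : ‖R u B (u k)‖ ^ 2 = 0
  · have hw0 : R u B (u k) = 0 := by
      rw [← norm_eq_zero]
      exact pow_eq_zero_iff (two_ne_zero) |>.1 h0
    have hzk : inner ℝ z (u k) = 0 := by
      rw [← hRz, p1, hw0, inner_zero_right]
    rw [hzk, zero_smul, sub_zero]
    refine q5 z fun i hi => ?_
    rcases Finset.mem_insert.1 hi with rfl | hi
    · exact hzk
    · exact hz i hi
  · have hgk : inner ℝ (gv u k B) (u k) = 1 := by
      unfold gv
      rw [inner_smul_left, hw]
      simp only [RCLike.conj_to_real]
      exact inv_mul_cancel₀ h0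
    have hv : R u (insert k B) (z - inner ℝ z (u k) • gv u k B) =
        z - inner ℝ z (u k) • gv u k B := by
      refine q5 _ fun i hi => ?_
      rw [inner_sub_left, inner_smul_left]
      rcases Finset.mem_insert.1 hi with rfl | hi
      · rw [hgk]
        simp
      · rw [hz i hi]
        unfold gv
        rw [inner_smul_left, p4 (u k) i hi]
        simp
    have hg0 : R u (insert k B) (gv u k B) = 0 := by
      unfold gv
      rw [map_smul, p7 (insert k B) (Finset.subset_insert k B) (u k),
        q3 k (Finset.mem_insert_self k B), smul_zero]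
    have h1 : R u (insert k B) z = R u (insert k B) (z - inner ℝ z (u k) • gv u k B) := by
      rw [map_sub, map_smul, hg0, smul_zero, sub_zero]
    rw [h1, hv]

end Pool.SAR
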