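import Pool.Agent.SAR.StmtsL

/-!
MP_c21969_lc, project SAR, part 3: the first sum.
-/

set_option autoImplicit false

namespace Pool.SAR

open Matrix Finset
open scoped ComplexOrder

namespace LKSX

variable {ι : Type} [Fintype ι] [DecidableEq ι]

theorem sum_ins (F : Finset ι → ℝ) (k : ι) :
    ∑ U ∈ univ.filter (fun U : Finset ι => k ∉ U), F (insert k U) =
      ∑ U ∈ univ.filter (fun U : Finset ι => k ∈ U), F U := by
  refine Finset.sum_nbij' (fun U => insert k U) (fun U => U.erase k) ?_ ?_ ?_ ?_ ?_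
  · intro U _
    simp
  · intro U _
    simp
  · intro U hU
    rw [Finset.mem_filter] at hU
    exact Finset.erase_insert hU.2
  · intro U hU
    rw [Finset.mem_filter] at hU
    exact Finset.insert_erase hU.2
  · intro U _
    rfl

theorem sum_swap (F : Finset ι → ℝ) :
    ∑ k, ∑ U ∈ univ.filter (fun U : Finset ι => k ∈ U), F U = ∑ U, (U.card : ℝ) * F U := by
  rw [Finset.sum_comm' (t' := univ) (s' := fun U => U)]
  · refine Finset.sum_congr rfl fun U _ => ?_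
    rw [Finset.sum_const, nsmul_eq_mul]
  · intro k U
    simp

end LKSX

theorem t_LKS : Stmt_LKS := by
  intro ι _ _ E _ _ q ℓ hq0 hq1 Y hY
  have h1q : 0 < 1 - q := by linarith
  set ρ : ℝ := q / (1 - q) with hρ
  have hρ0 : 0 < ρ := div_pos hq0 h1q
  have hρq : ρ * (1 - q) = q := div_mul_cancel₀ q h1q.ne'
  have hF0 : ∀ U : Finset ι, 0 ≤ ρ ^ U.card * ‖Y U‖ ^ 2 := fun U => by positivity
  have hpt : ∀ k : ι, ∀ U ∈ univ.filter (fun U : Finset ι => k ∉ U),
      ρ ^ U.card * (q * ‖Y U - Y (insert k U)‖ ^ 2) ≤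
        2 * q * (ρ ^ U.card * ‖Y U‖ ^ 2) +
          2 * (1 - q) * (ρ ^ (insert k U).card * ‖Y (insert k U)‖ ^ 2) := by
    intro k U hU
    rw [Finset.mem_filter] at hU
    have h1 : ‖Y U - Y (insert k U)‖ ^ 2 ≤ 2 * ‖Y U‖ ^ 2 + 2 * ‖Y (insert k U)‖ ^ 2 := by
      have h2 := norm_sub_le (Y U) (Y (insert k U))
      have h3 := norm_nonneg (Y U - Y (insert k U))
      nlinarith [sq_nonneg (‖Y U‖ - ‖Y (insert k U)‖)]
    have h4 : ρ ^ (insert k U).card * (1 - q) = ρ ^ U.card * q := by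
      rw [Finset.card_insert_of_notMem hU.2, pow_succ, mul_assoc, hρq]
    have h5 : 0 ≤ ρ ^ U.card * q := by positivity
    have h6 := mul_le_mul_of_nonneg_left h1 h5
    have h7 : 2 * (1 - q) * (ρ ^ (insert k U).card * ‖Y (insert k U)‖ ^ 2) =
        2 * ‖Y (insert k U)‖ ^ 2 * (ρ ^ (insert k U).card * (1 - q)) := by ring
    rw [h7, h4]
    nlinarith [h6]
  have hS1 : ∀ k : ι, ∑ U ∈ univ.filter (fun U : Finset ι => k ∉ U),
      ρ ^ U.card * ‖Y U‖ ^ 2 ≤ QQ ρ Y := by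
    intro k
    exact Finset.sum_le_sum_of_subset_of_nonneg (Finset.filter_subset _ _) (fun U _ _ => hF0 U)
  have hS2 : ∑ U : Finset ι, (U.card : ℝ) * (ρ ^ U.card * ‖Y U‖ ^ 2) ≤ (ℓ : ℝ) * QQ ρ Y := by
    unfold QQ
    rw [Finset.mul_sum]
    refine Finset.sum_le_sum fun U _ => ?_
    by_cases hU : ℓ < U.card
    · rw [hY U hU, norm_zero]
      simp
    · exact mul_le_mul_of_nonneg_right (by exact_mod_cast Nat.le_of_not_lt hU) (hF0 U)
  have hQ0 : 0 ≤ QQ ρ Y := Finset.sum_nonneg fun U _ => hF0 U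
  calc ∑ k, ∑ U ∈ univ.filter (fun U : Finset ι => k ∉ U),
        ρ ^ U.card * (q * ‖Y U - Y (insert k U)‖ ^ 2)
      ≤ ∑ k : ι, ∑ U ∈ univ.filter (fun U : Finset ι => k ∉ U),
        (2 * q * (ρ ^ U.card * ‖Y U‖ ^ 2) +
          2 * (1 - q) * (ρ ^ (insert k U).card * ‖Y (insert k U)‖ ^ 2)) :=
        Finset.sum_le_sum fun k _ => Finset.sum_le_sum fun U hU => hpt k U hU
    _ = 2 * q * ∑ k : ι, ∑ U ∈ univ.filter (fun U : Finset ι => k ∉ U),
          ρ ^ U.card * ‖Y U‖ ^ 2 +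
        2 * (1 - q) * ∑ U : Finset ι, (U.card : ℝ) * (ρ ^ U.card * ‖Y U‖ ^ 2) := by
        rw [← LKSX.sum_swap (fun U => ρ ^ U.card * ‖Y U‖ ^ 2), Finset.mul_sum, Finset.mul_sum,
          ← Finset.sum_add_distrib]
        refine Finset.sum_congr rfl fun k _ => ?_
        rw [Finset.sum_add_distrib, Finset.mul_sum,
          ← LKSX.sum_ins (fun U => ρ ^ U.card * ‖Y U‖ ^ 2) k, Finset.mul_sum]
    _ ≤ 2 * q * ∑ _k : ι, QQ ρ Y + 2 * (1 - q) * ((ℓ : ℝ) * QQ ρ Y) := by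
        refine add_le_add ?_ ?_
        · exact mul_le_mul_of_nonneg_left (Finset.sum_le_sum fun k _ => hS1 k) (by linarith)
        · exact mul_le_mul_of_nonneg_left hS2 (by linarith)
    _ ≤ (2 * q * (Fintype.card ι : ℝ) + 2 * (ℓ : ℝ)) * QQ ρ Y := by
        rw [Finset.sum_const, nsmul_eq_mul, Finset.card_univ]
        have h8 : 0 ≤ q * ((ℓ : ℝ) * QQ ρ Y) := by positivity
        nlinarith [h8]

end Pool.SAR
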