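import Pool.Agent.SAR.StmtsL

/-!
MP_c21969_lc, project SAR, part 3: module LKT (sparsity).
-/

set_option autoImplicit false

namespace Pool.SAR

open Matrix Finset

namespace LKTX

variable {ι : Type} [Fintype ι] [DecidableEq ι] {E : Type} [NormedAddCommGroup E]
  [InnerProductSpace ℝ E] [FiniteDimensional ℝ E]

theorem QQ_nonneg {ρ : ℝ} (h : 0 ≤ ρ) (Y : Finset ι → E) : 0 ≤ QQ ρ Y :=
  Finset.sum_nonneg fun V _ => mul_nonneg (pow_nonneg h _) (sq_nonneg _)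

omit [Fintype ι] [FiniteDimensional ℝ E] in
theorem mulS_zero {ℓ : ℕ} {y : Finset ι → E} (hy : ∀ B, ℓ ≤ B.card → y B = 0) (k : ι)
    (B : Finset ι) (hB : ℓ < B.card) : mulS k y B = 0 := by
  unfold mulS
  split_ifs with h
  · rw [hy, neg_zero]
    rw [card_erase_of_mem h]
    omega
  · exact hy B hB.le

theorem HH_bound (hYO : Stmt_LYO) (hKC : Stmt_LKC) (hKD : Stmt_LKD) {ℓ : ℕ} {q τ δ : ℝ}
    {u : ι → E} (hS : Sys (2 * ℓ) τ δ u) (y : Finset ι → E) (hy : ∀ B, ℓ < B.card → y B = 0)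
    (k : ι) (U : Finset ι) :
    ‖HH q u y k U‖ ≤ 3 * ∑ V ∈ univ.filter (fun V => U ⊆ V ∧ k ∉ V),
      τ ^ (V \ U).card * |inner ℝ (up (hat q u y) V) (u k)| := by
  rw [hKC ι E q u y k U, Finset.mul_sum]
  refine (norm_sum_le _ _).trans (Finset.sum_le_sum fun V hV => ?_)
  obtain ⟨_, hUV, hkV⟩ := mem_filter.1 hV
  rw [norm_smul, Real.norm_eq_abs]
  by_cases hc : V.card ≤ 2 * ℓ
  · have h1 := mul_le_mul_of_nonneg_left (hKD ι E u ℓ τ δ hS U V k hUV hkV hc)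
      (abs_nonneg (inner ℝ (up (hat q u y) V) (u k)))
    refine h1.trans (le_of_eq ?_)
    ring
  · have h1 : up (hat q u y) V = 0 := (hYO ι E q u y).2 ℓ hy V (by omega)
    rw [h1, inner_zero_left, abs_zero]
    simp

end LKTX

theorem t_LKT : Stmt_LYO → Stmt_LSC → Stmt_LKB → Stmt_LKC → Stmt_LKD → Stmt_LKS → Stmt_LKH →
    Stmt_LKT := by
  intro hYO hSC hKB hKC hKD hKS hKH ι _ _ _ E _ _ _ u ℓ m q τ δ g Λ hP hS hΛ y hy
  have hq1 : q < 1 := lt_of_le_of_lt hP.q1 (by norm_num)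
  have hq1' : 0 < 1 - q := by linarith
  have hρ : 0 < q / (1 - q) := div_pos hP.q0 hq1'
  have hqρ : q ≤ q / (1 - q) := by
    rw [le_div_iff₀ hq1']
    nlinarith [hP.q0]
  have hy' : ∀ B, ℓ < B.card → y B = 0 := fun B hB => hy B hB.le
  have hY0 : ∀ U, ℓ < U.card → up (hat q u y) U = 0 := (hYO ι E q u y).2 ℓ hy'
  have hQ := LKTX.QQ_nonneg hρ.le (up (hat q u y))
  -- the two sums
  have h1 := hKS ι E q ℓ hP.q0 hq1 (up (hat q u y)) hY0
  have h2 := hKH ι ℓ (q / (1 - q)) τ g Λ (fun V b => |inner ℝ (up (hat q u y) V) (u b)|)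
    (fun V => ‖up (hat q u y) V‖ ^ 2) (fun k U => ‖HH q u y k U‖) hρ hP.t0 hP.g1 hP.L0
    (hP.bal.trans (mul_le_mul_of_nonneg_right hqρ (sq_nonneg g)))
    (fun V b => abs_nonneg _) (fun V => sq_nonneg _)
    (fun V => by
      simp only [sq_abs]
      exact hΛ _)
    (fun V hV => by
      show ‖up (hat q u y) V‖ ^ 2 = 0
      rw [hY0 V hV, norm_zero]
      norm_num)
    (fun k U => norm_nonneg _)
    (fun k U _ => LKTX.HH_bound hYO hKC hKD hS y hy' k U)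
  have h3 : ∑ V : Finset ι, (q / (1 - q)) ^ V.card * ‖up (hat q u y) V‖ ^ 2 =
      QQ (q / (1 - q)) (up (hat q u y)) := rfl
  rw [h3] at h2
  -- sum of the transformed forms
  have h4 : ∑ k, QQ (q / (1 - q)) (up (hat q u (mulS k y))) ≤
      ((m : ℝ) / 3) * QQ (q / (1 - q)) (up (hat q u y)) := by
    have h5 : ∑ k, QQ (q / (1 - q)) (up (hat q u (mulS k y))) ≤
        ∑ k, ∑ U ∈ univ.filter (fun U : Finset ι => k ∉ U),
          (q / (1 - q)) ^ U.card * (q * ‖up (hat q u y) U - up (hat q u y) (insert k U)‖ ^ 2) +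
        ∑ k, ∑ U ∈ univ.filter (fun U : Finset ι => k ∉ U),
          (q / (1 - q)) ^ U.card * ‖HH q u y k U‖ ^ 2 := by
      rw [← Finset.sum_add_distrib]
      refine Finset.sum_le_sum fun k _ => ?_
      rw [hKB ι E q hP.q0 hq1 u y k, ← Finset.sum_add_distrib]
      refine Finset.sum_le_sum fun U _ => ?_
      rw [mul_add]
      have h6 : 0 ≤ (q / (1 - q)) ^ U.card := pow_nonneg hρ.le _
      have h7 : (1 - q) * ‖HH q u y k U‖ ^ 2 ≤ ‖HH q u y k U‖ ^ 2 := by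
        nlinarith [sq_nonneg ‖HH q u y k U‖, hP.q0]
      have h8 := mul_le_mul_of_nonneg_left h7 h6
      linarith
    have h9 := mul_le_mul_of_nonneg_right hP.loc hQ
    refine h5.trans (le_trans ?_ h9)
    have h10 := add_le_add h1 h2
    refine h10.trans (le_of_eq ?_)
    ring
  have h5 : ∑ k, FF q u (mulS k y) ≤
      3 / 2 * ∑ k, QQ (q / (1 - q)) (up (hat q u (mulS k y))) := by
    rw [Finset.mul_sum]
    exact Finset.sum_le_sum fun k _ => (hSC ι E u ℓ m q τ δ g Λ hP hS hΛ (mulS k y)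
      (fun B hB => LKTX.mulS_zero hy k B hB)).2
  have h6 := (hSC ι E u ℓ m q τ δ g Λ hP hS hΛ y hy').1
  have h7 := mul_le_mul_of_nonneg_left h6 (Nat.cast_nonneg (α := ℝ) m)
  linarith

end Pool.SAR
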