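import Pool.Agent.SAR.StmtsL

/-!
MP_c21969_lc, project SAR, part 3: module LLA (basis change).
-/

set_option autoImplicit false

namespace Pool.SAR

open Matrix Finset

namespace LLAX

variable {ι : Type} [Fintype ι] [DecidableEq ι] {E : Type} [NormedAddCommGroup E]
  [InnerProductSpace ℝ E] [FiniteDimensional ℝ E]

/-- the coefficients of `cy` -/
def a {r : ℕ} (c : {A : Finset ι // A.card ≤ r} × ι → ℝ) (B : Finset ι)
    (p : {A : Finset ι // A.card ≤ r} × ι) : ℝ :=
  if B ⊆ p.1.1 then (-1 : ℝ) ^ B.card * c p else 0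

omit [FiniteDimensional ℝ E] in
theorem cy_eq {r : ℕ} (u : ι → E) (c : {A : Finset ι // A.card ≤ r} × ι → ℝ) (B : Finset ι) :
    cy u c B = ∑ p, a c B p • u p.2 := by
  rw [cy, Finset.sum_filter, Finset.smul_sum]
  refine Finset.sum_congr rfl fun p _ => ?_
  unfold a
  split_ifs with h
  · rw [smul_smul]
  · rw [smul_zero, zero_smul]

theorem sum_pow (A : Finset ι) (f : Finset ι → ℝ) :
    ∑ B ∈ A.powerset, f B = ∑ B : Finset ι, if B ⊆ A then f B else 0 := by
  rw [← Finset.sum_filter]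
  refine Finset.sum_congr ?_ fun _ _ => rfl
  ext B
  simp

omit [FiniteDimensional ℝ E] in
theorem key {r : ℕ} (u : ι → E) (c : {A : Finset ι // A.card ≤ r} × ι → ℝ)
    (T : Finset ι → (E →L[ℝ] E)) :
    ∑ p : {A : Finset ι // A.card ≤ r} × ι, ∑ t : {A : Finset ι // A.card ≤ r} × ι, c p * c t *
      (∑ B ∈ p.1.1.powerset, ∑ B' ∈ t.1.1.powerset,
        (-1 : ℝ) ^ (B.card + B'.card) * inner ℝ (u p.2) (T (B ∪ B') (u t.2))) =
    ∑ B : Finset ι, ∑ B' : Finset ι, inner ℝ (cy u c B) (T (B ∪ B') (cy u c B')) := by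
  have h1 : ∀ B B' : Finset ι, (inner ℝ (cy u c B) (T (B ∪ B') (cy u c B')) : ℝ) =
      ∑ p, ∑ t, a c B p * a c B' t * inner ℝ (u p.2) (T (B ∪ B') (u t.2)) := by
    intro B B'
    rw [cy_eq, cy_eq, map_sum, sum_inner]
    refine Finset.sum_congr rfl fun p _ => ?_
    rw [inner_sum]
    refine Finset.sum_congr rfl fun t _ => ?_
    rw [map_smul, real_inner_smul_left, real_inner_smul_right]
    ring
  have h2 : ∀ p t : {A : Finset ι // A.card ≤ r} × ι, c p * c t *
      (∑ B ∈ p.1.1.powerset, ∑ B' ∈ t.1.1.powerset,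
        (-1 : ℝ) ^ (B.card + B'.card) * inner ℝ (u p.2) (T (B ∪ B') (u t.2))) =
      ∑ B : Finset ι, ∑ B' : Finset ι,
        a c B p * a c B' t * inner ℝ (u p.2) (T (B ∪ B') (u t.2)) := by
    intro p t
    rw [sum_pow, Finset.mul_sum]
    refine Finset.sum_congr rfl fun B _ => ?_
    unfold a
    by_cases hB : B ⊆ p.1.1
    · rw [if_pos hB, if_pos hB, sum_pow, Finset.mul_sum]
      refine Finset.sum_congr rfl fun B' _ => ?_
      by_cases hB' : B' ⊆ t.1.1
      · rw [if_pos hB', if_pos hB', pow_add]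
        ring
      · rw [if_neg hB', if_neg hB']
        ring
    · rw [if_neg hB, if_neg hB, mul_zero]
      refine (Finset.sum_eq_zero fun B' _ => ?_).symm
      ring
  simp only [h1, h2]
  -- exchange of the sums
  have h3 : ∀ p : {A : Finset ι // A.card ≤ r} × ι,
      (∑ t : {A : Finset ι // A.card ≤ r} × ι, ∑ B : Finset ι, ∑ B' : Finset ι,
        a c B p * a c B' t * inner ℝ (u p.2) (T (B ∪ B') (u t.2)) : ℝ) =
      ∑ B : Finset ι, ∑ B' : Finset ι, ∑ t : {A : Finset ι // A.card ≤ r} × ι,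
        a c B p * a c B' t * inner ℝ (u p.2) (T (B ∪ B') (u t.2)) := by
    intro p
    rw [Finset.sum_comm]
    refine Finset.sum_congr rfl fun B _ => ?_
    rw [Finset.sum_comm]
  rw [Finset.sum_congr rfl fun p _ => h3 p, Finset.sum_comm]
  refine Finset.sum_congr rfl fun B _ => ?_
  rw [Finset.sum_comm]

/-- the operators -/
noncomputable def TT (q : ℝ) (u : ι → E) (D : Finset ι) : E →L[ℝ] E := (1 - q) ^ D.card • R u D

theorem inner_TT (q : ℝ) (u : ι → E) (D : Finset ι) (z z' : E) :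
    (inner ℝ z (TT q u D z') : ℝ) = (1 - q) ^ D.card * inner ℝ z (R u D z') := by
  rw [TT, _root_.smul_apply, real_inner_smul_right]

theorem YR_eq (q : ℝ) (u : ι → E) (D : Finset ι) (i j : ι) :
    YR q u D ∅ i j = (Fintype.card ι : ℝ)⁻¹ *
      ∑ D' ∈ D.powerset, (-1 : ℝ) ^ D'.card * inner ℝ (u i) (TT q u D' (u j)) := by
  rw [YR, Matrix.of_apply, Finset.card_empty, pow_zero, mul_one, Lf]
  congr 1
  refine Finset.sum_congr rfl fun D' _ => ?_
  rw [inner_TT, Finset.union_empty, neg_pow]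
  ring

end LLAX

open LLAX in
/-- Module LLA. -/
theorem t_LLA : Stmt_LUU → Stmt_LKA → Stmt_LLA := by
  intro hU hK ι _ _ E _ _ _ q u r c
  refine ⟨?_, fun k => ?_, fun B hB => ?_⟩
  · have h1 : ∀ p t : {A : Finset ι // A.card ≤ r} × ι,
        c p * c t * YR q u (p.1.1 ∪ t.1.1) ∅ p.2 t.2 =
        (Fintype.card ι : ℝ)⁻¹ * (c p * c t *
          (∑ B ∈ p.1.1.powerset, ∑ B' ∈ t.1.1.powerset,
            (-1 : ℝ) ^ (B.card + B'.card) * inner ℝ (u p.2) (TT q u (B ∪ B') (u t.2)))) := by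
      intro p t
      rw [YR_eq, (hU ι ℝ (fun D => inner ℝ (u p.2) (TT q u D (u t.2))) p.1.1 t.1.1).1]
      ring
    simp only [h1, ← Finset.mul_sum]
    rw [key]
    congr 1
    rw [FF]
    refine Finset.sum_congr rfl fun B _ => Finset.sum_congr rfl fun B' _ => ?_
    rw [inner_TT]
  · have h1 : ∀ p t : {A : Finset ι // A.card ≤ r} × ι,
        c p * c t * YR q u (insert k (p.1.1 ∪ t.1.1)) ∅ p.2 t.2 =
        (Fintype.card ι : ℝ)⁻¹ * (c p * c t *
          (∑ B ∈ p.1.1.powerset, ∑ B' ∈ t.1.1.powerset,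
            (-1 : ℝ) ^ (B.card + B'.card) * inner ℝ (u p.2)
              ((fun D => TT q u D - TT q u (insert k D)) (B ∪ B') (u t.2)))) := by
      intro p t
      rw [YR_eq, (hU ι ℝ (fun D => inner ℝ (u p.2) (TT q u D (u t.2))) (p.1.1 ∪ t.1.1) t.1.1).2 k,
        (hU ι ℝ (fun D => inner ℝ (u p.2) (TT q u D (u t.2)) -
          inner ℝ (u p.2) (TT q u (insert k D) (u t.2))) p.1.1 t.1.1).1]
      simp only [_root_.sub_apply, inner_sub_right]
      ring
    simp only [h1, ← Finset.mul_sum]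
    rw [key u c (fun D => TT q u D - TT q u (insert k D)), hK]
    congr 1
    refine Finset.sum_congr rfl fun B _ => Finset.sum_congr rfl fun B' _ => ?_
    rw [_root_.sub_apply, inner_sub_right, inner_TT, inner_TT]
  · rw [cy_eq]
    refine Finset.sum_eq_zero fun p _ => ?_
    unfold a
    rw [if_neg, zero_smul]
    intro h
    have := Finset.card_le_card h
    have := p.1.2
    omega

end Pool.SAR
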