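import Pool.Agent.SAR.StmtsL

/-!
MP_c21969_lc, project SAR, part 3, module LLL: the matrices `YR q u D ∅` are Lasserre
pseudo-moments.
-/

set_option autoImplicit false

namespace Pool.SAR

open Matrix Finset
open scoped ComplexOrder

namespace LLLX

theorem psd_of_sum {n : Type} [Fintype n] (M : Matrix n n ℝ) (hs : ∀ i j, M i j = M j i)
    (h : ∀ c : n → ℝ, 0 ≤ ∑ p, ∑ t, c p * c t * M p t) : M.PosSemidef := by
  refine Matrix.PosSemidef.of_dotProduct_mulVec_nonneg ?_ ?_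
  · ext i j
    rw [Matrix.conjTranspose_apply, star_trivial]
    exact hs j i
  · intro x
    refine (h x).trans (le_of_eq ?_)
    simp only [dotProduct, Matrix.mulVec, Pi.star_apply, star_trivial, Finset.mul_sum]
    refine Finset.sum_congr rfl fun p _ => Finset.sum_congr rfl fun t _ => ?_
    ring

section

variable {ι : Type} [Fintype ι] [DecidableEq ι] {E : Type} [NormedAddCommGroup E]
  [InnerProductSpace ℝ E] [FiniteDimensional ℝ E]

theorem YR_apply (q : ℝ) (u : ι → E) (D : Finset ι) (i j : ι) :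
    YR q u D ∅ i j = (Fintype.card ι : ℝ)⁻¹ * Lf q D (fun B => inner ℝ (u i) (R u B (u j))) := by
  unfold YR
  simp only [Matrix.of_apply, Finset.card_empty, pow_zero, mul_one, Finset.union_empty]

theorem inner_symm (hPR : Stmt_PR) (u : ι → E) (B : Finset ι) (i j : ι) :
    (inner ℝ (u i) (R u B (u j)) : ℝ) = inner ℝ (u j) (R u B (u i)) := by
  rw [← (hPR ι E u B).1, real_inner_comm]

theorem YR_symm (hPR : Stmt_PR) (q : ℝ) (u : ι → E) (D : Finset ι) (i j : ι) :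
    YR q u D ∅ i j = YR q u D ∅ j i := by
  rw [YR_apply, YR_apply]
  simp only [inner_symm hPR u _ i j]

theorem R_empty (hPR : Stmt_PR) (u : ι → E) (y : E) : R u ∅ y = y :=
  (hPR ι E u ∅).2.2.2.2.1 y (fun i hi => absurd hi (Finset.notMem_empty i))

theorem YR_empty (hPR : Stmt_PR) (q : ℝ) (u : ι → E) (i j : ι) :
    YR q u ∅ ∅ i j = (Fintype.card ι : ℝ)⁻¹ * inner ℝ (u i) (u j) := by
  rw [YR_apply]
  simp [Lf, R_empty hPR]

theorem Lf_zero (q : ℝ) (D : Finset ι) (h : Finset ι → ℝ) (hh : ∀ B, h B = 0) :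
    Lf q D h = 0 := by
  unfold Lf
  refine Finset.sum_eq_zero fun B _ => ?_
  rw [hh, mul_zero]

theorem YR_insert (hPR : Stmt_PR) (hLI : Stmt_LI) (q : ℝ) (u : ι → E) (D : Finset ι) (i j : ι) :
    YR q u (insert i D) ∅ i j = YR q u D ∅ i j := by
  by_cases hi : i ∈ D
  · rw [Finset.insert_eq_of_mem hi]
  · rw [YR_apply, YR_apply, (hLI ι q D i hi _).2, Lf_zero q D
      (fun B => inner ℝ (u i) (R u (insert i B) (u j)))]
    · ring
    · intro B
      rw [← (hPR ι E u (insert i B)).1, (hPR ι E u (insert i B)).2.2.1 i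
        (Finset.mem_insert_self i B), inner_zero_left]

theorem QQ_nonneg {ρ : ℝ} (hρ : 0 ≤ ρ) (Y : Finset ι → E) : 0 ≤ QQ ρ Y := by
  unfold QQ
  positivity

end

end LLLX

theorem t_LLL : Stmt_PR → Stmt_LI → Stmt_LSC → Stmt_LKT → Stmt_LLA → Stmt_LLL := by
  intro hPR hLI hLSC hLKT hLLA ι _ _ _ E _ _ _ u ℓ m q τ δ g Λ hPar hSys hΛ
  have hq0 := hPar.q0
  have hq1 := hPar.q1
  have hρ : 0 ≤ q / (1 - q) := div_nonneg hq0.le (by linarith)
  have hN : (0 : ℝ) ≤ (Fintype.card ι : ℝ)⁻¹ := by positivity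
  refine ⟨⟨?_, ?_, ?_, ?_⟩, fun i j => LLLX.YR_empty hPR q u i j⟩
  · refine LLLX.psd_of_sum _ ?_ ?_
    · intro a b
      change YR q u (a.1.1 ∪ b.1.1) ∅ a.2 b.2 = YR q u (b.1.1 ∪ a.1.1) ∅ b.2 a.2
      rw [Finset.union_comm, LLLX.YR_symm hPR]
    · intro c
      obtain ⟨h1, -, h3⟩ := hLLA ι E q u ℓ c
      change 0 ≤ ∑ p, ∑ t, c p * c t * YR q u (p.1.1 ∪ t.1.1) ∅ p.2 t.2
      rw [h1]
      refine mul_nonneg hN ?_
      have h4 := (hLSC ι E u ℓ m q τ δ g Λ hPar hSys hΛ (cy u c) h3).1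
      have h5 := LLLX.QQ_nonneg hρ (up (hat q u (cy u c)))
      linarith
  · intro r hr
    refine LLLX.psd_of_sum _ ?_ ?_
    · intro a b
      change ((m : ℝ) • YR q u (a.1.1 ∪ b.1.1) ∅ -
        ∑ k, YR q u (insert k (a.1.1 ∪ b.1.1)) ∅ : Matrix ι ι ℝ) a.2 b.2 =
        ((m : ℝ) • YR q u (b.1.1 ∪ a.1.1) ∅ -
        ∑ k, YR q u (insert k (b.1.1 ∪ a.1.1)) ∅ : Matrix ι ι ℝ) b.2 a.2
      rw [Finset.union_comm b.1.1 a.1.1]
      simp only [Matrix.sub_apply, Matrix.smul_apply, Matrix.sum_apply,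
        LLLX.YR_symm hPR q u _ a.2 b.2]
    · intro c
      obtain ⟨h1, h2, h3⟩ := hLLA ι E q u r c
      change 0 ≤ ∑ p, ∑ t, c p * c t * ((m : ℝ) • YR q u (p.1.1 ∪ t.1.1) ∅ -
        ∑ k, YR q u (insert k (p.1.1 ∪ t.1.1)) ∅ : Matrix ι ι ℝ) p.2 t.2
      have h4 : ∑ p, ∑ t, c p * c t * ((m : ℝ) • YR q u (p.1.1 ∪ t.1.1) ∅ -
          ∑ k, YR q u (insert k (p.1.1 ∪ t.1.1)) ∅ : Matrix ι ι ℝ) p.2 t.2 =
          (m : ℝ) * (∑ p, ∑ t, c p * c t * YR q u (p.1.1 ∪ t.1.1) ∅ p.2 t.2) -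
          ∑ k, ∑ p, ∑ t, c p * c t * YR q u (insert k (p.1.1 ∪ t.1.1)) ∅ p.2 t.2 := by
        rw [Finset.sum_comm (s := (univ : Finset ι))]
        rw [Finset.mul_sum, ← Finset.sum_sub_distrib]
        refine Finset.sum_congr rfl fun p _ => ?_
        rw [Finset.sum_comm (s := (univ : Finset ι))]
        rw [Finset.mul_sum, ← Finset.sum_sub_distrib]
        refine Finset.sum_congr rfl fun t _ => ?_
        simp only [Matrix.sub_apply, Matrix.smul_apply, Matrix.sum_apply, smul_eq_mul]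
        rw [mul_sub, Finset.mul_sum]
        ring
      rw [h4, h1, Finset.sum_congr rfl (fun k _ => h2 k), ← Finset.mul_sum]
      have h5 := hLKT ι E u ℓ m q τ δ g Λ hPar hSys hΛ (cy u c)
        (fun B hB => h3 B (by omega))
      have h6 : 0 ≤ (Fintype.card ι : ℝ)⁻¹ * ((m : ℝ) * FF q u (cy u c) -
          ∑ k, FF q u (mulS k (cy u c))) := mul_nonneg hN (by linarith)
      linarith
  · intro D i j _
    exact LLLX.YR_insert hPR hLI q u D i j
  · unfold Matrix.trace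
    simp only [Matrix.diag_apply, LLLX.YR_empty hPR, real_inner_self_eq_norm_sq, hSys.unit,
      one_pow, mul_one, Finset.sum_const, Finset.card_univ, nsmul_eq_mul]
    exact mul_inv_cancel₀ (Nat.cast_ne_zero.mpr Fintype.card_ne_zero)

end Pool.SAR
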