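import Pool.Agent.SAR.Stmts

/-!
# Module HE: extension by zero is a lift
-/

set_option autoImplicit false

set_option linter.unusedSectionVars false

namespace Pool.SAR

open Matrix Finset
open scoped ComplexOrder

namespace HEX

section

variable {𝕜 : Type} [RCLike 𝕜] {ι κ : Type} [Fintype ι] [DecidableEq ι] [Fintype κ]
  [DecidableEq κ]

/-- the matrix of the embedding -/
def PM (𝕜 : Type) [RCLike 𝕜] (e : κ ↪ ι) : Matrix κ ι 𝕜 :=
  Matrix.of fun k i => if e k = i then 1 else 0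

/-- the extension of a matrix by zero -/
def TM (𝕜 : Type) [RCLike 𝕜] (e : κ ↪ ι) (M : Matrix κ κ ℝ) : Matrix ι ι 𝕜 :=
  (PM 𝕜 e)ᴴ * M.map (fun r : ℝ => (r : 𝕜)) * PM 𝕜 e

lemma TM_apply (e : κ ↪ ι) (M : Matrix κ κ ℝ) (i j : ι) :
    TM 𝕜 e M i j = ∑ k : κ, ∑ l : κ, if e k = i ∧ e l = j then ((M k l : ℝ) : 𝕜) else 0 := by
  unfold TM PM
  rw [Matrix.mul_apply]
  simp only [Matrix.mul_apply, Matrix.conjTranspose_apply, Matrix.of_apply, Matrix.map_apply,
    Finset.sum_mul]
  rw [Finset.sum_comm]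
  refine Finset.sum_congr rfl fun k _ => Finset.sum_congr rfl fun l _ => ?_
  by_cases h1 : e k = i <;> by_cases h2 : e l = j <;> simp [h1, h2]

lemma TM_add (e : κ ↪ ι) (M N : Matrix κ κ ℝ) : TM 𝕜 e (M + N) = TM 𝕜 e M + TM 𝕜 e N := by
  unfold TM
  rw [Matrix.map_add (fun r : ℝ => (r : 𝕜)) (fun a b => RCLike.ofReal_add a b), Matrix.mul_add,
    Matrix.add_mul]

lemma TM_zero (e : κ ↪ ι) : TM 𝕜 e (0 : Matrix κ κ ℝ) = 0 := by
  ext i j
  rw [TM_apply]
  simp

lemma TM_smul (e : κ ↪ ι) (c : ℝ) (M : Matrix κ κ ℝ) : TM 𝕜 e (c • M) = c • TM 𝕜 e M := by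
  ext i j
  rw [TM_apply, Matrix.smul_apply, TM_apply, Finset.smul_sum]
  refine Finset.sum_congr rfl fun k _ => ?_
  rw [Finset.smul_sum]
  refine Finset.sum_congr rfl fun l _ => ?_
  by_cases h : e k = i ∧ e l = j
  · rw [if_pos h, if_pos h, Matrix.smul_apply, smul_eq_mul, RCLike.ofReal_mul,
      RCLike.real_smul_eq_coe_mul]
  · rw [if_neg h, if_neg h, smul_zero]

lemma TM_sum (e : κ ↪ ι) {α : Type} (s : Finset α) (M : α → Matrix κ κ ℝ) :
    TM 𝕜 e (∑ a ∈ s, M a) = ∑ a ∈ s, TM 𝕜 e (M a) := by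
  classical
  induction s using Finset.induction_on with
  | empty => rw [Finset.sum_empty, Finset.sum_empty, TM_zero]
  | insert a s ha ih => rw [Finset.sum_insert ha, Finset.sum_insert ha, TM_add, ih]

lemma TM_sub (e : κ ↪ ι) (M N : Matrix κ κ ℝ) : TM 𝕜 e (M - N) = TM 𝕜 e M - TM 𝕜 e N := by
  have h := TM_add (𝕜 := 𝕜) e (M - N) N
  rw [sub_add_cancel] at h
  rw [h, add_sub_cancel_right]

open scoped MatrixOrder in
lemma real_sq {M : Matrix κ κ ℝ} (hM : M.PosSemidef) : ∃ B : Matrix κ κ ℝ, M = Bᴴ * B := by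
  obtain ⟨B, hB⟩ := CStarAlgebra.nonneg_iff_eq_star_mul_self.mp hM.nonneg
  exact ⟨B, by rw [hB, Matrix.star_eq_conjTranspose]⟩

lemma TM_psd (e : κ ↪ ι) {M : Matrix κ κ ℝ} (hM : M.PosSemidef) : (TM 𝕜 e M).PosSemidef := by
  unfold TM
  have h1 : (M.map (fun r : ℝ => (r : 𝕜))).PosSemidef := by
    obtain ⟨B, hB⟩ := real_sq hM
    have h2 : M.map (fun r : ℝ => (r : 𝕜)) =
        (B.map (fun r : ℝ => (r : 𝕜)))ᴴ * B.map (fun r : ℝ => (r : 𝕜)) := by
      rw [hB]
      ext i j
      simp only [Matrix.map_apply, Matrix.mul_apply, Matrix.conjTranspose_apply, star_trivial]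
      rw [RCLike.ofReal_sum]
      refine Finset.sum_congr rfl fun k _ => ?_
      rw [RCLike.ofReal_mul, RCLike.star_def, RCLike.conj_ofReal]
    rw [h2]
    exact Matrix.posSemidef_conjTranspose_mul_self _
  exact h1.conjTranspose_mul_mul_same _

lemma TM_trace (e : κ ↪ ι) (M : Matrix κ κ ℝ) : (TM 𝕜 e M).trace = ((M.trace : ℝ) : 𝕜) := by
  unfold Matrix.trace
  simp only [Matrix.diag_apply, TM_apply]
  rw [Finset.sum_comm, RCLike.ofReal_sum]
  refine Finset.sum_congr rfl fun k _ => ?_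
  rw [Finset.sum_comm]
  have h1 : ∀ l : κ, (∑ i : ι, if e k = i ∧ e l = i then ((M k l : ℝ) : 𝕜) else 0) =
      if l = k then ((M k l : ℝ) : 𝕜) else 0 := by
    intro l
    by_cases h : l = k
    · subst h
      simp
    · rw [if_neg h]
      refine Finset.sum_eq_zero fun i _ => ?_
      rw [if_neg]
      rintro ⟨h2, h3⟩
      exact h (e.injective (h3.trans h2.symm))
  rw [Finset.sum_congr rfl fun l _ => h1 l]
  simp

/-- the preimage -/
def pre (e : κ ↪ ι) (A : Finset ι) : Finset κ := univ.filter fun k => e k ∈ A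

lemma mem_pre (e : κ ↪ ι) (A : Finset ι) (k : κ) : k ∈ pre e A ↔ e k ∈ A := by
  unfold pre
  rw [Finset.mem_filter]
  exact ⟨fun h => h.2, fun h => ⟨Finset.mem_univ _, h⟩⟩

lemma ext_pos (e : κ ↪ ι) (Y : Finset κ → Finset κ → Matrix κ κ ℝ) {A : Finset ι} (C : Finset ι)
    (h : A ⊆ univ.map e) : ext 𝕜 e Y A C = TM 𝕜 e (Y (pre e A) (pre e C)) := by
  unfold ext
  rw [if_pos h]
  ext i j
  rw [TM_apply, Matrix.of_apply]
  have e1 : (univ.filter fun k => e k ∈ A) = pre e A := by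
    ext k
    rw [mem_pre, Finset.mem_filter]
    exact ⟨fun h => h.2, fun h => ⟨Finset.mem_univ _, h⟩⟩
  have e2 : (univ.filter fun k => e k ∈ C) = pre e C := by
    ext k
    rw [mem_pre, Finset.mem_filter]
    exact ⟨fun h => h.2, fun h => ⟨Finset.mem_univ _, h⟩⟩
  refine Finset.sum_congr rfl fun k _ => Finset.sum_congr rfl fun l _ => ?_
  by_cases h3 : e k = i ∧ e l = j
  · rw [if_pos h3, if_pos h3, e1, e2]
  · rw [if_neg h3, if_neg h3]

lemma ext_neg (e : κ ↪ ι) (Y : Finset κ → Finset κ → Matrix κ κ ℝ) {A : Finset ι} (C : Finset ι)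
    (h : ¬ A ⊆ univ.map e) : ext 𝕜 e Y A C = 0 := by
  unfold ext
  rw [if_neg h]

lemma pre_disj (e : κ ↪ ι) {A C : Finset ι} (h : Disjoint A C) :
    Disjoint (pre e A) (pre e C) := by
  rw [Finset.disjoint_left] at h ⊢
  intro k hk
  rw [mem_pre] at hk ⊢
  exact h hk

lemma pre_card (e : κ ↪ ι) (A C : Finset ι) : (pre e A ∪ pre e C).card ≤ (A ∪ C).card := by
  rw [← Finset.card_map e]
  refine Finset.card_le_card ?_
  intro i hi
  rw [Finset.mem_map] at hi
  obtain ⟨k, hk, rfl⟩ := hi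
  rw [Finset.mem_union, mem_pre, mem_pre] at hk
  exact Finset.mem_union.2 hk

lemma pre_card_eq (e : κ ↪ ι) {A : Finset ι} (h : A ⊆ univ.map e) : (pre e A).card = A.card := by
  rw [← Finset.card_map e]
  congr 1
  ext i
  rw [Finset.mem_map]
  constructor
  · rintro ⟨k, hk, rfl⟩
    exact (mem_pre e A k).1 hk
  · intro hi
    obtain ⟨k, -, rfl⟩ := Finset.mem_map.1 (h hi)
    exact ⟨k, (mem_pre e A k).2 hi, rfl⟩

lemma pre_insert (e : κ ↪ ι) (A : Finset ι) (k : κ) :
    pre e (insert (e k) A) = insert k (pre e A) := by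
  ext l
  rw [mem_pre, Finset.mem_insert, Finset.mem_insert, mem_pre]
  constructor
  · rintro (h | h)
    · exact Or.inl (e.injective h)
    · exact Or.inr h
  · rintro (h | h)
    · exact Or.inl (congrArg e h)
    · exact Or.inr h

lemma pre_insert_not (e : κ ↪ ι) (A : Finset ι) (i : ι) (h : ∀ k, e k ≠ i) :
    pre e (insert i A) = pre e A := by
  ext l
  rw [mem_pre, Finset.mem_insert, mem_pre]
  constructor
  · rintro (h' | h')
    · exact absurd h' (h l)
    · exact h'
  · exact Or.inr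

lemma pre_not_mem (e : κ ↪ ι) {A C : Finset ι} {k : κ} (h : e k ∉ A ∪ C) :
    k ∉ pre e A ∪ pre e C := by
  intro h1
  rw [Finset.mem_union, mem_pre, mem_pre] at h1
  exact h (Finset.mem_union.2 h1)

lemma ins_sub (e : κ ↪ ι) {A : Finset ι} (h : A ⊆ univ.map e) (k : κ) :
    insert (e k) A ⊆ univ.map e := by
  intro i hi
  rcases Finset.mem_insert.1 hi with rfl | hi
  · exact Finset.mem_map_of_mem e (Finset.mem_univ k)
  · exact h hi

lemma ins_not (e : κ ↪ ι) {A : Finset ι} (i : ι) (h : ∀ k, e k ≠ i) :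
    ¬ insert i A ⊆ univ.map e := by
  intro h1
  obtain ⟨k, -, hk⟩ := Finset.mem_map.1 (h1 (Finset.mem_insert_self i A))
  exact h k hk

end

end HEX

open HEX in
theorem t_HE : Stmt_HE := by
  intro 𝕜 _ ι κ _ _ _ _ e m ℓ Y hY
  refine ⟨?_, ?_, ?_, ?_, ?_⟩
  · intro A C hd hc
    by_cases hA : A ⊆ univ.map e
    · rw [ext_pos e Y C hA]
      exact TM_psd e (hY.psd _ _ (pre_disj e hd) ((pre_card e A C).trans hc))
    · rw [ext_neg e Y C hA]
      exact Matrix.PosSemidef.zero
  · intro A C hd hc i hi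
    by_cases hA : A ⊆ univ.map e
    · by_cases hk : ∃ k, e k = i
      · obtain ⟨k, rfl⟩ := hk
        rw [ext_pos e Y C hA, ext_pos e Y C (ins_sub e hA k), ext_pos e Y _ hA, pre_insert,
          pre_insert, ← TM_add]
        congr 1
        refine hY.split _ _ (pre_disj e hd) ?_ k (pre_not_mem e hi)
        have := pre_card e A C
        omega
      · have hk' : ∀ k, e k ≠ i := fun k h => hk ⟨k, h⟩
        rw [ext_pos e Y C hA, ext_neg e Y C (ins_not e i hk'), ext_pos e Y _ hA,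
          pre_insert_not e C i hk', zero_add]
    · have hA' : ¬ insert i A ⊆ univ.map e := fun h => hA ((Finset.subset_insert i A).trans h)
      rw [ext_neg e Y C hA, ext_neg e Y C hA', ext_neg e Y _ hA, zero_add]
  · intro A C hd hc i hi j
    by_cases hA : A ⊆ univ.map e
    · rw [ext_pos e Y C hA, TM_apply]
      refine Finset.sum_eq_zero fun k _ => Finset.sum_eq_zero fun l _ => ?_
      by_cases h : e k = i ∧ e l = j
      · rw [if_pos h]
        have hk : k ∈ pre e C := by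
          rw [mem_pre, h.1]
          exact hi
        rw [hY.zero _ _ (pre_disj e hd) ((pre_card e A C).trans hc) k hk l, RCLike.ofReal_zero]
      · rw [if_neg h]
    · rw [ext_neg e Y C hA, Matrix.zero_apply]
  · have h0 : (∅ : Finset ι) ⊆ univ.map e := Finset.empty_subset _
    have h1 : pre e (∅ : Finset ι) = ∅ := by
      ext k
      rw [mem_pre]
      simp
    rw [ext_pos e Y ∅ h0, h1, TM_trace, hY.trace, RCLike.ofReal_one]
  · intro A C hd hc
    by_cases hA : A ⊆ univ.map e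
    · have hsum : ∑ i ∈ (A ∪ C)ᶜ, ext 𝕜 e Y (insert i A) C =
          TM 𝕜 e (∑ k ∈ (pre e A ∪ pre e C)ᶜ, Y (insert k (pre e A)) (pre e C)) := by
        rw [TM_sum]
        have h2 : ((pre e A ∪ pre e C)ᶜ).map e ⊆ (A ∪ C)ᶜ := by
          intro i hi
          obtain ⟨k, hk, rfl⟩ := Finset.mem_map.1 hi
          rw [Finset.mem_compl] at hk ⊢
          intro h
          apply hk
          rw [Finset.mem_union] at h ⊢
          rw [mem_pre, mem_pre]
          exact h
        rw [← Finset.sum_subset h2, Finset.sum_map]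
        · refine Finset.sum_congr rfl fun k _ => ?_
          rw [ext_pos e Y C (ins_sub e hA k), pre_insert]
        · intro i hi hi2
          refine ext_neg e Y C (ins_not e i fun k hk => hi2 ?_)
          subst hk
          refine Finset.mem_map_of_mem e ?_
          rw [Finset.mem_compl] at hi ⊢
          exact pre_not_mem e hi
      rw [hsum, ext_pos e Y C hA, ← TM_smul, ← TM_sub, ← pre_card_eq e hA]
      refine TM_psd e (hY.sparse _ _ (pre_disj e hd) ?_)
      have := pre_card e A C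
      omega
    · have hsum : ∑ i ∈ (A ∪ C)ᶜ, ext 𝕜 e Y (insert i A) C = 0 := by
        refine Finset.sum_eq_zero fun i _ => ext_neg e Y C fun h => hA ?_
        exact (Finset.subset_insert i A).trans h
      rw [hsum, ext_neg e Y C hA, smul_zero, sub_zero]
      exact Matrix.PosSemidef.zero

end Pool.SAR
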