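import Pool.Agent.SAR.StmtsL
import Pool.Agent.SAR.HE

/-!
# Module LMA: extension by zero of pseudo-moments
-/

set_option autoImplicit false

set_option linter.unusedSectionVars false

namespace Pool.SAR

open Matrix Finset
open scoped ComplexOrder

namespace LMAX

open HEX

variable {𝕜 : Type} [RCLike 𝕜] {ι κ : Type} [Fintype ι] [DecidableEq ι] [Fintype κ]
  [DecidableEq κ]

lemma TM_e (e : κ ↪ ι) (M : Matrix κ κ ℝ) (k l : κ) :
    TM 𝕜 e M (e k) (e l) = ((M k l : ℝ) : 𝕜) := by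
  rw [TM_apply, Finset.sum_eq_single k, Finset.sum_eq_single l]
  · simp
  · intro l' _ h
    rw [if_neg]
    rintro ⟨-, h2⟩
    exact h (e.injective h2)
  · intro h
    exact absurd (Finset.mem_univ _) h
  · intro k' _ h
    refine Finset.sum_eq_zero fun l' _ => ?_
    rw [if_neg]
    rintro ⟨h2, -⟩
    exact h (e.injective h2)
  · intro h
    exact absurd (Finset.mem_univ _) h

lemma TM_left (e : κ ↪ ι) (M : Matrix κ κ ℝ) (i j : ι) (h : ∀ k, e k ≠ i) :
    TM 𝕜 e M i j = 0 := by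
  rw [TM_apply]
  refine Finset.sum_eq_zero fun k _ => Finset.sum_eq_zero fun l _ => ?_
  rw [if_neg]
  rintro ⟨h2, -⟩
  exact h k h2

lemma TM_right (e : κ ↪ ι) (M : Matrix κ κ ℝ) (i j : ι) (h : ∀ k, e k ≠ j) :
    TM 𝕜 e M i j = 0 := by
  rw [TM_apply]
  refine Finset.sum_eq_zero fun k _ => Finset.sum_eq_zero fun l _ => ?_
  rw [if_neg]
  rintro ⟨-, h2⟩
  exact h l h2

/-- the embedding of the index sets of the moment matrices -/
def emb (e : κ ↪ ι) (r : ℕ) :
    ({A : Finset κ // A.card ≤ r} × κ) ↪ ({A : Finset ι // A.card ≤ r} × ι) where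
  toFun a := (⟨a.1.1.map e, by rw [Finset.card_map]; exact a.1.2⟩, e a.2)
  inj' := by
    rintro ⟨⟨A, hA⟩, k⟩ ⟨⟨B, hB⟩, l⟩ h
    simp only [Prod.mk.injEq, Subtype.mk.injEq, EmbeddingLike.apply_eq_iff_eq,
      Finset.map_inj] at h
    obtain ⟨h1, h2⟩ := h
    subst h1
    subst h2
    rfl

lemma map_pre (e : κ ↪ ι) {A : Finset ι} (h : A ⊆ univ.map e) : (pre e A).map e = A := by
  ext i
  rw [Finset.mem_map]
  constructor
  · rintro ⟨k, hk, rfl⟩
    exact (mem_pre e A k).1 hk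
  · intro hi
    obtain ⟨k, -, rfl⟩ := Finset.mem_map.1 (h hi)
    exact ⟨k, (mem_pre e A k).2 hi, rfl⟩

lemma pre_map_union (e : κ ↪ ι) (A B : Finset κ) : pre e (A.map e ∪ B.map e) = A ∪ B := by
  ext k
  rw [mem_pre, Finset.mem_union, Finset.mem_union, Finset.mem_map', Finset.mem_map']

lemma map_sub (e : κ ↪ ι) (A B : Finset κ) : A.map e ∪ B.map e ⊆ univ.map e :=
  Finset.union_subset (Finset.map_subset_map.2 (Finset.subset_univ _))
    (Finset.map_subset_map.2 (Finset.subset_univ _))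

/-- the moment matrix of the extension is the extension of the moment matrix -/
lemma mom_ext (e : κ ↪ ι) (r : ℕ) (W : Finset κ → Matrix κ κ ℝ) (W' : Finset ι → Matrix ι ι 𝕜)
    (h1 : ∀ D ⊆ univ.map e, W' D = TM 𝕜 e (W (pre e D)))
    (h2 : ∀ D, ¬ D ⊆ univ.map e → W' D = 0) : mom r W' = TM 𝕜 (emb e r) (mom r W) := by
  have hgood : ∀ a : {A : Finset ι // A.card ≤ r} × ι, a.1.1 ⊆ univ.map e →
      (∀ k, emb e r k ≠ a) → ∀ k, e k ≠ a.2 := by
    rintro ⟨⟨A, hA⟩, i⟩ hs hn k hk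
    refine hn (⟨pre e A, by rw [pre_card_eq e hs]; exact hA⟩, k) ?_
    refine Prod.ext (Subtype.ext ?_) hk
    exact map_pre e hs
  ext a b
  change W' (a.1.1 ∪ b.1.1) a.2 b.2 = _
  by_cases ha : ∃ k, emb e r k = a
  · by_cases hb : ∃ l, emb e r l = b
    · obtain ⟨k, rfl⟩ := ha
      obtain ⟨l, rfl⟩ := hb
      rw [TM_e]
      change W' (k.1.1.map e ∪ l.1.1.map e) (e k.2) (e l.2) = _
      rw [h1 _ (map_sub e _ _), TM_e, pre_map_union]
      rfl
    · have hb' : ∀ l, emb e r l ≠ b := fun l h => hb ⟨l, h⟩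
      rw [TM_right _ _ _ _ hb']
      by_cases hs : a.1.1 ∪ b.1.1 ⊆ univ.map e
      · rw [h1 _ hs]
        exact TM_right _ _ _ _ (hgood b (Finset.union_subset_right hs) hb')
      · rw [h2 _ hs, Matrix.zero_apply]
  · have ha' : ∀ l, emb e r l ≠ a := fun l h => ha ⟨l, h⟩
    rw [TM_left _ _ _ _ ha']
    by_cases hs : a.1.1 ∪ b.1.1 ⊆ univ.map e
    · rw [h1 _ hs]
      exact TM_left _ _ _ _ (hgood a (Finset.union_subset_left hs) ha')
    · rw [h2 _ hs, Matrix.zero_apply]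

end LMAX

open HEX LMAX in
theorem t_LMA : Stmt_LMA := by
  intro 𝕜 _ ι κ _ _ _ _ e m ℓ Z hZ
  have h1 : ∀ D ⊆ univ.map e, (fun D => ext 𝕜 e (fun A _ => Z A) D ∅) D =
      TM 𝕜 e (Z (pre e D)) := fun D hD => ext_pos e (fun A _ => Z A) ∅ hD
  have h2 : ∀ D, ¬ D ⊆ univ.map e → (fun D => ext 𝕜 e (fun A _ => Z A) D ∅) D = 0 :=
    fun D hD => ext_neg e (fun A _ => Z A) ∅ hD
  generalize (fun D => ext 𝕜 e (fun A _ => Z A) D ∅) = Z' at h1 h2
  refine ⟨?_, ?_, ?_, ?_⟩
  · rw [mom_ext e ℓ Z Z' h1 h2]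
    exact TM_psd _ hZ.psd
  · intro r hr
    rw [mom_ext e r (fun D => (m : ℝ) • Z D - ∑ k, Z (insert k D)) _ ?_ ?_]
    · exact TM_psd _ (hZ.loc r hr)
    · intro D hD
      have hsum : ∑ i, Z' (insert i D) = TM 𝕜 e (∑ k, Z (insert k (pre e D))) := by
        rw [TM_sum, ← Finset.sum_subset (Finset.subset_univ (univ.map e)), Finset.sum_map]
        · refine Finset.sum_congr rfl fun k _ => ?_
          rw [h1 _ (ins_sub e hD k), pre_insert]
        · intro i _ hi
          refine h2 _ (ins_not e i fun k hk => hi ?_)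
          subst hk
          exact Finset.mem_map_of_mem e (Finset.mem_univ k)
      change (m : ℝ) • Z' D - ∑ i, Z' (insert i D) = _
      rw [hsum, h1 D hD, TM_sub, TM_smul]
    · intro D hD
      change (m : ℝ) • Z' D - ∑ i, Z' (insert i D) = _
      have hsum : ∑ i, Z' (insert i D) = 0 := by
        refine Finset.sum_eq_zero fun i _ => h2 _ fun h => hD ?_
        exact (Finset.subset_insert i D).trans h
      rw [hsum, h2 D hD, smul_zero, sub_zero]
  · intro D i j hc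
    by_cases hD : D ⊆ univ.map e
    · by_cases hi : ∃ k, e k = i
      · obtain ⟨k, rfl⟩ := hi
        rw [h1 _ (ins_sub e hD k), h1 D hD, pre_insert]
        by_cases hj : ∃ l, e l = j
        · obtain ⟨l, rfl⟩ := hj
          rw [TM_e, TM_e, hZ.supp (pre e D) k l]
          refine le_trans ?_ hc
          rw [← pre_insert, pre_card_eq e (ins_sub e hD k)]
        · rw [TM_right _ _ _ _ fun l h => hj ⟨l, h⟩, TM_right _ _ _ _ fun l h => hj ⟨l, h⟩]
      · have hi' : ∀ k, e k ≠ i := fun k h => hi ⟨k, h⟩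
        rw [h2 _ (ins_not e i hi'), h1 D hD, TM_left _ _ _ _ hi', Matrix.zero_apply]
    · have hD' : ¬ insert i D ⊆ univ.map e := fun h => hD ((Finset.subset_insert i D).trans h)
      rw [h2 D hD, h2 _ hD']
  · have h0 : (∅ : Finset ι) ⊆ univ.map e := Finset.empty_subset _
    have h3 : pre e (∅ : Finset ι) = ∅ := by
      ext k
      rw [mem_pre]
      simp
    rw [h1 ∅ h0, h3, TM_trace, hZ.trace, RCLike.ofReal_one]

end Pool.SAR
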