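import Pool.Agent.SAR.StmtsL

/-!
Project SAR, part 3, module LML: Lasserre pseudo-moments give a lift.
-/

set_option autoImplicit false

namespace Pool.SAR

open Matrix Finset
open scoped ComplexOrder

namespace LMLX

variable {𝕜 : Type} [RCLike 𝕜] {ι : Type} [Fintype ι] [DecidableEq ι]

theorem cancel {M : Type} [AddCommGroup M] [Module ℝ M] (F : Finset ι → M) (C : Finset ι) (k : ι)
    (hk : k ∈ C) (h : ∀ B ⊆ C.erase k, F (insert k B) = F B) :
    ∑ B ∈ C.powerset, ((-1 : ℝ) ^ B.card) • F B = 0 := by
  rw [← Finset.insert_erase hk, Finset.sum_powerset_insert (Finset.notMem_erase k C),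
    ← Finset.sum_add_distrib]
  refine Finset.sum_eq_zero fun B hB => ?_
  have hB' := Finset.mem_powerset.1 hB
  have hkB : k ∉ B := fun h' => Finset.notMem_erase k C (hB' h')
  rw [h B hB', Finset.card_insert_of_notMem hkB, pow_succ, ← add_smul]
  simp

theorem real_smul (n : ℕ) (x : 𝕜) : ((-1 : ℝ) ^ n) • x = (-1) ^ n * x := by
  rw [RCLike.real_smul_eq_coe_mul]
  push_cast
  rfl

theorem toLift_apply (W : Finset ι → Matrix ι ι 𝕜) (A C : Finset ι) (i j : ι) :
    toLift W A C i j = ∑ B ∈ C.powerset, ((-1 : ℝ) ^ B.card) • W (A ∪ B) i j := by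
  rw [toLift, Matrix.sum_apply]
  rfl

theorem key (hU : Stmt_LUU) {r : ℕ} (W : Finset ι → Matrix ι ι 𝕜) (hW : (mom r W).PosSemidef)
    (A C : Finset ι) (hr : (A ∪ C).card ≤ r) : (toLift W A C).PosSemidef := by
  let f : {B // B ∈ C.powerset} × ι → {A' : Finset ι // A'.card ≤ r} × ι := fun p =>
    (⟨A ∪ p.1.1, le_trans (Finset.card_le_card
      (Finset.union_subset_union_right (Finset.mem_powerset.1 p.1.2))) hr⟩, p.2)
  let T : Matrix ({B // B ∈ C.powerset} × ι) ι 𝕜 :=
    Matrix.of fun p i => if p.2 = i then (-1) ^ p.1.1.card else 0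
  have h1 := (hW.submatrix f).conjTranspose_mul_mul_same T
  have h2 : Tᴴ * (mom r W).submatrix f f * T = toLift W A C := by
    ext i j
    have h3 := (hU ι 𝕜 (fun D => W (A ∪ D) i j) C C).1
    rw [Finset.union_self] at h3
    rw [toLift_apply, Finset.sum_congr rfl fun B _ => real_smul _ _, h3, Finset.sum_comm]
    rw [Matrix.mul_apply, Fintype.sum_prod_type]
    rw [← Finset.sum_coe_sort C.powerset]
    refine Finset.sum_congr rfl fun B' _ => ?_
    rw [Finset.sum_eq_single j]
    · rw [Matrix.mul_apply, Fintype.sum_prod_type, Finset.sum_mul]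
      rw [← Finset.sum_coe_sort C.powerset]
      refine Finset.sum_congr rfl fun B _ => ?_
      rw [Finset.sum_eq_single i]
      · simp only [Matrix.conjTranspose_apply, T, f, Matrix.of_apply, Matrix.submatrix_apply, mom,
          if_true, star_pow, star_neg, star_one]
        have h4 : A ∪ B.1 ∪ (A ∪ B'.1) = A ∪ (B.1 ∪ B'.1) := by
          ext x
          simp only [Finset.mem_union]
          tauto
        rw [h4, pow_add]
        ring
      · intro k _ hk
        simp [T, hk]
      · intro h
        exact absurd (Finset.mem_univ i) h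
    · intro k _ hk
      simp [T, hk]
    · intro h
      exact absurd (Finset.mem_univ j) h
  rwa [h2] at h1

end LMLX

open LMLX in
theorem t_LML : Stmt_LUU → Stmt_LML := by
  intro hU 𝕜 _ ι _ _ m ℓ Z hZ
  have h0 : toLift Z ∅ ∅ = Z ∅ := by
    rw [toLift, Finset.powerset_empty, Finset.sum_singleton, Finset.card_empty, pow_zero,
      one_smul, Finset.union_empty]
  refine ⟨⟨?_, ?_, ?_, ?_, ?_⟩, h0⟩
  · intro A C _ hc
    exact key hU Z hZ.psd A C hc
  · intro A C _ _ k hk
    have hkA : k ∉ A := fun h => hk (Finset.mem_union_left _ h)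
    have hkC : k ∉ C := fun h => hk (Finset.mem_union_right _ h)
    have h1 : toLift Z A (insert k C) = toLift Z A C +
        ∑ B ∈ C.powerset, ((-1 : ℝ) ^ (insert k B).card) • Z (A ∪ insert k B) := by
      rw [toLift, Finset.sum_powerset_insert hkC]
      rfl
    have h2 : ∑ B ∈ C.powerset, ((-1 : ℝ) ^ (insert k B).card) • Z (A ∪ insert k B) =
        - toLift Z (insert k A) C := by
      rw [toLift, ← Finset.sum_neg_distrib]
      refine Finset.sum_congr rfl fun B hB => ?_
      have hkB : k ∉ B := fun h' => hkC (Finset.mem_powerset.1 hB h')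
      rw [Finset.card_insert_of_notMem hkB, pow_succ, Finset.union_insert, Finset.insert_union,
        mul_neg, mul_one, neg_smul]
    rw [h1, h2]
    abel
  · intro A C _ hc i hi j
    rw [toLift_apply]
    refine cancel (fun B => Z (A ∪ B) i j) C i hi fun B hB => ?_
    show Z (A ∪ insert i B) i j = Z (A ∪ B) i j
    rw [Finset.union_insert]
    refine hZ.supp (A ∪ B) i j ?_
    have h1 : insert i (A ∪ B) ⊆ A ∪ C := by
      intro x hx
      rcases Finset.mem_insert.1 hx with rfl | hx
      · exact Finset.mem_union_right _ hi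
      · rcases Finset.mem_union.1 hx with h | h
        · exact Finset.mem_union_left _ h
        · exact Finset.mem_union_right _ (Finset.mem_of_mem_erase (hB h))
    have h2 := Finset.card_le_card h1
    omega
  · rw [h0]
    exact hZ.trace
  · intro A C hAC hc
    have h1 := key hU _ (hZ.loc (A ∪ C).card hc) A C le_rfl
    have h2 : toLift (fun D => (m : ℝ) • Z D - ∑ k, Z (insert k D)) A C =
        ((m : ℝ) - (A.card : ℝ)) • toLift Z A C - ∑ k ∈ (A ∪ C)ᶜ, toLift Z (insert k A) C := by
      have h3 : toLift (fun D => (m : ℝ) • Z D - ∑ k, Z (insert k D)) A C =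
          (m : ℝ) • toLift Z A C - ∑ k : ι, ∑ B ∈ C.powerset,
            ((-1 : ℝ) ^ B.card) • Z (insert k (A ∪ B)) := by
        rw [Finset.sum_comm]
        simp only [toLift, smul_sub, Finset.sum_sub_distrib, Finset.smul_sum]
        congr 1
        refine Finset.sum_congr rfl fun B _ => ?_
        rw [smul_comm]
      have h4 : ∑ k : ι, ∑ B ∈ C.powerset, ((-1 : ℝ) ^ B.card) • Z (insert k (A ∪ B)) =
          (A.card : ℝ) • toLift Z A C + ∑ k ∈ (A ∪ C)ᶜ, toLift Z (insert k A) C := by
        rw [← Finset.sum_add_sum_compl (A ∪ C), Finset.sum_union hAC]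
        have h5 : ∑ k ∈ A, ∑ B ∈ C.powerset, ((-1 : ℝ) ^ B.card) • Z (insert k (A ∪ B)) =
            (A.card : ℝ) • toLift Z A C := by
          rw [Finset.sum_congr rfl (g := fun _ => toLift Z A C), Finset.sum_const,
            ← Nat.cast_smul_eq_nsmul ℝ]
          intro k hk
          rw [toLift]
          refine Finset.sum_congr rfl fun B _ => ?_
          rw [Finset.insert_eq_of_mem (Finset.mem_union_left _ hk)]
        have h6 : ∑ k ∈ C, ∑ B ∈ C.powerset, ((-1 : ℝ) ^ B.card) • Z (insert k (A ∪ B)) = 0 := by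
          refine Finset.sum_eq_zero fun k hk => ?_
          refine cancel (fun B => Z (insert k (A ∪ B))) C k hk fun B _ => ?_
          show Z (insert k (A ∪ insert k B)) = Z (insert k (A ∪ B))
          rw [Finset.union_insert, Finset.insert_idem]
        have h7 : ∑ k ∈ (A ∪ C)ᶜ, ∑ B ∈ C.powerset, ((-1 : ℝ) ^ B.card) • Z (insert k (A ∪ B)) =
            ∑ k ∈ (A ∪ C)ᶜ, toLift Z (insert k A) C := by
          refine Finset.sum_congr rfl fun k _ => ?_
          rw [toLift]
          refine Finset.sum_congr rfl fun B _ => ?_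
          rw [Finset.insert_union]
        rw [h5, h6, h7, add_zero]
      rw [h3, h4, sub_smul]
      abel
    rwa [h2] at h1

end Pool.SAR
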