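import Pool.Agent.SAR.StmtsL

/-!
LMR: soundness of the Lasserre tests.
-/

set_option autoImplicit false

namespace Pool.SAR

open Matrix Finset
open scoped ComplexOrder

namespace LMRX

variable {𝕜 : Type} [RCLike 𝕜] {ι ρ : Type} [Fintype ι] [DecidableEq ι] [Fintype ρ]

theorem dot_self (w : ρ → 𝕜) : RCLike.re (star w ⬝ᵥ w) = ∑ a, ‖w a‖ ^ 2 := by
  rw [dotProduct, map_sum]
  refine sum_congr rfl fun a _ => ?_
  have h1 : (star w) a * w a = ((‖w a‖ ^ 2 : ℝ) : 𝕜) := by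
    rw [Pi.star_apply, RCLike.star_def, RCLike.conj_mul]
    push_cast
    rfl
  rw [h1, RCLike.ofReal_re]

/-- the value at a matrix of rank one -/
theorem val_vec (Φ : Matrix ρ ι 𝕜) (y : ι → 𝕜) :
    val Φ (vecMulVec y (star y)) = ∑ a, ‖(Φ *ᵥ y) a‖ ^ 2 := by
  rw [val, mul_vecMulVec, trace_vecMulVec, dotProduct_comm, ← mulVec_mulVec, dotProduct_mulVec,
    ← star_mulVec]
  exact dot_self _

theorem vlift_empty (y : ι → 𝕜) : vlift y ∅ ∅ = vecMulVec y (star y) := by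
  rw [vlift, if_pos]
  exact ⟨fun i hi => absurd hi (notMem_empty i), fun i hi => absurd hi (notMem_empty i)⟩

end LMRX

open LMRX in
theorem t_LMR : Stmt_LMV → Stmt_LMR := by
  intro hHS 𝕜 _ ι ρ _ _ _ m ℓ Φ c hc h S hS x hx
  set T : ℝ := ∑ i, ‖x i‖ ^ 2 with hT
  have hT0 : 0 ≤ T := sum_nonneg fun i _ => sq_nonneg _
  rcases hT0.eq_or_lt with h0 | h0
  · have hx0 : x = 0 := by
      funext i
      have h1 := (sum_eq_zero_iff_of_nonneg fun i _ => sq_nonneg ‖x i‖).1 h0.symm i (mem_univ i)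
      exact norm_eq_zero.1 (pow_eq_zero_iff (two_ne_zero)|>.1 h1)
    rw [← h0, hx0, mulVec_zero]
    simp
  set s : ℝ := Real.sqrt T with hs
  have hs0 : 0 < s := Real.sqrt_pos.2 h0
  have hs2 : s ^ 2 = T := Real.sq_sqrt hT0
  let y : ι → 𝕜 := fun i => ((s⁻¹ : ℝ) : 𝕜) * x i
  have hy : y = ((s⁻¹ : ℝ) : 𝕜) • x := rfl
  have hn : ∀ i, ‖y i‖ = s⁻¹ * ‖x i‖ := by
    intro i
    show ‖((s⁻¹ : ℝ) : 𝕜) * x i‖ = _
    rw [norm_mul, RCLike.norm_ofReal, abs_of_pos (inv_pos.2 hs0)]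
  have hy1 : ∑ i, ‖y i‖ ^ 2 = 1 := by
    have h1 : ∀ i, ‖y i‖ ^ 2 = s⁻¹ ^ 2 * ‖x i‖ ^ 2 := fun i => by rw [hn, mul_pow]
    rw [sum_congr rfl fun i _ => h1 i, ← mul_sum, ← hT, ← hs2, inv_pow]
    exact inv_mul_cancel₀ (pow_ne_zero 2 hs0.ne')
  have hL := hHS 𝕜 ι m ℓ y hy1 ⟨S, hS, fun i hi => by
    show ((s⁻¹ : ℝ) : 𝕜) * x i = 0
    rw [hx i hi, mul_zero]⟩
  have h2 := h (fun D => vlift y D ∅) hL
  simp only [vlift_empty, val_vec] at h2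
  have h3 : ∑ a, ‖(Φ *ᵥ y) a‖ ^ 2 = (s ^ 2)⁻¹ * ∑ a, ‖(Φ *ᵥ x) a‖ ^ 2 := by
    rw [mul_sum]
    refine sum_congr rfl fun a _ => ?_
    rw [hy, mulVec_smul, Pi.smul_apply, smul_eq_mul, norm_mul, RCLike.norm_ofReal,
      abs_of_pos (inv_pos.2 hs0), mul_pow, inv_pow]
  rw [h3, hs2] at h2
  obtain ⟨h4, h5⟩ := h2
  rw [inv_mul_eq_div] at h4 h5
  rw [le_div_iff₀ h0] at h4
  rw [div_le_iff₀ h0] at h5
  exact ⟨h4, h5⟩

end Pool.SAR
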