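import Pool.Agent.SAR.StmtsL

/-!
MP_c21969_lc, project SAR, module LMV: the pseudo-moments of a single vector.
-/

set_option autoImplicit false

namespace Pool.SAR

open Matrix Finset
open scoped ComplexOrder

namespace LMVX

variable {𝕜 : Type} [RCLike 𝕜] {ι : Type} [Fintype ι] [DecidableEq ι]

/-- the vectors with entries `x i` or `0` -/
noncomputable def ww (x : ι → 𝕜) (D : Finset ι) (i : ι) : 𝕜 :=
  open Classical in if ∀ k ∈ D, x k ≠ 0 then x i else 0

theorem vl_apply (x : ι → 𝕜) (D : Finset ι) (i j : ι) :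
    vlift x D ∅ i j = ww x D i * star (ww x D j) := by
  classical
  unfold vlift ww
  by_cases h : ∀ k ∈ D, x k ≠ 0
  · rw [if_pos ⟨h, fun i hi => absurd hi (Finset.notMem_empty i)⟩, if_pos h, if_pos h,
      vecMulVec_apply, Pi.star_apply]
  · rw [if_neg (fun h' => h h'.1), if_neg h]
    simp

theorem vl_union (x : ι → 𝕜) (A B : Finset ι) (i j : ι) :
    vlift x (A ∪ B) ∅ i j = ww x A i * star (ww x B j) := by
  classical
  rw [vl_apply]
  unfold ww
  by_cases hA : ∀ k ∈ A, x k ≠ 0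
  · by_cases hB : ∀ k ∈ B, x k ≠ 0
    · have h : ∀ k ∈ A ∪ B, x k ≠ 0 := by
        intro k hk
        rcases Finset.mem_union.1 hk with hk | hk
        · exact hA k hk
        · exact hB k hk
      rw [if_pos hA, if_pos hB, if_pos h, if_pos h]
    · have h : ¬ ∀ k ∈ A ∪ B, x k ≠ 0 := fun h => hB fun k hk => h k (Finset.mem_union_right _ hk)
      rw [if_neg h, if_neg h, if_neg hB, star_zero, mul_zero, mul_zero]
  · have h : ¬ ∀ k ∈ A ∪ B, x k ≠ 0 := fun h => hA fun k hk => h k (Finset.mem_union_left _ hk)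
    rw [if_neg h, if_neg h, if_neg hA, zero_mul, zero_mul]

theorem vl_ins (x : ι → 𝕜) (D : Finset ι) (k i j : ι) :
    vlift x (insert k D) ∅ i j = if x k ≠ 0 then vlift x D ∅ i j else 0 := by
  classical
  rw [vl_apply, vl_apply]
  unfold ww
  by_cases hk : x k ≠ 0
  · rw [if_pos hk]
    have h : (∀ l ∈ insert k D, x l ≠ 0) ↔ ∀ l ∈ D, x l ≠ 0 := by
      rw [Finset.forall_mem_insert]
      exact ⟨fun h => h.2, fun h => ⟨hk, h⟩⟩
    simp only [h]
  · have h : ¬ ∀ l ∈ insert k D, x l ≠ 0 := fun h => hk (h k (Finset.mem_insert_self _ _))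
    rw [if_neg hk, if_neg h, if_neg h, zero_mul]

theorem mom_vl (x : ι → 𝕜) (r : ℕ) : (mom r fun D => vlift x D ∅) =
    vecMulVec (fun p : {A : Finset ι // A.card ≤ r} × ι => ww x p.1.1 p.2)
      (star fun p : {A : Finset ι // A.card ≤ r} × ι => ww x p.1.1 p.2) := by
  ext a b
  rw [vecMulVec_apply, Pi.star_apply]
  exact vl_union x a.1.1 b.1.1 a.2 b.2

end LMVX

open LMVX in
theorem t_LMV : Stmt_LMV := by
  classical
  intro 𝕜 _ ι _ _ m ℓ x hx hS
  obtain ⟨S, hSm, hS0⟩ := hS
  refine ⟨?_, ?_, ?_, ?_⟩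
  · rw [mom_vl]
    exact posSemidef_vecMulVec_self_star _
  · intro r _
    have h1 : (mom r (fun D => (m : ℝ) • vlift x D ∅ - ∑ k, vlift x (insert k D) ∅)) =
        ((m : ℝ) - ((univ.filter fun k => x k ≠ 0).card : ℝ)) • mom r fun D => vlift x D ∅ := by
      ext a b
      show ((m : ℝ) • vlift x (a.1.1 ∪ b.1.1) ∅ - ∑ k, vlift x (insert k (a.1.1 ∪ b.1.1)) ∅) a.2 b.2 =
        ((m : ℝ) - ((univ.filter fun k => x k ≠ 0).card : ℝ)) • vlift x (a.1.1 ∪ b.1.1) ∅ a.2 b.2
      rw [Matrix.sub_apply, Matrix.sum_apply, sub_smul, Matrix.smul_apply]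
      congr 1
      rw [Finset.sum_congr rfl fun k _ => vl_ins x (a.1.1 ∪ b.1.1) k a.2 b.2, ← Finset.sum_filter,
        Finset.sum_const, Nat.cast_smul_eq_nsmul]
    rw [h1, mom_vl]
    apply (posSemidef_vecMulVec_self_star _).smul
    have hsub : (univ.filter fun k => x k ≠ 0) ⊆ S := by
      intro k hk
      by_contra hkS
      exact (Finset.mem_filter.1 hk).2 (hS0 k hkS)
    have hc := (Finset.card_le_card hsub).trans hSm
    have hc' : (((univ.filter fun k => x k ≠ 0).card : ℕ) : ℝ) ≤ m := by exact_mod_cast hc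
    linarith
  · intro D i j _
    rw [vl_ins]
    by_cases hi : x i ≠ 0
    · rw [if_pos hi]
    · rw [if_neg hi, vl_apply]
      have h0 : ww x D i = 0 := by
        unfold ww
        split_ifs
        · exact not_not.1 hi
        · rfl
      rw [h0, zero_mul]
  · have h1 : ∀ i, (vlift x ∅ ∅).diag i = ((‖x i‖ ^ 2 : ℝ) : 𝕜) := by
      intro i
      have hw : ww x ∅ i = x i := by
        unfold ww
        exact if_pos fun k hk => absurd hk (Finset.notMem_empty k)
      rw [diag_apply, vl_apply, hw, RCLike.star_def, RCLike.mul_conj]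
      push_cast
      rfl
    rw [trace, Finset.sum_congr rfl fun i _ => h1 i, ← RCLike.ofReal_sum, hx, RCLike.ofReal_one]

end Pool.SAR
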