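import Pool.Agent.SAR.StmtsL

/-!
MP_c21969_lc, project SAR, module LOA: values of the functional `Om`.
-/

set_option autoImplicit false

namespace Pool.SAR

open Matrix Finset
open scoped ComplexOrder

namespace LOAX

variable {ι : Type} [DecidableEq ι]

theorem sdiff_ins {i : ι} {V B : Finset ι} (hi : i ∉ V) (hB : B ⊆ V) :
    (insert i V \ B).card = (V \ B).card + 1 := by
  rw [Finset.insert_sdiff_of_notMem _ (fun h => hi (hB h)), Finset.card_insert_of_notMem]
  intro h
  exact hi (Finset.mem_sdiff.1 h).1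

theorem sdiff_ins2 {i : ι} {V B : Finset ι} (hi : i ∉ V) :
    (insert i V \ insert i B) = V \ B := by
  ext x
  simp only [Finset.mem_sdiff, Finset.mem_insert, not_or]
  constructor
  · rintro ⟨h1 | h1, h2, h3⟩
    · exact absurd h1 h2
    · exact ⟨h1, h3⟩
  · rintro ⟨h1, h2⟩
    exact ⟨Or.inr h1, fun h => hi (h ▸ h1), h2⟩

theorem Om_comm (ρ : ℝ) (V V' : Finset ι) (f : Finset ι → ℝ) : Om ρ V V' f = Om ρ V' V f := by
  rw [Om, Om, Finset.sum_comm]
  refine Finset.sum_congr rfl fun B _ => Finset.sum_congr rfl fun B' _ => ?_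
  rw [add_comm (V \ B').card, Finset.inter_comm, Finset.union_comm]

theorem Om_congr (ρ : ℝ) (V V' : Finset ι) {f g : Finset ι → ℝ}
    (h : ∀ D ⊆ V ∪ V', f D = g D) : Om ρ V V' f = Om ρ V V' g := by
  rw [Om, Om]
  refine Finset.sum_congr rfl fun B hB => Finset.sum_congr rfl fun B' hB' => ?_
  rw [h _ (Finset.union_subset_union (Finset.mem_powerset.1 hB) (Finset.mem_powerset.1 hB'))]

theorem Om_zero (ρ : ℝ) (V V' : Finset ι) : Om ρ V V' (fun _ => 0) = 0 := by
  rw [Om]
  simp

theorem ins1 (ρ : ℝ) {i : ι} {V V' : Finset ι} (hi : i ∉ V) (hi' : i ∉ V')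
    (f : Finset ι → ℝ) :
    Om ρ (insert i V) V' f = Om ρ V V' (fun D => f (insert i D)) - Om ρ V V' f := by
  rw [Om, Finset.sum_powerset_insert hi, Om, Om, ← Finset.sum_add_distrib,
    ← Finset.sum_sub_distrib]
  refine Finset.sum_congr rfl fun B hB => ?_
  rw [← Finset.sum_add_distrib, ← Finset.sum_sub_distrib]
  refine Finset.sum_congr rfl fun B' hB' => ?_
  have hB1 := Finset.mem_powerset.1 hB
  have hB2 := Finset.mem_powerset.1 hB'
  have h1 : insert i B ∩ B' = B ∩ B' := Finset.insert_inter_of_notMem fun h => hi' (hB2 h)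
  rw [sdiff_ins hi hB1, sdiff_ins2 hi, h1, Finset.insert_union]
  ring

theorem ins2 (ρ : ℝ) {i : ι} {V V' : Finset ι} (hi : i ∉ V) (hi' : i ∉ V')
    (f : Finset ι → ℝ) :
    Om ρ (insert i V) (insert i V') f =
      Om ρ V V' f + (ρ - 1) * Om ρ V V' (fun D => f (insert i D)) := by
  rw [Om, Finset.sum_powerset_insert hi, Om, Om, ← Finset.sum_add_distrib, Finset.mul_sum,
    ← Finset.sum_add_distrib]
  refine Finset.sum_congr rfl fun B hB => ?_
  rw [Finset.sum_powerset_insert hi', Finset.sum_powerset_insert hi', ← Finset.sum_add_distrib,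
    ← Finset.sum_add_distrib, ← Finset.sum_add_distrib, Finset.mul_sum,
    ← Finset.sum_add_distrib]
  refine Finset.sum_congr rfl fun B' hB' => ?_
  have hB1 := Finset.mem_powerset.1 hB
  have hB2 := Finset.mem_powerset.1 hB'
  have hiB : i ∉ B := fun h => hi (hB1 h)
  have hiB' : i ∉ B' := fun h => hi' (hB2 h)
  have h1 : insert i B ∩ B' = B ∩ B' := Finset.insert_inter_of_notMem hiB'
  have h2 : B ∩ insert i B' = B ∩ B' := Finset.inter_insert_of_notMem hiB
  have h3 : (insert i B ∩ insert i B').card = (B ∩ B').card + 1 := by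
    rw [← Finset.insert_inter_distrib, Finset.card_insert_of_notMem]
    intro h
    exact hiB (Finset.mem_inter.1 h).1
  have h4 : insert i B ∪ insert i B' = insert i (B ∪ B') := by
    rw [Finset.insert_union, Finset.union_insert, Finset.insert_idem]
  rw [sdiff_ins hi hB1, sdiff_ins hi' hB2, sdiff_ins2 hi, sdiff_ins2 hi', h1, h2, h3, h4,
    Finset.insert_union, Finset.union_insert]
  ring

/-- The value. -/
noncomputable def vl (ρ : ℝ) (V V' W : Finset ι) : ℝ :=
  if (V \ V') ∪ (V' \ V) ⊆ W then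
    (ρ - 1) ^ (W ∩ (V ∩ V')).card * ρ ^ ((V ∩ V') \ W).card else 0

theorem vl_comm (ρ : ℝ) (V V' W : Finset ι) : vl ρ V V' W = vl ρ V' V W := by
  rw [vl, vl, Finset.union_comm, Finset.inter_comm V V']

theorem vl1 (ρ : ℝ) {i : ι} {V V' W : Finset ι} (hi : i ∉ V) (hi' : i ∉ V') (hW : i ∈ W) :
    vl ρ (insert i V) V' W = vl ρ V V' (W.erase i) := by
  have h1 : insert i V ∩ V' = V ∩ V' := Finset.insert_inter_of_notMem hi'
  have hiI : i ∉ V ∩ V' := fun h => hi (Finset.mem_inter.1 h).1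
  have h2 : W ∩ (V ∩ V') = W.erase i ∩ (V ∩ V') := by
    ext x
    simp only [Finset.mem_inter, Finset.mem_erase]
    constructor
    · rintro ⟨a, b, c⟩
      exact ⟨⟨fun h => hi (h ▸ b), a⟩, b, c⟩
    · rintro ⟨⟨-, a⟩, b, c⟩
      exact ⟨a, b, c⟩
  have h3 : (V ∩ V') \ W = (V ∩ V') \ W.erase i := by
    ext x
    simp only [Finset.mem_inter, Finset.mem_erase, Finset.mem_sdiff, not_and]
    constructor
    · rintro ⟨⟨a, b⟩, c⟩
      exact ⟨⟨a, b⟩, fun _ => c⟩
    · rintro ⟨⟨a, b⟩, c⟩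
      exact ⟨⟨a, b⟩, c fun h => hi (h ▸ a)⟩
  have h4 : (insert i V \ V' ∪ V' \ insert i V ⊆ W) ↔ (V \ V' ∪ V' \ V ⊆ W.erase i) := by
    constructor
    · intro h x hx
      have hxi : x ≠ i := by
        rintro rfl
        rcases Finset.mem_union.1 hx with h | h
        · exact hi (Finset.mem_sdiff.1 h).1
        · exact hi' (Finset.mem_sdiff.1 h).1
      refine Finset.mem_erase.2 ⟨hxi, h ?_⟩
      simp only [Finset.mem_union, Finset.mem_sdiff, Finset.mem_insert, not_or] at hx ⊢
      rcases hx with ⟨a, b⟩ | ⟨a, b⟩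
      · exact Or.inl ⟨Or.inr a, b⟩
      · exact Or.inr ⟨a, hxi, b⟩
    · intro h x hx
      simp only [Finset.mem_union, Finset.mem_sdiff, Finset.mem_insert, not_or] at hx
      rcases hx with ⟨a | a, b⟩ | ⟨a, -, b⟩
      · exact a ▸ hW
      · exact Finset.mem_of_mem_erase (h (Finset.mem_union_left _ (Finset.mem_sdiff.2 ⟨a, b⟩)))
      · exact Finset.mem_of_mem_erase (h (Finset.mem_union_right _ (Finset.mem_sdiff.2 ⟨a, b⟩)))
  rw [vl, vl, h1, h2, h3]
  exact if_congr h4 rfl rfl

theorem vl2 (ρ : ℝ) {i : ι} {V V' W : Finset ι} (hi' : i ∉ V') (hW : i ∉ W) :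
    vl ρ (insert i V) V' W = 0 := by
  rw [vl, if_neg]
  intro h
  exact hW (h (Finset.mem_union_left _ (Finset.mem_sdiff.2 ⟨Finset.mem_insert_self _ _, hi'⟩)))

theorem sd_ins {i : ι} {V V' : Finset ι} (hi : i ∉ V) (hi' : i ∉ V') :
    insert i V \ insert i V' ∪ insert i V' \ insert i V = V \ V' ∪ V' \ V := by
  rw [sdiff_ins2 hi, sdiff_ins2 hi']

theorem vl3 (ρ : ℝ) {i : ι} {V V' W : Finset ι} (hi : i ∉ V) (hi' : i ∉ V') (hW : i ∈ W) :
    vl ρ (insert i V) (insert i V') W = (ρ - 1) * vl ρ V V' (W.erase i) := by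
  have h1 : insert i V ∩ insert i V' = insert i (V ∩ V') := (Finset.insert_inter_distrib _ _ _).symm
  have h2 : (W ∩ insert i (V ∩ V')).card = (W.erase i ∩ (V ∩ V')).card + 1 := by
    have : W ∩ insert i (V ∩ V') = insert i (W.erase i ∩ (V ∩ V')) := by
      ext x
      simp only [Finset.mem_inter, Finset.mem_insert, Finset.mem_erase]
      constructor
      · rintro ⟨a, b | ⟨b, c⟩⟩
        · exact Or.inl b
        · exact Or.inr ⟨⟨fun h => hi (h ▸ b), a⟩, b, c⟩
      · rintro (a | ⟨⟨-, a⟩, b⟩)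
        · exact ⟨a ▸ hW, Or.inl a⟩
        · exact ⟨a, Or.inr b⟩
    rw [this, Finset.card_insert_of_notMem]
    intro h
    exact (Finset.mem_erase.1 (Finset.mem_inter.1 h).1).1 rfl
  have h3 : insert i (V ∩ V') \ W = (V ∩ V') \ W.erase i := by
    ext x
    simp only [Finset.mem_inter, Finset.mem_erase, Finset.mem_sdiff, Finset.mem_insert, not_and]
    constructor
    · rintro ⟨a | ⟨a, b⟩, c⟩
      · exact absurd (a ▸ hW) c
      · exact ⟨⟨a, b⟩, fun _ => c⟩
    · rintro ⟨⟨a, b⟩, c⟩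
      exact ⟨Or.inr ⟨a, b⟩, c fun h => hi (h ▸ a)⟩
  have h4 : (V \ V' ∪ V' \ V ⊆ W) ↔ (V \ V' ∪ V' \ V ⊆ W.erase i) := by
    constructor
    · intro h x hx
      have hxi : x ≠ i := by
        rintro rfl
        rcases Finset.mem_union.1 hx with h | h
        · exact hi (Finset.mem_sdiff.1 h).1
        · exact hi' (Finset.mem_sdiff.1 h).1
      exact Finset.mem_erase.2 ⟨hxi, h hx⟩
    · intro h x hx
      exact Finset.mem_of_mem_erase (h hx)
  rw [vl, vl, sd_ins hi hi', h1, h2, h3]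
  by_cases h : V \ V' ∪ V' \ V ⊆ W
  · rw [if_pos h, if_pos (h4.1 h)]
    ring
  · rw [if_neg h, if_neg (fun h' => h (h4.2 h')), mul_zero]

theorem vl4 (ρ : ℝ) {i : ι} {V V' W : Finset ι} (hi : i ∉ V) (hi' : i ∉ V') (hW : i ∉ W) :
    vl ρ (insert i V) (insert i V') W = ρ * vl ρ V V' W := by
  have h1 : insert i V ∩ insert i V' = insert i (V ∩ V') := (Finset.insert_inter_distrib _ _ _).symm
  have h2 : W ∩ insert i (V ∩ V') = W ∩ (V ∩ V') := Finset.inter_insert_of_notMem hW
  have hiI : i ∉ V ∩ V' := fun h => hi (Finset.mem_inter.1 h).1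
  have h3 : (insert i (V ∩ V') \ W).card = ((V ∩ V') \ W).card + 1 := by
    rw [Finset.insert_sdiff_of_notMem _ hW, Finset.card_insert_of_notMem]
    intro h
    exact hiI (Finset.mem_sdiff.1 h).1
  rw [vl, vl, sd_ins hi hi', h1, h2, h3]
  by_cases h : V \ V' ∪ V' \ V ⊆ W
  · rw [if_pos h, if_pos h]
    ring
  · rw [if_neg h, if_neg h, mul_zero]

/-- The functions `1[W ⊆ D]`. -/
noncomputable def fW (W D : Finset ι) : ℝ := if W ⊆ D then 1 else 0

theorem fW_ins {i : ι} {W D : Finset ι} (hW : i ∈ W) :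
    fW W (insert i D) = fW (W.erase i) D := by
  rw [fW, fW]
  refine if_congr ?_ rfl rfl
  rw [Finset.subset_insert_iff]

theorem fW_ins' {i : ι} {W D : Finset ι} (hW : i ∉ W) :
    fW W (insert i D) = fW W D := by
  rw [fW, fW]
  refine if_congr ?_ rfl rfl
  rw [Finset.subset_insert_iff_of_notMem hW]

theorem fW_zero {i : ι} {W D : Finset ι} (hW : i ∈ W) (hD : i ∉ D) : fW W D = 0 := by
  rw [fW, if_neg]
  exact fun h => hD (h hW)

/-- The step, `i ∉ V'`. -/
theorem step1 (ρ : ℝ) {i : ι} {V V' : Finset ι} (hi : i ∉ V) (hi' : i ∉ V')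
    (ih : ∀ W ⊆ V ∪ V', Om ρ V V' (fW W) = vl ρ V V' W) (W : Finset ι)
    (hW : W ⊆ insert i V ∪ V') : Om ρ (insert i V) V' (fW W) = vl ρ (insert i V) V' W := by
  have hn : ∀ D, D ⊆ V ∪ V' → i ∉ D := by
    intro D hD h
    rcases Finset.mem_union.1 (hD h) with h | h
    · exact hi h
    · exact hi' h
  rw [ins1 ρ hi hi']
  by_cases h : i ∈ W
  · have h1 : Om ρ V V' (fun D => fW W (insert i D)) = Om ρ V V' (fW (W.erase i)) :=
      Om_congr ρ V V' fun D _ => fW_ins h
    have h2 : Om ρ V V' (fW W) = 0 := by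
      rw [Om_congr ρ V V' (g := fun _ => 0) fun D hD => fW_zero h (hn D hD), Om_zero]
    rw [h1, h2, sub_zero, vl1 ρ hi hi' h]
    refine ih _ fun x hx => ?_
    have h3 := Finset.mem_erase.1 hx
    have h4 := hW h3.2
    rw [Finset.insert_union, Finset.mem_insert] at h4
    exact h4.resolve_left h3.1
  · have h1 : Om ρ V V' (fun D => fW W (insert i D)) = Om ρ V V' (fW W) :=
      Om_congr ρ V V' fun D _ => fW_ins' h
    rw [h1, sub_self, vl2 ρ hi' h]

theorem main (ρ : ℝ) (V : Finset ι) : ∀ V' : Finset ι, ∀ W ⊆ V ∪ V',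
    Om ρ V V' (fW W) = vl ρ V V' W := by
  induction V using Finset.induction_on with
  | empty =>
    intro V'
    induction V' using Finset.induction_on with
    | empty =>
      intro W hW
      have h0 : W = ∅ := by
        rw [Finset.union_empty] at hW
        exact Finset.subset_empty.1 hW
      subst h0
      simp [Om, vl, fW]
    | insert i V' hi ih =>
      intro W hW
      rw [Om_comm, vl_comm]
      refine step1 ρ hi (Finset.notMem_empty i) (fun W hW => ?_) W ?_
      · rw [Om_comm, vl_comm]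
        exact ih W (by rwa [Finset.union_comm])
      · rwa [Finset.union_comm]
  | insert i V hi ih =>
    intro V' W hW
    by_cases hi' : i ∈ V'
    · obtain ⟨V'', hi'', rfl⟩ : ∃ V'' : Finset ι, i ∉ V'' ∧ V' = insert i V'' :=
        ⟨V'.erase i, Finset.notMem_erase i V', (Finset.insert_erase hi').symm⟩
      have hn : ∀ D, D ⊆ V ∪ V'' → i ∉ D := by
        intro D hD h
        rcases Finset.mem_union.1 (hD h) with h | h
        · exact hi h
        · exact hi'' h
      have hW' : ∀ x ∈ W, x ≠ i → x ∈ V ∪ V'' := by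
        intro x hx hxi
        have h1 := hW hx
        simp only [Finset.mem_union, Finset.mem_insert] at h1 ⊢
        tauto
      rw [ins2 ρ hi hi'']
      by_cases h : i ∈ W
      · have h1 : Om ρ V V'' (fun D => fW W (insert i D)) = Om ρ V V'' (fW (W.erase i)) :=
          Om_congr ρ V V'' fun D _ => fW_ins h
        have h2 : Om ρ V V'' (fW W) = 0 := by
          rw [Om_congr ρ V V'' (g := fun _ => 0) fun D hD => fW_zero h (hn D hD), Om_zero]
        rw [h1, h2, zero_add, vl3 ρ hi hi'' h, ih V'' (W.erase i)]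
        intro x hx
        have h3 := Finset.mem_erase.1 hx
        exact hW' x h3.2 h3.1
      · have h1 : Om ρ V V'' (fun D => fW W (insert i D)) = Om ρ V V'' (fW W) :=
          Om_congr ρ V V'' fun D _ => fW_ins' h
        rw [h1, vl4 ρ hi hi'' h, ih V'' W]
        · ring
        · intro x hx
          exact hW' x hx fun h' => h (h' ▸ hx)
    · exact step1 ρ hi hi' (ih V') W hW

end LOAX

open LOAX in
theorem t_LOA : Stmt_LOA := by
  intro ι _ ρ V V'
  refine ⟨fun W hW => main ρ V V' W hW, fun c => ?_⟩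
  have h1 : Om ρ V V' (fun _ => c) = c * Om ρ V V' (fW ∅) := by
    rw [Om, Om, Finset.mul_sum]
    refine Finset.sum_congr rfl fun B _ => ?_
    rw [Finset.mul_sum]
    refine Finset.sum_congr rfl fun B' _ => ?_
    rw [fW, if_pos (Finset.empty_subset _)]
    ring
  rw [h1, main ρ V V' ∅ (Finset.empty_subset _), vl]
  by_cases h : V = V'
  · subst h
    rw [if_pos rfl, if_pos (by simp)]
    simp
    ring
  · rw [if_neg h, if_neg, mul_zero]
    intro h2
    apply h
    ext x
    have h3 := Finset.subset_empty.1 h2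
    have h4 : x ∉ V \ V' ∪ V' \ V := by
      rw [h3]
      exact Finset.notMem_empty x
    simp only [Finset.mem_union, Finset.mem_sdiff] at h4
    tauto

end Pool.SAR
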