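import Pool.Agent.SAR.StmtsL

/-!
MP_c21969_lc, project SAR, part 3: module LOB (bound of `Om` by the algebra norm).
-/

set_option autoImplicit false

namespace Pool.SAR

open Matrix Finset

namespace LOBX

variable {ι : Type} [DecidableEq ι]

theorem expand (hN : Stmt_NB) (ρ τ : ℝ) (h0 : 0 < τ) (h1 : τ ≤ 1) (V V' : Finset ι)
    (f : Finset ι → ℝ) :
    Om ρ V V' f = ∑ W ∈ (V ∪ V').powerset,
      mob f W * Om ρ V V' (fun D => if W ⊆ D then 1 else 0) := by
  have hf : ∀ D ⊆ V ∪ V', f D = ∑ W ∈ (V ∪ V').powerset, mob f W * if W ⊆ D then 1 else 0 := by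
    intro D hD
    have h2 := (hN ι τ h0 h1 (V ∪ V')).1 f D
    have h3 : ∑ W ∈ D.powerset, mob f W =
        ∑ W ∈ D.powerset, mob f W * if W ⊆ D then 1 else 0 := by
      refine Finset.sum_congr rfl fun W hW => ?_
      rw [if_pos (mem_powerset.1 hW), mul_one]
    rw [h2, h3]
    refine Finset.sum_subset (powerset_mono.2 hD) fun W _ hW => ?_
    rw [if_neg fun h4 => hW (mem_powerset.2 h4), mul_zero]
  unfold Om
  simp only [Finset.mul_sum]
  have h4 : ∀ B ∈ V.powerset, ∀ B' ∈ V'.powerset,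
      (-1 : ℝ) ^ ((V \ B).card + (V' \ B').card) * (1 + ρ) ^ (B ∩ B').card * f (B ∪ B') =
      ∑ W ∈ (V ∪ V').powerset, mob f W * ((-1 : ℝ) ^ ((V \ B).card + (V' \ B').card) *
        (1 + ρ) ^ (B ∩ B').card * if W ⊆ B ∪ B' then 1 else 0) := by
    intro B hB B' hB'
    rw [hf (B ∪ B') (union_subset_union (mem_powerset.1 hB) (mem_powerset.1 hB')),
      Finset.mul_sum]
    refine Finset.sum_congr rfl fun W _ => ?_
    ring
  rw [Finset.sum_congr rfl fun B hB => Finset.sum_congr rfl fun B' hB' => h4 B hB B' hB']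
  rw [Finset.sum_congr rfl fun B _ => Finset.sum_comm, Finset.sum_comm]

theorem card_W (V V' W : Finset ι) (hW : W ⊆ V ∪ V') (hS : (V \ V') ∪ (V' \ V) ⊆ W) :
    W.card = (V \ V').card + (V' \ V).card + (W ∩ (V ∩ V')).card := by
  have h1 : W = (V \ V') ∪ (V' \ V) ∪ (W ∩ (V ∩ V')) := by
    ext x
    constructor
    · intro hx
      have h2 := hW hx
      simp only [mem_union, mem_sdiff, mem_inter] at h2 ⊢
      tauto
    · intro hx
      rcases mem_union.1 hx with h2 | h2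
      · exact hS h2
      · exact (mem_inter.1 h2).1
  have h2 : Disjoint ((V \ V') ∪ (V' \ V)) (W ∩ (V ∩ V')) := by
    rw [Finset.disjoint_left]
    intro x hx hx'
    simp only [mem_union, mem_sdiff, mem_inter] at hx hx'
    tauto
  have h3 : Disjoint (V \ V') (V' \ V) := by
    rw [Finset.disjoint_left]
    intro x hx hx'
    simp only [mem_sdiff] at hx hx'
    tauto
  rw [← card_union_of_disjoint h3, ← card_union_of_disjoint h2, ← h1]

theorem card_I (V V' W : Finset ι) :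
    (V ∩ V').card = ((V ∩ V') \ W).card + (W ∩ (V ∩ V')).card := by
  rw [inter_comm W, card_sdiff_add_card_inter]

theorem bound (hO : Stmt_LOA) (ρ τ : ℝ) (h0 : 0 < τ) (h1 : τ ≤ ρ) (h2 : ρ ≤ 1)
    (V V' W : Finset ι) (hW : W ⊆ V ∪ V') :
    |Om ρ V V' (fun D => if W ⊆ D then 1 else 0)| ≤
      ρ ^ (V ∩ V').card * τ ^ ((V \ V').card + (V' \ V).card) * (τ ^ W.card)⁻¹ := by
  have hρ : 0 < ρ := h0.trans_le h1
  rw [(hO ι ρ V V').1 W hW]
  split_ifs with hS
  · rw [abs_mul, abs_pow, abs_pow, abs_of_pos hρ]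
    have h3 : |ρ - 1| ^ (W ∩ (V ∩ V')).card ≤ 1 := by
      apply pow_le_one₀ (abs_nonneg _)
      rw [abs_le]
      constructor <;> linarith
    have h4 : 0 ≤ ρ ^ ((V ∩ V') \ W).card := pow_nonneg hρ.le _
    refine (mul_le_mul_of_nonneg_right h3 h4).trans ?_
    rw [one_mul, ← div_eq_mul_inv, le_div_iff₀ (pow_pos h0 _), card_W V V' W hW hS,
      card_I V V' W, pow_add τ, pow_add ρ]
    have h5 : τ ^ (W ∩ (V ∩ V')).card ≤ ρ ^ (W ∩ (V ∩ V')).card :=
      pow_le_pow_left₀ h0.le h1 _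
    have h6 : 0 ≤ ρ ^ ((V ∩ V') \ W).card * τ ^ ((V \ V').card + (V' \ V).card) :=
      mul_nonneg h4 (pow_nonneg h0.le _)
    calc ρ ^ ((V ∩ V') \ W).card * (τ ^ ((V \ V').card + (V' \ V).card) *
          τ ^ (W ∩ (V ∩ V')).card)
        = ρ ^ ((V ∩ V') \ W).card * τ ^ ((V \ V').card + (V' \ V).card) *
          τ ^ (W ∩ (V ∩ V')).card := by ring
      _ ≤ ρ ^ ((V ∩ V') \ W).card * τ ^ ((V \ V').card + (V' \ V).card) *
          ρ ^ (W ∩ (V ∩ V')).card := mul_le_mul_of_nonneg_left h5 h6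
      _ = _ := by ring
  · rw [abs_zero]
    positivity

end LOBX

theorem t_LOB : Stmt_NB → Stmt_LOA → Stmt_LOB := by
  intro hN hO ι _ ρ τ h0 h1 h2 V V' f
  rw [LOBX.expand hN ρ τ h0 (h1.trans h2) V V' f]
  refine (Finset.abs_sum_le_sum_abs _ _).trans ?_
  unfold nrm
  rw [Finset.mul_sum]
  refine Finset.sum_le_sum fun W hW => ?_
  rw [abs_mul]
  have h3 := mul_le_mul_of_nonneg_left
    (LOBX.bound hO ρ τ h0 h1 h2 V V' W (mem_powerset.1 hW)) (abs_nonneg (mob f W))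
  refine h3.trans (le_of_eq ?_)
  ring

end Pool.SAR
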