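import Pool.Agent.SAR.StmtsL

/-!
MP_c21969_lc, project SAR, part 3: LPA, nested pairs.
-/

set_option autoImplicit false

namespace Pool.SAR

open Matrix Finset
open scoped ComplexOrder

theorem t_LPA : Stmt_PR → Stmt_LOA → Stmt_LPA := by
  intro hPR hLOA ι _ _ E _ _ _ u ρ V V' a b ha hb hV
  have key : ∀ D ⊆ V ∪ V', inner ℝ a (R u D b) = inner ℝ a b := by
    intro D hD
    obtain ⟨h1, -, -, -, h5, -⟩ := hPR ι E u D
    rcases hV with h | h
    · have hDV : D ⊆ V' := hD.trans (union_subset h (subset_refl _))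
      rw [h5 b (fun i hi => hb i (hDV hi))]
    · have hDV : D ⊆ V := hD.trans (union_subset (subset_refl _) h)
      rw [← h1 a b, h5 a (fun i hi => ha i (hDV hi))]
  rw [← (hLOA ι ρ V V').2 (inner ℝ a b)]
  unfold Om
  apply sum_congr rfl
  intro B hB
  apply sum_congr rfl
  intro B' hB'
  beta_reduce
  rw [key (B ∪ B') (union_subset_union (mem_powerset.1 hB) (mem_powerset.1 hB'))]

end Pool.SAR
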