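import Pool.Agent.SAR.StmtsL

/-!
MP_c21969_lc, project SAR, module LPB: incomparable pairs.
-/

set_option autoImplicit false

namespace Pool.SAR

open Matrix Finset

namespace LPBX

variable {ι : Type} [DecidableEq ι]

theorem om_congr (ρ : ℝ) (V V' : Finset ι) (f g : Finset ι → ℝ)
    (h : ∀ D ⊆ V ∪ V', f D = g D) : Om ρ V V' f = Om ρ V V' g := by
  unfold Om
  refine Finset.sum_congr rfl fun B hB => Finset.sum_congr rfl fun B' hB' => ?_
  rw [h (B ∪ B') (Finset.union_subset_union (Finset.mem_powerset.1 hB)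
    (Finset.mem_powerset.1 hB'))]

theorem om_lin (ρ : ℝ) (V V' : Finset ι) (x : ℝ) (s : Finset ι) (c : ι → Finset ι → ℝ)
    (y : ι → ℝ) : Om ρ V V' (fun D => x - ∑ j ∈ s, c j D * y j) =
      Om ρ V V' (fun _ => x) - ∑ j ∈ s, Om ρ V V' (c j) * y j := by
  have h1 : ∑ j ∈ s, Om ρ V V' (c j) * y j = ∑ B ∈ V.powerset, ∑ B' ∈ V'.powerset,
      (-1) ^ ((V \ B).card + (V' \ B').card) * (1 + ρ) ^ (B ∩ B').card *
        ∑ j ∈ s, c j (B ∪ B') * y j := by
    unfold Om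
    simp only [Finset.sum_mul, Finset.mul_sum]
    rw [Finset.sum_comm]
    refine Finset.sum_congr rfl fun B _ => ?_
    rw [Finset.sum_comm]
    refine Finset.sum_congr rfl fun B' _ => Finset.sum_congr rfl fun j _ => ?_
    ring
  rw [h1]
  unfold Om
  rw [← Finset.sum_sub_distrib]
  refine Finset.sum_congr rfl fun B _ => ?_
  rw [← Finset.sum_sub_distrib]
  refine Finset.sum_congr rfl fun B' _ => ?_
  ring

end LPBX

theorem t_LPB : Stmt_NC → Stmt_PR → Stmt_KE → Stmt_KN → Stmt_LOA → Stmt_LOB → Stmt_LPB := by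
  intro _ _ hKE hKN hLOA hLOB ι _ _ E _ _ _ u ℓ ρ τ δ hℓ hS hτρ hρ V V' a b ha hb hV hV' hcard
  obtain ⟨c, hc⟩ := hKE ι E u (V ∪ V') ∅ b
  have hτ : 0 < τ := hS.q0
  have hℓ' : (0 : ℝ) < (ℓ : ℝ) := by exact_mod_cast hℓ
  have hval : ∀ D ⊆ V ∪ V', (inner ℝ a (R u D b) : ℝ) =
      inner ℝ a b - ∑ j ∈ V' \ V, c j D * inner ℝ a (u j) := by
    intro D hD
    have h1 := hc.eq D hD
    rw [Finset.union_empty, Finset.union_empty] at h1
    rw [h1, inner_sub_right, inner_sum]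
    congr 1
    have h2 : V' \ V ⊆ V ∪ V' := fun x hx =>
      Finset.mem_union_right _ (Finset.mem_sdiff.1 hx).1
    rw [← Finset.sum_subset h2]
    · refine Finset.sum_congr rfl fun j _ => ?_
      rw [inner_smul_right]
    · intro x hx hx'
      have hxV : x ∈ V := by
        rcases Finset.mem_union.1 hx with h | h
        · exact h
        · by_contra hn
          exact hx' (Finset.mem_sdiff.2 ⟨h, hn⟩)
      rw [inner_smul_right, ha x hxV, mul_zero]
  have hne : V ≠ V' := fun h => hV (by rw [h])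
  rw [LPBX.om_congr ρ V V' _ _ hval, LPBX.om_lin, (hLOA ι ρ V V').2, if_neg hne, zero_sub,
    abs_neg]
  obtain ⟨hK1, hK2⟩ := hKN ι E u (2 * ℓ) τ δ hS (V ∪ V') ∅ (Finset.disjoint_empty_right _)
    (by rw [Finset.union_empty]; exact hcard) b c hc
  rw [Finset.union_empty] at hK1 hK2
  have hsumb : ∑ j ∈ V ∪ V', |(inner ℝ b (u j) : ℝ)| = ∑ k ∈ V \ V', |(inner ℝ b (u k) : ℝ)| := by
    have h2 : V \ V' ⊆ V ∪ V' := fun x hx =>
      Finset.mem_union_left _ (Finset.mem_sdiff.1 hx).1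
    rw [← Finset.sum_subset h2]
    intro x hx hx'
    have hxV : x ∈ V' := by
      rcases Finset.mem_union.1 hx with h | h
      · by_contra hn
        exact hx' (Finset.mem_sdiff.2 ⟨h, hn⟩)
      · exact h
    rw [hb x hxV, abs_zero]
  rw [hsumb] at hK1
  set S : ℝ := ∑ k ∈ V \ V', |(inner ℝ b (u k) : ℝ)| with hSdef
  have hnrm : ∀ j ∈ V' \ V, nrm τ (V ∪ V') (c j) ≤ (8 * (ℓ : ℝ) * τ)⁻¹ * S := by
    intro j hj
    rw [Finset.mem_sdiff] at hj
    have h1 := hK2 j (Finset.mem_union_right _ hj.1)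
    rw [hb j hj.1] at h1
    have h2 : (fun B => c j B - 0 * ind j B) = c j := by
      funext B
      ring
    rw [h2] at h1
    refine h1.trans ?_
    have h3 : (0 : ℝ) ≤ (8 * ((2 * ℓ : ℕ) : ℝ))⁻¹ := by positivity
    refine (mul_le_mul_of_nonneg_left hK1 h3).trans (le_of_eq ?_)
    push_cast
    field_simp
  refine (Finset.abs_sum_le_sum_abs _ _).trans ?_
  have hterm : ∀ j ∈ V' \ V, |Om ρ V V' (c j) * (inner ℝ a (u j) : ℝ)| ≤
      ρ ^ (V ∩ V').card * τ ^ ((V \ V').card + (V' \ V).card) * (8 * (ℓ : ℝ) * τ)⁻¹ *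
        ∑ k ∈ V \ V', |(inner ℝ a (u j) : ℝ)| * |(inner ℝ b (u k) : ℝ)| := by
    intro j hj
    rw [abs_mul, ← Finset.mul_sum, ← hSdef]
    have hρ0 : 0 ≤ ρ := hτ.le.trans hτρ
    have h1 : |Om ρ V V' (c j)| ≤ ρ ^ (V ∩ V').card * τ ^ ((V \ V').card + (V' \ V).card) *
        ((8 * (ℓ : ℝ) * τ)⁻¹ * S) := by
      refine (hLOB ι ρ τ hτ hτρ hρ V V' (c j)).trans ?_
      exact mul_le_mul_of_nonneg_left (hnrm j hj) (by positivity)
    refine (mul_le_mul_of_nonneg_right h1 (abs_nonneg _)).trans (le_of_eq ?_)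
    ring
  refine (Finset.sum_le_sum hterm).trans (le_of_eq ?_)
  rw [← Finset.mul_sum]

end Pool.SAR
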