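import Pool.Agent.SAR.StmtsL

/-! Module LSA: counting. -/

set_option autoImplicit false

namespace Pool.SAR

open Matrix Finset

namespace LSAX

variable {ι : Type} [Fintype ι] [DecidableEq ι]

omit [DecidableEq ι] in
theorem exp_bd [Nonempty ι] (n : ℕ) (hn : n ≤ Fintype.card ι) :
    (1 + (Fintype.card ι : ℝ)⁻¹) ^ n ≤ 3 := by
  have hN : (0 : ℝ) < (Fintype.card ι : ℝ) := by exact_mod_cast Fintype.card_pos
  have hx : (0 : ℝ) ≤ (Fintype.card ι : ℝ)⁻¹ := by positivity
  have h1 : (1 + (Fintype.card ι : ℝ)⁻¹) ^ n ≤ (1 + (Fintype.card ι : ℝ)⁻¹) ^ Fintype.card ι :=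
    pow_le_pow_right₀ (by linarith) hn
  have h2 : (1 + (Fintype.card ι : ℝ)⁻¹) ^ Fintype.card ι ≤
      Real.exp ((Fintype.card ι : ℝ)⁻¹) ^ Fintype.card ι := by
    apply pow_le_pow_left₀ (by linarith)
    have := Real.add_one_le_exp ((Fintype.card ι : ℝ)⁻¹)
    linarith
  have h3 : Real.exp ((Fintype.card ι : ℝ)⁻¹) ^ Fintype.card ι = Real.exp 1 := by
    rw [← Real.exp_nat_mul, mul_inv_cancel₀ hN.ne']
  have h4 := Real.exp_one_lt_d9
  rw [h3] at h2
  linarith

theorem pow_bd [Nonempty ι] (s : Finset ι) :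
    ∑ T ∈ s.powerset, ((Fintype.card ι : ℝ)⁻¹) ^ T.card ≤ 3 := by
  have h1 : ∑ T ∈ s.powerset, ((Fintype.card ι : ℝ)⁻¹) ^ T.card =
      (1 + (Fintype.card ι : ℝ)⁻¹) ^ s.card := by
    rw [← Finset.prod_const, Finset.prod_one_add]
    refine Finset.sum_congr rfl fun T _ => ?_
    rw [Finset.prod_const]
  rw [h1]
  exact exp_bd _ (Finset.card_le_univ s)

end LSAX

theorem t_LSA : Stmt_LSA := by
  intro ι _ _ _ V
  refine ⟨?_, fun b hb => ?_⟩
  · have h1 : ∑ V' ∈ univ.filter (fun V' => V ⊆ V'), ((Fintype.card ι : ℝ)⁻¹) ^ (V' \ V).card =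
        ∑ T ∈ (Vᶜ).powerset, ((Fintype.card ι : ℝ)⁻¹) ^ T.card := by
      refine Finset.sum_nbij' (fun V' => V' \ V) (fun T => V ∪ T) ?_ ?_ ?_ ?_ ?_
      · intro V' _
        rw [Finset.mem_powerset]
        intro i hi
        rw [Finset.mem_compl]
        exact (Finset.mem_sdiff.1 hi).2
      · intro T _
        simp
      · intro V' hV'
        exact Finset.union_sdiff_of_subset (Finset.mem_filter.1 hV').2
      · intro T hT
        rw [Finset.mem_powerset] at hT
        ext i
        simp only [Finset.mem_sdiff, Finset.mem_union]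
        constructor
        · rintro ⟨h1 | h1, h2⟩
          · exact absurd h1 h2
          · exact h1
        · intro h1
          exact ⟨Or.inr h1, Finset.mem_compl.1 (hT h1)⟩
      · intro V' _
        rfl
    rw [h1]
    exact LSAX.pow_bd _
  · have h1 : ∑ V' ∈ univ.filter (fun V' : Finset ι => b ∈ V'),
        ((Fintype.card ι : ℝ)⁻¹) ^ (V' \ V).card =
        ∑ p ∈ V.powerset ×ˢ ((Vᶜ).erase b).powerset,
          (Fintype.card ι : ℝ)⁻¹ * ((Fintype.card ι : ℝ)⁻¹) ^ p.2.card := by
      refine Finset.sum_nbij' (fun V' => (V' ∩ V, (V' \ V).erase b))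
        (fun p => p.1 ∪ insert b p.2) ?_ ?_ ?_ ?_ ?_
      · intro V' _
        rw [Finset.mem_product, Finset.mem_powerset, Finset.mem_powerset]
        refine ⟨Finset.inter_subset_right, Finset.erase_subset_erase _ ?_⟩
        intro i hi
        rw [Finset.mem_compl]
        exact (Finset.mem_sdiff.1 hi).2
      · intro p _
        simp
      · intro V' hV'
        have hbV' : b ∈ V' := (Finset.mem_filter.1 hV').2
        ext i
        simp only [Finset.mem_union, Finset.mem_inter, Finset.mem_insert, Finset.mem_erase,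
          Finset.mem_sdiff]
        constructor
        · rintro (h | rfl | h)
          · exact h.1
          · exact hbV'
          · exact h.2.1
        · intro h
          by_cases h2 : i ∈ V
          · exact Or.inl ⟨h, h2⟩
          · by_cases h3 : i = b
            · exact Or.inr (Or.inl h3)
            · exact Or.inr (Or.inr ⟨h3, h, h2⟩)
      · rintro ⟨W, T⟩ hp
        rw [Finset.mem_product, Finset.mem_powerset, Finset.mem_powerset] at hp
        obtain ⟨hW, hT⟩ := hp
        simp only at hW hT
        have hT' : ∀ i ∈ T, i ≠ b ∧ i ∉ V := by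
          intro i hi
          have := hT hi
          rw [Finset.mem_erase, Finset.mem_compl] at this
          exact this
        refine Prod.ext ?_ ?_
        · ext i
          simp only [Finset.mem_inter, Finset.mem_union, Finset.mem_insert]
          constructor
          · rintro ⟨h | rfl | h, h2⟩
            · exact h
            · exact absurd h2 hb
            · exact absurd h2 (hT' i h).2
          · intro h
            exact ⟨Or.inl h, hW h⟩
        · ext i
          simp only [Finset.mem_erase, Finset.mem_sdiff, Finset.mem_union, Finset.mem_insert]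
          constructor
          · rintro ⟨h1, h | rfl | h, h2⟩
            · exact absurd (hW h) h2
            · exact absurd rfl h1
            · exact h
          · intro h
            exact ⟨(hT' i h).1, Or.inr (Or.inr h), (hT' i h).2⟩
      · intro V' hV'
        have hbV' : b ∈ V' \ V := Finset.mem_sdiff.2 ⟨(Finset.mem_filter.1 hV').2, hb⟩
        rw [← Finset.card_erase_add_one hbV', pow_succ, mul_comm]
    have hN : (0 : ℝ) < (Fintype.card ι : ℝ) := by exact_mod_cast Fintype.card_pos
    have h2 := LSAX.pow_bd ((Vᶜ).erase b)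
    rw [h1, Finset.sum_product]
    simp only [← Finset.mul_sum, Finset.sum_const, Finset.card_powerset, nsmul_eq_mul]
    push_cast
    have h3 : (0 : ℝ) ≤ 2 ^ V.card * (Fintype.card ι : ℝ)⁻¹ := by positivity
    calc (Fintype.card ι : ℝ)⁻¹ * ((2 : ℝ) ^ V.card *
          ∑ i ∈ ((Vᶜ).erase b).powerset, ((Fintype.card ι : ℝ)⁻¹) ^ i.card)
        = (2 ^ V.card * (Fintype.card ι : ℝ)⁻¹) *
          ∑ i ∈ ((Vᶜ).erase b).powerset, ((Fintype.card ι : ℝ)⁻¹) ^ i.card := by ring
      _ ≤ (2 ^ V.card * (Fintype.card ι : ℝ)⁻¹) * 3 := mul_le_mul_of_nonneg_left h2 h3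
      _ = 3 * 2 ^ V.card * (Fintype.card ι : ℝ)⁻¹ := by ring

end Pool.SAR
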