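import Pool.Agent.SAR.StmtsL

/-!
MP_c21969_lc, project SAR, module LSB: the off-diagonal sum.
-/

set_option autoImplicit false

namespace Pool.SAR

open Matrix Finset
open scoped ComplexOrder

namespace LSBX

/-- `X ≤ (P + Q) / 2` if `X ^ 2 ≤ P * Q`, all nonnegative. -/
theorem am_gm (X P Q : ℝ) (hP : 0 ≤ P) (hQ : 0 ≤ Q) (h : X ^ 2 ≤ P * Q) :
    X ≤ (P + Q) / 2 := by
  by_contra hc
  push Not at hc
  have h0 : 0 ≤ (P + Q) / 2 := by positivity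
  have h1 : ((P + Q) / 2) ^ 2 < X ^ 2 := by
    apply pow_lt_pow_left₀ hc h0
    norm_num
  nlinarith [sq_nonneg (P - Q)]

/-- The termwise bound. -/
theorem termwise (ρ τ g x A B : ℝ) (r s : ℕ) (hρ : 0 < ρ) (hτ : 0 < τ) (hg : 1 ≤ g)
    (hx : 0 < x) (hA : 0 ≤ A) (hB : 0 ≤ B) (hb : τ ^ 2 ≤ ρ * g ^ 2 * x) :
    τ ^ (r + s) * (A * B) ≤
      1 / 2 * g ^ (r + s) * (ρ ^ r * x ^ s * A ^ 2 + ρ ^ s * x ^ r * B ^ 2) := by
  have hg0 : 0 < g := lt_of_lt_of_le one_pos hg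
  have h1 : τ ^ (r + s) * (A * B) ≤
      (g ^ (r + s) * (ρ ^ r * x ^ s * A ^ 2) + g ^ (r + s) * (ρ ^ s * x ^ r * B ^ 2)) / 2 := by
    apply am_gm
    · positivity
    · positivity
    · have h2 : (τ ^ (r + s) * (A * B)) ^ 2 = (τ ^ 2) ^ (r + s) * (A ^ 2 * B ^ 2) := by
        rw [← pow_mul]
        ring
      have h3 : (τ ^ 2) ^ (r + s) ≤ (ρ * g ^ 2 * x) ^ (r + s) :=
        pow_le_pow_left₀ (by positivity) hb _
      have h4 : g ^ (r + s) * (ρ ^ r * x ^ s * A ^ 2) * (g ^ (r + s) * (ρ ^ s * x ^ r * B ^ 2)) =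
          (ρ * g ^ 2 * x) ^ (r + s) * (A ^ 2 * B ^ 2) := by
        rw [mul_pow, mul_pow, ← pow_mul, pow_add ρ, pow_add x]
        ring
      rw [h2, h4]
      exact mul_le_mul_of_nonneg_right h3 (by positivity)
  calc τ ^ (r + s) * (A * B) ≤ _ := h1
    _ = _ := by ring

/-- The function summed in the end. -/
noncomputable def F {ι : Type} [DecidableEq ι] (ρ x : ℝ) (a : Finset ι → ι → ℝ)
    (V V' : Finset ι) : ℝ :=
  ρ ^ V.card * x ^ (V' \ V).card * ∑ b ∈ V' \ V, a V b ^ 2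

theorem F_nonneg {ι : Type} [DecidableEq ι] (ρ x : ℝ) (a : Finset ι → ι → ℝ)
    (hρ : 0 < ρ) (hx : 0 < x) (V V' : Finset ι) : 0 ≤ F ρ x a V V' := by
  unfold F
  apply mul_nonneg (by positivity)
  exact Finset.sum_nonneg fun b _ => sq_nonneg _

/-- The double sum over one pair. -/
theorem pair {ι : Type} [DecidableEq ι] (ℓ : ℕ) (ρ τ g x : ℝ) (a : Finset ι → ι → ℝ)
    (hρ : 0 < ρ) (hτ : 0 < τ) (hg : 1 ≤ g) (hx : 0 < x) (ha : ∀ V b, 0 ≤ a V b)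
    (hb : τ ^ 2 ≤ ρ * g ^ 2 * x) (V V' : Finset ι) (hV : V.card ≤ ℓ) (hV' : V'.card ≤ ℓ) :
    ρ ^ (V ∩ V').card * τ ^ ((V \ V').card + (V' \ V).card) *
      (∑ b ∈ V' \ V, ∑ c ∈ V \ V', a V b * a V' c) ≤
      1 / 2 * g ^ (2 * ℓ) * ℓ * (F ρ x a V V' + F ρ x a V' V) := by
  set r := (V \ V').card with hr
  set s := (V' \ V).card with hs
  have hrl : r ≤ ℓ := le_trans (Finset.card_le_card Finset.sdiff_subset) hV
  have hsl : s ≤ ℓ := le_trans (Finset.card_le_card Finset.sdiff_subset) hV'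
  have hg0 : 0 < g := lt_of_lt_of_le one_pos hg
  have hcV : (V ∩ V').card + r = V.card := by
    rw [hr, Finset.card_inter_add_card_sdiff]
  have hcV' : (V ∩ V').card + s = V'.card := by
    rw [hs, Finset.inter_comm, Finset.card_inter_add_card_sdiff]
  have hgp : g ^ (r + s) ≤ g ^ (2 * ℓ) := pow_le_pow_right₀ hg (by omega)
  -- termwise
  have h1 : ∀ b ∈ V' \ V, ∀ c ∈ V \ V',
      ρ ^ (V ∩ V').card * τ ^ (r + s) * (a V b * a V' c) ≤
        1 / 2 * g ^ (2 * ℓ) * (ρ ^ V.card * x ^ s * a V b ^ 2 +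
          ρ ^ V'.card * x ^ r * a V' c ^ 2) := by
    intro b _ c _
    have h2 := termwise ρ τ g x (a V b) (a V' c) r s hρ hτ hg hx (ha V b) (ha V' c) hb
    have h3 : 1 / 2 * g ^ (r + s) * (ρ ^ r * x ^ s * a V b ^ 2 + ρ ^ s * x ^ r * a V' c ^ 2) ≤
        1 / 2 * g ^ (2 * ℓ) * (ρ ^ r * x ^ s * a V b ^ 2 + ρ ^ s * x ^ r * a V' c ^ 2) := by
      apply mul_le_mul_of_nonneg_right
      · exact mul_le_mul_of_nonneg_left hgp (by norm_num)
      · positivity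
    calc ρ ^ (V ∩ V').card * τ ^ (r + s) * (a V b * a V' c)
        = ρ ^ (V ∩ V').card * (τ ^ (r + s) * (a V b * a V' c)) := by ring
      _ ≤ ρ ^ (V ∩ V').card *
          (1 / 2 * g ^ (2 * ℓ) * (ρ ^ r * x ^ s * a V b ^ 2 + ρ ^ s * x ^ r * a V' c ^ 2)) :=
          mul_le_mul_of_nonneg_left (le_trans h2 h3) (by positivity)
      _ = _ := by
          rw [← hcV, ← hcV', pow_add ρ, pow_add ρ]
          ring
  have h4 : ρ ^ (V ∩ V').card * τ ^ (r + s) * (∑ b ∈ V' \ V, ∑ c ∈ V \ V', a V b * a V' c) ≤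
      ∑ b ∈ V' \ V, ∑ c ∈ V \ V', 1 / 2 * g ^ (2 * ℓ) * (ρ ^ V.card * x ^ s * a V b ^ 2 +
          ρ ^ V'.card * x ^ r * a V' c ^ 2) := by
    rw [Finset.mul_sum]
    apply Finset.sum_le_sum
    intro b hbm
    rw [Finset.mul_sum]
    apply Finset.sum_le_sum
    intro c hcm
    exact h1 b hbm c hcm
  have h5 : ∑ b ∈ V' \ V, ∑ c ∈ V \ V', 1 / 2 * g ^ (2 * ℓ) * (ρ ^ V.card * x ^ s * a V b ^ 2 +
          ρ ^ V'.card * x ^ r * a V' c ^ 2) =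
      1 / 2 * g ^ (2 * ℓ) * ((r : ℝ) * F ρ x a V V' + (s : ℝ) * F ρ x a V' V) := by
    unfold F
    rw [← hr, ← hs]
    simp only [← Finset.mul_sum]
    congr 1
    have h6 : ∀ b ∈ V' \ V, ∑ c ∈ V \ V', (ρ ^ V.card * x ^ s * a V b ^ 2 +
          ρ ^ V'.card * x ^ r * a V' c ^ 2) =
        (r : ℝ) * (ρ ^ V.card * x ^ s) * a V b ^ 2 +
          ρ ^ V'.card * x ^ r * ∑ c ∈ V \ V', a V' c ^ 2 := by
      intro b _
      rw [Finset.sum_add_distrib, Finset.sum_const, nsmul_eq_mul, ← Finset.mul_sum, ← hr]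
      ring
    rw [Finset.sum_congr rfl h6, Finset.sum_add_distrib, Finset.sum_const, nsmul_eq_mul,
      ← Finset.mul_sum, ← hs]
    ring
  have hF1 := F_nonneg ρ x a hρ hx V V'
  have hF2 := F_nonneg ρ x a hρ hx V' V
  have hr' : (r : ℝ) ≤ ℓ := by exact_mod_cast hrl
  have hs' : (s : ℝ) ≤ ℓ := by exact_mod_cast hsl
  have h7 : (r : ℝ) * F ρ x a V V' + (s : ℝ) * F ρ x a V' V ≤
      ℓ * (F ρ x a V V' + F ρ x a V' V) := by
    nlinarith [mul_le_mul_of_nonneg_right hr' hF1, mul_le_mul_of_nonneg_right hs' hF2]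
  calc ρ ^ (V ∩ V').card * τ ^ (r + s) * (∑ b ∈ V' \ V, ∑ c ∈ V \ V', a V b * a V' c)
      ≤ _ := h4
    _ = _ := h5
    _ ≤ 1 / 2 * g ^ (2 * ℓ) * (ℓ * (F ρ x a V V' + F ρ x a V' V)) :=
        mul_le_mul_of_nonneg_left h7 (by positivity)
    _ = _ := by ring

/-- The sum over `V'`. -/
theorem row {ι : Type} [Fintype ι] [DecidableEq ι] (ρ x Λ K : ℝ) (a : Finset ι → ι → ℝ)
    (w : Finset ι → ℝ) (hρ : 0 < ρ) (hK : 0 ≤ K) (V : Finset ι)
    (hcount : ∀ b ∉ V, ∑ V' ∈ univ.filter (fun V' : Finset ι => b ∈ V'),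
      x ^ (V' \ V).card ≤ K) (hw : ∑ b, a V b ^ 2 ≤ Λ * w V) :
    ∑ V' : Finset ι, F ρ x a V V' ≤ ρ ^ V.card * (K * (Λ * w V)) := by
  have h1 : ∑ V' : Finset ι, F ρ x a V V' =
      ρ ^ V.card * ∑ b ∈ univ.filter (fun b => b ∉ V), a V b ^ 2 *
        ∑ V' ∈ univ.filter (fun V' : Finset ι => b ∈ V'), x ^ (V' \ V).card := by
    unfold F
    simp only [mul_assoc]
    rw [← Finset.mul_sum]
    congr 1
    simp only [Finset.mul_sum]
    have h2 : ∀ V' : Finset ι, ∑ b ∈ V' \ V, x ^ (V' \ V).card * a V b ^ 2 =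
        ∑ b ∈ univ.filter (fun b => b ∉ V), if b ∈ V' then a V b ^ 2 * x ^ (V' \ V).card else 0 := by
      intro V'
      rw [← Finset.sum_filter]
      apply Finset.sum_congr
      · ext b
        simp only [Finset.mem_sdiff, Finset.mem_filter, Finset.mem_univ, true_and]
        tauto
      · intro b _
        ring
    rw [Finset.sum_congr rfl (fun V' _ => h2 V'), Finset.sum_comm]
    apply Finset.sum_congr rfl
    intro b _
    rw [Finset.sum_filter]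
  rw [h1]
  apply mul_le_mul_of_nonneg_left _ (by positivity)
  calc ∑ b ∈ univ.filter (fun b => b ∉ V), a V b ^ 2 *
        ∑ V' ∈ univ.filter (fun V' : Finset ι => b ∈ V'), x ^ (V' \ V).card
      ≤ ∑ b ∈ univ.filter (fun b => b ∉ V), a V b ^ 2 * K := by
        apply Finset.sum_le_sum
        intro b hb
        exact mul_le_mul_of_nonneg_left (hcount b (Finset.mem_filter.mp hb).2) (sq_nonneg _)
    _ = K * ∑ b ∈ univ.filter (fun b => b ∉ V), a V b ^ 2 := by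
        rw [← Finset.sum_mul, mul_comm]
    _ ≤ K * ∑ b, a V b ^ 2 := by
        apply mul_le_mul_of_nonneg_left _ hK
        exact Finset.sum_le_sum_of_subset_of_nonneg (Finset.filter_subset _ _)
          (fun b _ _ => sq_nonneg _)
    _ ≤ K * (Λ * w V) := mul_le_mul_of_nonneg_left hw hK

end LSBX

theorem t_LSB : Stmt_LSA → Stmt_LSB := by
  intro hLSA ι _ _ _ ℓ ρ τ g Λ a w hℓ hρ hτ hg hΛ hbal hoff ha hw haw hw0
  have hN : 0 < (Fintype.card ι : ℝ) := by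
    exact_mod_cast Fintype.card_pos
  set N : ℝ := (Fintype.card ι : ℝ) with hNdef
  have hx : 0 < N⁻¹ := inv_pos.mpr hN
  have hg0 : 0 < g := lt_of_lt_of_le one_pos hg
  have hℓ0 : (0 : ℝ) < ℓ := by exact_mod_cast (by omega : 0 < ℓ)
  have hb : τ ^ 2 ≤ ρ * g ^ 2 * N⁻¹ := by
    rw [← div_eq_mul_inv, le_div_iff₀ hN]
    exact hbal
  -- vanishing
  have hzero : ∀ V : Finset ι, ℓ < V.card → ∀ b, a V b = 0 := by
    intro V hV b
    have h1 : ∑ b, a V b ^ 2 ≤ 0 := by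
      have h2 := haw V
      rw [hw0 V hV, mul_zero] at h2
      exact h2
    have h2 : a V b ^ 2 ≤ ∑ b, a V b ^ 2 :=
      Finset.single_le_sum (f := fun b => a V b ^ 2) (fun b _ => sq_nonneg _) (Finset.mem_univ b)
    have h3 : a V b ^ 2 = 0 := le_antisymm (le_trans h2 h1) (sq_nonneg _)
    exact pow_eq_zero_iff (two_ne_zero) |>.mp h3
  have hpre : 0 < (8 * (ℓ : ℝ) * τ)⁻¹ := by positivity
  -- the pair bound
  have hpair : ∀ V V' : Finset ι,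
      ρ ^ (V ∩ V').card * τ ^ ((V \ V').card + (V' \ V).card) * (8 * (ℓ : ℝ) * τ)⁻¹ *
        (∑ b ∈ V' \ V, ∑ c ∈ V \ V', a V b * a V' c) ≤
      (8 * (ℓ : ℝ) * τ)⁻¹ * (1 / 2 * g ^ (2 * ℓ) * ℓ *
        (LSBX.F ρ N⁻¹ a V V' + LSBX.F ρ N⁻¹ a V' V)) := by
    intro V V'
    have hF1 := LSBX.F_nonneg ρ N⁻¹ a hρ hx V V'
    have hF2 := LSBX.F_nonneg ρ N⁻¹ a hρ hx V' V
    have hR : 0 ≤ (8 * (ℓ : ℝ) * τ)⁻¹ * (1 / 2 * g ^ (2 * ℓ) * ℓ *
        (LSBX.F ρ N⁻¹ a V V' + LSBX.F ρ N⁻¹ a V' V)) := by positivity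
    by_cases hV : V.card ≤ ℓ
    · by_cases hV' : V'.card ≤ ℓ
      · have h1 := LSBX.pair ℓ ρ τ g N⁻¹ a hρ hτ hg hx ha hb V V' hV hV'
        calc ρ ^ (V ∩ V').card * τ ^ ((V \ V').card + (V' \ V).card) * (8 * (ℓ : ℝ) * τ)⁻¹ *
            (∑ b ∈ V' \ V, ∑ c ∈ V \ V', a V b * a V' c)
            = (8 * (ℓ : ℝ) * τ)⁻¹ * (ρ ^ (V ∩ V').card * τ ^ ((V \ V').card + (V' \ V).card) *
              (∑ b ∈ V' \ V, ∑ c ∈ V \ V', a V b * a V' c)) := by ring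
          _ ≤ _ := mul_le_mul_of_nonneg_left h1 hpre.le
      · have h1 : ∑ b ∈ V' \ V, ∑ c ∈ V \ V', a V b * a V' c = 0 := by
          apply Finset.sum_eq_zero
          intro b _
          apply Finset.sum_eq_zero
          intro c _
          rw [hzero V' (by omega) c, mul_zero]
        rw [h1, mul_zero]
        exact hR
    · have h1 : ∑ b ∈ V' \ V, ∑ c ∈ V \ V', a V b * a V' c = 0 := by
        apply Finset.sum_eq_zero
        intro b _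
        apply Finset.sum_eq_zero
        intro c _
        rw [hzero V (by omega) b, zero_mul]
      rw [h1, mul_zero]
      exact hR
  -- the row bound
  have hrow : ∀ V : Finset ι, ∑ V' : Finset ι, LSBX.F ρ N⁻¹ a V V' ≤
      3 * 2 ^ ℓ * N⁻¹ * Λ * (ρ ^ V.card * w V) := by
    intro V
    by_cases hV : V.card ≤ ℓ
    · have h1 := LSBX.row ρ N⁻¹ Λ (3 * 2 ^ ℓ * N⁻¹) a w hρ (by positivity) V (by
        intro b hbV
        refine le_trans ((hLSA ι V).2 b hbV) ?_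
        have h2 : (2 : ℝ) ^ V.card ≤ 2 ^ ℓ := pow_le_pow_right₀ (by norm_num) hV
        exact mul_le_mul_of_nonneg_right (mul_le_mul_of_nonneg_left h2 (by norm_num)) hx.le) (haw V)
      calc ∑ V' : Finset ι, LSBX.F ρ N⁻¹ a V V' ≤ _ := h1
        _ = _ := by ring
    · have h1 : ∑ V' : Finset ι, LSBX.F ρ N⁻¹ a V V' = 0 := by
        apply Finset.sum_eq_zero
        intro V' _
        unfold LSBX.F
        have h2 : ∑ b ∈ V' \ V, a V b ^ 2 = 0 := by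
          apply Finset.sum_eq_zero
          intro b _
          rw [hzero V (by omega) b]
          norm_num
        rw [h2, mul_zero]
      rw [h1, hw0 V (by omega), mul_zero, mul_zero]
  -- sum up
  set G : ℝ := ∑ V : Finset ι, ∑ V' : Finset ι, LSBX.F ρ N⁻¹ a V V' with hG
  have hsum : ∑ V : Finset ι, ∑ V' : Finset ι,
        ρ ^ (V ∩ V').card * τ ^ ((V \ V').card + (V' \ V).card) * (8 * (ℓ : ℝ) * τ)⁻¹ *
          (∑ b ∈ V' \ V, ∑ c ∈ V \ V', a V b * a V' c) ≤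
      (8 * (ℓ : ℝ) * τ)⁻¹ * (1 / 2 * g ^ (2 * ℓ) * ℓ * (G + G)) := by
    have h1 : ∑ V : Finset ι, ∑ V' : Finset ι, (8 * (ℓ : ℝ) * τ)⁻¹ * (1 / 2 * g ^ (2 * ℓ) * ℓ *
        (LSBX.F ρ N⁻¹ a V V' + LSBX.F ρ N⁻¹ a V' V)) =
        (8 * (ℓ : ℝ) * τ)⁻¹ * (1 / 2 * g ^ (2 * ℓ) * ℓ * (G + G)) := by
      simp only [← Finset.mul_sum, Finset.sum_add_distrib]
      congr 3
      rw [hG, Finset.sum_comm]
    rw [← h1]
    apply Finset.sum_le_sum
    intro V _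
    apply Finset.sum_le_sum
    intro V' _
    exact hpair V V'
  have hGle : G ≤ 3 * 2 ^ ℓ * N⁻¹ * Λ * ∑ V : Finset ι, ρ ^ V.card * w V := by
    rw [hG, Finset.mul_sum]
    apply Finset.sum_le_sum
    intro V _
    exact hrow V
  have hQ : 0 ≤ ∑ V : Finset ι, ρ ^ V.card * w V :=
    Finset.sum_nonneg fun V _ => mul_nonneg (by positivity) (hw V)
  refine le_trans hsum ?_
  have hcoef : (8 * (ℓ : ℝ) * τ)⁻¹ * (g ^ (2 * ℓ) * ℓ) * (3 * 2 ^ ℓ * N⁻¹ * Λ) ≤ 1 / 2 := by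
    have h1 : (8 * (ℓ : ℝ) * τ)⁻¹ * (g ^ (2 * ℓ) * ℓ) * (3 * 2 ^ ℓ * N⁻¹ * Λ) =
        (3 * 2 ^ ℓ * g ^ (2 * ℓ) * Λ) / (8 * τ * N) := by
      field_simp
    rw [h1, div_le_iff₀ (by positivity)]
    calc 3 * 2 ^ ℓ * g ^ (2 * ℓ) * Λ ≤ 4 * τ * N := hoff
      _ = 1 / 2 * (8 * τ * N) := by ring
  calc (8 * (ℓ : ℝ) * τ)⁻¹ * (1 / 2 * g ^ (2 * ℓ) * ℓ * (G + G))
      = (8 * (ℓ : ℝ) * τ)⁻¹ * (g ^ (2 * ℓ) * ℓ) * G := by ring
    _ ≤ (8 * (ℓ : ℝ) * τ)⁻¹ * (g ^ (2 * ℓ) * ℓ) *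
        (3 * 2 ^ ℓ * N⁻¹ * Λ * ∑ V : Finset ι, ρ ^ V.card * w V) :=
        mul_le_mul_of_nonneg_left hGle (by positivity)
    _ = (8 * (ℓ : ℝ) * τ)⁻¹ * (g ^ (2 * ℓ) * ℓ) * (3 * 2 ^ ℓ * N⁻¹ * Λ) *
        ∑ V : Finset ι, ρ ^ V.card * w V := by ring
    _ ≤ 1 / 2 * ∑ V : Finset ι, ρ ^ V.card * w V :=
        mul_le_mul_of_nonneg_right hcoef hQ

end Pool.SAR
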