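import Pool.Agent.SAR.StmtsL

/-!
# Module LSC: two-sided bound for the form `FF`
-/

set_option autoImplicit false

namespace Pool.SAR

open Matrix Finset

namespace LSCX

theorem Om_zero {ι : Type} [DecidableEq ι] (ρ : ℝ) (V V' : Finset ι) (f : Finset ι → ℝ)
    (hf : ∀ D, f D = 0) : Om ρ V V' f = 0 := by
  unfold Om
  exact Finset.sum_eq_zero fun B _ => Finset.sum_eq_zero fun B' _ => by rw [hf, mul_zero]

end LSCX

open LSCX

theorem t_LSC : Stmt_LYO → Stmt_LYF → Stmt_LPA → Stmt_LPB → Stmt_LSB → Stmt_LSC := by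
  intro hLYO hLYF hLPA hLPB hLSB ι _ _ _ E _ _ _ u ℓ m q τ δ g Λ hPar hSys hfr y hy
  have hq0 := hPar.q0
  have hq1 := hPar.q1
  have h1q : 0 < 1 - q := by linarith
  obtain ⟨hO1, hO2⟩ := hLYO ι E q u y
  have hO2 := hO2 ℓ hy
  set Y : Finset ι → E := up (hat q u y) with hY
  set ρ : ℝ := q / (1 - q) with hρ
  have hρ0 : 0 < ρ := by positivity
  have hρ1 : ρ ≤ 1 := by
    rw [hρ, div_le_one h1q]
    linarith
  have hqρ : q ≤ ρ := by
    rw [hρ, le_div_iff₀ h1q]
    nlinarith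
  have hτρ : τ ≤ ρ := hPar.tq.trans hqρ
  have hF := hLYF ι E q hq0 (by linarith) u y
  rw [← hY, ← hρ] at hF
  set B : Finset ι → Finset ι → ℝ := fun V V' =>
    ρ ^ (V ∩ V').card * τ ^ ((V \ V').card + (V' \ V).card) * (8 * (ℓ : ℝ) * τ)⁻¹ *
      (∑ b ∈ V' \ V, ∑ c ∈ V \ V', |inner ℝ (Y V) (u b)| * |inner ℝ (Y V') (u c)|) with hB
  have hτ0 := hPar.t0
  have hB0 : ∀ V V', 0 ≤ B V V' := by
    intro V V'
    simp only [hB]
    have h1 : 0 ≤ ∑ b ∈ V' \ V, ∑ c ∈ V \ V', |inner ℝ (Y V) (u b)| * |inner ℝ (Y V') (u c)| :=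
      Finset.sum_nonneg fun b _ => Finset.sum_nonneg fun c _ => by positivity
    positivity
  have hterm : ∀ V V', |Om ρ V V' (fun D => inner ℝ (Y V) (R u D (Y V'))) -
      (if V = V' then ρ ^ V.card * ‖Y V‖ ^ 2 else 0)| ≤ B V V' := by
    intro V V'
    by_cases hn : V ⊆ V' ∨ V' ⊆ V
    · have h1 := hLPA ι E u ρ V V' (Y V) (Y V') (hO1 V) (hO1 V') hn
      rw [h1]
      have h2 : (if V = V' then ρ ^ V.card * inner ℝ (Y V) (Y V') else 0) =
          (if V = V' then ρ ^ V.card * ‖Y V‖ ^ 2 else 0) := by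
        split_ifs with h
        · rw [← h, real_inner_self_eq_norm_sq]
        · rfl
      rw [h2, sub_self, abs_zero]
      exact hB0 V V'
    · push Not at hn
      have hne : V ≠ V' := fun h => hn.1 (by rw [h])
      rw [if_neg hne, sub_zero]
      by_cases hV : ℓ < V.card
      · rw [Om_zero]
        · rw [abs_zero]
          exact hB0 V V'
        · intro D
          rw [hO2 V hV, inner_zero_left]
      by_cases hV' : ℓ < V'.card
      · rw [Om_zero]
        · rw [abs_zero]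
          exact hB0 V V'
        · intro D
          rw [hO2 V' hV', map_zero, inner_zero_right]
      have hc : (V ∪ V').card ≤ 2 * ℓ := by
        have := Finset.card_union_le V V'
        omega
      exact hLPB ι E u ℓ ρ τ δ hPar.l1 hSys hτρ hρ1 V V' (Y V) (Y V') (hO1 V) (hO1 V')
        hn.1 hn.2 hc
  have hS := hLSB ι ℓ ρ τ g Λ (fun V b => |inner ℝ (Y V) (u b)|) (fun V => ‖Y V‖ ^ 2)
    hPar.l1 hρ0 hτ0 hPar.g1 hPar.L0
    (hPar.bal.trans (mul_le_mul_of_nonneg_right hqρ (by positivity))) hPar.off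
    (fun V b => abs_nonneg _) (fun V => by positivity)
    (fun V => by
      have := hfr (Y V)
      simpa only [sq_abs] using this)
    (fun V hV => by rw [hO2 V hV, norm_zero]; norm_num)
  have hQ : QQ ρ Y = ∑ V : Finset ι, ∑ V' : Finset ι,
      (if V = V' then ρ ^ V.card * ‖Y V‖ ^ 2 else 0) := by
    unfold QQ
    refine Finset.sum_congr rfl fun V _ => ?_
    rw [Finset.sum_ite_eq, if_pos (Finset.mem_univ _)]
  have hdiff : |FF q u y - QQ ρ Y| ≤ 1 / 2 * QQ ρ Y := by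
    rw [hF, hQ, ← Finset.sum_sub_distrib]
    have h1 : ∀ V : Finset ι, (∑ V' : Finset ι, Om ρ V V' (fun D => inner ℝ (Y V) (R u D (Y V')))) -
        (∑ V' : Finset ι, (if V = V' then ρ ^ V.card * ‖Y V‖ ^ 2 else 0)) =
        ∑ V' : Finset ι, (Om ρ V V' (fun D => inner ℝ (Y V) (R u D (Y V'))) -
          (if V = V' then ρ ^ V.card * ‖Y V‖ ^ 2 else 0)) := fun V => by
      rw [Finset.sum_sub_distrib]
    rw [Finset.sum_congr rfl fun V _ => h1 V]
    have h2 : |∑ V : Finset ι, ∑ V' : Finset ι,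
        (Om ρ V V' (fun D => inner ℝ (Y V) (R u D (Y V'))) -
          (if V = V' then ρ ^ V.card * ‖Y V‖ ^ 2 else 0))| ≤
        ∑ V : Finset ι, ∑ V' : Finset ι, B V V' := by
      refine (Finset.abs_sum_le_sum_abs _ _).trans (Finset.sum_le_sum fun V _ => ?_)
      exact (Finset.abs_sum_le_sum_abs _ _).trans (Finset.sum_le_sum fun V' _ => hterm V V')
    refine h2.trans ?_
    rw [← hQ]
    exact hS
  rw [abs_le] at hdiff
  constructor
  · linarith [hdiff.1]
  · linarith [hdiff.2]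

end Pool.SAR
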