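import Pool.Agent.SAR.StmtsL

/-!
MP_c21969_lc, project SAR, part 3: signed sums over the subsets of a union (LUU).
-/

set_option autoImplicit false

namespace Pool.SAR

open Matrix Finset
open scoped ComplexOrder

namespace LUUX

variable {ι : Type} [DecidableEq ι] {L : Type} [CommRing L]

theorem ins (f : Finset ι → L) {k : ι} {A : Finset ι} (hk : k ∉ A) :
    ∑ D ∈ (insert k A).powerset, (-1) ^ D.card * f D =
      ∑ D ∈ A.powerset, (-1) ^ D.card * (f D - f (insert k D)) := by
  rw [Finset.sum_powerset_insert hk, ← Finset.sum_add_distrib]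
  refine Finset.sum_congr rfl fun D hD => ?_
  have hkD : k ∉ D := fun h => hk (Finset.mem_powerset.1 hD h)
  rw [Finset.card_insert_of_notMem hkD, pow_succ]
  ring

theorem van (f : Finset ι → L) {k : ι} {A : Finset ι} (hk : k ∈ A) :
    ∑ D ∈ A.powerset, (-1) ^ D.card * f (insert k D) = 0 := by
  have h := ins (fun D => f (insert k D)) (Finset.notMem_erase k A)
  rw [Finset.insert_erase hk] at h
  rw [h]
  refine Finset.sum_eq_zero fun D _ => ?_
  rw [Finset.insert_idem, sub_self, mul_zero]

theorem second (f : Finset ι → L) (A : Finset ι) (k : ι) :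
    ∑ D ∈ (insert k A).powerset, (-1) ^ D.card * f D =
      ∑ D ∈ A.powerset, (-1) ^ D.card * (f D - f (insert k D)) := by
  by_cases hk : k ∈ A
  · simp_rw [mul_sub]
    rw [Finset.sum_sub_distrib, van f hk, sub_zero, Finset.insert_eq_of_mem hk]
  · exact ins f hk

theorem first (A' A : Finset ι) : ∀ f : Finset ι → L,
    ∑ D ∈ (A ∪ A').powerset, (-1) ^ D.card * f D =
      ∑ B ∈ A.powerset, ∑ B' ∈ A'.powerset, (-1) ^ (B.card + B'.card) * f (B ∪ B') := by
  induction A using Finset.induction_on with
  | empty =>
    intro f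
    simp
  | insert i A hi ih =>
    intro f
    rw [Finset.insert_union, second, ih (fun D => f D - f (insert i D)),
      Finset.sum_powerset_insert hi, ← Finset.sum_add_distrib]
    refine Finset.sum_congr rfl fun B hB => ?_
    rw [← Finset.sum_add_distrib]
    refine Finset.sum_congr rfl fun B' _ => ?_
    have hiB : i ∉ B := fun h => hi (Finset.mem_powerset.1 hB h)
    rw [Finset.card_insert_of_notMem hiB, Finset.insert_union]
    ring

end LUUX

theorem t_LUU : Stmt_LUU := by
  intro ι _ L _ f A A'
  exact ⟨LUUX.first A' A f, fun k => LUUX.second f A k⟩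

end Pool.SAR
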