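import Pool.Agent.SAR.StmtsL

/-!
MP_c21969_lc, project SAR, module LYF: the form `FF` in terms of the sums over supersets.
-/

set_option autoImplicit false

namespace Pool.SAR

open Matrix Finset
open scoped ComplexOrder

namespace LYFX

variable {ι : Type} [Fintype ι] [DecidableEq ι] {E : Type} [NormedAddCommGroup E]
  [InnerProductSpace ℝ E] [FiniteDimensional ℝ E]

theorem cmm {M : Type} [AddCommMonoid M] (G : Finset ι → Finset ι → M) :
    ∑ B : Finset ι, ∑ V ∈ univ.filter (fun V => B ⊆ V), G B V =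
      ∑ V : Finset ι, ∑ B ∈ V.powerset, G B V := by
  refine Finset.sum_comm' ?_
  intro B V
  simp

theorem step1 (h1 : Stmt_PR) (q : ℝ) (_h0 : 0 < q) (hq : q < 1) (u : ι → E)
    (y : Finset ι → E) (B B' : Finset ι) :
    (1 - q) ^ (B ∪ B').card * inner ℝ (y B) (R u (B ∪ B') (y B')) =
      (1 + q / (1 - q)) ^ (B ∩ B').card *
        inner ℝ (hat q u y B) (R u (B ∪ B') (hat q u y B')) := by
  obtain ⟨hs, -, -, -, -, -, -, -⟩ := h1 ι E u (B ∪ B')
  obtain ⟨-, -, -, -, -, -, h7, -⟩ := h1 ι E u B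
  obtain ⟨-, -, -, -, -, -, h7', -⟩ := h1 ι E u B'
  have e1 : inner ℝ (hat q u y B) (R u (B ∪ B') (hat q u y B')) =
      (1 - q) ^ B.card * ((1 - q) ^ B'.card * inner ℝ (y B) (R u (B ∪ B') (y B'))) := by
    rw [hat, hat, map_smul, h7' _ Finset.subset_union_right, real_inner_smul_left,
      real_inner_smul_right, ← hs, h7 _ Finset.subset_union_left, hs]
  have hq' : 1 - q ≠ 0 := by
    intro h
    linarith
  have e2 : (1 + q / (1 - q)) * (1 - q) = 1 := by
    field_simp
    ring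
  have e3 : (1 - q) ^ (B ∪ B').card =
      (1 + q / (1 - q)) ^ (B ∩ B').card * ((1 - q) ^ B.card * (1 - q) ^ B'.card) := by
    rw [← pow_add, ← Finset.card_union_add_card_inter, pow_add]
    have e4 : (1 + q / (1 - q)) ^ (B ∩ B').card * (1 - q) ^ (B ∩ B').card = 1 := by
      rw [← mul_pow, e2, one_pow]
    linear_combination (-(1 - q) ^ (B ∪ B').card) * e4
  rw [e1, e3]
  ring

theorem expand (h2 : Stmt_LYI) (u : ι → E) (h : Finset ι → E) (B B' D : Finset ι) :
    inner ℝ (h B) (R u D (h B')) =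
      ∑ V ∈ univ.filter (fun V => B ⊆ V), ∑ V' ∈ univ.filter (fun V' => B' ⊆ V'),
        (-1 : ℝ) ^ ((V \ B).card + (V' \ B').card) * inner ℝ (up h V) (R u D (up h V')) := by
  conv_lhs => rw [h2 ι E h B, h2 ι E h B']
  rw [map_sum, sum_inner]
  refine Finset.sum_congr rfl fun V _ => ?_
  rw [inner_sum]
  refine Finset.sum_congr rfl fun V' _ => ?_
  rw [map_smul, real_inner_smul_left, real_inner_smul_right, pow_add]
  ring

end LYFX

open LYFX in
theorem t_LYF : Stmt_PR → Stmt_LYI → Stmt_LYF := by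
  intro h1 h2 ι _ _ E _ _ _ q h0 hq u y
  have e1 : FF q u y = ∑ B : Finset ι, ∑ B' : Finset ι,
      ∑ V ∈ univ.filter (fun V => B ⊆ V), ∑ V' ∈ univ.filter (fun V' => B' ⊆ V'),
        (-1 : ℝ) ^ ((V \ B).card + (V' \ B').card) * (1 + q / (1 - q)) ^ (B ∩ B').card *
          inner ℝ (up (hat q u y) V) (R u (B ∪ B') (up (hat q u y) V')) := by
    rw [FF]
    refine Finset.sum_congr rfl fun B _ => Finset.sum_congr rfl fun B' _ => ?_
    rw [step1 h1 q h0 hq u y B B', expand h2 u (hat q u y) B B' (B ∪ B'), Finset.mul_sum]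
    refine Finset.sum_congr rfl fun V _ => ?_
    rw [Finset.mul_sum]
    refine Finset.sum_congr rfl fun V' _ => ?_
    ring
  rw [e1]
  have e2 : ∀ B : Finset ι, ∑ B' : Finset ι,
      ∑ V ∈ univ.filter (fun V => B ⊆ V), ∑ V' ∈ univ.filter (fun V' => B' ⊆ V'),
        (-1 : ℝ) ^ ((V \ B).card + (V' \ B').card) * (1 + q / (1 - q)) ^ (B ∩ B').card *
          inner ℝ (up (hat q u y) V) (R u (B ∪ B') (up (hat q u y) V')) =
      ∑ V ∈ univ.filter (fun V => B ⊆ V), ∑ V' : Finset ι, ∑ B' ∈ V'.powerset,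
        (-1 : ℝ) ^ ((V \ B).card + (V' \ B').card) * (1 + q / (1 - q)) ^ (B ∩ B').card *
          inner ℝ (up (hat q u y) V) (R u (B ∪ B') (up (hat q u y) V')) := by
    intro B
    rw [Finset.sum_comm]
    exact Finset.sum_congr rfl fun V _ => cmm _
  rw [Finset.sum_congr rfl fun B _ => e2 B, cmm]
  refine Finset.sum_congr rfl fun V _ => ?_
  rw [Finset.sum_comm]
  rfl

end Pool.SAR
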