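import Pool.Agent.SAR.StmtsL

/-!
MP_c21969_lc, project SAR, module LYI: Moebius inversion for `up`.
-/

set_option autoImplicit false

namespace Pool.SAR

open Matrix Finset
open scoped ComplexOrder

namespace LYIX

variable {ι : Type} [DecidableEq ι]

/-- the alternating sum over the interval `[B, D]` -/
theorem alt_interval [Fintype ι] (B D : Finset ι) :
    (∑ V ∈ univ.filter (fun V => B ⊆ V ∧ V ⊆ D), (-1 : ℝ) ^ (V \ B).card) =
      if D = B then 1 else 0 := by
  by_cases hBD : B ⊆ D
  · have h1 : (∑ V ∈ univ.filter (fun V => B ⊆ V ∧ V ⊆ D), (-1 : ℝ) ^ (V \ B).card) =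
        ∑ T ∈ (D \ B).powerset, (-1 : ℝ) ^ T.card := by
      refine Finset.sum_bij (fun V _ => V \ B) ?_ ?_ ?_ ?_
      · intro V hV
        rw [mem_filter] at hV
        rw [mem_powerset]
        exact sdiff_subset_sdiff hV.2.2 subset_rfl
      · intro V hV V' hV' h
        rw [mem_filter] at hV hV'
        rw [← sdiff_union_of_subset hV.2.1, ← sdiff_union_of_subset hV'.2.1, h]
      · intro T hT
        rw [mem_powerset] at hT
        refine ⟨T ∪ B, ?_, ?_⟩
        · rw [mem_filter]
          exact ⟨mem_univ _, subset_union_right,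
            union_subset (hT.trans sdiff_subset) hBD⟩
        · rw [union_sdiff_right, Finset.sdiff_eq_self_iff_disjoint]
          exact disjoint_of_subset_left hT sdiff_disjoint
      · intro V _
        rfl
    rw [h1]
    have h2 := Finset.sum_powerset_neg_one_pow_card (x := D \ B)
    have h3 : ((∑ T ∈ (D \ B).powerset, (-1 : ℤ) ^ T.card : ℤ) : ℝ) =
        ∑ T ∈ (D \ B).powerset, (-1 : ℝ) ^ T.card := by
      push_cast
      rfl
    rw [← h3, h2]
    by_cases h4 : D = B
    · subst h4
      simp
    · have h5 : ¬ D \ B = ∅ := by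
        intro h6
        rw [sdiff_eq_empty_iff_subset] at h6
        exact h4 (Subset.antisymm h6 hBD)
      rw [if_neg h5, if_neg h4, Int.cast_zero]
  · rw [if_neg fun h => hBD h.ge]
    refine Finset.sum_eq_zero fun V hV => ?_
    rw [mem_filter] at hV
    exact absurd (hV.2.1.trans hV.2.2) hBD

end LYIX

open LYIX in
theorem t_LYI : Stmt_LYI := by
  intro ι _ _ E _ _ h B
  have h1 : ∀ V : Finset ι, up h V = ∑ D : Finset ι, (if V ⊆ D then (1 : ℝ) else 0) • h D := by
    intro V
    unfold up
    rw [Finset.sum_filter]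
    refine Finset.sum_congr rfl fun D _ => ?_
    split_ifs <;> simp
  have h2 : (∑ V ∈ univ.filter (fun V => B ⊆ V), (-1 : ℝ) ^ (V \ B).card • up h V) =
      ∑ D : Finset ι, (∑ V ∈ univ.filter (fun V => B ⊆ V ∧ V ⊆ D),
        (-1 : ℝ) ^ (V \ B).card) • h D := by
    simp only [h1, Finset.smul_sum, smul_smul, Finset.sum_smul]
    rw [Finset.sum_comm]
    refine Finset.sum_congr rfl fun D _ => ?_
    rw [Finset.sum_filter, Finset.sum_filter]
    refine Finset.sum_congr rfl fun V _ => ?_
    by_cases h3 : B ⊆ V <;> by_cases h4 : V ⊆ D <;> simp [h3, h4]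
  rw [h2]
  simp only [alt_interval]
  simp

end Pool.SAR
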