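import Pool.Agent.SAR.StmtsL

/-!
MP_c21969_lc, project SAR, part 3: orthogonality and vanishing of the transformed vectors (LYO).
-/

set_option autoImplicit false

namespace Pool.SAR

open Matrix Finset
open scoped ComplexOrder

theorem t_LYO : Stmt_PR → Stmt_LYO := by
  intro hPR ι _ _ E _ _ _ q u y
  refine ⟨fun U i hi => ?_, fun ℓ hy U hU => ?_⟩
  · rw [up, sum_inner]
    refine Finset.sum_eq_zero fun B hB => ?_
    have hUB : U ⊆ B := (Finset.mem_filter.1 hB).2
    rw [hat, real_inner_smul_left, (hPR ι E u B).2.2.2.1 (y B) i (hUB hi), mul_zero]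
  · rw [up]
    refine Finset.sum_eq_zero fun B hB => ?_
    have hUB : U ⊆ B := (Finset.mem_filter.1 hB).2
    rw [hat, hy B (lt_of_lt_of_le hU (Finset.card_le_card hUB)), map_zero, smul_zero]

end Pool.SAR
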