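import Pool.Agent.SAR.Stmts

/-!
MP_c21969_lc, project SAR: congruence, linearity and values of the norm.
-/

set_option autoImplicit false

namespace Pool.SAR

open Matrix Finset

namespace NCX

variable {ι : Type}

theorem mob_add (h g : Finset ι → ℝ) (W : Finset ι) :
    mob (fun B => h B + g B) W = mob h W + mob g W := by
  unfold mob
  rw [← sum_add_distrib]
  exact sum_congr rfl fun V _ => by ring

theorem mob_mul (t : ℝ) (h : Finset ι → ℝ) (W : Finset ι) :
    mob (fun B => t * h B) W = t * mob h W := by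
  unfold mob
  rw [mul_sum]
  exact sum_congr rfl fun V _ => by ring

theorem nrm_nonneg (q : ℝ) (hq : 0 < q) (A : Finset ι) (h : Finset ι → ℝ) : 0 ≤ nrm q A h :=
  sum_nonneg fun _ _ => mul_nonneg (abs_nonneg _) (inv_nonneg.mpr (pow_nonneg hq.le _))

theorem nrm_add (q : ℝ) (hq : 0 < q) (A : Finset ι) (h g : Finset ι → ℝ) :
    nrm q A (fun B => h B + g B) ≤ nrm q A h + nrm q A g := by
  unfold nrm
  rw [← sum_add_distrib]
  refine sum_le_sum fun W _ => ?_
  rw [mob_add, ← add_mul]
  exact mul_le_mul_of_nonneg_right (abs_add_le _ _) (inv_nonneg.mpr (pow_nonneg hq.le _))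

theorem nrm_mul (q : ℝ) (A : Finset ι) (t : ℝ) (h : Finset ι → ℝ) :
    nrm q A (fun B => t * h B) = |t| * nrm q A h := by
  unfold nrm
  rw [mul_sum]
  refine sum_congr rfl fun W _ => ?_
  rw [mob_mul, abs_mul]
  ring

theorem nrm_single [DecidableEq ι] (q : ℝ) (A U : Finset ι) (hU : U ⊆ A) (t : ℝ) (h : Finset ι → ℝ)
    (hh : ∀ W ⊆ A, mob h W = if W = U then t else 0) : nrm q A h = |t| * (q ^ U.card)⁻¹ := by
  unfold nrm
  rw [sum_eq_single_of_mem U (mem_powerset.mpr hU)]
  · rw [hh U hU, if_pos rfl]
  · intro W hW hne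
    rw [hh W (mem_powerset.mp hW), if_neg hne, abs_zero, zero_mul]

end NCX

theorem t_NC : Stmt_NB → Stmt_NC := by
  intro hNB ι _ q hq hq1 A
  obtain ⟨-, huniq, -, -, -, -⟩ := hNB ι q hq hq1 A
  have hconst : ∀ t : ℝ, nrm q A (fun _ => t) = |t| := by
    intro t
    rw [NCX.nrm_single q A ∅ (empty_subset _) t (fun _ => t)]
    · rw [card_empty, pow_zero, inv_one, mul_one]
    · intro W hW
      refine huniq (fun _ => t) (fun W => if W = ∅ then t else 0) (fun B _ => ?_) W hW
      rw [sum_ite_eq' B.powerset ∅ (fun _ => t), if_pos (empty_mem_powerset B)]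
  refine ⟨?_, NCX.nrm_add q hq A, NCX.nrm_mul q A, ?_, NCX.nrm_nonneg q hq A, hconst, ?_⟩
  · intro h g hhg
    unfold nrm
    refine sum_congr rfl fun W hW => ?_
    have h1 : mob h W = mob g W := by
      unfold mob
      refine sum_congr rfl fun V hV => ?_
      rw [hhg V ((mem_powerset.mp hV).trans (mem_powerset.mp hW))]
    rw [h1]
  · intro κ s h
    classical
    induction s using Finset.induction_on with
    | empty =>
      simp only [sum_empty]
      rw [hconst 0, abs_zero]
    | insert a s ha ih =>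
      rw [sum_insert ha]
      calc nrm q A (fun B => ∑ k ∈ insert a s, h k B)
          = nrm q A (fun B => h a B + ∑ k ∈ s, h k B) := by
            congr 1
            funext B
            rw [sum_insert ha]
        _ ≤ nrm q A (h a) + nrm q A (fun B => ∑ k ∈ s, h k B) :=
            NCX.nrm_add q hq A (h a) (fun B => ∑ k ∈ s, h k B)
        _ ≤ nrm q A (h a) + ∑ k ∈ s, nrm q A (h k) := by linarith
  · intro j hj
    rw [NCX.nrm_single q A {j} (singleton_subset_iff.mpr hj) 1 (ind j)]
    · rw [card_singleton, pow_one, abs_one, one_mul]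
    · intro W hW
      refine huniq (ind j) (fun W => if W = {j} then 1 else 0) (fun B _ => ?_) W hW
      rw [sum_ite_eq' B.powerset {j} (fun _ => (1 : ℝ))]
      unfold ind
      by_cases hB : j ∈ B
      · rw [if_pos hB, if_pos (mem_powerset.mpr (singleton_subset_iff.mpr hB))]
      · rw [if_neg hB, if_neg]
        rw [mem_powerset, singleton_subset_iff]
        exact hB

end Pool.SAR
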