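import Pool.Agent.SAR.Stmts

/-!
MP_c21969_lc, project SAR, module NI: inverses in the algebra norm.
-/

set_option autoImplicit false

namespace Pool.SAR

theorem t_NI : Stmt_NB → Stmt_NC → Stmt_NM → Stmt_NI := by
  intro _ hC hM ι _ q hq0 hq1 A s r hsr hs
  obtain ⟨hcongr, hadd, -, -, hnn, hconst, -⟩ := hC ι q hq0 hq1 A
  have h1 : nrm q A r = nrm q A (fun B => 1 + (1 - s B) * r B) := by
    apply hcongr
    intro B hB
    have := hsr B hB
    linarith
  have h2 := hadd (fun _ => 1) (fun B => (1 - s B) * r B)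
  have h3 := hM ι q hq0 hq1 A (fun B => 1 - s B) r
  have h4 := hconst 1
  have h5 := hnn r
  rw [abs_one] at h4
  have h6 := mul_le_mul_of_nonneg_right hs h5
  linarith

end Pool.SAR
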