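import Pool.Agent.SAR.Stmts

/-!
MP_c21969_lc, project SAR: module NM (the norm is submultiplicative).
-/

set_option autoImplicit false

namespace Pool.SAR

open Matrix Finset
open scoped ComplexOrder

namespace NMX

variable {ι : Type} [DecidableEq ι]

/-- The convolution of two coefficient functions. -/
noncomputable def cv (A : Finset ι) (a b : Finset ι → ℝ) (U : Finset ι) : ℝ :=
  ∑ p ∈ (A.powerset ×ˢ A.powerset).filter (fun p => p.1 ∪ p.2 = U), a p.1 * b p.2

theorem cv_sum (A : Finset ι) (a b : Finset ι → ℝ) (B : Finset ι) (hB : B ⊆ A) :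
    (∑ W ∈ B.powerset, a W) * (∑ V ∈ B.powerset, b V) = ∑ U ∈ B.powerset, cv A a b U := by
  rw [Finset.sum_mul_sum, ← Finset.sum_product']
  rw [← Finset.sum_fiberwise_of_maps_to (s := B.powerset ×ˢ B.powerset) (t := B.powerset)
    (g := fun p => p.1 ∪ p.2)]
  · refine Finset.sum_congr rfl fun U hU => ?_
    unfold cv
    refine Finset.sum_congr ?_ fun _ _ => rfl
    ext p
    simp only [Finset.mem_filter, Finset.mem_product, Finset.mem_powerset] at hU ⊢
    constructor
    · rintro ⟨⟨h1, h2⟩, h3⟩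
      exact ⟨⟨h1.trans hB, h2.trans hB⟩, h3⟩
    · rintro ⟨⟨_, _⟩, h3⟩
      refine ⟨⟨?_, ?_⟩, h3⟩
      · exact (Finset.subset_union_left.trans h3.le).trans hU
      · exact (Finset.subset_union_right.trans h3.le).trans hU
  · intro p hp
    simp only [Finset.mem_product, Finset.mem_powerset] at hp ⊢
    exact Finset.union_subset hp.1 hp.2

theorem inv_le {q : ℝ} (q0 : 0 < q) (q1 : q ≤ 1) (W V : Finset ι) :
    (q ^ (W ∪ V).card)⁻¹ ≤ (q ^ W.card)⁻¹ * (q ^ V.card)⁻¹ := by
  rw [← mul_inv, ← pow_add]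
  apply inv_anti₀ (pow_pos q0 _)
  exact pow_le_pow_of_le_one q0.le q1 (Finset.card_union_le W V)

end NMX

theorem t_NM (hNB : Stmt_NB) : Stmt_NM := by
  intro ι _ q q0 q1 A h g
  obtain ⟨hinv, huni, -, -, -, -⟩ := hNB ι q q0 q1 A
  have hm : ∀ U ⊆ A, mob (fun B => h B * g B) U = NMX.cv A (mob h) (mob g) U := by
    apply huni
    intro B hB
    rw [hinv h B, hinv g B]
    exact NMX.cv_sum A (mob h) (mob g) B hB
  unfold nrm
  rw [Finset.sum_mul_sum, ← Finset.sum_product']
  rw [← Finset.sum_fiberwise_of_maps_to (s := A.powerset ×ˢ A.powerset) (t := A.powerset)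
    (g := fun p => p.1 ∪ p.2)]
  · refine Finset.sum_le_sum fun U hU => ?_
    rw [hm U (Finset.mem_powerset.mp hU)]
    unfold NMX.cv
    calc |∑ p ∈ (A.powerset ×ˢ A.powerset).filter (fun p => p.1 ∪ p.2 = U),
            mob h p.1 * mob g p.2| * (q ^ U.card)⁻¹
        ≤ (∑ p ∈ (A.powerset ×ˢ A.powerset).filter (fun p => p.1 ∪ p.2 = U),
            |mob h p.1 * mob g p.2|) * (q ^ U.card)⁻¹ := by
          apply mul_le_mul_of_nonneg_right (Finset.abs_sum_le_sum_abs _ _)
          exact inv_nonneg.mpr (pow_nonneg q0.le _)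
      _ = ∑ p ∈ (A.powerset ×ˢ A.powerset).filter (fun p => p.1 ∪ p.2 = U),
            |mob h p.1 * mob g p.2| * (q ^ U.card)⁻¹ := Finset.sum_mul _ _ _
      _ ≤ _ := by
          refine Finset.sum_le_sum fun p hp => ?_
          have hU' : p.1 ∪ p.2 = U := (Finset.mem_filter.mp hp).2
          rw [abs_mul, ← hU']
          calc |mob h p.1| * |mob g p.2| * (q ^ (p.1 ∪ p.2).card)⁻¹
              ≤ |mob h p.1| * |mob g p.2| * ((q ^ p.1.card)⁻¹ * (q ^ p.2.card)⁻¹) := by
                apply mul_le_mul_of_nonneg_left (NMX.inv_le q0 q1 p.1 p.2)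
                positivity
            _ = |mob h p.1| * (q ^ p.1.card)⁻¹ * (|mob g p.2| * (q ^ p.2.card)⁻¹) := by ring
  · intro p hp
    simp only [Finset.mem_product, Finset.mem_powerset] at hp ⊢
    exact Finset.union_subset hp.1 hp.2

end Pool.SAR
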