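import Pool.Agent.SAR.Stmts

/-!
MP_c21969_lc, project SAR: properties of the projections.
-/

set_option autoImplicit false

namespace Pool.SAR

open Matrix Finset

namespace PRX

variable {ι : Type} [Fintype ι] [DecidableEq ι] {E : Type} [NormedAddCommGroup E]
  [InnerProductSpace ℝ E] [FiniteDimensional ℝ E]

theorem orth (u : ι → E) (D : Finset ι) (y : E) (i : ι) (hi : i ∈ D) :
    inner ℝ (R u D y) (u i) = 0 := by
  have h : R u D y ∈ (Submodule.span ℝ (u '' (D : Set ι)))ᗮ :=
    Submodule.starProjection_apply_mem _ _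
  rw [real_inner_comm]
  exact h (u i) (Submodule.subset_span ⟨i, hi, rfl⟩)

theorem sub_mem (u : ι → E) (D : Finset ι) (y : E) :
    y - R u D y ∈ Submodule.span ℝ (u '' (D : Set ι)) := by
  have h : y - R u D y ∈ ((Submodule.span ℝ (u '' (D : Set ι)))ᗮ)ᗮ :=
    Submodule.sub_starProjection_mem_orthogonal _
  rwa [Submodule.orthogonal_orthogonal] at h

theorem char (u : ι → E) (D : Finset ι) (y z : E) (h1 : ∀ i ∈ D, inner ℝ z (u i) = 0)
    (h2 : y - z ∈ Submodule.span ℝ (u '' (D : Set ι))) : R u D y = z := by
  apply Submodule.eq_starProjection_of_mem_orthogonal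
  · rw [Submodule.mem_orthogonal]
    intro v hv
    induction hv using Submodule.span_induction with
    | mem x hx =>
      obtain ⟨i, hi, rfl⟩ := hx
      rw [real_inner_comm]
      exact h1 i hi
    | zero => exact inner_zero_left _
    | add x y _ _ hx hy => rw [inner_add_left, hx, hy, add_zero]
    | smul a x _ hx => rw [inner_smul_left, hx, mul_zero]
  · exact Submodule.le_orthogonal_orthogonal _ h2

theorem symm (u : ι → E) (D : Finset ι) (x y : E) :
    inner ℝ (R u D x) y = inner ℝ x (R u D y) :=
  Submodule.inner_starProjection_left_eq_right _ _ _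

theorem idem (u : ι → E) (D : Finset ι) (y : E) : R u D (R u D y) = R u D y := by
  apply char
  · exact orth u D y
  · rw [sub_self]
    exact Submodule.zero_mem _

theorem idem2 (u : ι → E) (D : Finset ι) (x y : E) :
    inner ℝ (R u D x) (R u D y) = inner ℝ x (R u D y) := by
  rw [symm, idem]

theorem mono (D D' : Finset ι) (h : D ⊆ D') (u : ι → E) :
    Submodule.span ℝ (u '' (D : Set ι)) ≤ Submodule.span ℝ (u '' (D' : Set ι)) :=
  Submodule.span_mono (Set.image_mono (by exact_mod_cast h))

theorem last (u : ι → E) (D : Finset ι) (y : E) (k : ι) :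
    (‖R u D y‖ ^ 2 - ‖R u (insert k D) y‖ ^ 2) * ‖R u D (u k)‖ ^ 2 =
      (inner ℝ (R u D y) (u k)) ^ 2 := by
  have hs : inner ℝ (R u D y) (R u D (u k)) = inner ℝ (R u D y) (u k) := by
    rw [← symm, idem]
  by_cases hw : R u D (u k) = 0
  · rw [hw, inner_zero_right] at hs
    rw [← hs, hw, norm_zero]
    ring
  · have hw' : ‖R u D (u k)‖ ^ 2 ≠ 0 := pow_ne_zero 2 (norm_ne_zero_iff.mpr hw)
    have hk : inner ℝ (R u D (u k)) (u k) = ‖R u D (u k)‖ ^ 2 := by
      rw [← real_inner_self_eq_norm_sq, idem2, symm]
    have e : R u (insert k D) y =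
        R u D y - (inner ℝ (R u D y) (u k) / ‖R u D (u k)‖ ^ 2) • R u D (u k) := by
      apply char
      · intro i hi
        rw [inner_sub_left, inner_smul_left]
        rcases Finset.mem_insert.mp hi with rfl | hi
        · rw [hk]
          simp only [conj_trivial]
          field_simp
          ring
        · rw [orth u D y i hi, orth u D (u k) i hi, mul_zero, sub_zero]
      · have h1 : y - (R u D y - (inner ℝ (R u D y) (u k) / ‖R u D (u k)‖ ^ 2) • R u D (u k)) =
            (y - R u D y) + (inner ℝ (R u D y) (u k) / ‖R u D (u k)‖ ^ 2) •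
              (u k - (u k - R u D (u k))) := by
          rw [sub_sub_cancel]
          abel
        rw [h1]
        have hle := mono D (insert k D) (Finset.subset_insert k D) u
        refine Submodule.add_mem _ (hle (sub_mem u D y)) (Submodule.smul_mem _ _
          (Submodule.sub_mem _ (Submodule.subset_span ⟨k, ?_, rfl⟩) (hle (sub_mem u D (u k)))))
        exact_mod_cast Finset.mem_insert_self k D
    rw [e, norm_sub_sq_real, inner_smul_right, hs, norm_smul, mul_pow, Real.norm_eq_abs, sq_abs]
    field_simp
    ring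

end PRX

open PRX in
theorem t_PR : Stmt_PR := by
  intro ι _ _ E _ _ _ u D
  refine ⟨symm u D, idem2 u D, ?_, orth u D, ?_, ?_, ?_, last u D⟩
  · intro i hi
    apply char
    · intro j _
      exact inner_zero_left _
    · rw [sub_zero]
      exact Submodule.subset_span ⟨i, hi, rfl⟩
  · intro y hy
    apply char u D y y hy
    rw [sub_self]
    exact Submodule.zero_mem _
  · intro y
    have h := sub_mem u D y
    rw [Submodule.mem_span_image_finset_iff_exists_fun] at h
    obtain ⟨c, hc⟩ := h
    refine ⟨fun j => if h : j ∈ D then c ⟨j, h⟩ else 0, fun j hj => dif_neg hj, ?_⟩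
    have h1 : ∑ j ∈ D, (if h : j ∈ D then c ⟨j, h⟩ else 0) • u j = ∑ j : D, c j • u j := by
      rw [← Finset.sum_attach]
      exact Finset.sum_congr rfl fun j _ => by rw [dif_pos j.2]
    rw [h1, hc, sub_sub_cancel]
  · intro D' hD y
    apply char
    · exact orth u D' y
    · have h1 : R u D y - R u D' y = (y - R u D' y) - (y - R u D y) := by abel
      rw [h1]
      exact Submodule.sub_mem _ (sub_mem u D' y) (mono D D' hD u (sub_mem u D y))

end Pool.SAR
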