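import Pool.Agent.SAR.Stmts2

/-!
MP_c21969_lc, project SAR, part 2: the top level is exact.
-/

set_option autoImplicit false

namespace Pool.SAR

open Matrix Finset
open scoped ComplexOrder

theorem t_XE : Stmt_XS → Stmt_XZ → Stmt_XV → Stmt_XE := by
  intro hXS hXZ hXV 𝕜 _ ι ρ _ _ _ m Φ hm hR
  obtain ⟨c, hc, hR⟩ := hR
  refine ⟨c, hc, fun Y hY => ?_⟩
  have hsum := hXS 𝕜 ι m Y hY
  have hA : ∀ A : Finset ι, c ^ 2 * RCLike.re (Y A Aᶜ).trace ≤ val Φ (Y A Aᶜ) ∧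
      val Φ (Y A Aᶜ) ≤ 4 * c ^ 2 * RCLike.re (Y A Aᶜ).trace := by
    intro A
    by_cases hAm : m < A.card
    · rw [hXZ 𝕜 ι m Y hY A hAm]
      unfold val
      rw [Matrix.mul_zero, Matrix.trace_zero, map_zero]
      simp
    · obtain ⟨S, hAS, hS⟩ := Finset.exists_superset_card_eq (not_lt.mp hAm) hm
      have hcard : (A ∪ Aᶜ).card ≤ Fintype.card ι := Finset.card_le_univ _
      have hd : Disjoint A Aᶜ := disjoint_compl_right
      refine hXV 𝕜 ι ρ Φ A (c ^ 2) (4 * c ^ 2) (fun x hx => ?_) (Y A Aᶜ)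
        (hY.psd A Aᶜ hd hcard) fun i hi j => hY.zero A Aᶜ hd hcard i (Finset.mem_compl.mpr hi) j
      exact hR S hS x fun i hi => hx i fun h => hi (hAS h)
  have hv : val Φ (Y ∅ ∅) = ∑ A : Finset ι, val Φ (Y A Aᶜ) := by
    rw [hsum]
    unfold val
    rw [Matrix.mul_sum, Matrix.trace_sum, map_sum]
  have ht : ∑ A : Finset ι, RCLike.re (Y A Aᶜ).trace = 1 := by
    have h := hY.trace
    rw [hsum, Matrix.trace_sum] at h
    rw [← map_sum, h, RCLike.one_re]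
  rw [hv]
  constructor
  · calc c ^ 2 = c ^ 2 * ∑ A : Finset ι, RCLike.re (Y A Aᶜ).trace := by rw [ht, mul_one]
      _ = ∑ A : Finset ι, c ^ 2 * RCLike.re (Y A Aᶜ).trace := Finset.mul_sum _ _ _
      _ ≤ _ := Finset.sum_le_sum fun A _ => (hA A).1
  · calc _ ≤ ∑ A : Finset ι, 4 * c ^ 2 * RCLike.re (Y A Aᶜ).trace :=
        Finset.sum_le_sum fun A _ => (hA A).2
      _ = 4 * c ^ 2 * ∑ A : Finset ι, RCLike.re (Y A Aᶜ).trace := (Finset.mul_sum _ _ _).symm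
      _ = 4 * c ^ 2 := by rw [ht, mul_one]

end Pool.SAR
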