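import Pool.Agent.SAR.Stmts2

/-!
# Module XV: the value of a positive semidefinite matrix supported on `A`
-/

set_option autoImplicit false

namespace Pool.SAR

open Matrix Finset
open scoped ComplexOrder

namespace XVX

variable {𝕜 : Type} [RCLike 𝕜] {ι ρ κ : Type} [Fintype ρ]

theorem star_mul_self_eq (z : 𝕜) : star z * z = ((‖z‖ ^ 2 : ℝ) : 𝕜) := by
  have h := RCLike.conj_mul z
  rw [RCLike.ofReal_pow]
  exact h

theorem diag_eq (C : Matrix ρ κ 𝕜) (k : κ) : (Cᴴ * C) k k = ((∑ r, ‖C r k‖ ^ 2 : ℝ) : 𝕜) := by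
  rw [Matrix.mul_apply, RCLike.ofReal_sum]
  exact Finset.sum_congr rfl fun r _ => star_mul_self_eq _

open scoped MatrixOrder in
theorem fac [Fintype ι] {M : Matrix ι ι 𝕜} (hM : M.PosSemidef) :
    ∃ B : Matrix ι ι 𝕜, M = Bᴴ * B := by
  classical
  obtain ⟨B, hB⟩ := CStarAlgebra.nonneg_iff_eq_star_mul_self.mp hM.nonneg
  exact ⟨B, hB⟩

theorem tr_eq [Fintype κ] (C : Matrix ρ κ 𝕜) : RCLike.re (Cᴴ * C).trace = ∑ k, ∑ r, ‖C r k‖ ^ 2 := by
  have h : (Cᴴ * C).trace = ((∑ k, ∑ r, ‖C r k‖ ^ 2 : ℝ) : 𝕜) := by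
    rw [RCLike.ofReal_sum]
    exact Finset.sum_congr rfl fun k _ => diag_eq C k
  rw [h, RCLike.ofReal_re]

end XVX

open XVX in
theorem t_XV : Stmt_XV := by
  intro 𝕜 _ ι ρ _ _ _ Φ A a b hab M hM h0
  obtain ⟨B, rfl⟩ := fac hM
  have hB : ∀ k, ∀ i, i ∉ A → B k i = 0 := by
    intro k i hi
    have h1 := h0 i hi i
    rw [diag_eq] at h1
    have h2 : ∑ r, ‖B r i‖ ^ 2 = 0 := by
      exact_mod_cast h1
    have h3 := (Finset.sum_eq_zero_iff_of_nonneg fun r _ => sq_nonneg ‖B r i‖).1 h2 k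
      (Finset.mem_univ k)
    exact norm_eq_zero.1 (pow_eq_zero_iff (two_ne_zero)|>.1 h3)
  have htr : RCLike.re (Bᴴ * B).trace = ∑ k, ∑ i, ‖star (B k i)‖ ^ 2 := by
    rw [tr_eq, Finset.sum_comm]
    exact Finset.sum_congr rfl fun k _ => Finset.sum_congr rfl fun i _ => by rw [norm_star]
  have hval : val Φ (Bᴴ * B) = ∑ k, ∑ r, ‖(Φ *ᵥ (fun i => star (B k i))) r‖ ^ 2 := by
    have h1 : (Φᴴ * Φ * (Bᴴ * B)).trace = ((Φ * Bᴴ)ᴴ * (Φ * Bᴴ)).trace := by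
      rw [Matrix.conjTranspose_mul, Matrix.conjTranspose_conjTranspose, ← Matrix.mul_assoc,
        Matrix.trace_mul_comm, ← Matrix.mul_assoc, ← Matrix.mul_assoc, ← Matrix.mul_assoc]
    unfold val
    rw [h1, tr_eq]
    rfl
  have hx : ∀ k, ∀ i ∉ A, (fun i => star (B k i)) i = 0 := by
    intro k i hi
    show star (B k i) = 0
    rw [hB k i hi, star_zero]
  rw [htr, hval, Finset.mul_sum, Finset.mul_sum]
  exact ⟨Finset.sum_le_sum fun k _ => (hab _ (hx k)).1,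
    Finset.sum_le_sum fun k _ => (hab _ (hx k)).2⟩

end Pool.SAR
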