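import Pool.Agent.SAR.Stmts2

set_option autoImplicit false

/-!
# Module XZ: sets with more than `m` elements
-/

namespace Pool.SAR

open Matrix Finset
open scoped ComplexOrder

theorem t_XZ : Stmt_XZ := by
  intro 𝕜 _ ι _ _ m Y L A hA
  obtain ⟨k, hk⟩ : A.Nonempty := Finset.card_pos.1 (by omega)
  have hcard : (A.erase k).card + 1 = A.card := Finset.card_erase_add_one hk
  have hdis : Disjoint (A.erase k) Aᶜ :=
    (disjoint_compl_right (a := A)).mono_left (Finset.erase_subset k A)
  have hun : (A.erase k ∪ Aᶜ)ᶜ = {k} := by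
    ext j
    simp only [Finset.mem_compl, Finset.mem_union, Finset.mem_erase, Finset.mem_singleton]
    constructor
    · intro h
      by_contra hj
      apply h
      by_cases hjA : j ∈ A
      · exact Or.inl ⟨hj, hjA⟩
      · exact Or.inr hjA
    · rintro rfl h
      rcases h with h | h
      · exact h.1 rfl
      · exact h hk
  have hc2 : (A.erase k ∪ Aᶜ).card + 1 ≤ Fintype.card ι := by
    have h1 := Finset.card_add_card_compl (A.erase k ∪ Aᶜ)
    rw [hun, Finset.card_singleton] at h1
    omega
  have h1 := L.sparse (A.erase k) Aᶜ hdis hc2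
  rw [hun, Finset.sum_singleton, Finset.insert_erase hk] at h1
  have h2 := L.psd (A.erase k) Aᶜ hdis (by omega)
  have h3 := L.psd A Aᶜ disjoint_compl_right (by
    rw [Finset.union_compl]
    exact le_of_eq Finset.card_univ)
  have h4 : (0 : ℝ) ≤ ((A.erase k).card : ℝ) - m := by
    have : m ≤ (A.erase k).card := by omega
    rw [sub_nonneg]
    exact_mod_cast this
  have h5 : ((((A.erase k).card : ℝ) - m) • Y (A.erase k) Aᶜ).PosSemidef := h2.smul h4
  have h6 := h1.add h5
  have h7 : ((m : ℝ) - ((A.erase k).card : ℝ)) • Y (A.erase k) Aᶜ - Y A Aᶜ +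
      (((A.erase k).card : ℝ) - m) • Y (A.erase k) Aᶜ = - Y A Aᶜ := by
    rw [sub_add_eq_add_sub, ← add_smul]
    have : (m : ℝ) - ((A.erase k).card : ℝ) + (((A.erase k).card : ℝ) - m) = 0 := by ring
    rw [this, zero_smul, zero_sub]
  rw [h7] at h6
  rw [← h3.trace_eq_zero_iff]
  have h8 := h3.trace_nonneg
  have h9 := h6.trace_nonneg
  rw [Matrix.trace_neg] at h9
  exact le_antisymm (neg_nonneg.1 h9) h8

end Pool.SAR
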