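import Pool.Agent.SAR.Stmts

/-!
AC: arithmetic of the parameters.
-/

set_option autoImplicit false

namespace Pool.SAR

theorem t_AC : Stmt_AC := by
  intro m ℓ D hD hl hmD h
  have D1 : (1 : ℝ) ≤ D := by exact_mod_cast hD
  have l1 : (1 : ℝ) ≤ ℓ := by exact_mod_cast hl
  have mD : (m : ℝ) ≤ D := by exact_mod_cast hmD
  have h' : 131072 * (ℓ : ℝ) ^ 2 * (D : ℝ) ^ 2 ≤ (m : ℝ) ^ 3 := by exact_mod_cast h
  have m0 : (0 : ℝ) ≤ m := Nat.cast_nonneg m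
  have D0 : (0 : ℝ) < D := by linarith
  have D2 : (0 : ℝ) < (D : ℝ) ^ 2 := by positivity
  -- `131072 ℓ² ≤ m`
  have k1 : 131072 * (ℓ : ℝ) ^ 2 ≤ m := by
    have e1 : (m : ℝ) ^ 3 ≤ m * (D : ℝ) ^ 2 := by
      have e2 : (m : ℝ) ^ 2 ≤ (D : ℝ) ^ 2 := by nlinarith
      calc (m : ℝ) ^ 3 = m * (m : ℝ) ^ 2 := by ring
        _ ≤ m * (D : ℝ) ^ 2 := mul_le_mul_of_nonneg_left e2 m0
    exact le_of_mul_le_mul_right (h'.trans e1) D2
  have l2 : (ℓ : ℝ) ≤ (ℓ : ℝ) ^ 2 := by nlinarith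
  have m1 : (0 : ℝ) < m := by nlinarith
  have k2 : (9 : ℝ) ≤ m := by nlinarith
  have k3 : (4 : ℝ) * ℓ ≤ m := by nlinarith
  have k4 : 131072 * (D : ℝ) ^ 2 ≤ (m : ℝ) ^ 3 := by nlinarith
  have k5 : 131072 * (ℓ : ℝ) * (D : ℝ) ^ 2 ≤ (m : ℝ) ^ 3 := by nlinarith
  have k6 : 131072 * (D : ℝ) ≤ (m : ℝ) ^ 2 := by
    have e1 : 131072 * (D : ℝ) * m ≤ (m : ℝ) ^ 2 * m := by nlinarith
    exact le_of_mul_le_mul_right e1 m1
  refine ⟨by exact_mod_cast k2, by exact_mod_cast k3, by positivity, ?_, ?_, ?_, ?_, ?_, ?_⟩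
  · rw [div_le_iff₀ (by positivity)]
    linarith
  · have e1 : (8 * (ℓ : ℝ) * Real.sqrt (2 / m)) ^ 2 ≤ ((m : ℝ) / (32 * D)) ^ 2 := by
      rw [mul_pow, Real.sq_sqrt (by positivity), div_pow, mul_pow, mul_pow, ← mul_div_assoc,
        div_le_div_iff₀ m1 (by positivity)]
      nlinarith
    exact le_of_sq_le_sq e1 (by positivity)
  · rw [← mul_div_assoc, div_le_iff₀ m1]
    nlinarith
  · have e1 : 128 * (ℓ : ℝ) * (9 * (D : ℝ) / m) = 1152 * ℓ * D / m := by ring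
    have e2 : (m : ℝ) * (m / (32 * D)) = (m : ℝ) ^ 2 / (32 * D) := by ring
    rw [e1, e2, div_le_div_iff₀ m1 (by positivity)]
    nlinarith
  · rw [le_div_iff₀ m1]
    linarith
  · have e1 : 4 * (((8 * D : ℕ) : ℝ) / (m : ℝ) + 1) = (32 * D + 4 * m) / m := by
      push_cast
      field_simp
      ring
    rw [e1]
    exact div_le_div_of_nonneg_right (by linarith) m0

end Pool.SAR
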