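import Mathlib

/-!
MP_c21969_lc, project SAR: semidefinite Sherali-Adams tests for the restricted isometry property.
Definitions.
-/

set_option autoImplicit false

namespace Pool.SAR

open Matrix Finset
open scoped ComplexOrder

section Tests

variable {𝕜 : Type} [RCLike 𝕜] {ι ρ : Type} [Fintype ι] [DecidableEq ι] [Fintype ρ]

/-- Level-`ℓ` lift for sparsity `m`.  `Y A C` stands for the expectation of
`1[A ⊆ supp x, supp x ∩ C = ∅] x x*` for a random unit vector `x` with at most `m` nonzero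
coordinates. -/
structure Lift (m ℓ : ℕ) (Y : Finset ι → Finset ι → Matrix ι ι 𝕜) : Prop where
  psd : ∀ A C : Finset ι, Disjoint A C → (A ∪ C).card ≤ ℓ → (Y A C).PosSemidef
  split : ∀ A C : Finset ι, Disjoint A C → (A ∪ C).card + 1 ≤ ℓ → ∀ k ∉ A ∪ C,
    Y A C = Y (insert k A) C + Y A (insert k C)
  zero : ∀ A C : Finset ι, Disjoint A C → (A ∪ C).card ≤ ℓ → ∀ i ∈ C, ∀ j, Y A C i j = 0
  trace : (Y ∅ ∅).trace = 1
  sparse : ∀ A C : Finset ι, Disjoint A C → (A ∪ C).card + 1 ≤ ℓ →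
    (((m : ℝ) - (A.card : ℝ)) • Y A C - ∑ k ∈ (A ∪ C)ᶜ, Y (insert k A) C).PosSemidef

/-- The value `tr (Φ* Φ X)`. -/
noncomputable def val (Φ : Matrix ρ ι 𝕜) (X : Matrix ι ι 𝕜) : ℝ :=
  RCLike.re (Φᴴ * Φ * X).trace

/-- The level-`ℓ` test accepts `Φ`: for some `c > 0` the value of every level-`ℓ` lift is between
`c ^ 2` and `4 * c ^ 2`. -/
def Cert (m ℓ : ℕ) (Φ : Matrix ρ ι 𝕜) : Prop :=
  ∃ c : ℝ, 0 < c ∧ ∀ Y : Finset ι → Finset ι → Matrix ι ι 𝕜, Lift m ℓ Y →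
    c ^ 2 ≤ val Φ (Y ∅ ∅) ∧ val Φ (Y ∅ ∅) ≤ 4 * c ^ 2

/-- The restricted isometry property of order `m` with distortion `2`. -/
def RIP (m : ℕ) (Φ : Matrix ρ ι 𝕜) : Prop :=
  ∃ c : ℝ, 0 < c ∧ ∀ S : Finset ι, S.card = m → ∀ x : ι → 𝕜, (∀ i ∉ S, x i = 0) →
    c ^ 2 * ∑ i, ‖x i‖ ^ 2 ≤ ∑ a, ‖(Φ *ᵥ x) a‖ ^ 2 ∧
      ∑ a, ‖(Φ *ᵥ x) a‖ ^ 2 ≤ 4 * c ^ 2 * ∑ i, ‖x i‖ ^ 2

/-- The lift of a single vector `x`. -/
noncomputable def vlift (x : ι → 𝕜) (A C : Finset ι) : Matrix ι ι 𝕜 :=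
  open Classical in
  if (∀ i ∈ A, x i ≠ 0) ∧ (∀ i ∈ C, x i = 0) then vecMulVec x (star x) else 0

end Tests

section Algebra

variable {ι : Type} [DecidableEq ι]

/-- The signed sum over the subsets of `A`. -/
def Lf (q : ℝ) (A : Finset ι) (h : Finset ι → ℝ) : ℝ :=
  ∑ B ∈ A.powerset, (-(1 - q)) ^ B.card * h B

/-- The Moebius transform of a function of finite sets. -/
def mob (h : Finset ι → ℝ) (W : Finset ι) : ℝ :=
  ∑ V ∈ W.powerset, (-1) ^ (W.card + V.card) * h V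

/-- The algebra norm of a function of the subsets of `A`. -/
noncomputable def nrm (q : ℝ) (A : Finset ι) (h : Finset ι → ℝ) : ℝ :=
  ∑ W ∈ A.powerset, |mob h W| * (q ^ W.card)⁻¹

/-- The indicator function of `j ∈ B`. -/
def ind (j : ι) (B : Finset ι) : ℝ := if j ∈ B then 1 else 0

end Algebra

section Geometry

variable {ι : Type} [Fintype ι] [DecidableEq ι] {E : Type} [NormedAddCommGroup E]
  [InnerProductSpace ℝ E] [FiniteDimensional ℝ E]

/-- The orthogonal projection onto the orthogonal complement of the `u i`, `i ∈ D`. -/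
noncomputable def R (u : ι → E) (D : Finset ι) : E →L[ℝ] E :=
  ((Submodule.span ℝ (u '' (D : Set ι)))ᗮ).starProjection

/-- Unit vectors of small coherence. -/
structure Sys (ℓ : ℕ) (q δ : ℝ) (u : ι → E) : Prop where
  q0 : 0 < q
  q1 : q ≤ 1 / 2
  lpos : 1 ≤ ℓ
  unit : ∀ i, ‖u i‖ = 1
  d0 : 0 ≤ δ
  coh : ∀ i j, i ≠ j → |inner ℝ (u i) (u j)| ≤ δ
  small : 8 * (ℓ : ℝ) * δ ≤ q

/-- Coefficient functions: `c j B` (`B ⊆ A`) are the coefficients of the projection of `y` on the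
span of the `u j`, `j ∈ B ∪ C`. -/
structure Coef (u : ι → E) (A C : Finset ι) (y : E) (c : ι → Finset ι → ℝ) : Prop where
  eq : ∀ B ⊆ A, R u (B ∪ C) y = y - ∑ j ∈ A ∪ C, c j B • u j
  zero : ∀ B ⊆ A, ∀ j, j ∉ B ∪ C → c j B = 0

/-- The lift built from the vectors `u i`. -/
noncomputable def YR (q : ℝ) (u : ι → E) (A C : Finset ι) : Matrix ι ι ℝ :=
  Matrix.of fun i j => (Fintype.card ι : ℝ)⁻¹ * (1 - q) ^ C.card *
    Lf q A (fun B => inner ℝ (u i) (R u (B ∪ C) (u j)))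

end Geometry

section Ext

variable {ι κ : Type} [Fintype ι] [DecidableEq ι] [Fintype κ] [DecidableEq κ]

/-- Extension by zero of a real lift along an embedding `e : κ ↪ ι`, with entries in `𝕜`. -/
noncomputable def ext (𝕜 : Type) [RCLike 𝕜] (e : κ ↪ ι)
    (Y : Finset κ → Finset κ → Matrix κ κ ℝ) (A C : Finset ι) : Matrix ι ι 𝕜 :=
  open Classical in
  if A ⊆ univ.map e then
    Matrix.of fun i j => ∑ k : κ, ∑ l : κ, if e k = i ∧ e l = j then
      ((Y (univ.filter fun k => e k ∈ A) (univ.filter fun k => e k ∈ C) k l : ℝ) : 𝕜) else 0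
  else 0

end Ext

end Pool.SAR
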