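import Pool.Agent.SAR.Defs

/-!
MP_c21969_lc, project SAR, part 3: Lasserre (sum of squares) tests for the restricted isometry
property.  Definitions.
-/

set_option autoImplicit false

namespace Pool.SAR

open Matrix Finset
open scoped ComplexOrder

section Tests

variable {𝕜 : Type} [RCLike 𝕜] {ι ρ : Type} [Fintype ι] [DecidableEq ι] [Fintype ρ]

/-- The moment matrix of order `r`: rows and columns are indexed by the monomials `s_A x_i` with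
`A.card ≤ r`, and the entry at `(A, i)`, `(B, j)` is the `(i, j)` entry of `Z (A ∪ B)`. -/
def mom (r : ℕ) (Z : Finset ι → Matrix ι ι 𝕜) :
    Matrix ({A : Finset ι // A.card ≤ r} × ι) ({A : Finset ι // A.card ≤ r} × ι) 𝕜 :=
  Matrix.of fun a b => Z (a.1.1 ∪ b.1.1) a.2 b.2

/-- Level-`ℓ` Lasserre pseudo-moments for sparsity `m`.  `Z D` stands for the expectation of
`s_D x x*`, where `s` is the indicator vector of the support of a random unit vector `x` with at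
most `m` nonzero coordinates and `s_D = ∏_{i ∈ D} s_i`. -/
structure Las (m ℓ : ℕ) (Z : Finset ι → Matrix ι ι 𝕜) : Prop where
  psd : (mom ℓ Z).PosSemidef
  loc : ∀ r : ℕ, r + 1 ≤ ℓ →
    (mom r (fun D => (m : ℝ) • Z D - ∑ k, Z (insert k D))).PosSemidef
  supp : ∀ (D : Finset ι) (i j : ι), (insert i D).card ≤ 2 * ℓ → Z (insert i D) i j = Z D i j
  trace : (Z ∅).trace = 1

/-- The level-`ℓ` Lasserre test accepts `Φ`: for some `c > 0` the value of all level-`ℓ`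
pseudo-moments is between `c ^ 2` and `4 * c ^ 2`. -/
def LasCert (m ℓ : ℕ) (Φ : Matrix ρ ι 𝕜) : Prop :=
  ∃ c : ℝ, 0 < c ∧ ∀ Z : Finset ι → Matrix ι ι 𝕜, Las m ℓ Z →
    c ^ 2 ≤ val Φ (Z ∅) ∧ val Φ (Z ∅) ≤ 4 * c ^ 2

/-- The semidefinite Sherali-Adams lift given by pseudo-moments:
`s_A ∏_{k ∈ C} (1 - s_k) = ∑_{B ⊆ C} (-1)^|B| s_{A ∪ B}`. -/
def toLift (Z : Finset ι → Matrix ι ι 𝕜) (A C : Finset ι) : Matrix ι ι 𝕜 :=
  ∑ B ∈ C.powerset, ((-1 : ℝ) ^ B.card) • Z (A ∪ B)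

end Tests

section Functional

variable {ι : Type} [DecidableEq ι]

/-- The functional `Ω_{V,V'}` on functions of finite sets. -/
def Om (ρ : ℝ) (V V' : Finset ι) (f : Finset ι → ℝ) : ℝ :=
  ∑ B ∈ V.powerset, ∑ B' ∈ V'.powerset,
    (-1) ^ ((V \ B).card + (V' \ B').card) * (1 + ρ) ^ (B ∩ B').card * f (B ∪ B')

end Functional

section GeometryL

variable {ι : Type} [Fintype ι] [DecidableEq ι] {E : Type} [NormedAddCommGroup E]
  [InnerProductSpace ℝ E] [FiniteDimensional ℝ E]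

/-- The transformed vectors `(1 - q)^|B| R_B y_B`. -/
noncomputable def hat (q : ℝ) (u : ι → E) (y : Finset ι → E) (B : Finset ι) : E :=
  (1 - q) ^ B.card • R u B (y B)

/-- Sums over supersets. -/
noncomputable def up (h : Finset ι → E) (U : Finset ι) : E :=
  ∑ B ∈ univ.filter (fun B => U ⊆ B), h B

/-- The quadratic form `∑_{B, B'} (1-q)^|B ∪ B'| ⟪y_B, R_{B ∪ B'} y_B'⟫`. -/
noncomputable def FF (q : ℝ) (u : ι → E) (y : Finset ι → E) : ℝ :=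
  ∑ B : Finset ι, ∑ B' : Finset ι,
    (1 - q) ^ (B ∪ B').card * inner ℝ (y B) (R u (B ∪ B') (y B'))

/-- The diagonal quadratic form `∑_V ρ^|V| ‖Y_V‖²`. -/
noncomputable def QQ (ρ : ℝ) (Y : Finset ι → E) : ℝ :=
  ∑ V : Finset ι, ρ ^ V.card * ‖Y V‖ ^ 2

/-- Multiplication by `s_k` in the basis `∏_{i ∈ B} (1 - s_i)`. -/
def mulS (k : ι) (y : Finset ι → E) (B : Finset ι) : E :=
  if k ∈ B then -y (B.erase k) else y B

/-- The vector `R_B u_k / ‖R_B u_k‖²`. -/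
noncomputable def gv (u : ι → E) (k : ι) (B : Finset ι) : E :=
  (‖R u B (u k)‖ ^ 2)⁻¹ • R u B (u k)

/-- The vectors `H_U = ∑_{U ⊆ B, k ∉ B} ⟪h_B, u_k⟫ g_B`. -/
noncomputable def HH (q : ℝ) (u : ι → E) (y : Finset ι → E) (k : ι) (U : Finset ι) : E :=
  ∑ B ∈ univ.filter (fun B => U ⊆ B ∧ k ∉ B), inner ℝ (hat q u y B) (u k) • gv u k B

/-- The vectors `θ(U, V) = ∑_{U ⊆ B ⊆ V} (-1)^|V \ B| g_B`. -/
noncomputable def th (u : ι → E) (k : ι) (U V : Finset ι) : E :=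
  ∑ B ∈ univ.filter (fun B => U ⊆ B ∧ B ⊆ V), (-1 : ℝ) ^ (V \ B).card • gv u k B

/-- The vectors `(-1)^|B| ∑_{B ⊆ A} c_{A,i} u_i`: the basis change from `s_A` to
`∏_{i ∈ B} (1 - s_i)`. -/
noncomputable def cy {r : ℕ} (u : ι → E) (c : {A : Finset ι // A.card ≤ r} × ι → ℝ)
    (B : Finset ι) : E :=
  (-1 : ℝ) ^ B.card • ∑ p ∈ univ.filter (fun p : {A : Finset ι // A.card ≤ r} × ι => B ⊆ p.1.1),
    c p • u p.2

end GeometryL

/-- The conditions on the parameters. -/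
structure Par (N ℓ m : ℕ) (q τ g Λ : ℝ) : Prop where
  N1 : 1 ≤ N
  l1 : 1 ≤ ℓ
  q0 : 0 < q
  q1 : q ≤ 1 / 2
  t0 : 0 < τ
  tq : τ ≤ q
  g1 : 1 ≤ g
  L0 : 0 ≤ Λ
  bal : τ ^ 2 * N ≤ q * g ^ 2
  off : 3 * 2 ^ ℓ * g ^ (2 * ℓ) * Λ ≤ 4 * τ * N
  loc : 2 * q * N + 2 * ℓ + 27 * Λ * 2 ^ ℓ * g ^ (2 * ℓ) ≤ m / 3

end Pool.SAR
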