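import Pool.Agent.SAR.Stmts

/-!
MP_c21969_lc, project SAR, module HS: the lift of a single vector.
-/

set_option autoImplicit false

namespace Pool.SAR

open Matrix Finset
open scoped ComplexOrder

namespace HSX

variable {𝕜 : Type} [RCLike 𝕜] {ι : Type} [Fintype ι] [DecidableEq ι]

/-- the condition in the definition of `vlift` -/
def Cd (x : ι → 𝕜) (A C : Finset ι) : Prop := (∀ i ∈ A, x i ≠ 0) ∧ (∀ i ∈ C, x i = 0)

theorem vlift_pos {x : ι → 𝕜} {A C : Finset ι} (h : Cd x A C) :
    vlift x A C = vecMulVec x (star x) := by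
  classical
  unfold vlift
  exact if_pos h

theorem vlift_neg {x : ι → 𝕜} {A C : Finset ι} (h : ¬ Cd x A C) : vlift x A C = 0 := by
  classical
  unfold vlift
  exact if_neg h

theorem cd_insA {x : ι → 𝕜} {A C : Finset ι} {k : ι} :
    Cd x (insert k A) C ↔ x k ≠ 0 ∧ Cd x A C := by
  unfold Cd
  rw [Finset.forall_mem_insert]
  tauto

theorem cd_insC {x : ι → 𝕜} {A C : Finset ι} {k : ι} :
    Cd x A (insert k C) ↔ x k = 0 ∧ Cd x A C := by
  unfold Cd
  rw [Finset.forall_mem_insert]
  tauto

end HSX

open HSX in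
theorem t_HS : Stmt_HS := by
  classical
  intro 𝕜 _ ι _ _ m ℓ x hx hS
  obtain ⟨S, hSm, hS0⟩ := hS
  have hpsd : (vecMulVec x (star x)).PosSemidef := posSemidef_vecMulVec_self_star x
  refine ⟨?_, ?_, ?_, ?_, ?_⟩
  · intro A C _ _
    by_cases h : Cd x A C
    · rw [vlift_pos h]
      exact hpsd
    · rw [vlift_neg h]
      exact PosSemidef.zero
  · intro A C _ _ k _
    by_cases h : Cd x A C
    · by_cases hk : x k = 0
      · rw [vlift_pos h, vlift_neg (fun h' => (cd_insA.1 h').1 hk), vlift_pos (cd_insC.2 ⟨hk, h⟩),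
          zero_add]
      · rw [vlift_pos h, vlift_pos (cd_insA.2 ⟨hk, h⟩), vlift_neg (fun h' => hk (cd_insC.1 h').1),
          add_zero]
    · rw [vlift_neg h, vlift_neg (fun h' => h (cd_insA.1 h').2),
        vlift_neg (fun h' => h (cd_insC.1 h').2), add_zero]
  · intro A C _ _ i hi j
    by_cases h : Cd x A C
    · rw [vlift_pos h, vecMulVec_apply, h.2 i hi, zero_mul]
    · rw [vlift_neg h]
      rfl
  · have h : Cd x ∅ ∅ := ⟨fun i hi => absurd hi (Finset.notMem_empty i),
      fun i hi => absurd hi (Finset.notMem_empty i)⟩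
    rw [vlift_pos h, trace]
    have h1 : ∀ i, (vecMulVec x (star x)).diag i = ((‖x i‖ ^ 2 : ℝ) : 𝕜) := by
      intro i
      rw [diag_apply, vecMulVec_apply, Pi.star_apply, RCLike.star_def, RCLike.mul_conj]
      push_cast
      rfl
    rw [Finset.sum_congr rfl fun i _ => h1 i, ← RCLike.ofReal_sum, hx, RCLike.ofReal_one]
  · intro A C hAC _
    by_cases h : Cd x A C
    · set T : Finset ι := (A ∪ C)ᶜ.filter (fun k => x k ≠ 0) with hT
      have h1 : ∑ k ∈ (A ∪ C)ᶜ, vlift x (insert k A) C = (T.card : ℝ) • vecMulVec x (star x) := by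
        rw [hT]
        have h2 : ∀ k ∈ (A ∪ C)ᶜ, vlift x (insert k A) C =
            if x k ≠ 0 then vecMulVec x (star x) else 0 := by
          intro k _
          by_cases hk : x k ≠ 0
          · rw [if_pos hk, vlift_pos (cd_insA.2 ⟨hk, h⟩)]
          · rw [if_neg hk, vlift_neg (fun h' => hk (cd_insA.1 h').1)]
        rw [Finset.sum_congr rfl h2, ← Finset.sum_filter, Finset.sum_const, Nat.cast_smul_eq_nsmul]
      rw [h1, vlift_pos h, ← sub_smul]
      apply hpsd.smul
      have hd : Disjoint A T := by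
        rw [Finset.disjoint_left]
        intro k hkA hkT
        rw [hT, Finset.mem_filter, Finset.mem_compl, Finset.mem_union] at hkT
        exact hkT.1 (Or.inl hkA)
      have hsub : A ∪ T ⊆ S := by
        intro k hk
        by_contra hkS
        have h0 := hS0 k hkS
        rcases Finset.mem_union.1 hk with hk | hk
        · exact h.1 k hk h0
        · exact (Finset.mem_filter.1 hk).2 h0
      have hc := (Finset.card_le_card hsub).trans hSm
      rw [Finset.card_union_of_disjoint hd] at hc
      have hc' : (A.card : ℝ) + T.card ≤ m := by exact_mod_cast hc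
      linarith
    · rw [vlift_neg h, smul_zero, Finset.sum_eq_zero, sub_zero]
      · exact PosSemidef.zero
      · intro k _
        exact vlift_neg (fun h' => h (cd_insA.1 h').2)

end Pool.SAR
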