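import Pool.Agent.SAR.Stmts

/-!
MP_c21969_lc, project SAR, module KF: one step of sparsity.
-/

set_option autoImplicit false

namespace Pool.SAR

open Matrix Finset
open scoped ComplexOrder

theorem t_KF : Stmt_NB → Stmt_NC → Stmt_NM → Stmt_NI → Stmt_PR → Stmt_KE → Stmt_KN → Stmt_KF := by
  intro hNB hNC hNM hNI hPR hKE hKN ι _ _ E _ _ _ u ℓ q δ hS A C hAC hcard y c hc k hk
  have hq0 := hS.q0
  have hq1 : q ≤ 1 := hS.q1.trans (by norm_num)
  obtain ⟨-, -, hNB3, -, -, -⟩ := hNB ι q hq0 hq1 A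
  obtain ⟨hcongr, hadd, hsmul, hsum, hnn, hconst, -⟩ := hNC ι q hq0 hq1 A
  -- the norm of a combination of coefficient functions
  have hlin : ∀ (t : ℝ) (a : ι → ℝ) (b : ι → Finset ι → ℝ) (h : Finset ι → ℝ),
      (∀ B ⊆ A, h B = t + ∑ j ∈ A ∪ C, a j * b j B) →
      nrm q A h ≤ |t| + ∑ j ∈ A ∪ C, nrm q A (b j) * |a j| := by
    intro t a b h hh
    rw [hcongr h (fun B => t + ∑ j ∈ A ∪ C, a j * b j B) hh]
    refine (hadd (fun _ => t) (fun B => ∑ j ∈ A ∪ C, a j * b j B)).trans ?_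
    rw [hconst]
    refine add_le_add_right ?_ _
    refine (hsum ι (A ∪ C) (fun j B => a j * b j B)).trans ?_
    refine Finset.sum_le_sum fun j _ => ?_
    rw [hsmul, mul_comm]
  obtain ⟨c', hc'⟩ := hKE ι E u A C (u k)
  set φ : Finset ι → ℝ := fun B => ‖R u (B ∪ C) y‖ ^ 2 - ‖R u (insert k (B ∪ C)) y‖ ^ 2 with hφ
  set s : Finset ι → ℝ := fun B => ‖R u (B ∪ C) (u k)‖ ^ 2 with hs
  set g : Finset ι → ℝ := fun B => inner ℝ (R u (B ∪ C) y) (u k) with hg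
  have hφs : ∀ B, φ B * s B = g B ^ 2 := fun B =>
    (hPR ι E u (B ∪ C)).2.2.2.2.2.2.2 y k
  have hgB : ∀ B ⊆ A, g B = inner ℝ y (u k) + ∑ j ∈ A ∪ C, (-(inner ℝ (u j) (u k))) * c j B := by
    intro B hB
    simp only [hg]
    rw [hc.eq B hB, inner_sub_left, sum_inner, sub_eq_add_neg, ← Finset.sum_neg_distrib]
    congr 1
    refine Finset.sum_congr rfl fun j _ => ?_
    rw [real_inner_smul_left]
    ring
  have hsB : ∀ B ⊆ A, 1 - s B = 0 + ∑ j ∈ A ∪ C, (inner ℝ (u j) (u k)) * c' j B := by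
    intro B hB
    have h1 : s B = inner ℝ (R u (B ∪ C) (u k)) (u k) := by
      simp only [hs]
      rw [← real_inner_self_eq_norm_sq, (hPR ι E u (B ∪ C)).2.1,
        ← (hPR ι E u (B ∪ C)).1]
    rw [h1, hc'.eq B hB, inner_sub_left, sum_inner, real_inner_self_eq_norm_sq, hS.unit k]
    have h2 : ∀ j ∈ A ∪ C, inner ℝ (c' j B • u j) (u k) = inner ℝ (u j) (u k) * c' j B := by
      intro j _
      rw [real_inner_smul_left]
      ring
    rw [Finset.sum_congr rfl h2]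
    ring
  have hne : ∀ j ∈ A ∪ C, j ≠ k := fun j hj h => hk (h ▸ hj)
  have hl0 : (0 : ℝ) < ℓ := by exact_mod_cast hS.lpos
  have hl1 : (1 : ℝ) ≤ ℓ := by exact_mod_cast hS.lpos
  have hd0 := hS.d0
  have hsm := hS.small
  have hδ : δ ≤ 1 := by
    have h1 := hS.q1
    nlinarith
  -- the norm of `1 - s`
  have hKN' := (hKN ι E u ℓ q δ hS A C hAC hcard (u k) c' hc').1
  have hsumd : ∑ j ∈ A ∪ C, |inner ℝ (u k) (u j)| ≤ ℓ * δ := by
    calc ∑ j ∈ A ∪ C, |inner ℝ (u k) (u j)| ≤ ∑ _j ∈ A ∪ C, δ :=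
          Finset.sum_le_sum fun j hj => hS.coh k j (hne j hj).symm
      _ = (A ∪ C).card * δ := by rw [Finset.sum_const, nsmul_eq_mul]
      _ ≤ ℓ * δ := by
          refine mul_le_mul_of_nonneg_right ?_ hd0
          exact_mod_cast hcard
  have hN' : ∑ j ∈ A ∪ C, nrm q A (c' j) ≤ 1 / 4 := by
    refine hKN'.trans ?_
    have h1 : 2 * q⁻¹ * ∑ j ∈ A ∪ C, |inner ℝ (u k) (u j)| ≤ 2 * q⁻¹ * (ℓ * δ) :=
      mul_le_mul_of_nonneg_left hsumd (by positivity)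
    refine h1.trans ?_
    have h2 : 2 * q⁻¹ * (ℓ * δ) = 2 * (ℓ * δ) / q := by
      field_simp
    rw [h2, div_le_iff₀ hq0]
    linarith
  have hs1 : nrm q A (fun B => 1 - s B) ≤ 1 / 2 := by
    refine (hlin 0 (fun j => inner ℝ (u j) (u k)) c' _ hsB).trans ?_
    rw [abs_zero, zero_add]
    have h1 : ∑ j ∈ A ∪ C, nrm q A (c' j) * |inner ℝ (u j) (u k)| ≤
        ∑ j ∈ A ∪ C, nrm q A (c' j) := by
      refine Finset.sum_le_sum fun j hj => ?_
      have h2 := (hS.coh j k (hne j hj)).trans hδ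
      exact mul_le_of_le_one_right (hnn _) h2
    linarith
  have hspos : ∀ B ⊆ A, s B ≠ 0 := by
    intro B hB h0
    have h1 := (hNB3 (fun B => 1 - s B) B hB).trans hs1
    rw [h0, sub_zero, abs_one] at h1
    norm_num at h1
  have hr : nrm q A (fun B => (s B)⁻¹) ≤ 2 :=
    hNI ι q hq0 hq1 A s (fun B => (s B)⁻¹) (fun B hB => mul_inv_cancel₀ (hspos B hB)) hs1
  -- the norm of `g`
  have hgn : nrm q A g ≤ |inner ℝ y (u k)| +
      ∑ j ∈ A ∪ C, nrm q A (c j) * |inner ℝ (u j) (u k)| := by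
    have h1 := hlin (inner ℝ y (u k)) (fun j => -(inner ℝ (u j) (u k))) c g hgB
    simp only [abs_neg] at h1
    exact h1
  have hφr : nrm q A φ = nrm q A (fun B => (g B * g B) * (s B)⁻¹) := by
    refine hcongr _ _ fun B hB => ?_
    have h1 := hφs B
    have h2 := hspos B hB
    rw [← sq, ← h1, mul_assoc, mul_inv_cancel₀ h2, mul_one]
  rw [hφr]
  have h3 := hNM ι q hq0 hq1 A (fun B => g B * g B) (fun B => (s B)⁻¹)
  have h4 := hNM ι q hq0 hq1 A g g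
  have h5 : nrm q A g * nrm q A g ≤ (|inner ℝ y (u k)| +
      ∑ j ∈ A ∪ C, nrm q A (c j) * |inner ℝ (u j) (u k)|) ^ 2 := by
    rw [sq]
    exact mul_le_mul hgn hgn (hnn g) ((hnn g).trans hgn)
  calc nrm q A (fun B => (g B * g B) * (s B)⁻¹)
      ≤ nrm q A (fun B => g B * g B) * nrm q A (fun B => (s B)⁻¹) := h3
    _ ≤ (nrm q A g * nrm q A g) * 2 :=
        mul_le_mul h4 hr (hnn _) (mul_nonneg (hnn g) (hnn g))
    _ ≤ (|inner ℝ y (u k)| + ∑ j ∈ A ∪ C, nrm q A (c j) * |inner ℝ (u j) (u k)|) ^ 2 * 2 :=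
        mul_le_mul_of_nonneg_right h5 (by norm_num)
    _ = 2 * (|inner ℝ y (u k)| + ∑ j ∈ A ∪ C, nrm q A (c j) * |inner ℝ (u j) (u k)|) ^ 2 :=
        mul_comm _ _

end Pool.SAR
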