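import Pool.Agent.SAR.Stmts

/-!
MP_c21969_lc, project SAR: module KP (positivity).
-/

set_option autoImplicit false

namespace Pool.SAR

open Matrix Finset
open scoped ComplexOrder

namespace KPX

section

variable {ι : Type} [DecidableEq ι]

theorem Lf_congr (q : ℝ) (A : Finset ι) (h g : Finset ι → ℝ) (hg : ∀ B ⊆ A, h B = g B) :
    Lf q A h = Lf q A g := by
  unfold Lf
  exact Finset.sum_congr rfl fun B hB => by rw [hg B (Finset.mem_powerset.1 hB)]

theorem Lf_add (q : ℝ) (A : Finset ι) (h g : Finset ι → ℝ) :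
    Lf q A (fun B => h B + g B) = Lf q A h + Lf q A g := by
  unfold Lf
  rw [← Finset.sum_add_distrib]
  exact Finset.sum_congr rfl fun B _ => by ring

theorem Lf_sub (q : ℝ) (A : Finset ι) (h g : Finset ι → ℝ) :
    Lf q A (fun B => h B - g B) = Lf q A h - Lf q A g := by
  unfold Lf
  rw [← Finset.sum_sub_distrib]
  exact Finset.sum_congr rfl fun B _ => by ring

theorem Lf_smul (q : ℝ) (A : Finset ι) (t : ℝ) (h : Finset ι → ℝ) :
    Lf q A (fun B => t * h B) = t * Lf q A h := by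
  unfold Lf
  rw [Finset.mul_sum]
  exact Finset.sum_congr rfl fun B _ => by ring

theorem Lf_sum (q : ℝ) (A s : Finset ι) (h : ι → Finset ι → ℝ) :
    Lf q A (fun B => ∑ k ∈ s, h k B) = ∑ k ∈ s, Lf q A (h k) := by
  unfold Lf
  rw [Finset.sum_comm]
  exact Finset.sum_congr rfl fun B _ => Finset.mul_sum _ _ _

end

end KPX

open KPX in
theorem t_KP : Stmt_NB → Stmt_NC → Stmt_PR → Stmt_KE → Stmt_KN → Stmt_KP := by
  intro hNB _ hPR hKE hKN ι _ _ E _ _ _ u ℓ q δ hS A C hAC hcard y hy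
  obtain ⟨c, hc⟩ := hKE ι E u A C y
  have hq0 := hS.q0
  have hq1 := hS.q1
  obtain ⟨_, _, _, hL, hone, hind⟩ := hNB ι q hq0 (by linarith) A
  obtain ⟨hS1, hS2⟩ := hKN ι E u ℓ q δ hS A C hAC hcard y c hc
  -- the squared norm
  have hnorm : ∀ B ⊆ A, ‖R u (B ∪ C) y‖ ^ 2 =
      ‖y‖ ^ 2 - ∑ j ∈ A, inner ℝ y (u j) * c j B := by
    intro B hB
    have h1 := (hPR ι E u (B ∪ C)).2.1 y y
    rw [← real_inner_self_eq_norm_sq, h1, hc.eq B hB, inner_sub_right,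
      real_inner_self_eq_norm_sq, inner_sum, Finset.sum_union hAC]
    have h2 : ∑ j ∈ C, inner ℝ y (c j B • u j) = 0 := by
      refine Finset.sum_eq_zero fun j hj => ?_
      rw [inner_smul_right, hy j hj, mul_zero]
    rw [h2, add_zero]
    congr 1
    refine Finset.sum_congr rfl fun j _ => ?_
    rw [inner_smul_right, mul_comm]
  rw [Lf_congr q A _ _ hnorm, Lf_sub, Lf_sum]
  have hconst : Lf q A (fun _ => ‖y‖ ^ 2) = ‖y‖ ^ 2 * q ^ A.card := by
    have h1 := Lf_smul q A (‖y‖ ^ 2) (fun _ => (1 : ℝ))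
    rw [hone] at h1
    rw [← h1]
    simp only [mul_one]
  rw [hconst]
  set η : ι → ℝ := fun j => inner ℝ y (u j) with hη
  set e : ι → ℝ := fun j => Lf q A (fun B => c j B - η j * ind j B) with he
  have hLc : ∀ j, Lf q A (fun B => η j * c j B) =
      η j ^ 2 * Lf q A (ind j) + η j * e j := by
    intro j
    rw [Lf_smul, he]
    simp only
    rw [Lf_sub, Lf_smul]
    ring
  have hIj : ∀ j ∈ A, Lf q A (ind j) = -(1 - q) * q ^ A.card * q⁻¹ := by
    intro j hj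
    have h1 := hind j hj
    field_simp
    linarith
  have hqa : 0 < q ^ A.card := pow_pos hq0 _
  have hqi : 0 < q⁻¹ := inv_pos.2 hq0
  -- the sums
  set T : ℝ := ∑ j ∈ A, |η j| with hT
  set Q : ℝ := ∑ j ∈ A, η j ^ 2 with hQ
  have hT0 : 0 ≤ T := Finset.sum_nonneg fun j _ => abs_nonneg _
  have hQ0 : 0 ≤ Q := Finset.sum_nonneg fun j _ => sq_nonneg _
  have hTC : ∑ j ∈ A ∪ C, |inner ℝ y (u j)| = T := by
    rw [Finset.sum_union hAC]
    have h2 : ∑ j ∈ C, |inner ℝ y (u j)| = 0 := by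
      refine Finset.sum_eq_zero fun j hj => ?_
      rw [hy j hj, abs_zero]
    rw [h2, add_zero]
  rw [hTC] at hS1
  have hℓ : (1 : ℝ) ≤ ℓ := by exact_mod_cast hS.lpos
  have hℓ0 : (0 : ℝ) < ℓ := by linarith
  have hAcard : (A.card : ℝ) ≤ ℓ := by
    have h1 : A.card ≤ (A ∪ C).card := Finset.card_le_card Finset.subset_union_left
    exact_mod_cast h1.trans hcard
  have hCS : T ^ 2 ≤ ℓ * Q := by
    have h1 := sq_sum_le_card_mul_sum_sq (s := A) (f := fun j => |η j|)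
    have h2 : ∑ j ∈ A, |η j| ^ 2 = Q := by
      rw [hQ]
      exact Finset.sum_congr rfl fun j _ => sq_abs _
    rw [h2] at h1
    exact h1.trans (mul_le_mul_of_nonneg_right hAcard hQ0)
  have he1 : ∀ j ∈ A, |e j| ≤ q ^ A.card * ((8 * (ℓ : ℝ))⁻¹ * (2 * q⁻¹ * T)) := by
    intro j hj
    refine (hL _).trans (mul_le_mul_of_nonneg_left ?_ hqa.le)
    refine (hS2 j hj).trans (mul_le_mul_of_nonneg_left hS1 (by positivity))
  have herr : ∑ j ∈ A, η j * e j ≤ q ^ A.card * (1 / 4 * q⁻¹ * Q) := by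
    have h1 : ∑ j ∈ A, η j * e j ≤
        ∑ j ∈ A, |η j| * (q ^ A.card * ((8 * (ℓ : ℝ))⁻¹ * (2 * q⁻¹ * T))) := by
      refine Finset.sum_le_sum fun j hj => ?_
      calc η j * e j ≤ |η j * e j| := le_abs_self _
        _ = |η j| * |e j| := abs_mul _ _
        _ ≤ _ := mul_le_mul_of_nonneg_left (he1 j hj) (abs_nonneg _)
    rw [← Finset.sum_mul, ← hT] at h1
    refine h1.trans ?_
    have h2 : T * (q ^ A.card * ((8 * (ℓ : ℝ))⁻¹ * (2 * q⁻¹ * T))) =
        q ^ A.card * q⁻¹ * (4 * (ℓ : ℝ))⁻¹ * T ^ 2 := by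
      rw [mul_inv, mul_inv]
      ring
    rw [h2]
    have h3 : (4 * (ℓ : ℝ))⁻¹ * T ^ 2 ≤ 1 / 4 * Q := by
      calc (4 * (ℓ : ℝ))⁻¹ * T ^ 2 ≤ (4 * (ℓ : ℝ))⁻¹ * (ℓ * Q) :=
            mul_le_mul_of_nonneg_left hCS (by positivity)
        _ = 1 / 4 * Q := by field_simp
    calc q ^ A.card * q⁻¹ * (4 * (ℓ : ℝ))⁻¹ * T ^ 2 =
          q ^ A.card * q⁻¹ * ((4 * (ℓ : ℝ))⁻¹ * T ^ 2) := by ring
      _ ≤ q ^ A.card * q⁻¹ * (1 / 4 * Q) := mul_le_mul_of_nonneg_left h3 (by positivity)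
      _ = _ := by ring
  have hsum : ∑ j ∈ A, Lf q A (fun B => η j * c j B) =
      -(1 - q) * q ^ A.card * q⁻¹ * Q + ∑ j ∈ A, η j * e j := by
    rw [hQ, Finset.mul_sum, ← Finset.sum_add_distrib]
    refine Finset.sum_congr rfl fun j hj => ?_
    rw [hLc j, hIj j hj]
    ring
  rw [hsum]
  have hfin : q ^ A.card * (1 / 4 * q⁻¹ * Q) + q ^ A.card * (1 / 4 * q⁻¹ * Q) ≤
      (1 - q) * q ^ A.card * q⁻¹ * Q := by
    have h1 : 0 ≤ q ^ A.card * q⁻¹ * Q := by positivity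
    nlinarith
  nlinarith

end Pool.SAR
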