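import Pool.Agent.SAR.Stmts

/-!
MP_c21969_lc, project SAR: sparsity.
-/

set_option autoImplicit false

namespace Pool.SAR

open Matrix Finset
open scoped ComplexOrder

theorem t_KQ : Stmt_NB → Stmt_NC → Stmt_LI → Stmt_KP → Stmt_KS → Stmt_KQ := by
  intro _ _ hLI hKP hKS ι _ _ E _ _ _ u ℓ m q δ Λ σ hS hΛ hσ h4 h8 h128 hℓ A C hAC hcard y hy
  have hq0 := hS.q0
  have hq1 := hS.q1
  have hF := hKP ι E u ℓ q δ hS A C hAC hcard y hy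
  have hK := hKS ι E u ℓ q δ Λ σ hS hΛ hσ A C hAC hcard y hy
  set F : ℝ := Lf q A (fun B => ‖R u (B ∪ C) y‖ ^ 2) with hFdef
  set Sg : ℝ := ∑ j ∈ A, (inner ℝ y (u j)) ^ 2 with hSg
  have hSg0 : 0 ≤ Sg := Finset.sum_nonneg fun j _ => sq_nonneg _
  have hqa : 0 < q ^ A.card := pow_pos hq0 _
  have hqi : 0 < q⁻¹ := inv_pos.mpr hq0
  have hF0 : 0 ≤ F := le_trans (by positivity) hF
  have hterm : ∀ k ∈ (A ∪ C)ᶜ, Lf q (insert k A) (fun B => ‖R u (B ∪ C) y‖ ^ 2) ≤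
      q * F + |Lf q A (fun B => ‖R u (B ∪ C) y‖ ^ 2 - ‖R u (insert k (B ∪ C)) y‖ ^ 2)| := by
    intro k hk
    have hkA : k ∉ A := fun h => (Finset.mem_compl.mp hk) (Finset.mem_union_left _ h)
    have h1 := (hLI ι q A k hkA (fun B => ‖R u (B ∪ C) y‖ ^ 2)).1
    rw [h1]
    simp only [Finset.insert_union]
    set L := Lf q A (fun B => ‖R u (B ∪ C) y‖ ^ 2 - ‖R u (insert k (B ∪ C)) y‖ ^ 2) with hL
    have h2 : (1 - q) * L ≤ |L| := by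
      have h3 : L ≤ |L| := le_abs_self L
      have h4 : 0 ≤ |L| := abs_nonneg L
      nlinarith [mul_nonneg hq0.le h4, mul_le_mul_of_nonneg_left h3 (by linarith : 0 ≤ 1 - q)]
    linarith
  have hsum := Finset.sum_le_sum hterm
  rw [Finset.sum_add_distrib, Finset.sum_const, nsmul_eq_mul] at hsum
  have hc : (((A ∪ C)ᶜ).card : ℝ) * (q * F) ≤ (m : ℝ) / 4 * F := by
    have h1 : (((A ∪ C)ᶜ).card : ℝ) ≤ (Fintype.card ι : ℝ) := by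
      exact_mod_cast Finset.card_le_univ _
    have h2 : (((A ∪ C)ᶜ).card : ℝ) * (q * F) ≤ (Fintype.card ι : ℝ) * (q * F) :=
      mul_le_mul_of_nonneg_right h1 (mul_nonneg hq0.le hF0)
    have h3 : (Fintype.card ι : ℝ) * (q * F) = (m : ℝ) / 4 * F := by
      rw [← h4]; ring
    linarith
  have hm : q ^ A.card * (4 * Λ * ‖y‖ ^ 2 + 16 * (ℓ : ℝ) * σ * (q⁻¹) ^ 2 * Sg) ≤
      (m : ℝ) / 2 * F := by
    have hm0 : (0 : ℝ) ≤ m := Nat.cast_nonneg m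
    have h1 : 4 * Λ * ‖y‖ ^ 2 ≤ (m : ℝ) / 2 * ‖y‖ ^ 2 := by
      have := sq_nonneg ‖y‖
      nlinarith
    have h2 : 16 * (ℓ : ℝ) * σ * (q⁻¹) ^ 2 * Sg ≤ (m : ℝ) / 2 * (1 / 4 * q⁻¹ * Sg) := by
      have h3 : 128 * (ℓ : ℝ) * σ * (q⁻¹) ^ 2 * Sg ≤ (m * q) * (q⁻¹) ^ 2 * Sg := by
        apply mul_le_mul_of_nonneg_right _ hSg0
        exact mul_le_mul_of_nonneg_right h128 (sq_nonneg _)
      have h5 : (m * q) * (q⁻¹) ^ 2 * Sg = m * q⁻¹ * Sg := by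
        field_simp
      rw [h5] at h3
      linarith
    have h3 : 4 * Λ * ‖y‖ ^ 2 + 16 * (ℓ : ℝ) * σ * (q⁻¹) ^ 2 * Sg ≤
        (m : ℝ) / 2 * (‖y‖ ^ 2 + 1 / 4 * q⁻¹ * Sg) := by linarith
    calc q ^ A.card * (4 * Λ * ‖y‖ ^ 2 + 16 * (ℓ : ℝ) * σ * (q⁻¹) ^ 2 * Sg)
        ≤ q ^ A.card * ((m : ℝ) / 2 * (‖y‖ ^ 2 + 1 / 4 * q⁻¹ * Sg)) :=
          mul_le_mul_of_nonneg_left h3 hqa.le
      _ = (m : ℝ) / 2 * (q ^ A.card * (‖y‖ ^ 2 + 1 / 4 * q⁻¹ * Sg)) := by ring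
      _ ≤ (m : ℝ) / 2 * F := mul_le_mul_of_nonneg_left hF (by linarith)
  have hA : (A.card : ℝ) ≤ (m : ℝ) / 4 := by
    have h1 : A.card ≤ ℓ := (Finset.card_le_card Finset.subset_union_left).trans hcard
    have h2 : ((4 * A.card : ℕ) : ℝ) ≤ (m : ℝ) := by exact_mod_cast (by omega : 4 * A.card ≤ m)
    push_cast at h2
    linarith
  have hfin : (m : ℝ) / 4 * F + (m : ℝ) / 2 * F ≤ ((m : ℝ) - (A.card : ℝ)) * F := by
    nlinarith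
  linarith

end Pool.SAR
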