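import Pool.Agent.SAR.Stmts

/-!
MP_c21969_lc, project SAR, module KS: the sum over `k`.
-/

set_option autoImplicit false

namespace Pool.SAR

open Matrix Finset

namespace KSX

theorem sq_step (a T : ℝ) : (|a| + T) ^ 2 ≤ 2 * a ^ 2 + 2 * T ^ 2 := by
  have h : |a| ^ 2 = a ^ 2 := sq_abs a
  nlinarith [sq_nonneg (|a| - T)]

/-- Weighted Cauchy-Schwarz. -/
theorem cs {ι : Type} (s : Finset ι) (N d : ι → ℝ) (hN : ∀ j ∈ s, 0 ≤ N j) :
    (∑ j ∈ s, N j * |d j|) ^ 2 ≤ (∑ j ∈ s, N j) * ∑ j ∈ s, N j * d j ^ 2 := by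
  have h := Finset.sum_sq_le_sum_mul_sum_of_sq_le_mul s (r := fun j => N j * |d j|)
    (f := N) (g := fun j => N j * d j ^ 2) hN
    (fun j hj => mul_nonneg (hN j hj) (sq_nonneg _))
    (fun j _ => by
      have h1 : |d j| ^ 2 = d j ^ 2 := sq_abs _
      rw [mul_pow, h1]
      apply le_of_eq
      ring)
  exact h

end KSX

open KSX in
theorem t_KS : Stmt_NB → Stmt_NC → Stmt_KE → Stmt_KN → Stmt_KF → Stmt_KS := by
  intro hNB hNC hKE hKN hKF ι _ _ E _ _ _ u ℓ q δ Λ σ hS hΛ hσ A C hAC hcard y hy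
  obtain ⟨c, hc⟩ := hKE ι E u A C y
  have hq0 := hS.q0
  have hq1 : q ≤ 1 := by linarith [hS.q1]
  obtain ⟨-, -, -, hLf, -, -⟩ := hNB ι q hq0 hq1 A
  obtain ⟨-, -, -, -, hnn, -, -⟩ := hNC ι q hq0 hq1 A
  obtain ⟨hSb, -⟩ := hKN ι E u ℓ q δ hS A C hAC hcard y c hc
  set N : ι → ℝ := fun j => nrm q A (c j) with hN
  have hN0 : ∀ j, 0 ≤ N j := fun j => hnn _
  set S : ℝ := ∑ j ∈ A ∪ C, N j with hSdef
  have hS0 : 0 ≤ S := Finset.sum_nonneg fun j _ => hN0 j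
  have hqa : 0 < q ^ A.card := pow_pos hq0 _
  -- bound for each k
  have hk : ∀ k ∈ (A ∪ C)ᶜ,
      |Lf q A (fun B => ‖R u (B ∪ C) y‖ ^ 2 - ‖R u (insert k (B ∪ C)) y‖ ^ 2)| ≤
        q ^ A.card * (4 * (inner ℝ y (u k)) ^ 2 +
          4 * (S * ∑ j ∈ A ∪ C, N j * (inner ℝ (u j) (u k)) ^ 2)) := by
    intro k hk
    rw [Finset.mem_compl] at hk
    refine (hLf _).trans ?_
    apply mul_le_mul_of_nonneg_left _ hqa.le
    refine (hKF ι E u ℓ q δ hS A C hAC hcard y c hc k hk).trans ?_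
    have h1 := sq_step (inner ℝ y (u k)) (∑ j ∈ A ∪ C, N j * |inner ℝ (u j) (u k)|)
    have h2 := cs (A ∪ C) N (fun j => inner ℝ (u j) (u k)) (fun j _ => hN0 j)
    have h3 : 2 * (|inner ℝ y (u k)| + ∑ j ∈ A ∪ C, nrm q A (c j) * |inner ℝ (u j) (u k)|) ^ 2 ≤
        4 * (inner ℝ y (u k)) ^ 2 + 4 * (∑ j ∈ A ∪ C, N j * |inner ℝ (u j) (u k)|) ^ 2 := by
      linarith
    linarith
  refine (Finset.sum_le_sum hk).trans ?_
  rw [← Finset.mul_sum]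
  apply mul_le_mul_of_nonneg_left _ hqa.le
  rw [Finset.sum_add_distrib, ← Finset.mul_sum, ← Finset.mul_sum, ← Finset.mul_sum]
  have hA : ∑ k ∈ (A ∪ C)ᶜ, (inner ℝ y (u k)) ^ 2 ≤ Λ * ‖y‖ ^ 2 :=
    (Finset.sum_le_univ_sum_of_nonneg fun k => sq_nonneg _).trans (hΛ y)
  have hB : ∑ k ∈ (A ∪ C)ᶜ, ∑ j ∈ A ∪ C, N j * (inner ℝ (u j) (u k)) ^ 2 ≤ S * σ := by
    rw [Finset.sum_comm, hSdef, Finset.sum_mul]
    apply Finset.sum_le_sum
    intro j hj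
    rw [← Finset.mul_sum]
    apply mul_le_mul_of_nonneg_left _ (hN0 j)
    refine (Finset.sum_le_sum_of_subset_of_nonneg ?_ fun k _ _ => sq_nonneg _).trans (hσ j)
    intro k hk
    rw [Finset.mem_compl] at hk
    rw [Finset.mem_erase]
    exact ⟨fun h => hk (h ▸ hj), Finset.mem_univ _⟩
  by_cases hne : (A ∪ C).Nonempty
  · obtain ⟨j0, -⟩ := hne
    have hσ0 : 0 ≤ σ := (Finset.sum_nonneg fun k _ => sq_nonneg _).trans (hσ j0)
    have hSum : ∑ j ∈ A ∪ C, |inner ℝ y (u j)| = ∑ j ∈ A, |inner ℝ y (u j)| := by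
      rw [Finset.sum_union hAC]
      have : ∑ j ∈ C, |inner ℝ y (u j)| = 0 := by
        apply Finset.sum_eq_zero
        intro j hj
        rw [hy j hj, abs_zero]
      rw [this, add_zero]
    have hSb' : S ≤ 2 * q⁻¹ * ∑ j ∈ A, |inner ℝ y (u j)| := by
      rw [← hSum]; exact hSb
    have hAc : (A.card : ℝ) ≤ ℓ := by
      have : A.card ≤ (A ∪ C).card := Finset.card_le_card Finset.subset_union_left
      exact_mod_cast this.trans hcard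
    have hCS : (∑ j ∈ A, |inner ℝ y (u j)|) ^ 2 ≤ ℓ * ∑ j ∈ A, (inner ℝ y (u j)) ^ 2 := by
      have h1 := sq_sum_le_card_mul_sum_sq (s := A) (f := fun j => |inner ℝ y (u j)|)
      have h2 : ∑ j ∈ A, |inner ℝ y (u j)| ^ 2 = ∑ j ∈ A, (inner ℝ y (u j)) ^ 2 :=
        Finset.sum_congr rfl fun j _ => sq_abs _
      rw [h2] at h1
      refine h1.trans ?_
      apply mul_le_mul_of_nonneg_right hAc
      exact Finset.sum_nonneg fun j _ => sq_nonneg _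
    have hqi : 0 < q⁻¹ := inv_pos.mpr hq0
    have hS2 : S ^ 2 ≤ 4 * (q⁻¹) ^ 2 * (ℓ * ∑ j ∈ A, (inner ℝ y (u j)) ^ 2) := by
      have h1 : S ^ 2 ≤ (2 * q⁻¹ * ∑ j ∈ A, |inner ℝ y (u j)|) ^ 2 :=
        pow_le_pow_left₀ hS0 hSb' 2
      refine h1.trans ?_
      have h2 : (2 * q⁻¹ * ∑ j ∈ A, |inner ℝ y (u j)|) ^ 2 =
        4 * (q⁻¹) ^ 2 * (∑ j ∈ A, |inner ℝ y (u j)|) ^ 2 := by ring
      rw [h2]
      apply mul_le_mul_of_nonneg_left hCS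
      positivity
    have hC : S * ∑ k ∈ (A ∪ C)ᶜ, ∑ j ∈ A ∪ C, N j * (inner ℝ (u j) (u k)) ^ 2 ≤ S ^ 2 * σ := by
      have := mul_le_mul_of_nonneg_left hB hS0
      calc _ ≤ S * (S * σ) := this
        _ = S ^ 2 * σ := by ring
    have hD : S ^ 2 * σ ≤ 4 * (q⁻¹) ^ 2 * (ℓ * ∑ j ∈ A, (inner ℝ y (u j)) ^ 2) * σ :=
      mul_le_mul_of_nonneg_right hS2 hσ0
    have hE : 4 * (4 * (q⁻¹) ^ 2 * (ℓ * ∑ j ∈ A, (inner ℝ y (u j)) ^ 2) * σ) =
      16 * (ℓ : ℝ) * σ * (q⁻¹) ^ 2 * ∑ j ∈ A, (inner ℝ y (u j)) ^ 2 := by ring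
    linarith
  · rw [Finset.not_nonempty_iff_eq_empty] at hne
    have hAe : A = ∅ := by
      rw [Finset.union_eq_empty] at hne
      exact hne.1
    have hSe : S = 0 := by rw [hSdef, hne, Finset.sum_empty]
    rw [hSe, hAe, Finset.sum_empty, zero_mul, mul_zero, mul_zero]
    rw [hAe] at hA
    linarith

end Pool.SAR
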