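import Pool.Agent.SAR.StmtsL

/-!
MP_c21969_lc, project SAR, module LKD: the bound for the vectors `θ`.
-/

set_option autoImplicit false

namespace Pool.SAR

open Finset

namespace LKDX

/-- the top term of the norm -/
theorem mob_le {ι : Type} [DecidableEq ι] (τ : ℝ) (h0 : 0 < τ) (A : Finset ι)
    (φ : Finset ι → ℝ) : |mob φ A| ≤ τ ^ A.card * nrm τ A φ := by
  have h1 : |mob φ A| * (τ ^ A.card)⁻¹ ≤ nrm τ A φ := by
    unfold nrm
    refine Finset.single_le_sum (f := fun W => |mob φ W| * (τ ^ W.card)⁻¹) (fun W _ => ?_)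
      (Finset.mem_powerset_self A)
    exact mul_nonneg (abs_nonneg _) (inv_nonneg.2 (pow_pos h0 _).le)
  have h2 : 0 < τ ^ A.card := pow_pos h0 _
  calc |mob φ A| = τ ^ A.card * (|mob φ A| * (τ ^ A.card)⁻¹) := by
        field_simp
    _ ≤ _ := mul_le_mul_of_nonneg_left h1 h2.le

theorem neg_pow {a b c : ℕ} (h : a + b = c) : (-1 : ℝ) ^ a = (-1) ^ (c + b) := by
  rw [← h, add_assoc, ← two_mul, pow_add, pow_mul]
  simp

variable {ι : Type} [Fintype ι] [DecidableEq ι] {E : Type} [NormedAddCommGroup E]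
  [InnerProductSpace ℝ E] [FiniteDimensional ℝ E]

theorem inner_th (u : ι → E) (k : ι) (U V : Finset ι) (hUV : U ⊆ V) (z : E) :
    inner ℝ z (th u k U V) = mob (fun B => inner ℝ z (gv u k (B ∪ U))) (V \ U) := by
  unfold th mob
  rw [inner_sum]
  symm
  refine Finset.sum_bij' (fun B _ => B ∪ U) (fun B _ => B \ U) ?_ ?_ ?_ ?_ ?_
  · intro B hB
    rw [Finset.mem_powerset] at hB
    rw [Finset.mem_filter]
    exact ⟨Finset.mem_univ _, Finset.subset_union_right,
      Finset.union_subset (hB.trans Finset.sdiff_subset) hUV⟩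
  · intro B hB
    rw [Finset.mem_filter] at hB
    rw [Finset.mem_powerset]
    exact Finset.sdiff_subset_sdiff hB.2.2 (Finset.Subset.refl U)
  · intro B hB
    rw [Finset.mem_powerset] at hB
    have h1 : Disjoint B U := Finset.disjoint_of_subset_left hB Finset.sdiff_disjoint
    rw [Finset.union_sdiff_right]
    exact Finset.sdiff_eq_self_of_disjoint h1
  · intro B hB
    rw [Finset.mem_filter] at hB
    exact Finset.sdiff_union_of_subset hB.2.1
  · intro B hB
    rw [Finset.mem_powerset] at hB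
    rw [inner_smul_right]
    congr 1
    symm
    apply neg_pow
    have h1 : V \ (B ∪ U) = (V \ U) \ B := by
      ext x
      simp only [Finset.mem_sdiff, Finset.mem_union, not_or]
      tauto
    rw [h1]
    exact Finset.card_sdiff_add_card_eq_card hB

theorem main (hNB : Stmt_NB) (hNC : Stmt_NC) (hNM : Stmt_NM) (hNI : Stmt_NI) (hPR : Stmt_PR)
    (hKE : Stmt_KE) (hKN : Stmt_KN) (u : ι → E) (ℓ : ℕ) (τ δ : ℝ) (hS : Sys (2 * ℓ) τ δ u)
    (A C : Finset ι) (hAC : Disjoint A C) (hcard : (A ∪ C).card ≤ 2 * ℓ) (k : ι)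
    (hk : k ∉ A ∪ C) (z : E) :
    nrm τ A (fun B => inner ℝ z (gv u k (B ∪ C))) ≤ 3 * ‖z‖ := by
  have h0 := hS.q0
  have h1 : τ ≤ 1 := by linarith [hS.q1]
  obtain ⟨c, hc⟩ := hKE ι E u A C (u k)
  obtain ⟨-, -, hNB3, -, -, -⟩ := hNB ι τ h0 h1 A
  obtain ⟨hcongr, hadd, hmul, hsum, hnn, hconst, -⟩ := hNC ι τ h0 h1 A
  have hℓ : (1 : ℝ) ≤ ℓ := by
    have := hS.lpos
    have h2 : 1 ≤ ℓ := by omega
    exact_mod_cast h2
  have hsm : 16 * (ℓ : ℝ) * δ ≤ τ := by
    have := hS.small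
    push_cast at this
    linarith
  have hd := hS.d0
  have hδ : δ ≤ 1 / 32 := by
    have h2 : 16 * δ ≤ 16 * (ℓ : ℝ) * δ := by nlinarith
    linarith [hS.q1]
  have hcoh : ∀ j ∈ A ∪ C, |inner ℝ (u k) (u j)| ≤ δ := fun j hj =>
    hS.coh k j (fun h => hk (h ▸ hj))
  have hSum : ∑ j ∈ A ∪ C, nrm τ A (c j) ≤ 1 / 4 := by
    have h2 := (hKN ι E u (2 * ℓ) τ δ hS A C hAC hcard (u k) c hc).1
    have h3 : ∑ j ∈ A ∪ C, |inner ℝ (u k) (u j)| ≤ 2 * (ℓ : ℝ) * δ := by
      refine (Finset.sum_le_sum hcoh).trans ?_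
      rw [Finset.sum_const, nsmul_eq_mul]
      refine mul_le_mul_of_nonneg_right ?_ hd
      exact_mod_cast hcard
    refine h2.trans ?_
    have h4 : 2 * τ⁻¹ * ∑ j ∈ A ∪ C, |inner ℝ (u k) (u j)| ≤ 2 * τ⁻¹ * (2 * (ℓ : ℝ) * δ) :=
      mul_le_mul_of_nonneg_left h3 (by positivity)
    refine h4.trans ?_
    have h5 : 2 * τ⁻¹ * (2 * (ℓ : ℝ) * δ) = (16 * (ℓ : ℝ) * δ) / τ / 4 := by
      field_simp
      ring
    rw [h5]
    have h6 : (16 * (ℓ : ℝ) * δ) / τ ≤ 1 := by
      rw [div_le_one h0]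
      exact hsm
    linarith
  -- the function `g`
  set g : Finset ι → ℝ := fun B => inner ℝ z (R u (B ∪ C) (u k)) with hg
  set s : Finset ι → ℝ := fun B => ‖R u (B ∪ C) (u k)‖ ^ 2 with hs
  have hgn : nrm τ A g ≤ 5 / 4 * ‖z‖ := by
    have h2 : nrm τ A g = nrm τ A (fun B => inner ℝ z (u k) +
        ∑ j ∈ A ∪ C, (-inner ℝ z (u j)) * c j B) := by
      apply hcongr
      intro B hB
      show inner ℝ z (R u (B ∪ C) (u k)) = _
      rw [hc.eq B hB, inner_sub_right, inner_sum, sub_eq_add_neg, ← Finset.sum_neg_distrib]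
      congr 1
      refine Finset.sum_congr rfl fun j _ => ?_
      rw [inner_smul_right]
      ring
    rw [h2]
    refine (hadd _ _).trans ?_
    have h3 := hsum ι (A ∪ C) (fun j B => (-inner ℝ z (u j)) * c j B)
    have h4 : ∑ j ∈ A ∪ C, nrm τ A (fun B => (-inner ℝ z (u j)) * c j B) ≤ ‖z‖ * (1 / 4) := by
      have h5 : ∀ j ∈ A ∪ C, nrm τ A (fun B => (-inner ℝ z (u j)) * c j B) ≤
          ‖z‖ * nrm τ A (c j) := by
        intro j _
        rw [hmul]
        refine mul_le_mul_of_nonneg_right ?_ (hnn _)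
        rw [abs_neg]
        have := abs_real_inner_le_norm z (u j)
        rwa [hS.unit j, mul_one] at this
      refine (Finset.sum_le_sum h5).trans ?_
      rw [← Finset.mul_sum]
      exact mul_le_mul_of_nonneg_left hSum (norm_nonneg _)
    have h6 : nrm τ A (fun _ => inner ℝ z (u k)) ≤ ‖z‖ := by
      rw [hconst]
      have := abs_real_inner_le_norm z (u k)
      rwa [hS.unit k, mul_one] at this
    linarith
  have hsn : nrm τ A (fun B => 1 - s B) ≤ 1 / 2 := by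
    have h2 : nrm τ A (fun B => 1 - s B) = nrm τ A (fun B =>
        ∑ j ∈ A ∪ C, inner ℝ (u k) (u j) * c j B) := by
      apply hcongr
      intro B hB
      show 1 - ‖R u (B ∪ C) (u k)‖ ^ 2 = _
      rw [← real_inner_self_eq_norm_sq, (hPR ι E u (B ∪ C)).2.1, hc.eq B hB, inner_sub_right,
        inner_sum, real_inner_self_eq_norm_sq, hS.unit k]
      have h3 : ∑ j ∈ A ∪ C, inner ℝ (u k) (c j B • u j) =
          ∑ j ∈ A ∪ C, inner ℝ (u k) (u j) * c j B := by
        refine Finset.sum_congr rfl fun j _ => ?_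
        rw [inner_smul_right]
        ring
      rw [h3]
      ring
    rw [h2]
    have h3 := hsum ι (A ∪ C) (fun j B => inner ℝ (u k) (u j) * c j B)
    have h4 : ∑ j ∈ A ∪ C, nrm τ A (fun B => inner ℝ (u k) (u j) * c j B) ≤ δ * (1 / 4) := by
      have h5 : ∀ j ∈ A ∪ C, nrm τ A (fun B => inner ℝ (u k) (u j) * c j B) ≤
          δ * nrm τ A (c j) := by
        intro j hj
        rw [hmul]
        exact mul_le_mul_of_nonneg_right (hcoh j hj) (hnn _)
      refine (Finset.sum_le_sum h5).trans ?_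
      rw [← Finset.mul_sum]
      exact mul_le_mul_of_nonneg_left hSum hd
    linarith
  have hr : nrm τ A (fun B => (s B)⁻¹) ≤ 2 := by
    refine hNI ι τ h0 h1 A s _ ?_ hsn
    intro B hB
    have h2 := (hNB3 (fun B => 1 - s B) B hB).trans hsn
    have h3 : s B ≠ 0 := by
      intro h4
      have h5 : |1 - s B| ≤ 1 / 2 := h2
      rw [h4, sub_zero, abs_one] at h5
      norm_num at h5
    exact mul_inv_cancel₀ h3
  have hfin : nrm τ A (fun B => inner ℝ z (gv u k (B ∪ C))) =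
      nrm τ A (fun B => (s B)⁻¹ * g B) := by
    apply hcongr
    intro B _
    show inner ℝ z ((‖R u (B ∪ C) (u k)‖ ^ 2)⁻¹ • R u (B ∪ C) (u k)) = _
    rw [inner_smul_right]
  rw [hfin]
  refine (hNM ι τ h0 h1 A _ _).trans ?_
  have h7 : nrm τ A (fun B => (s B)⁻¹) * nrm τ A g ≤ 2 * (5 / 4 * ‖z‖) :=
    mul_le_mul hr hgn (hnn _) (by norm_num)
  have h8 : nrm τ A (fun B => (s B)⁻¹) * nrm τ A g ≤ 3 * ‖z‖ := by
    refine h7.trans ?_
    have := norm_nonneg z
    linarith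
  exact h8

end LKDX

theorem t_LKD : Stmt_NB → Stmt_NC → Stmt_NM → Stmt_NI → Stmt_PR → Stmt_KE → Stmt_KN →
    Stmt_LKD := by
  intro hNB hNC hNM hNI hPR hKE hKN ι _ _ E _ _ _ u ℓ τ δ hS U V k hUV hkV hV
  have h0 := hS.q0
  have hu : (V \ U) ∪ U = V := Finset.sdiff_union_of_subset hUV
  have h1 := LKDX.main hNB hNC hNM hNI hPR hKE hKN u ℓ τ δ hS (V \ U) U
    Finset.sdiff_disjoint (by rw [hu]; exact hV) k (by rw [hu]; exact hkV) (th u k U V)
  have h2 := LKDX.inner_th u k U V hUV (th u k U V)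
  have h3 := LKDX.mob_le τ h0 (V \ U) (fun B => inner ℝ (th u k U V) (gv u k (B ∪ U)))
  rw [← h2, real_inner_self_eq_norm_sq, abs_of_nonneg (sq_nonneg _)] at h3
  have h4 : 0 < τ ^ (V \ U).card := pow_pos h0 _
  have h5 : ‖th u k U V‖ ^ 2 ≤ τ ^ (V \ U).card * (3 * ‖th u k U V‖) :=
    h3.trans (mul_le_mul_of_nonneg_left h1 h4.le)
  rcases (norm_nonneg (th u k U V)).eq_or_lt with h6 | h6
  · rw [← h6]
    positivity
  · have h7 : ‖th u k U V‖ * ‖th u k U V‖ ≤ (3 * τ ^ (V \ U).card) * ‖th u k U V‖ := by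
      nlinarith
    exact le_of_mul_le_mul_right h7 h6

end Pool.SAR
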