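import Pool.Agent.SAR.Stmts

/-!
MP_c21969_lc, project SAR: the matrices `YR q u A C` form a lift.
-/

set_option autoImplicit false

namespace Pool.SAR

open Matrix Finset
open scoped ComplexOrder

namespace LRX

section

variable {ι : Type} [Fintype ι] [DecidableEq ι] {E : Type} [NormedAddCommGroup E]
  [InnerProductSpace ℝ E] [FiniteDimensional ℝ E]

theorem Lf_empty (q : ℝ) (h : Finset ι → ℝ) : Lf q ∅ h = h ∅ := by
  unfold Lf
  rw [Finset.powerset_empty, Finset.sum_singleton, Finset.card_empty, pow_zero, one_mul]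

theorem Lf_congr (q : ℝ) (A : Finset ι) (h g : Finset ι → ℝ) (hg : ∀ B ⊆ A, h B = g B) :
    Lf q A h = Lf q A g := by
  unfold Lf
  refine Finset.sum_congr rfl fun B hB => ?_
  rw [hg B (Finset.mem_powerset.1 hB)]

theorem YR_apply (q : ℝ) (u : ι → E) (A C : Finset ι) (i j : ι) :
    YR q u A C i j = (Fintype.card ι : ℝ)⁻¹ * (1 - q) ^ C.card *
      Lf q A (fun B => inner ℝ (u i) (R u (B ∪ C) (u j))) := rfl

theorem symm (hPR : Stmt_PR) (q : ℝ) (u : ι → E) (A C : Finset ι) (i j : ι) :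
    YR q u A C i j = YR q u A C j i := by
  rw [YR_apply, YR_apply]
  congr 1
  refine Lf_congr q A _ _ fun B _ => ?_
  rw [← (hPR ι E u (B ∪ C)).1, real_inner_comm]

theorem herm (hPR : Stmt_PR) (q : ℝ) (u : ι → E) (A C : Finset ι) : (YR q u A C).IsHermitian := by
  ext i j
  rw [Matrix.conjTranspose_apply, star_trivial]
  exact symm hPR q u A C j i

theorem norm_sq (hPR : Stmt_PR) (u : ι → E) (D : Finset ι) (x : ι → ℝ) :
    ‖R u D (∑ i, x i • u i)‖ ^ 2 = ∑ i, ∑ j, x i * x j * inner ℝ (u i) (R u D (u j)) := by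
  rw [← real_inner_self_eq_norm_sq, (hPR ι E u D).2.1, map_sum, sum_inner]
  refine Finset.sum_congr rfl fun i _ => ?_
  rw [inner_sum]
  refine Finset.sum_congr rfl fun j _ => ?_
  rw [map_smul, real_inner_smul_left, real_inner_smul_right]
  ring

theorem qf (hPR : Stmt_PR) (q : ℝ) (u : ι → E) (A C : Finset ι) (x : ι → ℝ) :
    star x ⬝ᵥ (YR q u A C *ᵥ x) = (Fintype.card ι : ℝ)⁻¹ * (1 - q) ^ C.card *
      Lf q A (fun B => ‖R u (B ∪ C) (R u C (∑ i, x i • u i))‖ ^ 2) := by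
  have h1 : ∀ B, R u (B ∪ C) (R u C (∑ i, x i • u i)) = R u (B ∪ C) (∑ i, x i • u i) := fun B =>
    (hPR ι E u C).2.2.2.2.2.2.1 (B ∪ C) Finset.subset_union_right _
  simp only [h1, norm_sq hPR]
  rw [star_trivial]
  unfold dotProduct mulVec dotProduct
  simp only [YR_apply]
  unfold Lf
  simp only [Finset.mul_sum, Finset.sum_mul]
  rw [Finset.sum_comm (s := A.powerset)]
  refine Finset.sum_congr rfl fun i _ => ?_
  rw [Finset.sum_comm (s := A.powerset)]
  refine Finset.sum_congr rfl fun j _ => ?_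
  refine Finset.sum_congr rfl fun B _ => ?_
  ring

end

end LRX

theorem t_LR : Stmt_PR → Stmt_LI → Stmt_KP → Stmt_KQ → Stmt_LR := by
  intro hPR hLI hKP hKQ ι _ _ _ E _ _ _ u ℓ m q δ Λ σ hS hΛ hσ h4 h8 h128 hℓ
  have hq0 := hS.q0
  have hq1 := hS.q1
  have hN : (0 : ℝ) < (Fintype.card ι : ℝ) := by
    exact_mod_cast Fintype.card_pos
  have hNi : (0 : ℝ) < (Fintype.card ι : ℝ)⁻¹ := inv_pos.2 hN
  have hfac : ∀ C : Finset ι, 0 ≤ (Fintype.card ι : ℝ)⁻¹ * (1 - q) ^ C.card := by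
    intro C
    have : (0 : ℝ) ≤ 1 - q := by linarith
    positivity
  have hid : ∀ y : E, R u ∅ y = y := fun y =>
    (hPR ι E u ∅).2.2.2.2.1 y fun i hi => absurd hi (Finset.notMem_empty i)
  have hentry : ∀ i j, YR q u ∅ ∅ i j = (Fintype.card ι : ℝ)⁻¹ * inner ℝ (u i) (u j) := by
    intro i j
    rw [LRX.YR_apply, LRX.Lf_empty, Finset.card_empty, pow_zero, mul_one, Finset.empty_union, hid]
  have horth : ∀ (C : Finset ι) (z : E), ∀ j ∈ C, inner ℝ (R u C z) (u j) = 0 := fun C z j hj =>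
    (hPR ι E u C).2.2.2.1 z j hj
  refine ⟨?_, hentry⟩
  refine
    { psd := ?_
      split := ?_
      zero := ?_
      trace := ?_
      sparse := ?_ }
  · intro A C hAC hcard
    refine .of_dotProduct_mulVec_nonneg (LRX.herm hPR q u A C) fun x => ?_
    rw [LRX.qf hPR]
    refine mul_nonneg (hfac C) ?_
    refine le_trans ?_ (hKP ι E u ℓ q δ hS A C hAC hcard (R u C (∑ i, x i • u i)) (horth C _))
    have : 0 ≤ ∑ j ∈ A, (inner ℝ (R u C (∑ i, x i • u i)) (u j)) ^ 2 :=
      Finset.sum_nonneg fun j _ => sq_nonneg _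
    positivity
  · intro A C hAC hcard k hk
    rw [Finset.mem_union, not_or] at hk
    ext i j
    rw [Matrix.add_apply, LRX.YR_apply, LRX.YR_apply, LRX.YR_apply,
      Finset.card_insert_of_notMem hk.2]
    rw [(hLI ι q A k hk.1 (fun B => inner ℝ (u i) (R u (B ∪ C) (u j)))).2]
    have h1 : ∀ B : Finset ι, B ∪ insert k C = insert k B ∪ C := fun B => by
      rw [Finset.union_insert, Finset.insert_union]
    simp only [h1]
    ring
  · intro A C hAC hcard i hi j
    rw [LRX.YR_apply]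
    have h1 : ∀ B : Finset ι, inner ℝ (u i) (R u (B ∪ C) (u j)) = 0 := by
      intro B
      rw [← (hPR ι E u (B ∪ C)).1, (hPR ι E u (B ∪ C)).2.2.1 i (Finset.mem_union_right B hi),
        inner_zero_left]
    simp only [h1]
    unfold Lf
    simp
  · unfold Matrix.trace
    have h1 : ∀ i, (YR q u ∅ ∅).diag i = (Fintype.card ι : ℝ)⁻¹ := by
      intro i
      rw [Matrix.diag_apply, hentry, real_inner_self_eq_norm_sq, hS.unit i]
      norm_num
    rw [Finset.sum_congr rfl fun i _ => h1 i, Finset.sum_const, Finset.card_univ, nsmul_eq_mul,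
      mul_inv_cancel₀ hN.ne']
  · intro A C hAC hcard
    have hH : (((m : ℝ) - (A.card : ℝ)) • YR q u A C -
        ∑ k ∈ (A ∪ C)ᶜ, YR q u (insert k A) C).IsHermitian := by
      ext i j
      rw [Matrix.conjTranspose_apply, star_trivial, Matrix.sub_apply, Matrix.sub_apply,
        Matrix.smul_apply, Matrix.smul_apply, Matrix.sum_apply, Matrix.sum_apply,
        LRX.symm hPR q u A C j i]
      congr 1
      exact Finset.sum_congr rfl fun k _ => LRX.symm hPR q u (insert k A) C j i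
    refine .of_dotProduct_mulVec_nonneg hH fun x => ?_
    have h1 := hKQ ι E u ℓ m q δ Λ σ hS hΛ hσ h4 h8 h128 hℓ A C hAC (by omega)
      (R u C (∑ i, x i • u i)) (horth C _)
    have h2 : star x ⬝ᵥ ((((m : ℝ) - (A.card : ℝ)) • YR q u A C -
        ∑ k ∈ (A ∪ C)ᶜ, YR q u (insert k A) C) *ᵥ x) =
        ((m : ℝ) - (A.card : ℝ)) * (star x ⬝ᵥ (YR q u A C *ᵥ x)) -
        ∑ k ∈ (A ∪ C)ᶜ, star x ⬝ᵥ (YR q u (insert k A) C *ᵥ x) := by
      rw [Matrix.sub_mulVec, Matrix.smul_mulVec, dotProduct_sub, dotProduct_smul, smul_eq_mul]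
      congr 1
      rw [Matrix.sum_mulVec, dotProduct_sum]
    rw [h2, LRX.qf hPR]
    simp only [LRX.qf hPR]
    rw [← Finset.mul_sum]
    have h3 := mul_le_mul_of_nonneg_left h1 (hfac C)
    linarith

end Pool.SAR
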