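import Pool.Agent.SAR.Stmts

/-!
MP_c21969_lc, project SAR, module MB: the barrier for matrices.
-/

set_option autoImplicit false

namespace Pool.SAR

open Matrix Finset
open scoped ComplexOrder

theorem t_MB : Stmt_HR → Stmt_HV → Stmt_AR → Stmt_HE → Stmt_MB := by
  intro hHR hHV hAR hHE 𝕜 _ n d m ℓ hn hℓ hd hm Φ hC
  obtain ⟨c, hc, hY⟩ := hC
  obtain ⟨φ, hφ, hval⟩ := hHV 𝕜 (Fin d) (Fin n) Φ
  have hR := hHR 𝕜 (Fin d) (Fin n) m ℓ Φ c hc hY
  have hrip : ∀ J : Finset (Fin d), J.card ≤ m → ∀ x : Fin d → ℝ,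
      c ^ 2 * ∑ j ∈ J, x j ^ 2 ≤ ‖∑ j ∈ J, x j • φ j‖ ^ 2 ∧
        ‖∑ j ∈ J, x j • φ j‖ ^ 2 ≤ 4 * c ^ 2 * ∑ j ∈ J, x j ^ 2 := by
    intro J hJ x
    let x' : Fin d → ℝ := fun i => if i ∈ J then x i else 0
    have h1 := hR J hJ (fun i => (x' i : 𝕜)) (by
      intro i hi
      simp [x', hi])
    rw [hφ x'] at h1
    have h2 : ∑ i, x' i • φ i = ∑ j ∈ J, x j • φ j := by
      rw [← Finset.sum_filter_add_sum_filter_not univ (fun i => i ∈ J)]
      have h3 : ∑ i ∈ univ.filter (fun i => ¬ i ∈ J), x' i • φ i = 0 := by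
        apply Finset.sum_eq_zero
        intro i hi
        rw [Finset.mem_filter] at hi
        simp [x', hi.2]
      rw [h3, add_zero]
      have h4 : univ.filter (fun i => i ∈ J) = J := by ext i; simp
      rw [h4]
      apply Finset.sum_congr rfl
      intro i hi
      simp [x', hi]
    have h5 : ∑ i, ‖((x' i : ℝ) : 𝕜)‖ ^ 2 = ∑ j ∈ J, x j ^ 2 := by
      rw [← Finset.sum_filter_add_sum_filter_not univ (fun i => i ∈ J)]
      have h3 : ∑ i ∈ univ.filter (fun i => ¬ i ∈ J), ‖((x' i : ℝ) : 𝕜)‖ ^ 2 = 0 := by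
        apply Finset.sum_eq_zero
        intro i hi
        rw [Finset.mem_filter] at hi
        simp [x', hi.2]
      rw [h3, add_zero]
      have h4 : univ.filter (fun i => i ∈ J) = J := by ext i; simp
      rw [h4]
      apply Finset.sum_congr rfl
      intro i hi
      simp [x', hi, sq_abs]
    rw [h2, h5] at h1
    exact h1
  have hfin : Module.finrank ℝ (EuclideanSpace ℝ (Fin n ⊕ Fin n)) ≤ 2 * n := by
    rw [finrank_euclideanSpace, Fintype.card_sum, Fintype.card_fin]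
    omega
  obtain ⟨κ, _, _, e, Y, hL, hsym, hgt⟩ := hAR (Fin d) (EuclideanSpace ℝ (Fin n ⊕ Fin n)) m ℓ
    (2 * n) c φ hc (by omega) hℓ hfin (by
      rw [Fintype.card_fin]
      have : 8 * (2 * n) * m = 16 * n * m := by ring
      omega) (by
      have : 131072 * ℓ ^ 2 * (2 * n) ^ 2 = 524288 * ℓ ^ 2 * n ^ 2 := by ring
      omega) hrip
  have hE := hHE 𝕜 (Fin d) κ e m ℓ Y hL
  have h1 := (hY _ hE).2
  rw [hval κ e Y hsym] at h1
  exact absurd h1 (not_le.mpr hgt)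

end Pool.SAR
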