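import Pool.Agent.SAR.Stmts

/-!
Basic properties of `mob`, `nrm`, `Lf`.
-/

set_option autoImplicit false

namespace Pool.SAR

open Finset

namespace NBX

variable {ι : Type} [DecidableEq ι]

theorem card_ins {x : ι} {A W : Finset ι} (hx : x ∉ A) (hW : W ∈ A.powerset) :
    (insert x W).card = W.card + 1 :=
  card_insert_of_notMem fun h => hx (mem_powerset.1 hW h)

theorem mob_congr (h g : Finset ι → ℝ) (W : Finset ι) (e : ∀ V ⊆ W, h V = g V) :
    mob h W = mob g W := by
  unfold mob
  exact sum_congr rfl fun V hV => by rw [e V (mem_powerset.1 hV)]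

theorem mob_insert (h : Finset ι → ℝ) (x : ι) (W : Finset ι) (hx : x ∉ W) :
    mob h (insert x W) = mob (fun V => h (insert x V)) W - mob h W := by
  unfold mob
  rw [sum_powerset_insert hx, ← sum_add_distrib, ← sum_sub_distrib]
  refine sum_congr rfl fun V hV => ?_
  rw [card_insert_of_notMem hx, card_ins hx hV]
  ring

theorem mob_sub (h g : Finset ι → ℝ) (W : Finset ι) :
    mob h W - mob g W = mob (fun V => h V - g V) W := by
  unfold mob
  rw [← sum_sub_distrib]
  exact sum_congr rfl fun V _ => by ring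

theorem inv (B : Finset ι) : ∀ h : Finset ι → ℝ, h B = ∑ W ∈ B.powerset, mob h W := by
  induction B using Finset.induction_on with
  | empty =>
    intro h
    simp [mob]
  | insert x B hx ih =>
    intro h
    rw [sum_powerset_insert hx, ← sum_add_distrib]
    rw [ih (fun V => h (insert x V))]
    refine sum_congr rfl fun W hW => ?_
    rw [mob_insert h x W fun hh => hx (mem_powerset.1 hW hh)]
    ring

theorem mob_sum (W : Finset ι) : ∀ a : Finset ι → ℝ,
    mob (fun B => ∑ V ∈ B.powerset, a V) W = a W := by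
  induction W using Finset.induction_on with
  | empty =>
    intro a
    simp [mob]
  | insert x W hx ih =>
    intro a
    rw [mob_insert _ x W hx, mob_sub]
    rw [← ih (fun V => a (insert x V))]
    refine mob_congr _ _ W fun V hV => ?_
    rw [sum_powerset_insert fun hh => hx (hV hh)]
    ring

theorem Lf_congr (q : ℝ) (A : Finset ι) (h g : Finset ι → ℝ) (e : ∀ V ⊆ A, h V = g V) :
    Lf q A h = Lf q A g := by
  unfold Lf
  exact sum_congr rfl fun V hV => by rw [e V (mem_powerset.1 hV)]

theorem Lf_insert (q : ℝ) (A : Finset ι) (x : ι) (hx : x ∉ A) (h : Finset ι → ℝ) :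
    Lf q (insert x A) h = Lf q A h - (1 - q) * Lf q A (fun V => h (insert x V)) := by
  unfold Lf
  rw [sum_powerset_insert hx, mul_sum, ← sum_add_distrib, ← sum_sub_distrib]
  refine sum_congr rfl fun V hV => ?_
  rw [card_ins hx hV]
  ring

theorem Lf_mob (q : ℝ) (hq : q ≠ 0) (A : Finset ι) : ∀ h : Finset ι → ℝ,
    Lf q A h = q ^ A.card * ∑ W ∈ A.powerset, (-(1 - q)) ^ W.card * (q ^ W.card)⁻¹ * mob h W := by
  induction A using Finset.induction_on with
  | empty =>
    intro h
    simp [mob, Lf]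
  | insert x A hx ih =>
    intro h
    rw [Lf_insert q A x hx h, ih, ih, sum_powerset_insert hx, card_insert_of_notMem hx,
      ← sum_add_distrib, mul_sum, mul_sum, mul_sum, mul_sum, ← sum_sub_distrib]
    refine sum_congr rfl fun W hW => ?_
    rw [card_ins hx hW, mob_insert h x W fun hh => hx (mem_powerset.1 hW hh)]
    field_simp
    ring

theorem Lf_one (q : ℝ) (A : Finset ι) : Lf q A (fun _ => 1) = q ^ A.card := by
  induction A using Finset.induction_on with
  | empty => simp [Lf]
  | insert x A hx ih =>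
    rw [Lf_insert q A x hx, ih, card_insert_of_notMem hx]
    ring

theorem Lf_ind (q : ℝ) (A : Finset ι) (j : ι) (hj : j ∈ A) :
    q * Lf q A (ind j) = -(1 - q) * q ^ A.card := by
  have h1 : A = insert j (A.erase j) := (insert_erase hj).symm
  have h2 : j ∉ A.erase j := notMem_erase j A
  have h3 : Lf q (A.erase j) (ind j) = 0 := by
    rw [Lf_congr q (A.erase j) (ind j) (fun _ => 0)]
    · simp [Lf]
    · intro V hV
      rw [ind, if_neg fun h => h2 (hV h)]
  have h4 : Lf q (A.erase j) (fun V => ind j (insert j V)) = q ^ (A.erase j).card := by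
    rw [← Lf_one]
    refine Lf_congr q _ _ _ fun V _ => ?_
    rw [ind, if_pos (mem_insert_self j V)]
  have h5 : A.card = (A.erase j).card + 1 := by
    conv_lhs => rw [h1]
    exact card_insert_of_notMem h2
  have h6 : Lf q A (ind j) = -(1 - q) * q ^ (A.erase j).card := by
    conv_lhs => rw [h1]
    rw [Lf_insert q _ j h2, h3, h4]
    ring
  rw [h6, h5]
  ring

end NBX

theorem t_NB : Stmt_NB := by
  intro ι _ q hq hq1 A
  have hone : ∀ W : Finset ι, 1 ≤ (q ^ W.card)⁻¹ := fun W =>
    (one_le_inv₀ (pow_pos hq _)).2 (pow_le_one₀ hq.le hq1)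
  refine ⟨fun h B => NBX.inv B h, ?_, ?_, ?_, NBX.Lf_one q A, fun j hj => NBX.Lf_ind q A j hj⟩
  · intro h a e W hW
    rw [← NBX.mob_sum W a]
    exact NBX.mob_congr _ _ W fun V hV => e V (hV.trans hW)
  · intro h B hB
    rw [NBX.inv B h]
    refine (abs_sum_le_sum_abs _ _).trans ?_
    unfold nrm
    have h1 : ∑ W ∈ B.powerset, |mob h W| ≤ ∑ W ∈ B.powerset, |mob h W| * (q ^ W.card)⁻¹ :=
      sum_le_sum fun W _ => le_mul_of_one_le_right (abs_nonneg _) (hone W)
    refine h1.trans (sum_le_sum_of_subset_of_nonneg (powerset_mono.2 hB) fun W _ _ => ?_)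
    positivity
  · intro h
    rw [NBX.Lf_mob q hq.ne' A h, abs_mul, abs_of_nonneg (pow_nonneg hq.le _)]
    refine mul_le_mul_of_nonneg_left ?_ (pow_nonneg hq.le _)
    refine (abs_sum_le_sum_abs _ _).trans ?_
    unfold nrm
    refine sum_le_sum fun W _ => ?_
    rw [abs_mul, abs_mul, abs_pow, abs_neg, abs_of_nonneg (by linarith : (0 : ℝ) ≤ 1 - q),
      abs_of_pos (inv_pos.2 (pow_pos hq W.card))]
    have h2 : (1 - q) ^ W.card ≤ 1 := pow_le_one₀ (by linarith) (by linarith)
    have h3 : 0 ≤ (q ^ W.card)⁻¹ * |mob h W| := by positivity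
    calc (1 - q) ^ W.card * (q ^ W.card)⁻¹ * |mob h W|
        = (1 - q) ^ W.card * ((q ^ W.card)⁻¹ * |mob h W|) := by ring
      _ ≤ 1 * ((q ^ W.card)⁻¹ * |mob h W|) := mul_le_mul_of_nonneg_right h2 h3
      _ = |mob h W| * (q ^ W.card)⁻¹ := by ring

end Pool.SAR
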