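import Pool.Agent.SAR.Stmts2

set_option autoImplicit false

namespace Pool.SAR

open Matrix Finset
open scoped ComplexOrder

namespace XSX

lemma split_all {𝕜 : Type} [RCLike 𝕜] {ι : Type} [Fintype ι] [DecidableEq ι] {m : ℕ}
    {Y : Finset ι → Finset ι → Matrix ι ι 𝕜} (hY : Lift m (Fintype.card ι) Y) (K : Finset ι) :
    ∀ A C : Finset ι, Disjoint A C → Disjoint K (A ∪ C) →
      Y A C = ∑ B ∈ K.powerset, Y (A ∪ B) (C ∪ (K \ B)) := by
  induction K using Finset.induction_on with
  | empty =>
    intro A C _ _
    simp
  | insert k K hk ih =>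
    intro A C hAC hK
    rw [Finset.disjoint_insert_left] at hK
    obtain ⟨hkAC, hKAC⟩ := hK
    have hkA : k ∉ A := fun h => hkAC (mem_union_left _ h)
    have hkC : k ∉ C := fun h => hkAC (mem_union_right _ h)
    have hcard : (A ∪ C).card + 1 ≤ Fintype.card ι := by
      rw [← Finset.card_insert_of_notMem hkAC]
      exact Finset.card_le_univ _
    have d1 : Disjoint (insert k A) C := by
      rw [Finset.disjoint_insert_left]
      exact ⟨hkC, hAC⟩
    have d2 : Disjoint A (insert k C) := by
      rw [Finset.disjoint_insert_right]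
      exact ⟨hkA, hAC⟩
    have d3 : Disjoint K (insert k A ∪ C) := by
      rw [Finset.insert_union, Finset.disjoint_insert_right]
      exact ⟨hk, hKAC⟩
    have d4 : Disjoint K (A ∪ insert k C) := by
      rw [Finset.union_insert, Finset.disjoint_insert_right]
      exact ⟨hk, hKAC⟩
    rw [hY.split A C hAC hcard k hkAC, ih _ _ d1 d3, ih _ _ d2 d4,
      Finset.sum_powerset_insert hk, add_comm]
    congr 1
    · refine Finset.sum_congr rfl fun B hB => ?_
      have hkB : k ∉ B := fun h => hk (Finset.mem_powerset.1 hB h)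
      rw [Finset.insert_sdiff_of_notMem _ hkB, Finset.insert_union, Finset.union_insert]
    · refine Finset.sum_congr rfl fun B hB => ?_
      rw [Finset.insert_sdiff_insert, Finset.insert_union, Finset.union_insert,
        Finset.sdiff_insert_of_notMem hk]

end XSX

theorem t_XS : Stmt_XS := by
  intro 𝕜 _ ι _ _ m Y hY
  rw [XSX.split_all hY univ ∅ ∅ (Finset.disjoint_empty_right _) (by simp)]
  simp [Finset.compl_eq_univ_sdiff]

end Pool.SAR
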